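import Pool.Agent.ShghJ.CombD4

/-! # Sharp forms with a base multiset `K` -/

namespace ShghJ

variable {d : ℕ} {h : Multiset ℕ → ℕ}

/-! ## Window -/

theorem numG_a {w μ w1 : ℝ} (hμ : 2 ≤ μ) (hw : 12 * μ < w) (hw1 : w1 ≤ 5 * w)
    (hT : w * (w + 1) + 2 ≤ 2 * μ * w + μ * w1) : False := by
  have hw0 : 0 < w := by linarith
  have h1 : w * (w + 1) ≤ w * (7 * μ) := by nlinarith
  have h2 := le_of_mul_le_mul_left h1 hw0
  linarith

theorem numG_b {w' s d D1 μ w w1 : ℝ} (hμ : 2 ≤ μ) (_hs : 0 ≤ s) (hd : w ≤ d) (hd1 : w1 ≤ d)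
    (hD1 : d ≤ 2 * D1) (hw : 12 * μ + 4 * s < w) (hw' : w' + s = D1)
    (hT : w' * (w' + 1) + 2 ≤ 2 * μ * w + μ * w1) : False := by
  have h1 : 1 / 4 * d + 3 * μ ≤ w' := by linarith
  have hd0 : 0 < d := by linarith
  have h2 : (1 / 4 * d + 3 * μ) ^ 2 ≤ w' * (w' + 1) := by nlinarith
  have h3 : μ * w1 ≤ μ * d := mul_le_mul_of_nonneg_left hd1 (by linarith)
  have h4 : μ * w ≤ μ * d := mul_le_mul_of_nonneg_left hd (by linarith)
  nlinarith [sq_nonneg (1 / 4 * d - 3 * μ)]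

theorem HCD0_incrK {m : List ℕ} {D1 : ℕ} (hD1 : d ≤ 2 * D1) :
    HCD0 d D1 4 m (FiD 12 m) := by
  intro l h2 ha w s w' hwd hw'w hsd hc hF hmw hT
  rw [FiD_eq _ m h2] at hF
  have ha' : (2 : ℝ) ≤ (m[l] : ℕ) := by exact_mod_cast ha
  have hmw' : ((m[l] : ℕ) : ℝ) ≤ w := by exact_mod_cast hmw
  have hsimp := bad_simple hmw'
  have hw0 : (0 : ℝ) ≤ w := Nat.cast_nonneg _
  have hs0 : (0 : ℝ) ≤ s := Nat.cast_nonneg _
  have hwd' : (w : ℝ) ≤ d := by exact_mod_cast hwd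
  have hD1' : (d : ℝ) ≤ 2 * D1 := by exact_mod_cast hD1
  rcases hc with hc | hc
  · subst hc
    exact numG_a (w := w') (w1 := 0) ha' (by linarith) (by linarith) (by linarith)
  · have hc' : (w' : ℝ) + s = D1 := by exact_mod_cast hc
    exact numG_b (w1 := 0) (w := w) ha' hs0 hwd' (by linarith) hD1' hF hc' (by linarith)

theorem HCD_incrK {m : List ℕ} {D1 : ℕ} (hD1 : d ≤ 2 * D1) (hs : m.Pairwise (· ≤ ·)) :
    HCD d D1 4 m (FiD 12 m) := by
  intro l1 l h1 h2 hb ha w s w' w1 hwd hw1d hw'w hsd hc hF hmw hm1 hy hB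
  have hab : m[l1]'(h1.trans h2) ≤ m[l] := incr_le hs h1.le h2
  rw [FiD_eq _ m h2] at hF hy
  rw [FiD_eq _ m (h1.trans h2)] at hy
  have hT := (hB m[l] (by
    intro z hz
    obtain ⟨i, hi, _, hil, rfl⟩ := mem_seg hz
    exact incr_le hs hil.le h2)).2
  have ha' : (2 : ℝ) ≤ (m[l] : ℕ) := by exact_mod_cast ha
  have hab' : ((m[l1]'(h1.trans h2) : ℕ) : ℝ) ≤ (m[l] : ℕ) := by exact_mod_cast hab
  have hmw' : ((m[l] : ℕ) : ℝ) ≤ w := by exact_mod_cast hmw
  have hsimp := bad_simple hmw'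
  have hw0 : (0 : ℝ) ≤ w := Nat.cast_nonneg _
  have hs0 : (0 : ℝ) ≤ s := Nat.cast_nonneg _
  have hw'0 : (0 : ℝ) ≤ w' := Nat.cast_nonneg _
  have hwd' : (w : ℝ) ≤ d := by exact_mod_cast hwd
  have hw1d' : (w1 : ℝ) ≤ d := by exact_mod_cast hw1d
  have hD1' : (d : ℝ) ≤ 2 * D1 := by exact_mod_cast hD1
  rcases hc with hc | hc
  · subst hc
    exact numG_a (w := w') (w1 := w1) ha' (by linarith) (by linarith) (by linarith)
  · have hc' : (w' : ℝ) + s = D1 := by exact_mod_cast hc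
    exact numG_b (w := w) ha' hs0 hwd' hw1d' hD1' hF hc' (by linarith)

theorem winBaseD : WinBaseD := by
  intro d h H M K S hK hS
  have hchi := H.chi_le (K + S)
  obtain ⟨D1, hD1⟩ : ∃ D1, D1 + K.sum = d + 1 := ⟨d + 1 - K.sum, by
    rcases Nat.lt_or_ge d 2 with hd | hd
    · omega
    · omega⟩
  have hD1' : d ≤ 2 * D1 := by omega
  have key : 1 ≤ h (K + S) → T (d + 1) < h (K + S) + TT (K + S) →
      h (K + S) + TT (K + S) ≤ 6 * M ^ 2 + T (d + 1) ∧
      2 * T (d + 1) < 23 * M ^ 2 + 2 * TT (K + S) := by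
    intro h0 he
    have hcoe : ((S.sort (· ≤ ·) : List ℕ) : Multiset ℕ) = S := Multiset.sort_eq _ _
    have hs : (S.sort (· ≤ ·)).Pairwise (· ≤ ·) := Multiset.pairwise_sort _ _
    have hmM : ∀ x ∈ S.sort (· ≤ ·), x ≤ M := fun x hx => hS x (by simpa using hx)
    generalize S.sort (· ≤ ·) = m at *
    subst hcoe
    have hWK : K + (m : Multiset ℕ) = (m : Multiset ℕ) + (0 + K) := by
      rw [zero_add, add_comm]
    rw [hWK] at h0 he ⊢
    obtain ⟨l, hl, y, A, hA, hsplit, h2, hyF, hmy, hyd, hxy, he1, hA1, _, hN2, hB, _⟩ :=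
      H.final 4 m (FiD 12 m) K hD1 (HCD0_incrK hD1') (HCD_incrK hD1' hs) 0 (by simp) h0 he
    rw [FiD_eq _ m hl] at hyF
    simp only [Multiset.sum_zero, Nat.cast_zero, mul_zero, zero_add] at hyF
    have hlM : m[l] ≤ M := hmM _ (List.getElem_mem hl)
    have hlM' : ((m[l] : ℕ) : ℝ) ≤ M := by exact_mod_cast hlM
    have ha' : (2 : ℝ) ≤ (m[l] : ℕ) := by exact_mod_cast h2
    have hyF' : y ≤ 12 * M := by
      have h1 : (y : ℝ) ≤ 12 * (M : ℝ) := by linarith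
      exact_mod_cast h1
    have h3 := hB M (fun x hx => hmM x (List.mem_of_mem_drop hx))
    have h4 : TT ((m : Multiset ℕ) + (0 + K)) =
        TT ((m.drop l : List ℕ) : Multiset ℕ) + TT A := by rw [hsplit, TT_add]
    have h5 : M * y ≤ 12 * M ^ 2 := by nlinarith
    constructor
    · omega
    · have h8 : 2 * (h A : ℝ) < 23 * (M : ℝ) ^ 2 := by
        have h10 : (((m[l] : ℕ) : ℝ) - 1) * (2 * y + 4 - ((m[l] : ℕ) : ℝ)) ≤
            (((m[l] : ℕ) : ℝ) - 1) * (23 * ((m[l] : ℕ) : ℝ) + 4) :=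
          mul_le_mul_of_nonneg_left (by linarith) (by linarith)
        have h11 : ((m[l] : ℕ) : ℝ) ^ 2 ≤ (M : ℝ) ^ 2 := by nlinarith
        nlinarith
      have h8' : 2 * h A < 23 * M ^ 2 := by exact_mod_cast h8
      omega
  constructor
  · intro h0
    by_cases he : T (d + 1) < h (K + S) + TT (K + S)
    · exact (key h0 he).1
    · omega
  · intro hQ
    by_cases he : T (d + 1) < h (K + S) + TT (K + S)
    · exfalso
      by_cases h0 : 1 ≤ h (K + S)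
      · have h1 := (key h0 he).2
        zify at h1
        linarith
      · have h1 : 0 ≤ 23 * (M : ℤ) ^ 2 := by positivity
        omega
    · omega

/-! ## Mass condition -/

theorem numH0_a {w μ a : ℝ} (hμ : 2 ≤ μ) (ha : 127 / 8 * μ ≤ a) (hw : a < w)
    (hT : w * (w + 1) + 2 ≤ 2 * μ * w) : False := by
  have hw0 : 0 < w := by linarith
  have h1 : w * (w + 1) ≤ w * (2 * μ) := by nlinarith
  have h2 := le_of_mul_le_mul_left h1 hw0
  linarith

theorem numH0_b {w' s d D1 μ w a : ℝ} (hμ : 2 ≤ μ) (ha : 127 / 8 * μ ≤ a) (_hs : 0 ≤ s)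
    (hd : w ≤ d) (hD1 : d ≤ 2 * D1) (hw : a + 18 / 5 * s < w) (hw' : w' + s = D1)
    (hT : w' * (w' + 1) + 2 ≤ 2 * μ * d) : False := by
  have h1 : 2 / 9 * d + 5 / 18 * (127 / 8 * μ) ≤ w' := by linarith
  have hd0 : 0 < d := by linarith
  have h2 : (2 / 9 * d + 5 / 18 * (127 / 8 * μ)) ^ 2 ≤ w' * (w' + 1) := by nlinarith
  nlinarith [sq_nonneg (2 / 9 * d - 5 / 18 * (127 / 8 * μ)),
    mul_pos hd0 (show 0 < μ by linarith)]

theorem numH_a {w w1 μ1 a a1 : ℝ} (hμ : 2 ≤ μ1) (haw : a < w) (ha1 : 127 / 8 * μ1 ≤ a1)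
    (hda : a1 - a ≤ 3 / 16 * w1) (hw1 : w1 ≤ w + 18 / 5 * w + a1 - a)
    (hT : w * (w + 1) + 2 ≤ 2 * μ1 * w + μ1 * w1) (hw0 : 0 < w) : False := by
  have h1 : w1 ≤ 368 / 65 * w := by linarith
  have h2 : a1 < 134 / 65 * w := by linarith
  have h3 : w * (w + 1) ≤ w * (498 / 65 * μ1) := by nlinarith
  have h4 := le_of_mul_le_mul_left h3 hw0
  linarith

theorem numH_b {w' s d D1 μ1 w w1 a a1 : ℝ} (hμ : 2 ≤ μ1) (ha1 : 127 / 8 * μ1 ≤ a1)
    (_hs : 0 ≤ s) (hd : w ≤ d) (hd1 : w1 ≤ d) (hD1 : d ≤ 2 * D1) (hda : a1 - a ≤ 3 / 16 * w1)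
    (hw : a + 18 / 5 * s < w) (hw' : w' + s = D1) (hd0 : 0 < d)
    (hT : w' * (w' + 1) + 2 ≤ 3 * μ1 * d) : False := by
  have h0 : a1 - 3 / 16 * d ≤ a := by linarith
  have h1 : 49 / 288 * d + 5 / 18 * (127 / 8 * μ1) ≤ w' := by linarith
  have h2 : (49 / 288 * d + 5 / 18 * (127 / 8 * μ1)) ^ 2 ≤ w' * (w' + 1) := by nlinarith
  have h3 : 0 < d * μ1 := mul_pos hd0 (by linarith)
  have h4 : 4 * (49 / 288 * d) * (5 / 18 * (127 / 8 * μ1)) ≤
      (49 / 288 * d + 5 / 18 * (127 / 8 * μ1)) ^ 2 := by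
    nlinarith [sq_nonneg (49 / 288 * d - 5 / 18 * (127 / 8 * μ1))]
  nlinarith

theorem HCD0_decrK {x : ℝ} {m : List ℕ} {D1 : ℕ} (hD1 : d ≤ 2 * D1) (hM : MassD 127 x m) :
    HCD0 d D1 (18 / 5) m (FdC x m) := by
  intro l h2 ha w s w' hwd hw'w hsd hc hF hmw hT
  have hFge := FdD_ge hM h2 ha
  have ha' : (2 : ℝ) ≤ (m[l] : ℕ) := by exact_mod_cast ha
  have hmw' : ((m[l] : ℕ) : ℝ) ≤ w := by exact_mod_cast hmw
  have hsimp := bad_simple hmw'
  have hw0 : (0 : ℝ) ≤ w := Nat.cast_nonneg _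
  have hs0 : (0 : ℝ) ≤ s := Nat.cast_nonneg _
  have hwd' : (w : ℝ) ≤ d := by exact_mod_cast hwd
  have hD1' : (d : ℝ) ≤ 2 * D1 := by exact_mod_cast hD1
  rcases hc with hc | hc
  · subst hc
    exact numH0_a (a := FdC x m l) ha' (by linarith) (by linarith) (hT.trans hsimp)
  · have hc' : (w' : ℝ) + s = D1 := by exact_mod_cast hc
    refine numH0_b (a := FdC x m l) ha' (by linarith) hs0 hwd' hD1' hF hc'
      ((hT.trans hsimp).trans ?_)
    nlinarith

theorem HCD_decrK {x : ℝ} (hx : 0 ≤ x) {m : List ℕ} {D1 : ℕ} (hD1 : d ≤ 2 * D1)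
    (hs : m.Pairwise (· ≥ ·)) (hM : MassD 127 x m) : HCD d D1 (18 / 5) m (FdC x m) := by
  intro l1 l h1 h2 hb ha w s w' w1 hwd hw1d hw'w hsd hc hF hmw hm1 hy hB
  have h1m := h1.trans h2
  have hab : m[l] ≤ m[l1]'h1m := decr_le hs h1.le h2
  have hFge1 := FdD_ge hM h1m hb
  have hF0 := FdC_nonneg hx m l
  obtain ⟨hda, hT⟩ := decr_common (x := x) hs h1 h2 hb ha hmw hF0 hB
  have ha' : (2 : ℝ) ≤ (m[l] : ℕ) := by exact_mod_cast ha
  have hab' : ((m[l] : ℕ) : ℝ) ≤ (m[l1]'h1m : ℕ) := by exact_mod_cast hab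
  have hw0 : (0 : ℝ) ≤ w := Nat.cast_nonneg _
  have hw10 : (0 : ℝ) ≤ w1 := Nat.cast_nonneg _
  have hs0 : (0 : ℝ) ≤ s := Nat.cast_nonneg _
  have hwd' : (w : ℝ) ≤ d := by exact_mod_cast hwd
  have hw1d' : (w1 : ℝ) ≤ d := by exact_mod_cast hw1d
  have hD1' : (d : ℝ) ≤ 2 * D1 := by exact_mod_cast hD1
  have hwpos : (0 : ℝ) < w := by
    have : 0 < w := by omega
    exact_mod_cast this
  generalize FdC x m l = a at *
  generalize FdC x m l1 = a1 at *
  generalize ((m[l] : ℕ) : ℝ) = μ at *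
  generalize ((m[l1]'h1m : ℕ) : ℝ) = μ1 at *
  rcases hc with hc | hc
  · subst hc
    exact numH_a (w := w') (w1 := w1) (μ1 := μ1) (a := a) (a1 := a1) (by linarith)
      (by linarith) (by linarith) hda hy hT hwpos
  · have hc' : (w' : ℝ) + s = D1 := by exact_mod_cast hc
    refine numH_b (w' := w') (s := s) (d := d) (D1 := D1) (μ1 := μ1) (w := w) (w1 := w1) (a := a)
      (a1 := a1) (by linarith) (by linarith) hs0 hwd' hw1d' hD1' hda hF hc' (by linarith)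
      (hT.trans ?_)
    nlinarith

theorem yBaseD : YBaseD := by
  intro d h H K S x hK hx0 hS hx
  have hchi := H.chi_le (K + S)
  by_cases h0 : 1 ≤ h (K + S)
  · by_cases he : T (d + 1) < h (K + S) + TT (K + S)
    · exfalso
      have hcoe : ((S.sort (· ≥ ·) : List ℕ) : Multiset ℕ) = S := Multiset.sort_eq _ _
      have hs : (S.sort (· ≥ ·)).Pairwise (· ≥ ·) := Multiset.pairwise_sort _ _
      generalize S.sort (· ≥ ·) = m at *
      subst hcoe
      have hWK : K + (m : Multiset ℕ) = (m : Multiset ℕ) + (0 + K) := by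
        rw [zero_add, add_comm]
      rw [hWK] at h0 he hx
      obtain ⟨D1, hD1⟩ : ∃ D1, D1 + K.sum = d + 1 := ⟨d + 1 - K.sum, by omega⟩
      have hD1' : d ≤ 2 * D1 := by omega
      have hM : MassD 127 x m := by
        intro l hl h2
        have h3 := hS m[l] (by simp) h2
        have h4 := filter_le_drop hs hl
        have h6 : (TT ((m : Multiset ℕ).filter (fun j => j < m[l])) : ℝ) ≤
            (TT (m.drop l : List ℕ) : ℝ) := by exact_mod_cast h4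
        linarith
      obtain ⟨l, hl, y, A, hA, hsplit, h2, hyF, hmy, hyd, hxy, he1, hA1, hN, _, hB, _⟩ :=
        H.final (18 / 5) m (FdC x m) K hD1 (HCD0_decrK hD1' hM) (HCD_decrK hx0 hD1' hs hM) 0
          (by simp) h0 he
      have h3 := hB m[l] (by
        intro z hz
        obtain ⟨i, hi, hli, rfl⟩ := mem_drop hz
        exact decr_le hs hli hi)
      have e1 := FdC_eq x m hl h2
      have h4 : TT ((m : Multiset ℕ) + (0 + K)) =
          TT ((m.drop l : List ℕ) : Multiset ℕ) + TT A := by rw [hsplit, TT_add]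
      have h3' : 2 * (TT (m.drop l : List ℕ) : ℝ) + 2 * h ((m : Multiset ℕ) + (0 + K)) ≤
          2 * h A + (m[l] : ℕ) * y := by exact_mod_cast h3
      have hN' : (h A : ℝ) < (m[l] : ℕ) * y := by exact_mod_cast hN
      have he1' : (h A : ℝ) + TT A = T (d + 1) := by exact_mod_cast he1
      have h4' : (TT ((m : Multiset ℕ) + (0 + K)) : ℝ) = TT (m.drop l : List ℕ) + TT A := by
        exact_mod_cast h4
      have h0' : (1 : ℝ) ≤ h ((m : Multiset ℕ) + (0 + K)) := by exact_mod_cast h0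
      have hA1' : (1 : ℝ) ≤ h A := by exact_mod_cast hA1
      have h2' : (2 : ℝ) ≤ (m[l] : ℕ) := by exact_mod_cast h2
      simp only [Multiset.sum_zero, Nat.cast_zero, mul_zero, zero_add] at hyF
      have h7 : 8 * ((m[l] : ℕ) * (y : ℝ)) ≤ x + TT (m.drop l : List ℕ) := by
        rw [← e1]; nlinarith
      have h12 := end_mass (c := 8) (χ := (T (d + 1) : ℝ) - TT ((m : Multiset ℕ) + (0 + K)))
        (by norm_num) (Nat.cast_nonneg (TT (m.drop l : List ℕ)))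
        (show (0 : ℝ) < h ((m : Multiset ℕ) + (0 + K)) by linarith) hx
        (by rw [h4', ← he1']; ring) hN' h3' (by linarith)
      linarith
    · omega
  · omega

end ShghJ
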