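import Pool.Agent.ShghJ.Comb2

/-! # Bad configurations and the amplification argument -/

namespace ShghJ

open Real

variable {d : ℕ} {h : Multiset ℕ → ℕ}

theorem HFun.le_add_T (H : HFun d h) (S : Multiset ℕ) (j : ℕ) : h S ≤ h (j ::ₘ S) + T j := by
  induction j with
  | zero => rw [H.zero]; exact Nat.le_add_right _ _
  | succ j ih =>
    have := H.mac1 S j
    rw [T_succ]
    omega

theorem HFun.chi_le (H : HFun d h) (S : Multiset ℕ) : T (d + 1) ≤ h S + TT S := by
  induction S using Multiset.induction_on with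
  | empty => exact (H.small 0 (by simp)).ge
  | cons a S ih =>
    have := H.le_add_T S a
    rw [TT_cons]
    omega

theorem take_succ_coe (m : List ℕ) {l : ℕ} (hl : l < m.length) :
    ((m.take (l + 1) : List ℕ) : Multiset ℕ) = m[l] ::ₘ ((m.take l : List ℕ) : Multiset ℕ) := by
  rw [List.take_succ_eq_append_getElem hl, ← Multiset.coe_add, Multiset.coe_singleton, add_comm,
    Multiset.singleton_add]

/-- The first bad step of a special chain. -/
theorem HFun.first_bad (H : HFun d h) (m : List ℕ) (W : Multiset ℕ) (hW : W.sum ≤ d + 1) :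
    ∀ l, l ≤ m.length → 1 ≤ h (((m.take l : List ℕ) : Multiset ℕ) + W) →
      (h (((m.take l : List ℕ) : Multiset ℕ) + W) + TT (((m.take l : List ℕ) : Multiset ℕ) + W)
        = T (d + 1)) ∨
      ∃ (l1 : ℕ) (h1 : l1 < m.length), l1 < l ∧
        Bad h (((m.take l1 : List ℕ) : Multiset ℕ) + W) m[l1] ∧
        h (((m.take l1 : List ℕ) : Multiset ℕ) + W) +
          TT (((m.take l1 : List ℕ) : Multiset ℕ) + W) = T (d + 1) := by
  intro l
  induction l with
  | zero =>
    intro _ _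
    left
    have := H.small W hW
    simpa using this
  | succ l ih =>
    intro hl hh
    have hl' : l < m.length := hl
    have e : ((m.take (l + 1) : List ℕ) : Multiset ℕ) + W =
        m[l] ::ₘ (((m.take l : List ℕ) : Multiset ℕ) + W) := by
      rw [take_succ_coe m hl', Multiset.cons_add]
    rw [e] at hh ⊢
    rcases ih (by omega) (hh.trans (H.cons_le _ _)) with h1 | ⟨l1, h1, h2, h3, h4⟩
    · by_cases hb : Bad h (((m.take l : List ℕ) : Multiset ℕ) + W) m[l]
      · exact Or.inr ⟨l, hl', Nat.lt_succ_self _, hb, h1⟩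
      · left
        have h5 : h (m[l] ::ₘ (((m.take l : List ℕ) : Multiset ℕ) + W)) + T m[l] ≤
            h (((m.take l : List ℕ) : Multiset ℕ) + W) := by
          by_contra hc
          exact hb ⟨hh, by omega⟩
        have h6 := H.le_add_T (((m.take l : List ℕ) : Multiset ℕ) + W) m[l]
        rw [TT_cons]
        omega
    · exact Or.inr ⟨l1, h1, by omega, h3, h4⟩

/-- The numerical condition on the bound `F` (index of the multiplicity to be added). -/
def HFcond (m : List ℕ) (F : ℕ → ℝ) : Prop :=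
  ∀ (l1 l : ℕ) (h1 : l1 < l) (h2 : l < m.length), 2 ≤ m[l1]'(h1.trans h2) → 2 ≤ m[l] →
    ∀ x y : ℝ, F l < x → 0 < y → y ≤ 4 * x + F l1 - F l →
    (∀ B : ℝ, 0 ≤ B → (∀ z ∈ (m.take l).drop l1, (z : ℝ) ≤ B) →
      2 / 9 * x ^ 2 - m[l] * x < (B + 1) * (y * L (m[l1]'(h1.trans h2)))) →
    (((m.take l).drop l1).map (wt (m[l1]'(h1.trans h2)))).sum ≤
      2 * (y * L (m[l1]'(h1.trans h2))) → False

theorem take_eq_drop_add (m : List ℕ) {l1 l : ℕ} (h1 : l1 ≤ l) :
    ((m.take l : List ℕ) : Multiset ℕ) =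
      (((m.take l).drop l1 : List ℕ) : Multiset ℕ) + ((m.take l1 : List ℕ) : Multiset ℕ) := by
  have h2 : (m.take l).take l1 ++ (m.take l).drop l1 = m.take l := List.take_append_drop _ _
  have h3 : (m.take l).take l1 = m.take l1 := by
    rw [List.take_take, Nat.min_eq_left h1]
  rw [h3] at h2
  conv_lhs => rw [← h2]
  rw [← Multiset.coe_add, add_comm]

/-- THE AMPLIFICATION: all bad configurations satisfy `ω ≤ 3 σ + F`. -/
theorem HFun.claim (H : HFun d h) (m : List ℕ) (F : ℕ → ℝ) (hF0 : ∀ l, 0 ≤ F l)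
    (hF1 : ∀ l (hl : l < m.length), 9 / 2 * (m[l] : ℝ) ≤ F l) (HF : HFcond m F) :
    ∀ (l : ℕ) (hl : l < m.length) (W : Multiset ℕ), W.sum ≤ d + 1 →
      Bad h (((m.take l : List ℕ) : Multiset ℕ) + W) m[l] →
      (om h d (((m.take l : List ℕ) : Multiset ℕ) + W) : ℝ) ≤ 3 * W.sum + F l := by
  classical
  by_contra hcon
  push Not at hcon
  obtain ⟨l0, hl0, W0, hW0, hb0, hv0⟩ := hcon
  let P : ℕ × ℕ → Prop := fun p => ∃ (hl : p.1 < m.length) (W : Multiset ℕ), W.sum ≤ d + 1 ∧
    Bad h (((m.take p.1 : List ℕ) : Multiset ℕ) + W) m[p.1] ∧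
    p.2 + 3 * W.sum = om h d (((m.take p.1 : List ℕ) : Multiset ℕ) + W)
  let Z : Finset (ℕ × ℕ) := (Finset.range m.length ×ˢ Finset.range (d + 1)).filter P
  have hmem : ∀ (l : ℕ) (hl : l < m.length) (W : Multiset ℕ) (k : ℕ), W.sum ≤ d + 1 →
      Bad h (((m.take l : List ℕ) : Multiset ℕ) + W) m[l] →
      k + 3 * W.sum = om h d (((m.take l : List ℕ) : Multiset ℕ) + W) → (l, k) ∈ Z := by
    intro l hl W k h1 h2 h3
    have h4 : om h d (((m.take l : List ℕ) : Multiset ℕ) + W) ≤ d := om_le _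
    refine Finset.mem_filter.2 ⟨Finset.mem_product.2 ⟨Finset.mem_range.2 hl,
      Finset.mem_range.2 ?_⟩, hl, W, h1, h2, h3⟩
    show k < d + 1
    omega
  -- the violating configuration
  have hk0 : 3 * W0.sum < om h d (((m.take l0 : List ℕ) : Multiset ℕ) + W0) := by
    have h1 : (3 * W0.sum : ℝ) < om h d (((m.take l0 : List ℕ) : Multiset ℕ) + W0) := by
      have := hF0 l0
      linarith
    exact_mod_cast h1
  have hz0 := hmem l0 hl0 W0
    (om h d (((m.take l0 : List ℕ) : Multiset ℕ) + W0) - 3 * W0.sum) hW0 hb0 (by omega)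
  obtain ⟨⟨l, k⟩, hz, hmax⟩ := Finset.exists_max_image Z (fun p => (p.2 : ℝ) - F p.1) ⟨_, hz0⟩
  have hpos : (0 : ℝ) < k - F l := by
    have h1 := hmax _ hz0
    simp only at h1
    rw [Nat.cast_sub hk0.le, Nat.cast_mul, Nat.cast_ofNat] at h1
    linarith
  obtain ⟨hl, W, hW, hb, hkW⟩ := (Finset.mem_filter.1 hz).2
  simp only at hl hb hkW
  set S : Multiset ℕ := ((m.take l : List ℕ) : Multiset ℕ) + W with hSdef
  set ω := om h d S with hωdef
  set σ := W.sum with hσdef
  have hωd : ω ≤ d := om_le _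
  have hk1 : 0 < k := by
    have : (0 : ℝ) < k := by have := hF0 l; linarith
    exact_mod_cast this
  have hxF : F l < (ω : ℝ) := by
    have h1 : (k : ℝ) + 3 * σ = ω := by exact_mod_cast hkW
    have h2 : (0 : ℝ) ≤ σ := Nat.cast_nonneg _
    linarith
  have hSpos : 1 ≤ h S := H.bad_pos hb
  -- the new point
  set ω' := min ω (d + 1 - σ) with hω'def
  have hω'ω : ω' ≤ ω := min_le_left _ _
  have hω'd : ω' + σ ≤ d + 1 := by
    have : ω' ≤ d + 1 - σ := min_le_right _ _
    omega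
  have hS' : 1 ≤ h (ω' ::ₘ S) := H.pos_of_le_om hSpos hω'ω
  set W' : Multiset ℕ := ω' ::ₘ W with hW'def
  have hW'sum : W'.sum = ω' + σ := by rw [hW'def, Multiset.sum_cons]
  have eS' : ((m.take l : List ℕ) : Multiset ℕ) + W' = ω' ::ₘ S := by
    rw [hW'def, hSdef, Multiset.add_cons]
  -- T ω' ≥ (2/9) ω²
  have hTω' : 2 / 9 * (ω : ℝ) ^ 2 ≤ T ω' := by
    rw [T_real]
    have h3 : 2 * (ω : ℝ) ≤ 3 * ω' := by
      rcases min_choice ω (d + 1 - σ) with h1 | h1
      · rw [hω'def, h1]; have : (0 : ℝ) ≤ ω := Nat.cast_nonneg _; linarith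
      · have h2 : 2 * ω ≤ 3 * ω' := by rw [hω'def, h1]; omega
        exact_mod_cast h2
    have h4 : (0 : ℝ) ≤ ω := Nat.cast_nonneg _
    have h5 : (0 : ℝ) ≤ ω' := Nat.cast_nonneg _
    nlinarith
  have hNlt : (h S : ℝ) < m[l] * ω := by exact_mod_cast H.bad_lt hb
  have hlow : 2 / 9 * (ω : ℝ) ^ 2 - m[l] * ω <
      (h (ω' ::ₘ S) : ℝ) + TT (ω' ::ₘ S) - T (d + 1) := by
    have h1 : (T (d + 1) : ℝ) ≤ h S + TT S := by exact_mod_cast H.chi_le S
    have h2 : (1 : ℝ) ≤ h (ω' ::ₘ S) := by exact_mod_cast hS'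
    have h3 : (TT (ω' ::ₘ S) : ℝ) = T ω' + TT S := by rw [TT_cons]; push_cast; ring
    rw [h3]
    linarith
  have hωpos : (0 : ℝ) < ω := lt_of_le_of_lt (hF0 l) hxF
  -- first bad step of the chain of `S'`
  rcases H.first_bad m W' (by rw [hW'sum]; exact hω'd) l hl.le (by rw [eS']; exact hS') with
    hz1 | ⟨l1, hl1m, hl1, hb1, he1⟩
  · rw [eS'] at hz1
    have h1 : ((h (ω' ::ₘ S) : ℝ) + TT (ω' ::ₘ S)) = T (d + 1) := by exact_mod_cast hz1
    have h2 := hF1 l hl
    nlinarith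
  · set S1 : Multiset ℕ := ((m.take l1 : List ℕ) : Multiset ℕ) + W' with hS1def
    set ω1 := om h d S1 with hω1def
    have hω1pos : (0 : ℝ) < ω1 := by
      have h1 := H.bad_le_om hb1
      have h2 := H.bad_two_le hb1
      have : 0 < ω1 := by omega
      exact_mod_cast this
    have hy : (ω1 : ℝ) ≤ 4 * ω + F l1 - F l := by
      have hω'r : (ω' : ℝ) ≤ ω := by exact_mod_cast hω'ω
      have hkr : (k : ℝ) + 3 * σ = ω := by exact_mod_cast hkW
      rcases le_or_gt ω1 (3 * W'.sum) with h1 | h1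
      · have h2 : (ω1 : ℝ) ≤ 3 * W'.sum := by exact_mod_cast h1
        rw [hW'sum] at h2
        push_cast at h2
        have h3 := hF0 l1
        linarith
      · have h2 := hmem l1 hl1m W' (ω1 - 3 * W'.sum) (by rw [hW'sum]; exact hω'd) hb1
          (Nat.sub_add_cancel h1.le)
        have h3 := hmax _ h2
        simp only at h3
        rw [Nat.cast_sub h1.le, hW'sum] at h3
        push_cast at h3
        linarith
    have hseg : ((m.take l : List ℕ) : Multiset ℕ) + W' =
        (((m.take l).drop l1 : List ℕ) : Multiset ℕ) + S1 := by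
      rw [take_eq_drop_add m hl1.le, hS1def, add_assoc]
    have hN1 : (h S1 : ℝ) ≤ m[l1] * ω1 := by exact_mod_cast (H.bad_lt hb1).le
    have hm1 : 1 ≤ m[l1] := by have := H.bad_two_le hb1; omega
    have hS'' : 1 ≤ h ((((m.take l).drop l1 : List ℕ) : Multiset ℕ) + S1) := by
      rw [← hseg, eS']; exact hS'
    refine HF l1 l hl1 hl (H.bad_two_le hb1) (H.bad_two_le hb) ω ω1 hxF hω1pos hy ?_ ?_
    · intro B hB0 hB
      have h1 := (H.chain' hm1 hω1pos hB0 _ S1 hS'' le_rfl hN1 hB).2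
      refine lt_of_lt_of_le hlow ?_
      have h2 : (T (d + 1) : ℝ) = h S1 + TT S1 := by exact_mod_cast he1.symm
      have h3 : (TT (ω' ::ₘ S) : ℝ) =
          TT (((m.take l).drop l1 : List ℕ) : Multiset ℕ) + TT S1 := by
        rw [← eS', hseg, TT_add]; push_cast; ring
      rw [h2, h3, ← eS', hseg]
      linarith
    · have hB : ∀ x ∈ (m.take l).drop l1, (x : ℝ) ≤ ((((m.take l).drop l1).sum : ℕ) : ℝ) := by
        intro x hx
        exact_mod_cast List.le_sum_of_mem hx
      exact (H.chain' hm1 hω1pos (Nat.cast_nonneg _) _ S1 hS'' le_rfl hN1 hB).1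

/-- The final form: a special effective system has a first bad step with `ω ≤ F`. -/
theorem HFun.final (H : HFun d h) (m : List ℕ) (F : ℕ → ℝ) (hF0 : ∀ l, 0 ≤ F l)
    (hF1 : ∀ l (hl : l < m.length), 9 / 2 * (m[l] : ℝ) ≤ F l) (HF : HFcond m F)
    (hpos : 1 ≤ h (m : Multiset ℕ)) (he : T (d + 1) < h (m : Multiset ℕ) + TT m) :
    ∃ (l : ℕ) (hl : l < m.length) (y : ℝ), 2 ≤ m[l] ∧ y ≤ F l ∧ 0 < y ∧
      (∀ x ∈ m.drop l, (x : ℝ) ≤ y) ∧
      h ((m.take l : List ℕ) : Multiset ℕ) + TT ((m.take l : List ℕ) : Multiset ℕ) = T (d + 1) ∧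
      (h ((m.take l : List ℕ) : Multiset ℕ) : ℝ) < m[l] * y ∧
      ((m.drop l).map (wt m[l])).sum ≤ 2 * (y * L m[l]) ∧
      ∀ B : ℝ, 0 ≤ B → (∀ x ∈ m.drop l, (x : ℝ) ≤ B) →
        (h (m : Multiset ℕ) : ℝ) + TT m - T (d + 1) ≤ (B + 1) * (y * L m[l]) := by
  have hclaim := H.claim m F hF0 hF1 HF
  have hfb := H.first_bad m 0 (by simp) m.length le_rfl (by simpa using hpos)
  rw [List.take_length, add_zero] at hfb
  rcases hfb with h1 | ⟨l, hl, _, hb, he1⟩
  · omega
  · rw [add_zero] at hb he1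
    have hω := hclaim l hl 0 (by simp) (by rw [add_zero]; exact hb)
    rw [add_zero] at hω
    set S1 : Multiset ℕ := ((m.take l : List ℕ) : Multiset ℕ) with hS1def
    have hm2 := H.bad_two_le hb
    have hmω := H.bad_le_om hb
    have hy0 : (0 : ℝ) < om h d S1 := by
      have : 0 < om h d S1 := by omega
      exact_mod_cast this
    have hsplit : (m : Multiset ℕ) = ((m.drop l : List ℕ) : Multiset ℕ) + S1 := by
      have := take_eq_drop_add m (l1 := l) (l := m.length) hl.le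
      rwa [List.take_length] at this
    have hN1 : (h S1 : ℝ) < m[l] * om h d S1 := by exact_mod_cast H.bad_lt hb
    have hpos' : 1 ≤ h (((m.drop l : List ℕ) : Multiset ℕ) + S1) := by rw [← hsplit]; exact hpos
    refine ⟨l, hl, om h d S1, hm2, by simpa using hω, hy0, ?_, he1, hN1, ?_, ?_⟩
    · intro x hx
      have h1 : 1 ≤ h (x ::ₘ S1) := by
        obtain ⟨A, B, hAB⟩ := List.append_of_mem hx
        have h2 : ((m.drop l : List ℕ) : Multiset ℕ) + S1 =
            ((A : Multiset ℕ) + (B : Multiset ℕ)) + (x ::ₘ S1) := by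
          rw [hAB, ← Multiset.coe_add, ← Multiset.cons_coe, Multiset.add_cons, Multiset.add_cons,
            Multiset.cons_add]
        rw [h2] at hpos'
        exact hpos'.trans (H.add_le _ _)
      exact_mod_cast H.le_om h1
    · have hB : ∀ x ∈ m.drop l, (x : ℝ) ≤ (((m.drop l).sum : ℕ) : ℝ) := by
        intro x hx
        exact_mod_cast List.le_sum_of_mem hx
      exact (H.chain' (by omega) hy0 (Nat.cast_nonneg _) _ S1 hpos' le_rfl hN1.le hB).1
    · intro B hB0 hB
      have h1 := (H.chain' (by omega) hy0 hB0 _ S1 hpos' le_rfl hN1.le hB).2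
      have h2 : (T (d + 1) : ℝ) = h S1 + TT S1 := by exact_mod_cast he1.symm
      have h3 : (TT (m : Multiset ℕ) : ℝ) =
          TT ((m.drop l : List ℕ) : Multiset ℕ) + TT S1 := by
        rw [hsplit, TT_add]; push_cast; ring
      rw [h2, h3, hsplit]
      linarith

end ShghJ
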