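import Pool.Agent.ShghJ.GeoMain
import Pool.Agent.ShghJ.Comb3

/-!
# Translation between families of multiplicities and multisets
-/

namespace ShghJ

open MvPolynomial

universe u v

theorem tr_split {ι : Type*} [DecidableEq ι] (μ : ι → ℕ) (A : Multiset ℕ) :
    ∀ (S : Finset ι) (B : Multiset ℕ), S.val.map μ = A + B →
      ∃ U ⊆ S, U.val.map μ = A ∧ (S \ U).val.map μ = B := by
  induction A using Multiset.induction_on with
  | empty =>
    intro S B h
    refine ⟨∅, Finset.empty_subset _, by simp, ?_⟩
    rw [Finset.sdiff_empty, h, zero_add]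
  | cons a A ih =>
    intro S B h
    have ha : a ∈ S.val.map μ := by
      rw [h]
      simp
    obtain ⟨i, hi, hia⟩ := Multiset.mem_map.1 ha
    have hi' : i ∈ S := hi
    have h1 : (S.erase i).val.map μ = A + B := by
      have h2 : S.val = i ::ₘ (S.erase i).val := by
        rw [Finset.erase_val, Multiset.cons_erase hi]
      rw [h2, Multiset.map_cons, hia, Multiset.cons_add] at h
      exact (Multiset.cons_inj_right a).1 h
    obtain ⟨U, hU, hA, hB⟩ := ih (S.erase i) B h1
    have hiU : i ∉ U := fun h3 => Finset.notMem_erase i S (hU h3)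
    refine ⟨insert i U, ?_, ?_, ?_⟩
    · intro x hx
      rcases Finset.mem_insert.1 hx with rfl | hx
      · exact hi'
      · exact Finset.mem_of_mem_erase (hU hx)
    · rw [Finset.insert_val_of_notMem hiU, Multiset.map_cons, hA, hia]
    · have : S \ insert i U = S.erase i \ U := by
        ext x
        simp only [Finset.mem_sdiff, Finset.mem_insert, Finset.mem_erase]
        tauto
      rw [this, hB]

theorem tr_TT {ι : Type*} (S : Finset ι) (μ : ι → ℕ) :
    TT (S.val.map μ) = ∑ i ∈ S, (μ i + 1).choose 2 := by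
  rw [TT, Multiset.map_map]
  exact Finset.sum_congr rfl fun i _ => geo_T (μ i)

theorem tr_chi {s : ℕ} (d : ℕ) (μ : Fin s → ℕ) :
    ((d + 2).choose 2 : ℤ) - ∑ i, ((μ i + 1).choose 2 : ℤ) =
      (T (d + 1) : ℤ) - TT (Finset.univ.val.map μ) := by
  rw [tr_TT, geo_T]
  push_cast
  rfl

theorem HFun.replicate_zero {d : ℕ} {h : Multiset ℕ → ℕ} (H : HFun d h) (n : ℕ) (S : Multiset ℕ) :
    h (Multiset.replicate n 0 + S) = h S := by
  induction n with
  | zero => simp
  | succ n ih => rw [Multiset.replicate_succ, Multiset.cons_add, H.zero, ih]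

theorem tr_ite {ι : Type*} [DecidableEq ι] (S A : Finset ι) (hA : A ⊆ S) (μ : ι → ℕ) :
    S.val.map (fun i => if i ∈ A then μ i else 0) =
      Multiset.replicate (S \ A).card 0 + A.val.map μ := by
  have h1 : S.val = (S \ A).val + A.val := by
    have : S = (S \ A).disjUnion A Finset.sdiff_disjoint := by
      rw [Finset.disjUnion_eq_union, Finset.sdiff_union_of_subset hA]
    conv_lhs => rw [this]
    rfl
  rw [h1, Multiset.map_add]
  congr 1
  · have : (S \ A).val.map (fun i => if i ∈ A then μ i else 0) = (S \ A).val.map fun _ => 0 := by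
      refine Multiset.map_congr rfl fun i hi => ?_
      have : i ∈ S \ A := hi
      rw [if_neg (Finset.mem_sdiff.1 this).2]
    rw [this, Multiset.map_const']
    rfl
  · refine Multiset.map_congr rfl fun i hi => ?_
    have : i ∈ A := hi
    rw [if_pos this]

/-- The dimension of the linear system where only the points of `A` are used. -/
theorem tr_hF_ite {F : Type u} {k : Type v} [Field F] [Field k] [Algebra F k] {s : ℕ}
    (d : ℕ) (H : HFun d (hF F d)) (μ : Fin s → ℕ) (P : Fin s → Fin 2 → k)
    (hP : AlgebraicIndependent F (fun ij : Fin s × Fin 2 => P ij.1 ij.2)) (A : Finset (Fin s)) :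
    Module.finrank k (ShghT.LS d (fun i => if i ∈ A then μ i else 0) P) =
      hF F d (A.val.map μ) := by
  rw [finrank_LS_eq_hF d _ P hP, tr_ite Finset.univ A (Finset.subset_univ A), H.replicate_zero]

/-- The hypothesis on the characteristic for the prime field. -/
theorem tr_char {k : Type u} [Field k] {d : ℕ} (h : ∀ n : ℕ, 1 ≤ n → n ≤ d → (n : k) ≠ 0) :
    ∀ n : ℕ, 1 ≤ n → n ≤ d → (n : (⊥ : Subfield k)) ≠ 0 := by
  intro n h1 h2 h3
  apply h n h1 h2
  have h4 := congrArg (fun x : (⊥ : Subfield k) => (x : k)) h3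
  simpa using h4

end ShghJ
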