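import Pool.Agent.ShghJ.CombD3

/-! # Minimal special multisets -/

namespace ShghJ

variable {d : ℕ} {h : Multiset ℕ → ℕ}

theorem mind_mono {m M w : ℝ} (h1 : m ≤ M) (h2 : M ≤ w) :
    (m - 1) * (2 * w + 4 - m) ≤ (M - 1) * (2 * w + 4 - M) := by
  nlinarith [mul_nonneg (sub_nonneg.2 h1) (show 0 ≤ 2 * w + 5 - M - m by linarith)]

theorem HCD0_const {m : List ℕ} {M : ℕ} (hM : ∀ x ∈ m, x ≤ M) :
    HCD0 d (d + 1) (4 / 3) m (fun _ => 41 / 10 * (M : ℝ)) := by
  intro l h2 ha w s w' hwd hw'w hsd hc hF _ hT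
  have ha1 : m[l] ≤ M := hM _ (List.getElem_mem h2)
  have ha' : (2 : ℝ) ≤ (m[l] : ℕ) := by exact_mod_cast ha
  have ha1' : ((m[l] : ℕ) : ℝ) ≤ M := by exact_mod_cast ha1
  have hw0 : (0 : ℝ) ≤ w := Nat.cast_nonneg _
  have hs0 : (0 : ℝ) ≤ s := Nat.cast_nonneg _
  have hwd' : (w : ℝ) ≤ d := by exact_mod_cast hwd
  simp only at hF
  have hMw : (M : ℝ) ≤ w := by nlinarith
  have hT' := hT.trans (mind_mono ha1' hMw)
  rcases hc with hc | hc
  · subst hc
    exact numD_a (w := w') (μ := M) (w1 := 0) (by linarith) (by linarith) (by linarith)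
      (by linarith)
  · have hc' : (w' : ℝ) + s = d + 1 := by exact_mod_cast hc
    exact numD_b (μ := M) (w1 := 0) (by linarith) hs0 hwd' (by linarith) hF hc' (by linarith)

theorem HCD_const {m : List ℕ} {M : ℕ} (hM : ∀ x ∈ m, x ≤ M) :
    HCD d (d + 1) (4 / 3) m (fun _ => 41 / 10 * (M : ℝ)) := by
  intro l1 l h1 h2 hb ha w s w' w1 hwd hw1d hw'w hsd hc hF _ hm1 hy hB
  have ha1 : m[l] ≤ M := hM _ (List.getElem_mem h2)
  have ha1' : ((m[l] : ℕ) : ℝ) ≤ M := by exact_mod_cast ha1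
  simp only at hF hy
  have hT := (hB M (by
    intro z hz
    obtain ⟨i, hi, _, hil, rfl⟩ := mem_seg hz
    exact hM _ (List.getElem_mem hi))).2
  have ha' : (2 : ℝ) ≤ (m[l] : ℕ) := by exact_mod_cast ha
  have hw0 : (0 : ℝ) ≤ w := Nat.cast_nonneg _
  have hs0 : (0 : ℝ) ≤ s := Nat.cast_nonneg _
  have hwd' : (w : ℝ) ≤ d := by exact_mod_cast hwd
  have hw1d' : (w1 : ℝ) ≤ d := by exact_mod_cast hw1d
  have hMw : (M : ℝ) ≤ w := by nlinarith
  have hmn := mind_mono ha1' hMw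
  rcases hc with hc | hc
  · subst hc
    exact numD_a (w := w') (μ := M) (w1 := w1) (by linarith) (by linarith) (by linarith)
      (by linarith)
  · have hc' : (w' : ℝ) + s = d + 1 := by exact_mod_cast hc
    exact numD_b (μ := M) (by linarith) hs0 hwd' hw1d' hF hc' (by linarith)

/-- At a bad step of the chain without a starting multiset `10 ω ≤ 41 M`. -/
theorem HFunD.bad_om_le (H : HFunD d h) {V : Multiset ℕ} {m M : ℕ} (hb : Bad h V m)
    (hV : ∀ x ∈ V, x ≤ M) (hm : m ≤ M) : 10 * om h d V ≤ 41 * M := by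
  have hall : ∀ x ∈ V.toList ++ [m], x ≤ M := by
    intro x hx
    rcases List.mem_append.1 hx with hx | hx
    · exact hV x (by simpa using hx)
    · rw [List.mem_singleton] at hx
      omega
  have hcl := H.claim (4 / 3) (V.toList ++ [m]) (fun _ => 41 / 10 * (M : ℝ)) 0 (D1 := d + 1)
    (by simp) (HCD0_const hall) (HCD_const hall) V.toList.length (by simp) 0 (by simp)
  have e1 : (V.toList ++ [m]).take V.toList.length = V.toList := List.take_left
  have e2 : (V.toList ++ [m])[V.toList.length]'(by simp) = m := by simp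
  rw [e1, e2, Multiset.coe_toList, add_zero, add_zero] at hcl
  have h1 := hcl hb
  simp only [Multiset.sum_zero, Nat.cast_zero, mul_zero, zero_add] at h1
  have h2 : 10 * ((om h d V : ℕ) : ℝ) ≤ 41 * (M : ℝ) := by linarith
  exact_mod_cast h2

/-- All `Δ_j ≥ 1` for `j < m ≤ ω + 1`. -/
theorem HFun.drop_ge (H : HFun d h) {S : Multiset ℕ} {m : ℕ} (hm : 1 ≤ h (m ::ₘ S)) :
    h (m ::ₘ S) + m ≤ h S := by
  have hΔ : ∀ j, j < m → h ((j + 1) ::ₘ S) + 1 ≤ h (j ::ₘ S) := by
    intro j hj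
    by_contra hc
    have hle : h (j ::ₘ S) ≤ h ((j + 1) ::ₘ S) + 0 := by omega
    have h1 : ∀ i, j ≤ i → h (j ::ₘ S) ≤ h (i ::ₘ S) := by
      intro i hi
      induction i, hi using Nat.le_induction with
      | base => exact le_rfl
      | succ n hn ih =>
        have h2 := H.mac_from (a := j) (S := S) (by omega) n hn 0 hle (Nat.zero_le _)
        omega
    have h4 : 1 ≤ h (j ::ₘ S) := hm.trans (H.anti_le S hj.le)
    rcases le_total j (d + 1) with h5 | h5
    · have h3 := h1 (d + 1) h5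
      rw [H.big] at h3
      omega
    · have h6 := H.anti_le S h5
      rw [H.big] at h6
      omega
  have key : ∀ n, n ≤ m → h (n ::ₘ S) + n ≤ h S := by
    intro n
    induction n with
    | zero => intro _; rw [H.zero]; simp
    | succ n ih =>
      intro hn
      have h1 := ih (by omega)
      have h2 := hΔ n (by omega)
      omega
  exact key m le_rfl

theorem exists_min_le (P : Multiset ℕ → Prop) (S : Multiset ℕ) (hS : P S) :
    ∃ D ≤ S, P D ∧ ∀ V < D, ¬ P V := by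
  have hwf : WellFounded ((· < ·) : Multiset ℕ → Multiset ℕ → Prop) := wellFounded_lt
  induction S using hwf.induction with
  | _ S ih =>
    by_cases h : ∃ V < S, P V
    · obtain ⟨V, hV, hPV⟩ := h
      obtain ⟨D, hD, hPD, hmin⟩ := ih V hV hPV
      exact ⟨D, hD.trans hV.le, hPD, hmin⟩
    · push Not at h
      exact ⟨S, le_rfl, hS, h⟩

/-- MINIMAL SPECIAL MULTISETS. -/
theorem HFunD.minD (H : HFunD d h) (S : Multiset ℕ) (h1 : 1 ≤ h S)
    (he : T (d + 1) < h S + TT S) :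
    ∃ D ≤ S, 1 ≤ h D ∧ T (d + 1) < h D + TT D ∧
      (∀ V < D, 1 ≤ h V ∧ h V + TT V = T (d + 1)) ∧
      ∀ m ∈ D, 2 ≤ m ∧ m + 1 ≤ h (D.erase m) ∧ h D + TT D + m ≤ T (d + 1) + T m ∧
        ∀ M : ℕ, (∀ x ∈ D, x ≤ M) →
          20 * (h (D.erase m) : ℤ) ≤ ((m : ℤ) - 1) * (82 * M + 40 - 10 * m) := by
  obtain ⟨D, hDS, ⟨hD1, hD2⟩, hmin⟩ :=
    exists_min_le (fun V => 1 ≤ h V ∧ T (d + 1) < h V + TT V) S ⟨h1, he⟩
  have hns : ∀ V < D, 1 ≤ h V ∧ h V + TT V = T (d + 1) := by
    intro V hV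
    have h2 : 1 ≤ h V := by
      have h3 := H.add_le V (D - V)
      rw [tsub_add_cancel_of_le hV.le] at h3
      omega
    have h4 := hmin V hV
    have h5 := H.chi_le V
    refine ⟨h2, ?_⟩
    by_contra h6
    exact h4 ⟨h2, by omega⟩
  refine ⟨D, hDS, hD1, hD2, hns, ?_⟩
  intro m hm
  have hlt : D.erase m < D := Multiset.erase_lt.2 hm
  obtain ⟨hV1, hV2⟩ := hns _ hlt
  have hcons : m ::ₘ D.erase m = D := Multiset.cons_erase hm
  have hb : Bad h (D.erase m) m := by
    refine ⟨by rw [hcons]; exact hD1, ?_⟩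
    rw [hcons]
    have h3 : TT D = T m + TT (D.erase m) := by
      conv_lhs => rw [← hcons]
      exact TT_cons _ _
    omega
  have h2m := H.bad_two_le hb
  have hmo := H.bad_le_om hb
  have hol := H.om_lt hV1
  refine ⟨h2m, by omega, ?_, ?_⟩
  · have h3 : TT D = T m + TT (D.erase m) := by
      conv_lhs => rw [← hcons]
      exact TT_cons _ _
    have h4 := H.drop_ge hb.1
    rw [hcons] at h4
    omega
  · intro M hM
    have h3 := H.bad_om_le hb (M := M) (fun x hx => hM x (Multiset.mem_of_mem_erase hx)) (hM m hm)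
    have h4 := H.bad_two_N hb
    have h5 : 10 * ((om h d (D.erase m) : ℕ) : ℝ) ≤ 41 * (M : ℝ) := by exact_mod_cast h3
    have h6 : (2 : ℝ) ≤ (m : ℝ) := by exact_mod_cast h2m
    have h7 : 20 * (h (D.erase m) : ℝ) ≤ ((m : ℝ) - 1) * (82 * M + 40 - 10 * m) := by
      have h8 : ((m : ℝ) - 1) * (2 * om h d (D.erase m) + 4 - m) * 10 ≤
          ((m : ℝ) - 1) * (82 * M + 40 - 10 * m) := by
        have : ((m : ℝ) - 1) * ((2 * om h d (D.erase m) + 4 - m) * 10) ≤
          ((m : ℝ) - 1) * (82 * M + 40 - 10 * m) :=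
          mul_le_mul_of_nonneg_left (by linarith) (by linarith)
        linarith
      linarith
    exact_mod_cast h7

end ShghJ
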