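import Pool.Agent.ShghJ.Coll

/-!
# ShghJ, CollD: the sharp form of the collision lemma

`1 ≤ h (m, w, S)` implies that there is `j ≥ max m w` with `Δ_j(S) ≥ 1` and
`m + w + 1 ≤ j + Δ_j(S)`.
-/

namespace ShghJ

open MvPolynomial

universe u v w

private theorem colld_degree (e : Fin 2 →₀ ℕ) : e.degree = e 0 + e 1 := by
  rw [Finsupp.degree_eq_sum, Fin.sum_univ_two]

private theorem colld_ex (e : Fin 2 →₀ ℕ) : ex (e 0) (e 1) = e := by
  ext i
  fin_cases i <;> simp [ex]

private theorem colld_ex0 (i j : ℕ) : (ex i j) 0 = i := by simp [ex]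

private theorem colld_ex1 (i j : ℕ) : (ex i j) 1 = j := by simp [ex]

/-- The core of the sharp collision lemma: the top degree of the initial form. -/
theorem coll_core2 {K : Type u} [Field K] (V : Submodule K (MvPolynomial (Fin 2) K))
    (p : Fin 2 → K) (m w : ℕ) (H : MvPolynomial (Fin 2) (Polynomial K)) (hH : H ≠ 0)
    (f : ℕ → MvPolynomial (Fin 2) K) (hfV : ∀ k, f k ∈ V)
    (hf : ∀ k e, (ShghE.tfShift (p 0) (p 1) (f k)).coeff e = (H.coeff e).coeff k)
    (hm : ∀ e : Fin 2 →₀ ℕ, e.degree < m → H.coeff e = 0)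
    (hw : ∀ e : Fin 2 →₀ ℕ, e.degree < w →
      (ShghE.tfShift (Polynomial.X : Polynomial K) 0 H).coeff e = 0) :
    ∃ j i, i ∈ degSet V p j ∧ i ≤ j ∧ m ≤ j ∧ w ≤ j ∧ m + w ≤ j + (j - i) := by
  classical
  obtain ⟨e₀, he₀⟩ := MvPolynomial.ne_zero_iff.1 hH
  have hex : ∃ n, ∃ (e : Fin 2 →₀ ℕ) (k : ℕ), (H.coeff e).coeff k ≠ 0 ∧ k + e.degree = n := by
    by_contra hcon
    push Not at hcon
    apply he₀
    ext k
    rw [Polynomial.coeff_zero]
    by_contra h
    exact hcon _ e₀ k h rfl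
  set ν := Nat.find hex with hν
  obtain ⟨e₁, k₁, hek₁, hekν₁⟩ := Nat.find_spec hex
  rw [← hν] at hekν₁
  have hmin : ∀ (e' : Fin 2 →₀ ℕ) (k' : ℕ), (H.coeff e').coeff k' ≠ 0 → ν ≤ k' + e'.degree :=
    fun e' k' h => Nat.find_min' hex ⟨e', k', h, rfl⟩
  -- members of the filtration
  have hfil : ∀ k' j', k' + j' = ν → f k' ∈ fil V p j' := by
    intro k' j' hkj
    refine ⟨hfV k', (ShghE.tf_mem_iff _ _ _ _).2 fun e' he' => ?_⟩
    rw [hf]
    by_contra h
    have := hmin e' k' h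
    omega
  -- the top degree
  let P : ℕ → Prop := fun n => ∃ (e : Fin 2 →₀ ℕ) (k : ℕ), (H.coeff e).coeff k ≠ 0 ∧
    k + e.degree = ν ∧ e.degree = n
  have hP1 : P e₁.degree := ⟨e₁, k₁, hek₁, hekν₁, rfl⟩
  have hP2 : P (Nat.findGreatest P ν) := Nat.findGreatest_spec (by omega) hP1
  have hmax : ∀ (e' : Fin 2 →₀ ℕ) (k' : ℕ), (H.coeff e').coeff k' ≠ 0 → k' + e'.degree = ν →
      e'.degree ≤ Nat.findGreatest P ν :=
    fun e' k' h1 h2 => Nat.le_findGreatest (by omega) ⟨e', k', h1, h2, rfl⟩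
  obtain ⟨e, k, hek, hekν, hej⟩ := hP2
  rw [← hej] at hmax
  -- slices
  have key : ∀ (e' : Fin 2 →₀ ℕ) (k' : ℕ), (H.coeff e').coeff k' ≠ 0 → k' + e'.degree = ν →
      m + w ≤ e.degree + e' 1 ∧ w ≤ e.degree := by
    intro e' k' h1 h2
    have h2' := hmax e' k' h1 h2
    rw [colld_degree] at h2 h2'
    set l := e' 1 with hl
    set g := (Ph ((Ps H).coeff l)).coeff (k' + e' 0) with hg
    have hgn : ∀ n, g.coeff n =
        if n ≤ k' + e' 0 then (H.coeff (ex n l)).coeff (k' + e' 0 - n) else 0 := by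
      intro n
      rw [hg, coeff_Ph, coeff_Ps]
    have hg0 : g ≠ 0 := by
      intro h0
      have h3 := hgn (e' 0)
      rw [h0, Polynomial.coeff_zero, if_pos (by omega), hl, colld_ex, Nat.add_sub_cancel] at h3
      exact h1 h3.symm
    have hdeg := collb_natDegree g hg0 (m - l) (w - l) (Ph_dvd _ _ _ (slice_dvd H m l hm))
      (Ph_dvd' _ _ _ (slice_dvd' _ H w l hw))
    set n := g.natDegree with hn
    have h4 : g.coeff n ≠ 0 := by
      rw [hn, Polynomial.coeff_natDegree]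
      exact Polynomial.leadingCoeff_ne_zero.2 hg0
    rw [hgn n] at h4
    have h5 : n ≤ k' + e' 0 := by
      by_contra h
      rw [if_neg h] at h4
      exact h4 rfl
    rw [if_pos h5] at h4
    have h7 := hmax (ex n l) (k' + e' 0 - n) h4 (by rw [ex_degree]; omega)
    rw [ex_degree] at h7
    omega
  -- the leading form of degree `e.degree` of `f k`
  have h1 := hfil k e.degree hekν
  have h2 : ∃ i, i ≤ e.degree ∧ lead p e.degree (f k) i ≠ 0 := by
    refine ⟨e 0, by rw [colld_degree]; omega, ?_⟩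
    unfold lead
    rw [hf]
    have h3 : ex (e 0) (e.degree - e 0) = e := by
      rw [colld_degree, Nat.add_sub_cancel_left, colld_ex]
    rw [h3]
    exact hek
  have h2' : ((Finset.range (e.degree + 1)).filter
      fun i => lead p e.degree (f k) i ≠ 0).Nonempty := by
    obtain ⟨i, hi1, hi2⟩ := h2
    exact ⟨i, Finset.mem_filter.2 ⟨Finset.mem_range.2 (by omega), hi2⟩⟩
  obtain ⟨i, hi, himax⟩ := Finset.exists_max_image _ (fun i => i) h2'
  rw [Finset.mem_filter, Finset.mem_range] at hi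
  have h3 := hi.2
  unfold lead at h3
  rw [hf] at h3
  have h4 := key _ k h3 (by rw [ex_degree]; omega)
  rw [colld_ex1] at h4
  have h5 : m ≤ e.degree := by
    by_contra hcon
    push Not at hcon
    apply hek
    rw [hm e hcon, Polynomial.coeff_zero]
  refine ⟨e.degree, i, ?_, by omega, h5, h4.2, h4.1⟩
  unfold degSet
  rw [Finset.mem_filter, Finset.mem_range]
  refine ⟨hi.1, f k, h1, hi.2, fun i' hi1 hi2 => ?_⟩
  by_contra h
  have := himax i' (Finset.mem_filter.2 ⟨Finset.mem_range.2 (by omega), h⟩)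
  omega

/-- The sharp collision lemma over a field with the infinitesimal shear. -/
theorem coll_K2 {K : Type u} [Field K] (δ : Derivation ℤ K K) (s d : ℕ)
    (hchar : ∀ n : ℕ, 1 ≤ n → n ≤ d → (n : K) ≠ 0) (μ : Fin s → ℕ) (P : Fin s → Fin 2 → K)
    (p : Fin 2 → K) (h0 : δ (p 0) = 0)
    (h1 : δ (p 1) = 0) (hP0 : ∀ i, δ (P i 0) = 0) (hP1 : ∀ i, δ (P i 1) = P i 0 - p 0)
    (m w : ℕ)
    (H : MvPolynomial (Fin 2) (Polynomial K)) (hH : H ≠ 0) (hd : H.totalDegree ≤ d)
    (hHP : ∀ i, ∀ e : Fin 2 →₀ ℕ, e.degree < μ i →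
      (ShghE.tfShift (Polynomial.C (P i 0)) (Polynomial.C (P i 1)) H).coeff e = 0)
    (hm : ∀ e : Fin 2 →₀ ℕ, e.degree < m →
      (ShghE.tfShift (Polynomial.C (p 0)) (Polynomial.C (p 1)) H).coeff e = 0)
    (hw : ∀ e : Fin 2 →₀ ℕ, e.degree < w →
      (ShghE.tfShift (Polynomial.X + Polynomial.C (p 0)) (Polynomial.C (p 1)) H).coeff e = 0) :
    ∃ j, m ≤ j ∧ w ≤ j ∧ Module.finrank K (fil (ShghT.LS d μ P) p (j + 1)) + 1 ≤
        Module.finrank K (fil (ShghT.LS d μ P) p j) ∧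
      m + w + 1 + Module.finrank K (fil (ShghT.LS d μ P) p (j + 1)) ≤
        j + Module.finrank K (fil (ShghT.LS d μ P) p j) := by
  classical
  have hH' : ShghE.tfShift (Polynomial.C (p 0)) (Polynomial.C (p 1)) H ≠ 0 := by
    intro h
    apply hH
    rw [← ShghE.tfShift_neg (Polynomial.C (p 0)) (Polynomial.C (p 1)) H, h, map_zero]
  obtain ⟨j, i, hi, hij, hmj, hwj, hmw⟩ := coll_core2 (ShghT.LS d μ P) p m w _ hH'
    (fun k => cfk k H)
    (fun k => by
      rw [ShghT.mem_LS]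
      refine ⟨cfk_degree k d H hd, fun i => (ShghE.tf_mem_iff _ _ _ _).2 fun e he => ?_⟩
      rw [cfk_shift, hHP i e he, Polynomial.coeff_zero])
    (fun k e => cfk_shift k _ _ H e) hm
    (fun e he => by
      rw [shift_shift, zero_add]
      exact hw e he)
  have h2 := degSet_card δ (ShghT.LS d μ P) p d (fun f hf => (ShghT.mem_LS.1 hf).1) hchar
    (Eop_LS δ (p 0) s d μ P hP0 hP1) h0 h1 j i hi
  have h3 := tCnt K (ShghT.LS d μ P) p j inferInstance
  exact ⟨j, hmj, hwj, by omega, by omega⟩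

section

variable (F : Type u) [Field F]

/-- The sharp collision lemma for generic points, if `1, ..., d` are not zero in the field. -/
theorem hF_coll2 (d : ℕ) (hd : ∀ n : ℕ, 1 ≤ n → n ≤ d → (n : F) ≠ 0) (S : Multiset ℕ)
    (m w : ℕ) (h1 : 1 ≤ hF F d (m ::ₘ w ::ₘ S)) :
    ∃ j, m ≤ j ∧ w ≤ j ∧ hF F d ((j + 1) ::ₘ S) + 1 ≤ hF F d (j ::ₘ S) ∧
      m + w + 1 + hF F d ((j + 1) ::ₘ S) ≤ j + hF F d (j ::ₘ S) := by
  classical
  have hInv : S_Inv.{u, u} := tInv
  have hchar : ∀ n : ℕ, 1 ≤ n → n ≤ d → (n : UF F) ≠ 0 := by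
    intro n h1 h2 h3
    apply hd n h1 h2
    have h4 : algebraMap F (UF F) (n : F) = algebraMap F (UF F) 0 := by
      rw [map_natCast, map_zero, h3]
    exact (algebraMap F (UF F)).injective h4
  obtain ⟨δ, hδ0, hδ1, hδP0, hδP1⟩ := coll_der F S.toList.length
  -- transfer
  have h4 := hInv F (UF F) (S.toList.length + 2) d
    (Fin.cons m (Fin.cons w (fun i => S.toList.get i) : Fin (S.toList.length + 1) → ℕ))
    (fun i => up F i) (geo_algInd F (fun i : Fin (S.toList.length + 2) => (i : ℕ))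
      Fin.val_injective)
  have e : (Finset.univ.val.map
      (Fin.cons m (Fin.cons w (fun i => S.toList.get i) : Fin (S.toList.length + 1) → ℕ) :
        Fin (S.toList.length + 2) → ℕ)) = m ::ₘ w ::ₘ S := by
    rw [Fin.univ_val_map, List.ofFn_succ]
    simp only [Fin.cons_zero, Fin.cons_succ]
    rw [List.ofFn_succ]
    simp only [Fin.cons_zero, Fin.cons_succ]
    rw [List.ofFn_get, ← Multiset.cons_coe, ← Multiset.cons_coe, Multiset.coe_toList]
  rw [e] at h4
  have h5 := ShghT.finrank_LS_le (fun i : Fin (S.toList.length + 2) => up F (i : ℕ))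
    (geo_algInd F (fun i : Fin (S.toList.length + 2) => (i : ℕ)) Fin.val_injective)
    (fun i c => algebraMap (Polynomial (UF F)) (FractionRing (Polynomial (UF F)))
      (collP F S.toList.length i c)) d
    (Fin.cons m (Fin.cons w (fun i => S.toList.get i) : Fin (S.toList.length + 1) → ℕ))
  rw [h4] at h5
  obtain ⟨g, hgm, hg⟩ := coll_exists _ (h1.trans h5)
  have hgm := ShghT.mem_LS.1 hgm
  obtain ⟨H, hH0, hHd, hH⟩ := coll_clear (collP F S.toList.length) d _ g hg hgm.1 hgm.2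
  have hP0 : collP F S.toList.length 0 = fun c => Polynomial.C (up F 0 c) := Fin.cons_zero _ _
  have hP1 : collP F S.toList.length (Fin.succ 0) =
      ![Polynomial.X + Polynomial.C (up F 0 0), Polynomial.C (up F 0 1)] := by
    unfold collP
    rw [Fin.cons_succ, Fin.cons_zero]
  have hP2 : ∀ i : Fin S.toList.length, collP F S.toList.length (Fin.succ (Fin.succ i)) =
      fun c => Polynomial.C (up F ((i : ℕ) + 1) c) := by
    intro i
    unfold collP
    rw [Fin.cons_succ, Fin.cons_succ]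
  obtain ⟨j, hj1, hj2, hj3, hj4⟩ := coll_K2 δ S.toList.length d hchar
    (fun i => S.toList.get i) (fun i => up F ((i : ℕ) + 1))
    (up F 0) hδ0 hδ1 (fun i => hδP0 i i.2) (fun i => hδP1 i i.2) m w H hH0 hHd (by
      intro i x hx
      have h6 := hH (Fin.succ (Fin.succ i)) x (by rw [Fin.cons_succ, Fin.cons_succ]; exact hx)
      rw [hP2] at h6
      exact h6) (by
      intro x hx
      have h6 := hH 0 x (by rw [Fin.cons_zero]; exact hx)
      rw [hP0] at h6
      exact h6) (by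
      intro x hx
      have h6 := hH (Fin.succ 0) x (by rw [Fin.cons_succ, Fin.cons_zero]; exact hx)
      rw [hP1] at h6
      exact h6)
  refine ⟨j, hj1, hj2, ?_, ?_⟩
  · rw [geo_hF_cons F d hInv, geo_hF_cons F d hInv]
    exact hj3
  · rw [geo_hF_cons F d hInv, geo_hF_cons F d hInv]
    exact hj4

end

end ShghJ
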