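import Pool.Agent.ShghJ.HFun

/-!
# The interface with the sharp collision axiom and the final targets
-/

namespace ShghJ

/-- `HFun` together with the sharp collision inequality: if a nonzero member has multiplicities
`m` and `w` at two further generic points, then `m + w + 1 ≤ j + Δ_j(S)` for some `j ≥ m, w` with
`Δ_j(S) ≥ 1`. -/
structure HFunD (d : ℕ) (h : Multiset ℕ → ℕ) : Prop extends HFun d h where
  /-- collision of two generic points -/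
  coll2 : ∀ (S : Multiset ℕ) (m w : ℕ), 1 ≤ h (m ::ₘ w ::ₘ S) →
    ∃ j, m ≤ j ∧ w ≤ j ∧ h ((j + 1) ::ₘ S) + 1 ≤ h (j ::ₘ S) ∧
      m + w + 1 + h ((j + 1) ::ₘ S) ≤ j + h (j ::ₘ S)

/-- WINDOW with a starting multiset `W` (sum at most `d + 1`), `M` = bound for the other
multiplicities: `h ≥ 1` implies `e ≤ (41/20) M² + (2/3) M ΣW`, and
`χ ≥ (18/5) M² + (4/3) M ΣW` implies `h = χ`. -/
def WinD : Prop := ∀ (d : ℕ) (h : Multiset ℕ → ℕ), HFunD d h → ∀ (M : ℕ) (W S : Multiset ℕ),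
  W.sum ≤ d + 1 → (∀ x ∈ S, x ≤ M) →
    (1 ≤ h (W + S) →
      60 * (h (W + S) + TT (W + S)) ≤ M * (123 * M + 40 * W.sum) + 60 * T (d + 1)) ∧
    ((M : ℤ) * (108 * M + 40 * (W.sum : ℕ)) ≤ 30 * ((T (d + 1) : ℤ) - TT (W + S)) →
      h (W + S) + TT (W + S) = T (d + 1))

/-- MASS CONDITION: `62 x² ≤ 8 |χ| + ` (sum of the `T` of the smaller multiplicities). -/
def YD : Prop := ∀ (d : ℕ) (h : Multiset ℕ → ℕ), HFunD d h → ∀ S : Multiset ℕ,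
  (∀ x ∈ S, 2 ≤ x →
    62 * (x : ℤ) ^ 2 ≤ 8 * |(T (d + 1) : ℤ) - TT S| + TT (S.filter (fun j => j < x))) →
  h S = T (d + 1) - TT S

/-- MASS CONDITION with a starting multiset `W` (sum at most `d + 1`). -/
def SpreadD : Prop := ∀ (d : ℕ) (h : Multiset ℕ → ℕ), HFunD d h → ∀ W S : Multiset ℕ,
  W.sum ≤ d + 1 → (∀ x ∈ S, 2 ≤ x →
    62 * (x : ℤ) ^ 2 + 34 * x * (W.sum : ℕ) ≤
      6 * |(T (d + 1) : ℤ) - TT (W + S)| + TT (S.filter (fun j => j < x))) →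
  h (W + S) = T (d + 1) - TT (W + S)

/-- STRUCTURE OF ALL EXCEPTIONS: sorted increasingly, `m = A ++ μ :: B` with `A` non-special,
`0 < χ(A) < (18/5) μ²`, at most `11` points in `μ :: B`, all of multiplicity at most
`(41/10) μ`. -/
def StructD : Prop := ∀ (d : ℕ) (h : Multiset ℕ → ℕ), HFunD d h → ∀ (m : List ℕ),
  m.Pairwise (· ≤ ·) → 1 ≤ h m → T (d + 1) < h m + TT m →
  ∃ (A : List ℕ) (μ : ℕ) (B : List ℕ), m = A ++ μ :: B ∧ 2 ≤ μ ∧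
    h A + TT A = T (d + 1) ∧ 1 ≤ h A ∧ 5 * h A < 18 * μ ^ 2 ∧ (μ :: B).length ≤ 11 ∧
    (∀ x ∈ B, μ ≤ x ∧ 10 * x ≤ 41 * μ) ∧ 200 * (h m + TT m - T (d + 1)) ≤ 1681 * μ ^ 2

/-- MASS CONDITION with a base multiset `K` (`2 ΣK ≤ d + 2`, not counted). -/
def YBaseD : Prop := ∀ (d : ℕ) (h : Multiset ℕ → ℕ), HFunD d h → ∀ (K S : Multiset ℕ) (x : ℝ),
  2 * K.sum ≤ d + 2 → 0 ≤ x →
  (∀ m ∈ S, 2 ≤ m → 127 * (m : ℝ) ^ 2 ≤ x + TT (S.filter (fun j => j < m))) →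
  x ≤ 8 * |(T (d + 1) : ℝ) - TT (K + S)| →
  h (K + S) = T (d + 1) - TT (K + S)

/-- WINDOW with a base multiset `K` (`2 ΣK ≤ d + 2`, not counted): `h ≥ 1` implies `e ≤ 6 M²`,
and `χ ≥ (23/2) M²` implies `h = χ`. -/
def WinBaseD : Prop := ∀ (d : ℕ) (h : Multiset ℕ → ℕ), HFunD d h → ∀ (M : ℕ) (K S : Multiset ℕ),
  2 * K.sum ≤ d + 2 → (∀ x ∈ S, x ≤ M) →
    (1 ≤ h (K + S) → h (K + S) + TT (K + S) ≤ 6 * M ^ 2 + T (d + 1)) ∧
    (23 * (M : ℤ) ^ 2 ≤ 2 * ((T (d + 1) : ℤ) - TT (K + S)) →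
      h (K + S) + TT (K + S) = T (d + 1))

end ShghJ
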