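import Pool.Agent.ShghJ.GeoMain
import Pool.Agent.ShghJ.HFunD
import Pool.Agent.ShghJ.CollD

/-!
# The geometry with the sharp collision inequality
-/

namespace ShghJ

universe u

/-- The dimension function of generic points satisfies `HFunD`. -/
theorem hfunD_hF (F : Type u) [Field F] (d : ℕ)
    (hd : ∀ n : ℕ, 1 ≤ n → n ≤ d → (n : F) ≠ 0) : HFunD d (hF F d) where
  toHFun := hfun_hF F d hd
  coll2 := fun S m w h1 => hF_coll2 F d hd S m w h1

end ShghJ
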