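import Pool.Agent.ShghJ.Spec

/-!
# ShghJ, Base: independence of the conditions if the sum of the multiplicities is at most `d + 1`
-/

namespace ShghJ

open MvPolynomial

universe u v w

private theorem base_shift_degree {K : Type u} [Field K] (a b : K) (f : MvPolynomial (Fin 2) K) :
    (ShghE.tfShift a b f).totalDegree ≤ f.totalDegree := by
  have hX : ∀ i : Fin 2, ((![X 0 + C a, X 1 + C b] : Fin 2 → MvPolynomial (Fin 2) K) i).totalDegree
      ≤ 1 := by
    intro i
    have h : ∀ (j : Fin 2) (c : K), (X j + C c : MvPolynomial (Fin 2) K).totalDegree ≤ 1 := by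
      intro j c
      refine (totalDegree_add _ _).trans (max_le ?_ ?_)
      · rw [X]
        refine (totalDegree_monomial_le _ _).trans ?_
        simp
      · rw [totalDegree_C]
        exact Nat.zero_le _
    fin_cases i
    · exact h 0 a
    · exact h 1 b
  unfold ShghE.tfShift
  rw [aeval_def, eval₂_eq']
  refine totalDegree_finsetSum_le fun e he => ?_
  refine (totalDegree_mul _ _).trans ?_
  have h1 : ((algebraMap K (MvPolynomial (Fin 2) K)) (coeff e f)).totalDegree = 0 := totalDegree_C _
  rw [h1, zero_add]
  refine (totalDegree_finsetProd _ _).trans ?_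
  refine le_trans (Finset.sum_le_sum fun i _ => (totalDegree_pow _ _).trans
    (Nat.mul_le_mul_left _ (hX i))) ?_
  simp only [mul_one]
  have h2 := le_totalDegree he
  rwa [Finsupp.sum_fintype _ _ (fun _ => rfl)] at h2

private theorem base_coeff_zero {K : Type u} [Field K] (a b : K) (f : MvPolynomial (Fin 2) K) :
    (ShghE.tfShift a b f).coeff 0 = eval ![a, b] f := by
  have h1 : (constantCoeff (σ := Fin 2) (R := K)).comp (ShghE.tfShift a b).toRingHom =
      eval ![a, b] := by
    apply MvPolynomial.ringHom_ext
    · intro r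
      simp [ShghE.tfShift]
    · intro i
      fin_cases i <;> simp [ShghE.tfShift]
  exact RingHom.congr_fun h1 f

/-- If `G` does not vanish at the point and `G g` has multiplicity `≥ m` where `deg g < m` then
`g = 0`. -/
private theorem base_cancel {K : Type u} [Field K] (a b : K) (m : ℕ)
    (G g : MvPolynomial (Fin 2) K) (hG : eval ![a, b] G ≠ 0) (hg : g.totalDegree < m)
    (h : G * g ∈ ShghT.pt a b ^ m) : g = 0 := by
  classical
  have h1 := (ShghE.tf_mem_iff a b m (G * g)).1 h
  rw [map_mul] at h1
  have h2 : ∀ n, ∀ x : Fin 2 →₀ ℕ, x.degree = n → n < m →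
      (ShghE.tfShift a b g).coeff x = 0 := by
    intro n
    induction n using Nat.strong_induction_on with
    | _ n ih =>
      intro x hx hn
      have h3 := h1 x (by omega)
      rw [coeff_mul, Finset.sum_eq_single (0, x)] at h3
      · rcases mul_eq_zero.1 h3 with h4 | h4
        · exact absurd (by rw [← base_coeff_zero]; exact h4) hG
        · exact h4
      · rintro ⟨y, z⟩ hyz hne
        rw [Finset.HasAntidiagonal.mem_antidiagonal] at hyz
        have h4 : y.degree + z.degree = n := by
          rw [← hx, ← hyz]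
          exact (map_add Finsupp.degree y z).symm
        have h5 : y ≠ 0 := by
          rintro rfl
          rw [zero_add] at hyz
          exact hne (Prod.ext rfl hyz)
        have h6 : y.degree ≠ 0 := fun h => h5 ((Finsupp.degree_eq_zero_iff y).1 h)
        have h7 := ih z.degree (by omega) z rfl (by omega)
        change (ShghE.tfShift a b G).coeff y * (ShghE.tfShift a b g).coeff z = 0
        rw [h7, mul_zero]
      · intro h4
        exact absurd (Finset.HasAntidiagonal.mem_antidiagonal.2 (zero_add x)) h4
  have h0 : ShghE.tfShift a b g = 0 := by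
    ext x
    rw [coeff_zero]
    rcases Nat.lt_or_ge x.degree m with hx | hx
    · exact h2 _ x rfl hx
    · refine coeff_eq_zero_of_totalDegree_lt (lt_of_lt_of_le
        (lt_of_le_of_lt (base_shift_degree a b g) hg) ?_)
      exact hx
  rw [← ShghE.tfShift_neg a b g, h0, map_zero]

private theorem base_card (n : ℕ) :
    (Finsupp.finite_of_degree_lt (σ := Fin 2) n).toFinset.card = (n + 1).choose 2 := by
  have h1 : (Finsupp.finite_of_degree_lt (σ := Fin 2) n).toFinset.card =
      ((Finset.range n).sigma fun d => Finset.HasAntidiagonal.antidiagonal d).card := by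
    refine Finset.card_nbij' (fun e => ⟨e 0 + e 1, (e 0, e 1)⟩)
      (fun p => Finsupp.equivFunOnFinite.symm ![p.2.1, p.2.2]) ?_ ?_ ?_ ?_
    · intro e he
      have he' : e.degree < n := by simpa using he
      rw [Finsupp.degree_eq_sum, Fin.sum_univ_two] at he'
      simpa using he'
    · rintro ⟨d, a, b⟩ hp
      have hp' : d < n ∧ a + b = d := by simpa using hp
      have : (Finsupp.equivFunOnFinite.symm ![a, b] : Fin 2 →₀ ℕ).degree < n := by
        rw [Finsupp.degree_eq_sum, Fin.sum_univ_two]
        simp only [Finsupp.equivFunOnFinite_symm_apply_apply, Matrix.cons_val_zero,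
          Matrix.cons_val_one]
        omega
      simpa using this
    · intro e _
      ext i
      fin_cases i <;> simp
    · rintro ⟨d, a, b⟩ hp
      have hp' : d < n ∧ a + b = d := by simpa using hp
      obtain ⟨_, rfl⟩ := hp'
      simp
  rw [h1, Finset.card_sigma]
  simp only [Finset.Nat.card_antidiagonal]
  clear h1
  induction n with
  | zero => rfl
  | succ m ih =>
    rw [Finset.sum_range_succ, ih, Nat.choose_succ_succ' (m + 1) 1, Nat.choose_one_right]
    ring

private theorem base_card_tfS (d : ℕ) : Fintype.card (ShghE.tfS d) = (d + 2).choose 2 := by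
  have h : (ShghE.tfS d).card =
      (Finsupp.finite_of_degree_lt (σ := Fin 2) (d + 1)).toFinset.card := by
    congr 1
    ext e
    rw [ShghE.mem_tfS]
    simp
  rw [Fintype.card_coe, h, base_card]

private theorem base_step {K : Type u} [Field K] (s d : ℕ) (μ : Fin (s + 1) → ℕ)
    (P : Fin (s + 1) → Fin 2 → K) (hP : ∀ i j, i ≠ j → P i 0 ≠ P j 0)
    (hμ : ∑ i, μ i ≤ d + 1) :
    Module.finrank K (ShghT.LS d μ P) + (μ 0 + 1).choose 2 ≤
      Module.finrank K (ShghT.LS d (fun i : Fin s => μ i.succ) (fun i : Fin s => P i.succ)) := by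
  classical
  set A := ShghT.LS d μ P with hA
  set B := ShghT.LS d (fun i : Fin s => μ i.succ) (fun i : Fin s => P i.succ) with hB
  have hAB : A ≤ B := fun f hf => ⟨hf.1, fun i => hf.2 i.succ⟩
  rcases Nat.eq_zero_or_pos (μ 0) with h0 | h0
  · rw [h0]
    have := Submodule.finrank_mono hAB
    simpa using this
  set G : MvPolynomial (Fin 2) K := ∏ i : Fin s, (X 0 - C (P i.succ 0)) ^ μ i.succ with hG
  have hGdeg : G.totalDegree ≤ ∑ i : Fin s, μ i.succ := by
    refine (totalDegree_finsetProd _ _).trans (Finset.sum_le_sum fun i _ => ?_)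
    refine (totalDegree_pow _ _).trans ?_
    have : (X 0 - C (P i.succ 0) : MvPolynomial (Fin 2) K).totalDegree ≤ 1 := by
      refine (totalDegree_sub _ _).trans (max_le ?_ ?_)
      · rw [totalDegree_X]
      · rw [totalDegree_C]
        exact Nat.zero_le _
    calc μ i.succ * (X 0 - C (P i.succ 0) : MvPolynomial (Fin 2) K).totalDegree
        ≤ μ i.succ * 1 := Nat.mul_le_mul_left _ this
      _ = μ i.succ := mul_one _
  have hGev : eval ![P 0 0, P 0 1] G ≠ 0 := by
    rw [hG, map_prod]
    refine Finset.prod_ne_zero_iff.2 fun i _ => ?_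
    rw [map_pow]
    refine pow_ne_zero _ ?_
    simp only [map_sub, eval_X, eval_C, Matrix.cons_val_zero]
    exact sub_ne_zero.2 (hP 0 i.succ (Fin.succ_ne_zero i).symm)
  have hG0 : G ≠ 0 := by
    rintro h
    rw [h, map_zero] at hGev
    exact hGev rfl
  set E : Submodule K (MvPolynomial (Fin 2) K) :=
    ShghT.LS (μ 0 - 1) (fun i : Fin 0 => i.elim0) (fun i : Fin 0 => i.elim0) with hE
  set U := E.map (LinearMap.mulLeft K G) with hU
  have hinj : Function.Injective (LinearMap.mulLeft K G) := by
    intro f g hfg
    exact mul_left_cancel₀ hG0 hfg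
  have hUfin : Module.finrank K U = Module.finrank K E :=
    (Submodule.equivMapOfInjective _ hinj E).finrank_eq.symm
  have hEfin : (μ 0 + 1).choose 2 ≤ Module.finrank K E := by
    have := ShghT.le_finrank_LS (K := K) (μ 0 - 1) (fun i : Fin 0 => i.elim0)
      (fun i : Fin 0 => i.elim0)
    simp only [Finset.univ_eq_empty, Finset.sum_empty, add_zero] at this
    have h1 : μ 0 - 1 + 2 = μ 0 + 1 := by omega
    rw [h1] at this
    exact this
  have hUB : U ≤ B := by
    rintro _ ⟨g, hg, rfl⟩
    refine ⟨?_, fun i => ?_⟩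
    · refine (totalDegree_mul G g).trans ?_
      have h1 : g.totalDegree ≤ μ 0 - 1 := hg.1
      rw [Fin.sum_univ_succ] at hμ
      omega
    · change G * g ∈ _
      refine Ideal.mul_mem_right _ _ ?_
      rw [hG, ← Finset.mul_prod_erase Finset.univ _ (Finset.mem_univ i)]
      refine Ideal.mul_mem_right _ _ (Ideal.pow_mem_pow ?_ _)
      exact Ideal.subset_span (Or.inl rfl)
  have hUA : U ⊓ A = ⊥ := by
    rw [Submodule.eq_bot_iff]
    rintro f ⟨⟨g, hg, rfl⟩, hfA⟩
    have h1 : G * g ∈ ShghT.pt (P 0 0) (P 0 1) ^ μ 0 := hfA.2 0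
    have h2 : g.totalDegree ≤ μ 0 - 1 := hg.1
    have h3 : g = 0 := base_cancel (P 0 0) (P 0 1) (μ 0) G g hGev (by omega) h1
    rw [h3, map_zero]
  haveI : Module.Finite K E := by rw [hE]; infer_instance
  haveI : Module.Finite K U := by rw [hU]; infer_instance
  have h4 := Submodule.finrank_sup_add_finrank_inf_eq U A
  rw [hUA, finrank_bot, add_zero] at h4
  have h5 := Submodule.finrank_mono (sup_le hUB hAB)
  omega

theorem tBase : S_Base.{u} := by
  intro K _ s d μ P hP hμ
  refine le_antisymm ?_ (ShghT.le_finrank_LS d μ P)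
  induction s with
  | zero =>
    have h1 := ShghT.semib_finrank d μ P
    simp only [Finset.univ_eq_empty, Finset.sum_empty, add_zero]
    have h3 := base_card_tfS d
    omega
  | succ s ih =>
    have h1 := base_step s d μ P hP hμ
    have h2 := ih (fun i => μ i.succ) (fun i => P i.succ)
      (fun i j hij => hP _ _ (fun h => hij (Fin.succ_injective _ h))) (by
        rw [Fin.sum_univ_succ] at hμ
        omega)
    rw [Fin.sum_univ_succ]
    omega

end ShghJ
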