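import Pool.Agent.ShghJ.Spec

/-!
# ShghJ/Clo: the linear system is closed under the coefficientwise derivation
-/

namespace ShghJ

open MvPolynomial

universe u v w

theorem tClo (hDc : S_Dc.{u}) : S_Clo.{u} := by
  intro K _ D s d μ P hP f hf
  rw [ShghT.mem_LS] at hf ⊢
  refine ⟨?_, fun i => ?_⟩
  · rw [ShghE.tf_totalDegree_le]
    intro e he
    rw [mem_support_iff, coeff_Dc] at he
    refine ShghE.tf_totalDegree_le.1 hf.1 e ?_
    rw [mem_support_iff]
    intro h
    rw [h, map_zero] at he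
    exact he rfl
  · have h1 := (ShghE.tf_mem_iff _ _ _ _).1 (hf.2 i)
    refine (ShghE.tf_mem_iff _ _ _ _).2 fun x hx => ?_
    rw [hDc K D _ _ f, hP i 0, hP i 1, C_0, zero_mul, zero_mul, sub_zero, sub_zero, coeff_Dc,
      h1 x hx, map_zero]

end ShghJ
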