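import Pool.Agent.ShghJ.Spec

/-!
# ShghJ, Cnt
-/

namespace ShghJ

open MvPolynomial

universe u v w

/-- The coefficient of the leading form as a linear functional. -/
private noncomputable def cnt_phi {K : Type u} [Field K] (p : Fin 2 → K) (j i : ℕ) :
    MvPolynomial (Fin 2) K →ₗ[K] K :=
  (lcoeff K (ex i (j - i))).comp (ShghE.tfShift (p 0) (p 1)).toLinearMap

private theorem cnt_phi_apply {K : Type u} [Field K] (p : Fin 2 → K) (j i : ℕ)
    (f : MvPolynomial (Fin 2) K) : cnt_phi p j i f = lead p j f i := rfl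

open Classical in
private theorem cnt_functional {K : Type u} [Field K] {M : Type v} [AddCommGroup M] [Module K M]
    (A : Submodule K M) [Module.Finite K A] (φ : M →ₗ[K] K) :
    Module.finrank K A = Module.finrank K (A ⊓ LinearMap.ker φ : Submodule K M) +
      (if ∃ f ∈ A, φ f ≠ 0 then 1 else 0) := by
  have h1 := LinearMap.finrank_range_add_finrank_ker (φ.domRestrict A)
  have h2 : Module.finrank K (LinearMap.ker (φ.domRestrict A)) =
      Module.finrank K (A ⊓ LinearMap.ker φ : Submodule K M) := by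
    have h3 : (LinearMap.ker (φ.domRestrict A)).map A.subtype = A ⊓ LinearMap.ker φ := by
      ext f
      simp only [Submodule.mem_map, LinearMap.mem_ker, LinearMap.domRestrict_apply,
        Submodule.subtype_apply, Submodule.mem_inf]
      constructor
      · rintro ⟨g, hg, rfl⟩
        exact ⟨g.2, hg⟩
      · rintro ⟨hf1, hf2⟩
        exact ⟨⟨f, hf1⟩, hf2, rfl⟩
    rw [← h3]
    exact (Submodule.equivMapOfInjective _ A.injective_subtype _).finrank_eq
  have h4 : Module.finrank K (LinearMap.range (φ.domRestrict A)) =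
      (if ∃ f ∈ A, φ f ≠ 0 then 1 else 0) := by
    split_ifs with h
    · obtain ⟨f, hf, hf0⟩ := h
      have h5 : LinearMap.range (φ.domRestrict A) = ⊤ := by
        rw [LinearMap.range_eq_top]
        intro c
        refine ⟨(c * (φ f)⁻¹) • ⟨f, hf⟩, ?_⟩
        rw [map_smul, LinearMap.domRestrict_apply, smul_eq_mul, mul_assoc,
          inv_mul_cancel₀ hf0, mul_one]
      rw [h5, finrank_top, Module.finrank_self]
    · push Not at h
      have h5 : φ.domRestrict A = 0 := by
        ext f
        exact h f f.2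
      rw [h5, LinearMap.range_zero, finrank_bot]
  omega

/-- The members of `V_j` whose leading coefficients with index `≥ t` vanish. -/
private def cnt_W {K : Type u} [Field K] (V : Submodule K (MvPolynomial (Fin 2) K))
    (p : Fin 2 → K) (j t : ℕ) : Submodule K (MvPolynomial (Fin 2) K) where
  carrier := {f | f ∈ fil V p j ∧ ∀ i, t ≤ i → i ≤ j → lead p j f i = 0}
  add_mem' := fun {a b} ha hb => ⟨(fil V p j).add_mem ha.1 hb.1, fun i h1 h2 => by
    rw [← cnt_phi_apply, map_add, cnt_phi_apply, cnt_phi_apply, ha.2 i h1 h2, hb.2 i h1 h2,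
      add_zero]⟩
  zero_mem' := ⟨(fil V p j).zero_mem, fun i _ _ => by rw [← cnt_phi_apply, map_zero]⟩
  smul_mem' := fun c f hf => ⟨(fil V p j).smul_mem c hf.1, fun i h1 h2 => by
    rw [← cnt_phi_apply, map_smul, cnt_phi_apply, hf.2 i h1 h2, smul_zero]⟩

private theorem cnt_mem_W {K : Type u} [Field K] {V : Submodule K (MvPolynomial (Fin 2) K)}
    {p : Fin 2 → K} {j t : ℕ} {f : MvPolynomial (Fin 2) K} :
    f ∈ cnt_W V p j t ↔ f ∈ fil V p j ∧ ∀ i, t ≤ i → i ≤ j → lead p j f i = 0 := Iff.rfl

private theorem cnt_W_top {K : Type u} [Field K] (V : Submodule K (MvPolynomial (Fin 2) K))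
    (p : Fin 2 → K) (j : ℕ) : cnt_W V p j (j + 1) = fil V p j := by
  ext f
  rw [cnt_mem_W]
  exact ⟨fun h => h.1, fun h => ⟨h, fun i h1 h2 => by omega⟩⟩

private theorem cnt_degree (e : Fin 2 →₀ ℕ) : e.degree = e 0 + e 1 := by
  rw [Finsupp.degree_eq_sum, Fin.sum_univ_two]

private theorem cnt_ex (e : Fin 2 →₀ ℕ) : ex (e 0) (e 1) = e := by
  ext i
  fin_cases i <;> simp [ex]

private theorem cnt_ex_degree (i j : ℕ) : (ex i j).degree = i + j := by
  rw [cnt_degree]
  simp [ex]

private theorem cnt_W_bot {K : Type u} [Field K] (V : Submodule K (MvPolynomial (Fin 2) K))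
    (p : Fin 2 → K) (j : ℕ) : cnt_W V p j 0 = fil V p (j + 1) := by
  ext f
  rw [cnt_mem_W]
  have hm : ∀ m, f ∈ ShghT.pt (p 0) (p 1) ^ m ↔
      ∀ x : Fin 2 →₀ ℕ, x.degree < m → (ShghE.tfShift (p 0) (p 1) f).coeff x = 0 :=
    fun m => ShghE.tf_mem_iff (p 0) (p 1) m f
  constructor
  · rintro ⟨⟨h1, h2⟩, h3⟩
    refine ⟨h1, (hm _).2 fun x hx => ?_⟩
    rcases Nat.lt_or_ge x.degree j with h4 | h4
    · exact (hm _).1 h2 x h4
    · have h5 : x.degree = j := by omega
      have h6 := h3 (x 0) (Nat.zero_le _) (by rw [cnt_degree] at h5; omega)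
      unfold lead at h6
      have h7 : j - x 0 = x 1 := by rw [cnt_degree] at h5; omega
      rwa [h7, cnt_ex] at h6
  · rintro ⟨h1, h2⟩
    have h3 := (hm _).1 h2
    refine ⟨⟨h1, (hm _).2 fun x hx => h3 x (by omega)⟩, fun i _ hi => ?_⟩
    unfold lead
    refine h3 _ ?_
    rw [cnt_ex_degree]
    omega

private theorem cnt_W_step {K : Type u} [Field K] (V : Submodule K (MvPolynomial (Fin 2) K))
    (p : Fin 2 → K) (j t : ℕ) (ht : t ≤ j) :
    cnt_W V p j t = cnt_W V p j (t + 1) ⊓ LinearMap.ker (cnt_phi p j t) := by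
  ext f
  rw [Submodule.mem_inf, cnt_mem_W, cnt_mem_W, LinearMap.mem_ker, cnt_phi_apply]
  constructor
  · rintro ⟨h1, h2⟩
    exact ⟨⟨h1, fun i h3 h4 => h2 i (by omega) h4⟩, h2 t le_rfl ht⟩
  · rintro ⟨⟨h1, h2⟩, h3⟩
    refine ⟨h1, fun i h4 h5 => ?_⟩
    rcases Nat.eq_or_lt_of_le h4 with h6 | h6
    · rw [← h6]; exact h3
    · exact h2 i h6 h5

theorem tCnt : S_Cnt.{u} := by
  classical
  intro K _ V p j hV
  have hfin : ∀ t, Module.Finite K (cnt_W V p j t) := by
    intro t
    have hle : cnt_W V p j t ≤ V := fun f hf => hf.1.1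
    exact Submodule.finiteDimensional_of_le hle
  have key : ∀ t, t ≤ j + 1 → Module.finrank K (cnt_W V p j t) =
      Module.finrank K (cnt_W V p j 0) + ((degSet V p j).filter (fun i => i < t)).card := by
    intro t
    induction t with
    | zero => intro _; simp
    | succ t ih =>
      intro ht
      haveI := hfin (t + 1)
      rw [cnt_functional (cnt_W V p j (t + 1)) (cnt_phi p j t), ← cnt_W_step V p j t (by omega),
        ih (by omega), add_assoc]
      congr 1
      have h1 : (∃ f ∈ cnt_W V p j (t + 1), cnt_phi p j t f ≠ 0) ↔ t ∈ degSet V p j := by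
        unfold degSet
        rw [Finset.mem_filter, Finset.mem_range]
        constructor
        · rintro ⟨f, hf, hf0⟩
          exact ⟨by omega, f, hf.1, hf0, fun i' h2 h3 => hf.2 i' h2 h3⟩
        · rintro ⟨-, f, hf, hf0, hf1⟩
          exact ⟨f, ⟨hf, fun i h2 h3 => hf1 i h2 h3⟩, hf0⟩
      by_cases hmem : t ∈ degSet V p j
      · rw [if_pos (h1.2 hmem)]
        have h2 : (degSet V p j).filter (fun i => i < t + 1) =
            insert t ((degSet V p j).filter (fun i => i < t)) := by
          ext i
          simp only [Finset.mem_filter, Finset.mem_insert]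
          constructor
          · rintro ⟨h3, h4⟩
            rcases Nat.lt_or_ge i t with h5 | h5
            · exact Or.inr ⟨h3, h5⟩
            · left; omega
          · rintro (rfl | ⟨h3, h4⟩)
            · exact ⟨hmem, Nat.lt_succ_self _⟩
            · exact ⟨h3, by omega⟩
        rw [h2, Finset.card_insert_of_notMem (by simp)]
      · rw [if_neg (fun h => hmem (h1.1 h)), add_zero]
        congr 1
        ext i
        simp only [Finset.mem_filter]
        constructor
        · rintro ⟨h3, h4⟩
          exact ⟨h3, by omega⟩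
        · rintro ⟨h3, h4⟩
          refine ⟨h3, ?_⟩
          rcases Nat.lt_or_ge i t with h5 | h5
          · exact h5
          · have : i = t := by omega
            subst this
            exact absurd h3 hmem
  have h1 := key (j + 1) le_rfl
  rw [cnt_W_top, cnt_W_bot] at h1
  have h2 : (degSet V p j).filter (fun i => i < j + 1) = degSet V p j := by
    rw [Finset.filter_eq_self]
    intro i hi
    unfold degSet at hi
    exact Finset.mem_range.1 (Finset.mem_filter.1 hi).1
  rw [h2] at h1
  exact h1

end ShghJ
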