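import Pool.Agent.ShghJ.Spec

/-!
# ShghJ, Dc: the coefficientwise derivation and translations
-/

namespace ShghJ

open MvPolynomial

universe u v w

private theorem dc_mul {K : Type u} [Field K] (D : Derivation ℤ K K)
    (f g : MvPolynomial (Fin 2) K) : Dc D (f * g) = Dc D f * g + f * Dc D g := by
  classical
  ext e
  rw [coeff_Dc, coeff_add, coeff_mul, coeff_mul, coeff_mul, map_sum, ← Finset.sum_add_distrib]
  refine Finset.sum_congr rfl fun x _ => ?_
  rw [Derivation.leibniz, coeff_Dc, coeff_Dc, smul_eq_mul, smul_eq_mul]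
  ring

private theorem dc_C {K : Type u} [Field K] (D : Derivation ℤ K K) (c : K) :
    Dc D (C c) = C (D c) := by
  classical
  ext e
  rw [coeff_Dc, coeff_C, coeff_C]
  split_ifs with h
  · rfl
  · exact map_zero D

private theorem dc_X {K : Type u} [Field K] (D : Derivation ℤ K K) (i : Fin 2) :
    Dc D (X i) = 0 := by
  classical
  ext e
  rw [coeff_Dc, coeff_X', coeff_zero]
  split_ifs with h
  · exact Derivation.map_one_eq_zero D
  · exact map_zero D

theorem tDc : S_Dc.{u} := by
  intro K _ D a b f
  induction f using MvPolynomial.induction_on with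
  | C c =>
    rw [dc_C, ShghE.tfShift_C, ShghE.tfShift_C, dc_C, pderiv_C, pderiv_C]
    ring
  | add f g hf hg =>
    rw [map_add, map_add, hf, hg, map_add, map_add, map_add, map_add]
    ring
  | mul_X f i hf =>
    rw [dc_mul, dc_X, mul_zero, add_zero, map_mul, hf, map_mul, dc_mul, pderiv_mul, pderiv_mul]
    fin_cases i
    · simp only [Fin.zero_eta, Fin.isValue]
      rw [ShghE.tfShift_X0, map_add, dc_X, dc_C, map_add, map_add, pderiv_X_self, pderiv_C,
        pderiv_X_of_ne (by decide), pderiv_C]
      ring
    · simp only [Fin.mk_one, Fin.isValue]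
      rw [ShghE.tfShift_X1, map_add, dc_X, dc_C, map_add, map_add, pderiv_X_self, pderiv_C,
        pderiv_X_of_ne (by decide), pderiv_C]
      ring

end ShghJ
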