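import Pool.Agent.ShghJ.Spec

/-!
# ShghJ/Der: the derivations of the field of rational functions
-/

namespace ShghJ

open MvPolynomial

universe u v w

private theorem der_mk {R A B : Type*} [CommRing R] [CommRing A] [Algebra R A] [AddCommGroup B]
    [Module A B] [Module R B] (f : A → B) (hadd : ∀ x y, f (x + y) = f x + f y)
    (hs : ∀ (r : R) x, f (r • x) = r • f x) (hf : ∀ x y, f (x * y) = x • f y + y • f x) :
    ∃ D : Derivation R A B, ∀ x, D x = f x := by
  let L : A →ₗ[R] B :=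
    { toFun := f
      map_add' := hadd
      map_smul' := hs }
  exact ⟨Derivation.mk' L hf, fun x => rfl⟩

theorem tDer : S_Der.{u} := by
  classical
  intro F _ i c
  let φ : MvPolynomial (ℕ × Fin 2) F →ₐ[F] TrivSqZeroExt (UF F) (UF F) :=
    aeval (fun j => TrivSqZeroExt.inl (up F j.1 j.2) +
      TrivSqZeroExt.inr (if j.1 = i ∧ j.2 = c then 1 else 0))
  have hφX : ∀ j, φ (X j) = TrivSqZeroExt.inl (up F j.1 j.2) +
      TrivSqZeroExt.inr (if j.1 = i ∧ j.2 = c then 1 else 0) := fun j => aeval_X _ j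
  have hφ1 : ∀ r, (φ r).fst = algebraMap (MvPolynomial (ℕ × Fin 2) F) (UF F) r := by
    intro r
    have h1 : (TrivSqZeroExt.fstHom F (UF F) (UF F)).comp φ =
        IsScalarTower.toAlgHom F (MvPolynomial (ℕ × Fin 2) F) (UF F) := by
      apply MvPolynomial.algHom_ext
      intro j
      change (φ (X j)).fst = algebraMap (MvPolynomial (ℕ × Fin 2) F) (UF F) (X j)
      rw [hφX, TrivSqZeroExt.fst_add, TrivSqZeroExt.fst_inl, TrivSqZeroExt.fst_inr, add_zero]
      rfl
    exact DFunLike.congr_fun h1 r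
  have hu : ∀ y : nonZeroDivisors (MvPolynomial (ℕ × Fin 2) F), IsUnit (φ.toRingHom y) := by
    intro y
    rw [TrivSqZeroExt.isUnit_iff_isUnit_fst]
    change IsUnit (φ (y : MvPolynomial (ℕ × Fin 2) F)).fst
    rw [hφ1]
    exact IsLocalization.map_units (UF F) y
  let Φ : UF F →+* TrivSqZeroExt (UF F) (UF F) := IsLocalization.lift hu
  have hΦ : ∀ r, Φ (algebraMap (MvPolynomial (ℕ × Fin 2) F) (UF F) r) = φ r := fun r =>
    IsLocalization.lift_eq hu r
  have hΦ1 : ∀ x, (Φ x).fst = x := by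
    intro x
    have h1 : (TrivSqZeroExt.fstHom F (UF F) (UF F)).toRingHom.comp Φ = RingHom.id (UF F) := by
      apply IsLocalization.ringHom_ext (nonZeroDivisors (MvPolynomial (ℕ × Fin 2) F))
      apply RingHom.ext
      intro r
      change (Φ (algebraMap (MvPolynomial (ℕ × Fin 2) F) (UF F) r)).fst = _
      rw [hΦ, hφ1]
      rfl
    exact DFunLike.congr_fun h1 x
  have hadd : ∀ x y, (Φ (x + y)).snd = (Φ x).snd + (Φ y).snd := fun x y => by
    rw [map_add, TrivSqZeroExt.snd_add]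
  have hmul : ∀ x y, (Φ (x * y)).snd = x • (Φ y).snd + y • (Φ x).snd := by
    intro x y
    rw [map_mul, TrivSqZeroExt.snd_mul, hΦ1, hΦ1, op_smul_eq_mul, smul_eq_mul, smul_eq_mul,
      mul_comm y]
  have hint : ∀ n : ℤ, (Φ (n : UF F)).snd = 0 := fun n => by
    rw [map_intCast, TrivSqZeroExt.snd_intCast]
  obtain ⟨D, hD⟩ := der_mk (R := ℤ) (A := UF F) (B := UF F) (fun x => (Φ x).snd) hadd (by
    intro n x
    rw [Algebra.smul_def, eq_intCast, hmul, hint, smul_zero, add_zero, smul_eq_mul,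
      zsmul_eq_mul]) hmul
  refine ⟨D, fun i' c' => ?_⟩
  rw [hD]
  change (Φ (algebraMap (MvPolynomial (ℕ × Fin 2) F) (UF F) (X (i', c')))).snd = _
  rw [hΦ, hφX, TrivSqZeroExt.snd_add, TrivSqZeroExt.snd_inl, TrivSqZeroExt.snd_inr, zero_add]

end ShghJ
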