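import Pool.Agent.ShghJ.Spec
import Pool.Agent.ShghT.Final

/-!
# ShghJ/Inv: the dimension depends only on the multiset of the multiplicities
-/

namespace ShghJ

open MvPolynomial

universe u v w

private theorem inv_equiv {s t : ℕ} (f : Fin t → ℕ) (g : Fin s → ℕ)
    (h : Finset.univ.val.map f = Finset.univ.val.map g) : ∃ σ : Fin t ≃ Fin s, ∀ i, g (σ i) = f i := by
  classical
  have hc : ∀ n, Nonempty ({i // f i = n} ≃ {i // g i = n}) := by
    intro n
    refine ⟨Fintype.equivOfCardEq ?_⟩
    have h1 := congrArg (Multiset.count n) h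
    rw [Multiset.count_map, Multiset.count_map] at h1
    rw [Fintype.card_subtype, Fintype.card_subtype, Finset.card_def, Finset.card_def,
      Finset.filter_val, Finset.filter_val]
    simpa only [eq_comm] using h1
  exact ⟨Equiv.ofFiberEquiv (fun n => (hc n).some), fun i => Equiv.ofFiberEquiv_map _ i⟩

private theorem inv_ind (F : Type u) [Field F] {s t : ℕ} (τ : Fin s → Fin t)
    (hτ : Function.Injective τ) :
    AlgebraicIndependent F (fun ij : Fin s × Fin 2 => up F (τ ij.1) ij.2) := by
  have h1 : AlgebraicIndependent F (X : ℕ × Fin 2 → MvPolynomial (ℕ × Fin 2) F) :=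
    MvPolynomial.algebraicIndependent_X _ _
  have h2 := h1.comp (fun ij : Fin s × Fin 2 => (((τ ij.1 : Fin t) : ℕ), ij.2)) (by
    rintro ⟨a, b⟩ ⟨a', b'⟩ hab
    rw [Prod.mk.injEq] at hab
    have h3 : a = a' := hτ (Fin.ext hab.1)
    have h4 : b = b' := hab.2
    rw [h3, h4])
  exact h2.map' (f := IsScalarTower.toAlgHom F (MvPolynomial (ℕ × Fin 2) F) (UF F))
    (IsFractionRing.injective (MvPolynomial (ℕ × Fin 2) F) (UF F))

private theorem inv_main (F : Type u) (K : Type v) [Field F] [Field K] [Algebra F K] {s t : ℕ}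
    (d : ℕ) (μ : Fin s → ℕ) (P : Fin s → Fin 2 → K)
    (hP : AlgebraicIndependent F (fun ij : Fin s × Fin 2 => P ij.1 ij.2))
    (ν : Fin t → ℕ) (σ : Fin t ≃ Fin s) (hσ : ∀ i, μ (σ i) = ν i) :
    Module.finrank K (ShghT.LS d μ P) =
      Module.finrank (UF F) (ShghT.LS d ν (fun i => up F i)) := by
  have hQ := inv_ind F σ.symm σ.symm.injective
  have h1 : Module.finrank K (ShghT.LS d μ P) =
      Module.finrank (UF F) (ShghT.LS d μ (fun i : Fin s => up F (σ.symm i))) :=
    le_antisymm (ShghT.finrank_LS_le P hP _ d μ)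
      (ShghT.finrank_LS_le (fun i : Fin s => up F (σ.symm i)) hQ P d μ)
  have h2 : ν = fun i => μ (σ i) := (funext hσ).symm
  have h3 : (fun i : Fin t => up F i) =
      fun i : Fin t => (fun i : Fin s => up F (σ.symm i)) (σ i) := by
    funext i
    show up F (i : ℕ) = up F ((σ.symm (σ i) : Fin t) : ℕ)
    rw [Equiv.symm_apply_apply]
  rw [h1, h2, h3, ShghT.LS_comp σ d μ (fun i : Fin s => up F (σ.symm i))]

theorem tInv : S_Inv.{u, v} := by
  intro F K _ _ _ s d μ P hP
  obtain ⟨σ, hσ⟩ := inv_equiv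
    (fun i : Fin (Finset.univ.val.map μ).toList.length => (Finset.univ.val.map μ).toList.get i) μ (by
      rw [Fin.univ_val_map, List.ofFn_get, Multiset.coe_toList])
  exact inv_main F K d μ P hP _ σ hσ

end ShghJ
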