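import Pool.Agent.ShghJ.Spec

/-!
# ShghJ/Mac: the inequality of Macaulay for a family closed under two derivations
-/

namespace ShghJ

open MvPolynomial

universe u v w

private theorem mac_shift_degree {A : Type*} [CommRing A] (a b : A) (f : MvPolynomial (Fin 2) A) :
    (ShghE.tfShift a b f).totalDegree ≤ f.totalDegree := by
  have hX : ∀ i : Fin 2, ((![X 0 + C a, X 1 + C b] : Fin 2 → MvPolynomial (Fin 2) A) i).totalDegree
      ≤ 1 := by
    intro i
    have h : ∀ (j : Fin 2) (c : A), (X j + C c : MvPolynomial (Fin 2) A).totalDegree ≤ 1 := by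
      intro j c
      refine (totalDegree_add _ _).trans (max_le ?_ ?_)
      · rw [X]
        refine (totalDegree_monomial_le _ _).trans ?_
        simp
      · rw [totalDegree_C]
        exact Nat.zero_le _
    fin_cases i
    · exact h 0 a
    · exact h 1 b
  unfold ShghE.tfShift
  rw [aeval_def, eval₂_eq']
  refine totalDegree_finsetSum_le fun e he => ?_
  refine (totalDegree_mul _ _).trans ?_
  have h1 : ((algebraMap A (MvPolynomial (Fin 2) A)) (coeff e f)).totalDegree = 0 := totalDegree_C _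
  rw [h1, zero_add]
  refine (totalDegree_finsetProd _ _).trans ?_
  refine le_trans (Finset.sum_le_sum fun i _ => (totalDegree_pow _ _).trans
    (Nat.mul_le_mul_left _ (hX i))) ?_
  simp only [mul_one]
  have h2 := le_totalDegree he
  rwa [Finsupp.sum_fintype _ _ (fun _ => rfl)] at h2

private theorem mac_ex_degree (i j : ℕ) : (ex i j).degree = i + j := by
  unfold ex
  rw [Finsupp.degree_eq_sum, Fin.sum_univ_two]
  simp

private theorem mac_ex_add0 (i j : ℕ) : ex i j + Finsupp.single 0 1 = ex (i + 1) j := by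
  unfold ex
  rw [Finsupp.single_add]
  abel

private theorem mac_ex_add1 (i j : ℕ) : ex i j + Finsupp.single 1 1 = ex i (j + 1) := by
  unfold ex
  rw [Finsupp.single_add]
  abel

private theorem mac_ex0 (i j : ℕ) : ex i j 0 = i := by
  unfold ex
  simp

private theorem mac_ex1 (i j : ℕ) : ex i j 1 = j := by
  unfold ex
  simp

/-- Combinatorics of the gap. -/
private theorem mac_card (S T : Finset ℕ) (j : ℕ) (hT : ∀ i ∈ T, i ≤ j + 1)
    (h1 : ∀ i ∈ T, 1 ≤ i → i - 1 ∈ S) (h2 : ∀ i ∈ T, i ≤ j → i ∈ S) (hS : ∀ i ∈ S, i ≤ j)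
    (hc : S.card ≤ j) : T.card ≤ S.card := by
  classical
  have hex : ∃ g ∈ Finset.range (j + 1), g ∉ S := by
    by_contra hcon
    push Not at hcon
    have h3 := Finset.card_le_card (show Finset.range (j + 1) ⊆ S from hcon)
    rw [Finset.card_range] at h3
    omega
  obtain ⟨g, hg, hgS⟩ := hex
  rw [Finset.mem_range] at hg
  have hne : ∀ i ∈ T, i < g ∨ g + 1 < i := by
    intro i hi
    by_contra hcon
    have h3 : i = g ∨ i = g + 1 := by omega
    rcases h3 with rfl | rfl
    · exact hgS (h2 i hi (by omega))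
    · exact hgS (h1 (g + 1) hi (by omega))
  refine Finset.card_le_card_of_injOn (fun i => if i < g then i else i - 1) ?_ ?_
  · intro i hi
    rw [Finset.mem_coe] at hi ⊢
    by_cases hig : i < g
    · simp only [hig, if_true]
      exact h2 i hi (by omega)
    · simp only [hig, if_false]
      rcases hne i hi with h3 | h3
      · exact absurd h3 hig
      · exact h1 i hi (by omega)
  · intro i hi i' hi' h
    rw [Finset.mem_coe] at hi hi'
    have h3 := hne i hi
    have h4 := hne i' hi'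
    simp only at h
    split_ifs at h <;> omega

theorem tMac (hDc : S_Dc.{u}) (hCnt : S_Cnt.{u}) : S_Mac.{u} := by
  classical
  intro K _ D p V d j hfin hD hdeg hclo hchar hle
  have c1 := hCnt K V p j hfin
  have c2 := hCnt K V p (j + 1) hfin
  have hmemS : ∀ (j i : ℕ), i ∈ degSet V p j ↔ i ≤ j ∧ ∃ f ∈ fil V p j, lead p j f i ≠ 0 ∧
      ∀ i', i < i' → i' ≤ j → lead p j f i' = 0 := by
    intro j i
    unfold degSet
    rw [Finset.mem_filter, Finset.mem_range, Nat.lt_succ_iff]
  -- the degree is at most `d`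
  have hjd : ∀ i ∈ degSet V p (j + 1), j + 1 ≤ d := by
    intro i hi
    rw [hmemS] at hi
    obtain ⟨hij, f, hf, hl, -⟩ := hi
    by_contra hcon
    apply hl
    unfold lead
    refine coeff_eq_zero_of_totalDegree_lt ?_
    refine lt_of_le_of_lt ((mac_shift_degree _ _ f).trans (hdeg f hf.1)) ?_
    have h1 : (ex i (j + 1 - i)).degree = j + 1 := by
      rw [mac_ex_degree]
      omega
    have h2 : (ex i (j + 1 - i)).degree = ∑ a ∈ (ex i (j + 1 - i)).support, (ex i (j + 1 - i)) a := rfl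
    rw [← h2, h1]
    omega
  -- the vanishing of the coefficients
  have hco : ∀ f ∈ fil V p (j + 1), ∀ x : Fin 2 →₀ ℕ, x.degree < j + 1 →
      (ShghE.tfShift (p 0) (p 1) f).coeff x = 0 := fun f hf =>
    (ShghE.tf_mem_iff _ _ _ _).1 hf.2
  have hsh0 : ∀ f, ShghE.tfShift (p 0) (p 1) (Dc (D 0) f) =
      Dc (D 0) (ShghE.tfShift (p 0) (p 1) f) - pderiv 0 (ShghE.tfShift (p 0) (p 1) f) := by
    intro f
    rw [hDc K (D 0) (p 0) (p 1) f, hD 0 0, hD 0 1, if_pos rfl, if_neg (by decide), C_1, C_0,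
      one_mul, zero_mul, sub_zero]
  have hsh1 : ∀ f, ShghE.tfShift (p 0) (p 1) (Dc (D 1) f) =
      Dc (D 1) (ShghE.tfShift (p 0) (p 1) f) - pderiv 1 (ShghE.tfShift (p 0) (p 1) f) := by
    intro f
    rw [hDc K (D 1) (p 0) (p 1) f, hD 1 0, hD 1 1, if_pos rfl, if_neg (by decide), C_1, C_0,
      one_mul, zero_mul, sub_zero]
  have hc0 : ∀ f ∈ fil V p (j + 1), ∀ x : Fin 2 →₀ ℕ, x.degree < j + 1 →
      (ShghE.tfShift (p 0) (p 1) (Dc (D 0) f)).coeff x =
        - ((ShghE.tfShift (p 0) (p 1) f).coeff (x + Finsupp.single 0 1) * (x 0 + 1)) := by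
    intro f hf x hx
    rw [hsh0, coeff_sub, coeff_Dc, hco f hf x hx, map_zero, coeff_pderiv, zero_sub]
  have hc1 : ∀ f ∈ fil V p (j + 1), ∀ x : Fin 2 →₀ ℕ, x.degree < j + 1 →
      (ShghE.tfShift (p 0) (p 1) (Dc (D 1) f)).coeff x =
        - ((ShghE.tfShift (p 0) (p 1) f).coeff (x + Finsupp.single 1 1) * (x 1 + 1)) := by
    intro f hf x hx
    rw [hsh1, coeff_sub, coeff_Dc, hco f hf x hx, map_zero, coeff_pderiv, zero_sub]
  have hdg : ∀ (c : Fin 2) (x : Fin 2 →₀ ℕ), (x + Finsupp.single c 1).degree = x.degree + 1 := by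
    intro c x
    rw [map_add, Finsupp.degree_single]
  have hm0 : ∀ f ∈ fil V p (j + 1), Dc (D 0) f ∈ fil V p j := by
    intro f hf
    refine ⟨hclo 0 f hf.1, (ShghE.tf_mem_iff _ _ _ _).2 fun x hx => ?_⟩
    rw [hc0 f hf x (by omega), hco f hf _ (by rw [hdg]; omega), zero_mul, neg_zero]
  have hm1 : ∀ f ∈ fil V p (j + 1), Dc (D 1) f ∈ fil V p j := by
    intro f hf
    refine ⟨hclo 1 f hf.1, (ShghE.tf_mem_iff _ _ _ _).2 fun x hx => ?_⟩
    rw [hc1 f hf x (by omega), hco f hf _ (by rw [hdg]; omega), zero_mul, neg_zero]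
  have hl0 : ∀ f ∈ fil V p (j + 1), ∀ i ≤ j, lead p j (Dc (D 0) f) i =
      - (lead p (j + 1) f (i + 1) * ((i + 1 : ℕ) : K)) := by
    intro f hf i hi
    unfold lead
    rw [hc0 f hf _ (by rw [mac_ex_degree]; omega), mac_ex_add0, mac_ex0]
    have h1 : j + 1 - (i + 1) = j - i := by omega
    rw [h1]
    push_cast
    rfl
  have hl1 : ∀ f ∈ fil V p (j + 1), ∀ i ≤ j, lead p j (Dc (D 1) f) i =
      - (lead p (j + 1) f i * ((j + 1 - i : ℕ) : K)) := by
    intro f hf i hi
    unfold lead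
    rw [hc1 f hf _ (by rw [mac_ex_degree]; omega), mac_ex_add1, mac_ex1]
    have h1 : j + 1 - i = j - i + 1 := by omega
    rw [h1]
    push_cast
    rfl
  have key : (degSet V p (j + 1)).card ≤ (degSet V p j).card := by
    refine mac_card _ _ j (fun i hi => ((hmemS _ _).1 hi).1) ?_ ?_
      (fun i hi => ((hmemS _ _).1 hi).1) (by omega)
    · intro i hi hi1
      have hd := hjd i hi
      rw [hmemS] at hi
      obtain ⟨hij, f, hf, hl, hz⟩ := hi
      rw [hmemS]
      refine ⟨by omega, Dc (D 0) f, hm0 f hf, ?_, ?_⟩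
      · rw [hl0 f hf (i - 1) (by omega), Nat.sub_add_cancel hi1]
        exact neg_ne_zero.2 (mul_ne_zero hl (hchar i hi1 (by omega)))
      · intro i' h1 h2
        rw [hl0 f hf i' h2, hz (i' + 1) (by omega) (by omega), zero_mul, neg_zero]
    · intro i hi hi1
      have hd := hjd i hi
      rw [hmemS] at hi
      obtain ⟨hij, f, hf, hl, hz⟩ := hi
      rw [hmemS]
      refine ⟨hi1, Dc (D 1) f, hm1 f hf, ?_, ?_⟩
      · rw [hl1 f hf i hi1]
        exact neg_ne_zero.2 (mul_ne_zero hl (hchar (j + 1 - i) (by omega) (by omega)))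
      · intro i' h1 h2
        rw [hl1 f hf i' h2, hz i' h1 (by omega), zero_mul, neg_zero]
  have c3 : Module.finrank K (fil V p (j + 1)) = Module.finrank K (fil V p (j + 2)) +
      (degSet V p (j + 1)).card := c2
  omega

end ShghJ
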