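import Pool.Agent.ShghJ.Geo
import Pool.Agent.ShghJ.Base
import Pool.Agent.ShghJ.Cnt
import Pool.Agent.ShghJ.Dc
import Pool.Agent.ShghJ.Mac
import Pool.Agent.ShghJ.Clo
import Pool.Agent.ShghJ.Der
import Pool.Agent.ShghJ.Inv

/-!
# The geometry, complete
-/

namespace ShghJ

open MvPolynomial

universe u v

/-- The dimension function of generic points has the properties used by the combinatorial part. -/
theorem hfun_hF (F : Type u) [Field F] (d : ℕ) (hd : ∀ n : ℕ, 1 ≤ n → n ≤ d → (n : F) ≠ 0) :
    HFun d (hF F d) :=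
  hfun_hF_of F d tInv tBase tCnt (tMac tDc tCnt) (tClo tDc) tDer hd

/-- The dimension of the linear system at any points with algebraically independent coordinates. -/
theorem finrank_LS_eq_hF {F : Type u} {k : Type v} [Field F] [Field k] [Algebra F k] {s : ℕ}
    (d : ℕ) (μ : Fin s → ℕ) (P : Fin s → Fin 2 → k)
    (hP : AlgebraicIndependent F (fun ij : Fin s × Fin 2 => P ij.1 ij.2)) :
    Module.finrank k (ShghT.LS d μ P) = hF F d (Finset.univ.val.map μ) :=
  tInv F k s d μ P hP

end ShghJ
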