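import Mathlib

/-!
# The combinatorial interface for plane curves through generic fat points

`h S` stands for the dimension of the space of polynomials of degree at most `d` which have the
multiplicities `S` at generic points of the plane.  `HFun d h` lists the only properties of `h`
which the counting part of the proof uses.
-/

namespace ShghJ

/-- The triangular number `j (j + 1) / 2`, the number of conditions of a point of multiplicity
`j`. -/
def T (j : ℕ) : ℕ := j * (j + 1) / 2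

/-- The number of conditions imposed by the multiplicities `S`. -/
def TT (S : Multiset ℕ) : ℕ := (S.map T).sum

/-- The properties of the function `h` (fixed degree `d`): independence of conditions for
multiplicities of sum at most `d + 1`, and the two Macaulay inequalities at a further generic
point (`Δ_j = h (j ::ₘ S) - h ((j + 1) ::ₘ S)`). -/
structure HFun (d : ℕ) (h : Multiset ℕ → ℕ) : Prop where
  /-- few conditions are independent -/
  small : ∀ W : Multiset ℕ, W.sum ≤ d + 1 → h W + TT W = T (d + 1)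
  /-- multiplicity zero is no condition -/
  zero : ∀ S : Multiset ℕ, h (0 ::ₘ S) = h S
  /-- higher multiplicity at a point is a stronger condition -/
  anti : ∀ (S : Multiset ℕ) (j : ℕ), h ((j + 1) ::ₘ S) ≤ h (j ::ₘ S)
  /-- `Δ_j ≤ j + 1` -/
  mac1 : ∀ (S : Multiset ℕ) (j : ℕ), h (j ::ₘ S) ≤ h ((j + 1) ::ₘ S) + (j + 1)
  /-- `Δ_j ≤ j` implies `Δ_(j+1) ≤ Δ_j` -/
  mac2 : ∀ (S : Multiset ℕ) (j : ℕ), h (j ::ₘ S) ≤ h ((j + 1) ::ₘ S) + j →
    2 * h ((j + 1) ::ₘ S) ≤ h (j ::ₘ S) + h ((j + 2) ::ₘ S)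
  /-- there is no nonzero polynomial of degree `≤ d` with a point of multiplicity `d + 1` -/
  big : ∀ S : Multiset ℕ, h ((d + 1) ::ₘ S) = 0

/-- `1 + log x` -/
noncomputable def L (x : ℝ) : ℝ := 1 + Real.log x

/-- Every multiplicity `x > m0` of `S` sees at least `2000 (1 + log x) ^ 2` multiplicities in the
interval `[x / 2, x)`. -/
def Rich (m0 : ℕ) (S : Multiset ℕ) : Prop :=
  ∀ x ∈ S, m0 < x → 2000 * (L x) ^ 2 ≤ ((S.filter (fun j => x ≤ 2 * j ∧ j < x)).card : ℝ)

/-- THE COMMON FORM: outside the window `h = max 0 χ`, for every degree. -/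
def CommonStmt : Prop := ∀ (d : ℕ) (h : Multiset ℕ → ℕ), HFun d h → ∀ (m0 : ℕ) (S : Multiset ℕ),
  1 ≤ m0 → Rich m0 S → 1 ≤ h S → T (d + 1) < h S + TT S →
    ((T (d + 1) : ℝ) - TT S < 100 * m0 ^ 2 * L m0 ∧
      -(100 * m0 * (m0 + 1) * (L m0) ^ 2) < (T (d + 1) : ℝ) - TT S)

/-- FULL FORM (`m0 = 1`): `h = max 0 χ` for every degree. -/
def RichStmt : Prop := ∀ (d : ℕ) (h : Multiset ℕ → ℕ), HFun d h → ∀ S : Multiset ℕ,
  Rich 1 S → h S = T (d + 1) - TT S

/-- WINDOW FORM (any multiplicities at most `M`; better constants than `CommonStmt` with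
`m0 = M`). -/
def WindowStmt : Prop := ∀ (d : ℕ) (h : Multiset ℕ → ℕ), HFun d h → ∀ (M : ℕ) (S : Multiset ℕ),
  1 ≤ M → (∀ x ∈ S, x ≤ M) →
    (30 * (M : ℝ) ^ 2 * L M ≤ (T (d + 1) : ℝ) - TT S → h S + TT S = T (d + 1)) ∧
    ((T (d + 1) : ℝ) - TT S ≤ -(30 * M * (M + 1) * (L M) ^ 2) → h S = 0)

/-- STRUCTURE OF ALL EXCEPTIONS (multiplicities in increasing order, no hypothesis): if
`h > max 0 χ` for the list `m`, then `m = A ++ μ :: B` where `A` is not special,
`0 < χ(A) < 30 μ² (1 + log μ)`, the sum of the multiplicities in `μ :: B` is at most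
`60 μ (1 + log μ)²` and each of them is at most `30 μ (1 + log μ)`. -/
def StructStmt : Prop := ∀ (d : ℕ) (h : Multiset ℕ → ℕ), HFun d h → ∀ (m : List ℕ),
  m.Pairwise (· ≤ ·) → 1 ≤ h m → T (d + 1) < h m + TT m →
  ∃ (A : List ℕ) (μ : ℕ) (B : List ℕ), m = A ++ μ :: B ∧ 2 ≤ μ ∧
    h A + TT A = T (d + 1) ∧ 1 ≤ h A ∧ (h A : ℝ) < 30 * (μ : ℝ) ^ 2 * L μ ∧
    (((μ :: B).sum : ℕ) : ℝ) ≤ 60 * μ * (L μ) ^ 2 ∧ ∀ x ∈ B, (x : ℝ) ≤ 30 * μ * L μ

end ShghJ
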