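import Pool.Agent.ShghJ.Spec
import Pool.Agent.ShghJ.HFun

/-!
# The geometry: `HFun d (hF F d)`
-/

namespace ShghJ

open MvPolynomial

universe u v w

theorem geo_T (j : ℕ) : T j = (j + 1).choose 2 := by
  rw [T, Nat.choose_two_right, Nat.add_sub_cancel, mul_comm]

/-- A derivation from its underlying function. -/
theorem geo_mkDer (K : Type u) [Field K] (D : K → K) (h1 : ∀ a b, D (a + b) = D a + D b)
    (h2 : ∀ a b, D (a * b) = a * D b + b * D a) : ∃ D' : Derivation ℤ K K, ∀ a, D' a = D a :=
  ⟨Derivation.mk' (AddMonoidHom.mk' D h1).toIntLinearMap fun a b => h2 a b, fun _ => rfl⟩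

section

variable (F : Type u) [Field F]

theorem geo_algInd {s : ℕ} (e : Fin s → ℕ) (he : Function.Injective e) :
    AlgebraicIndependent F (fun ij : Fin s × Fin 2 => up F (e ij.1) ij.2) := by
  have h1 : AlgebraicIndependent F (X : ℕ × Fin 2 → MvPolynomial (ℕ × Fin 2) F) :=
    MvPolynomial.algebraicIndependent_X _ _
  have h2 : AlgebraicIndependent F (fun x : ℕ × Fin 2 =>
      (IsScalarTower.toAlgHom F (MvPolynomial (ℕ × Fin 2) F) (UF F)) (X x)) :=
    h1.map' (f := IsScalarTower.toAlgHom F (MvPolynomial (ℕ × Fin 2) F) (UF F))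
      (IsFractionRing.injective (MvPolynomial (ℕ × Fin 2) F) (UF F))
  have h3 := h2.comp (fun ij : Fin s × Fin 2 => ((e ij.1, ij.2) : ℕ × Fin 2)) (by
    rintro ⟨a, b⟩ ⟨a', b'⟩ h
    simp only [Prod.mk.injEq] at h
    rw [he h.1, h.2])
  exact h3

theorem geo_up_ne {i j : ℕ} (h : i ≠ j) : up F i 0 ≠ up F j 0 := by
  intro hij
  have h1 := IsFractionRing.injective (MvPolynomial (ℕ × Fin 2) F) (UF F) hij
  have h2 := MvPolynomial.X_injective h1
  simp only [Prod.mk.injEq, and_true] at h2
  exact h h2

theorem geo_toList (S : Multiset ℕ) :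
    (Finset.univ.val.map (fun i : Fin S.toList.length => S.toList.get i)) = S := by
  rw [Fin.univ_val_map, List.ofFn_get, Multiset.coe_toList]

variable (d : ℕ)

/-- The linear system at the points `1, 2, ...`. -/
noncomputable def geoV (l : List ℕ) : Submodule (UF F) (MvPolynomial (Fin 2) (UF F)) :=
  ShghT.LS d (fun i : Fin l.length => l.get i) (fun i => up F (i + 1))

instance geo_finV (l : List ℕ) : Module.Finite (UF F) (geoV F d l) := by
  unfold geoV
  infer_instance

theorem geo_fil_le {K : Type*} [Field K] (V : Submodule K (MvPolynomial (Fin 2) K))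
    (p : Fin 2 → K) (j : ℕ) : fil V p j ≤ V := fun _ hf => hf.1

theorem geo_finite_of_le {K : Type*} [Field K] {V W : Submodule K (MvPolynomial (Fin 2) K)}
    (h : V ≤ W) (hW : Module.Finite K W) : Module.Finite K V :=
  Module.Finite.of_injective (Submodule.inclusion h) (Submodule.inclusion_injective h)

theorem geo_cons_LS {K : Type*} [Field K] {s : ℕ} (j : ℕ) (μ : Fin s → ℕ)
    (P : Fin (s + 1) → Fin 2 → K) :
    ShghT.LS d (Fin.cons j μ : Fin (s + 1) → ℕ) P =
      fil (ShghT.LS d μ (fun i => P i.succ)) (P 0) j := by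
  ext f
  constructor
  · intro h
    rw [ShghT.mem_LS] at h
    refine ⟨ShghT.mem_LS.2 ⟨h.1, fun i => ?_⟩, ?_⟩
    · have := h.2 i.succ
      rwa [Fin.cons_succ] at this
    · have := h.2 0
      rwa [Fin.cons_zero] at this
  · rintro ⟨h1, h2⟩
    rw [ShghT.mem_LS] at h1
    rw [ShghT.mem_LS]
    refine ⟨h1.1, fun i => ?_⟩
    refine Fin.cases ?_ (fun i => ?_) i
    · rw [Fin.cons_zero]
      exact h2
    · rw [Fin.cons_succ]
      exact h1.2 i

variable (hInv : S_Inv.{u, u})

include hInv

theorem geo_hF (S : Multiset ℕ) : hF F d S = Module.finrank (UF F) (geoV F d S.toList) := by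
  have h := hInv F (UF F) S.toList.length d (fun i => S.toList.get i) (fun i => up F (i + 1))
    (geo_algInd F (fun i : Fin S.toList.length => (i : ℕ) + 1) (fun a b h => by
      apply Fin.ext
      simpa using h))
  rw [geo_toList] at h
  exact h.symm

theorem geo_hF_cons (j : ℕ) (S : Multiset ℕ) :
    hF F d (j ::ₘ S) = Module.finrank (UF F) (fil (geoV F d S.toList) (up F 0) j) := by
  have h := hInv F (UF F) (S.toList.length + 1) d (Fin.cons j (fun i => S.toList.get i))
    (fun i => up F i) (geo_algInd F (fun i : Fin (S.toList.length + 1) => (i : ℕ))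
      Fin.val_injective)
  have e : (Finset.univ.val.map
      (Fin.cons j (fun i => S.toList.get i) : Fin (S.toList.length + 1) → ℕ)) = j ::ₘ S := by
    rw [Fin.univ_val_map, List.ofFn_succ]
    simp only [Fin.cons_zero, Fin.cons_succ]
    rw [List.ofFn_get, ← Multiset.cons_coe, Multiset.coe_toList]
  rw [e, geo_cons_LS] at h
  exact h.symm

/-- The dimension function of generic points has all the properties used by the combinatorial part,
if the integers `1, ..., d` are not zero in the field. -/
theorem hfun_hF_of (hBase : S_Base.{u}) (hCnt : S_Cnt.{u}) (hMac : S_Mac.{u}) (hClo : S_Clo.{u})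
    (hDer : S_Der.{u}) (hd : ∀ n : ℕ, 1 ≤ n → n ≤ d → (n : F) ≠ 0) : HFun d (hF F d) := by
  classical
  choose D₀ hD₀ using hDer F 0
  choose D hD' using fun c => geo_mkDer (UF F) (fun x => D₀ c x) (fun a b => map_add (D₀ c) a b)
    (fun a b => (D₀ c).leibniz a b)
  have hD : ∀ (c : Fin 2) (i' : ℕ) (c' : Fin 2),
      D c (up F i' c') = if i' = 0 ∧ c' = c then 1 else 0 := by
    intro c i' c'
    rw [hD', hD₀]
  have hD0 : ∀ c (i : ℕ) c', D c (up F (i + 1) c') = 0 := by
    intro c i c'
    rw [hD, if_neg]
    rintro ⟨h, -⟩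
    omega
  have hD1 : ∀ c c', D c (up F 0 c') = if c = c' then 1 else 0 := by
    intro c c'
    rw [hD]
    by_cases h : c = c'
    · rw [if_pos ⟨rfl, h.symm⟩, if_pos h]
    · rw [if_neg (fun h' => h h'.2.symm), if_neg h]
  have hdK : ∀ n : ℕ, 1 ≤ n → n ≤ d → (n : UF F) ≠ 0 := by
    intro n h1 h2 h3
    apply hd n h1 h2
    have h4 : algebraMap F (UF F) (n : F) = algebraMap F (UF F) 0 := by
      rw [map_natCast, map_zero, h3]
    exact (algebraMap F (UF F)).injective h4
  have anti : ∀ (S : Multiset ℕ) (j : ℕ), hF F d ((j + 1) ::ₘ S) ≤ hF F d (j ::ₘ S) := by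
    intro S j
    rw [geo_hF_cons F d hInv, geo_hF_cons F d hInv]
    have hfin : Module.Finite (UF F) (fil (geoV F d S.toList) (up F 0) j) :=
      geo_finite_of_le (geo_fil_le _ _ _) (geo_finV F d _)
    exact Submodule.finrank_mono fun f hf => ⟨hf.1, Ideal.pow_le_pow_right (Nat.le_succ j) hf.2⟩
  refine ⟨?_, ?_, anti, ?_, ?_, ?_⟩
  · intro W hW
    have h := hBase (UF F) W.toList.length d (fun i => W.toList.get i) (fun i => up F i)
      (fun i j hij => geo_up_ne F fun h => hij (Fin.ext h)) ?_
    · rw [geo_T]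
      have e : ∑ i : Fin W.toList.length, ((W.toList.get i) + 1).choose 2 = TT W := by
        have : TT W = ((Finset.univ.val.map (fun i : Fin W.toList.length => W.toList.get i)).map
          T).sum := by rw [geo_toList]; rfl
        rw [this, Multiset.map_map]
        refine Finset.sum_congr rfl fun i _ => ?_
        rw [Function.comp_apply, geo_T]
      rw [e] at h
      exact h
    · have e : ∑ i : Fin W.toList.length, (W.toList.get i) = W.sum := by
        have : W.sum = (Finset.univ.val.map
          (fun i : Fin W.toList.length => W.toList.get i)).sum := by rw [geo_toList]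
        rw [this]
        rfl
      rw [e]
      exact hW
  · intro S
    rw [geo_hF_cons F d hInv, geo_hF F d hInv]
    have e : fil (geoV F d S.toList) (up F 0) 0 = geoV F d S.toList := by
      ext f
      constructor
      · intro h
        exact h.1
      · intro h
        refine ⟨h, ?_⟩
        rw [pow_zero, Ideal.one_eq_top]
        exact Submodule.mem_top
    rw [e]
  · intro S j
    rw [geo_hF_cons F d hInv, geo_hF_cons F d hInv,
      hCnt (UF F) (geoV F d S.toList) (up F 0) j (geo_finV F d _)]
    have : (degSet (geoV F d S.toList) (up F 0) j).card ≤ j + 1 := by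
      unfold degSet
      exact (Finset.card_filter_le _ _).trans (by rw [Finset.card_range])
    omega
  · intro S j h
    rw [geo_hF_cons F d hInv, geo_hF_cons F d hInv] at h
    rw [geo_hF_cons F d hInv, geo_hF_cons F d hInv, geo_hF_cons F d hInv,
      add_comm (Module.finrank (UF F) (fil (geoV F d S.toList) (up F 0) j))]
    exact hMac (UF F) D (up F 0) (geoV F d S.toList) d j (geo_finV F d _) hD1
      (fun f hf => (ShghT.mem_LS.1 hf).1)
      (fun c f hf => hClo (UF F) (D c) _ d _ _ (fun i c' => hD0 c i c') f hf) hdK h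
  · intro S
    have h := hBase (UF F) 1 d (fun _ => d + 1) (fun i => up F i)
      (fun i j hij => absurd (Subsingleton.elim i j) hij) (by simp)
    have h0 : Module.finrank (UF F) (ShghT.LS d (fun _ : Fin 1 => d + 1) (fun i => up F i)) = 0 := by
      rw [Fin.sum_univ_one] at h
      have e : d + 1 + 1 = d + 2 := rfl
      rw [e] at h
      omega
    have hle : fil (geoV F d S.toList) (up F 0) (d + 1) ≤
        ShghT.LS d (fun _ : Fin 1 => d + 1) (fun i => up F i) := by
      intro f hf
      refine ShghT.mem_LS.2 ⟨(ShghT.mem_LS.1 hf.1).1, fun i => ?_⟩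
      have hi : i = 0 := Subsingleton.elim _ _
      subst hi
      exact hf.2
    rw [geo_hF_cons F d hInv]
    have := Submodule.finrank_mono hle
    omega

end

end ShghJ
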