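import Pool.Agent.ShghJ.CombD4

/-! # The window and the superabundance under a mass condition -/

namespace ShghJ

variable {d : ℕ} {h : Multiset ℕ → ℕ}

/-- If `62 m² ≤ x + ` (sum of the `T` of the smaller multiplicities) for all `m ≥ 2`, then `h ≥ 1`
implies `h - χ ≤ x / 13`, and `χ ≥ x / 8` implies `h = χ`. -/
theorem HFunD.massWin (H : HFunD d h) (x : ℕ) (S : Multiset ℕ)
    (hS : ∀ m ∈ S, 2 ≤ m → 62 * m ^ 2 ≤ x + TT (S.filter (fun j => j < m))) :
    (1 ≤ h S → 13 * (h S + TT S) ≤ x + 13 * T (d + 1)) ∧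
    (x + 8 * TT S ≤ 8 * T (d + 1) → h S + TT S = T (d + 1)) := by
  have hchi := H.chi_le S
  by_cases he : T (d + 1) < h S + TT S
  swap
  · constructor
    · intro _
      omega
    · intro _
      omega
  by_cases h0 : 1 ≤ h S
  swap
  · constructor
    · intro h1
      exact absurd h1 h0
    · intro h1
      omega
  have key : (h S : ℝ) + TT S ≤ x / 13 + T (d + 1) ∧ (T (d + 1) : ℝ) < x / 8 + TT S := by
    have hcoe : ((S.sort (· ≥ ·) : List ℕ) : Multiset ℕ) = S := Multiset.sort_eq _ _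
    have hs : (S.sort (· ≥ ·)).Pairwise (· ≥ ·) := Multiset.pairwise_sort _ _
    generalize S.sort (· ≥ ·) = m at *
    subst hcoe
    have hWK : (m : Multiset ℕ) = (m : Multiset ℕ) + (0 + 0) := by
      rw [add_zero, add_zero]
    have hx0 : (0 : ℝ) ≤ x := Nat.cast_nonneg _
    have hM : MassD 62 x m := by
      intro l hl h2
      have h3 := hS m[l] (by simp) h2
      have h4 := filter_le_drop hs hl
      have h5 : 62 * ((m[l] : ℕ) : ℝ) ^ 2 ≤ x +
          (TT ((m : Multiset ℕ).filter (fun j => j < m[l])) : ℝ) := by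
        exact_mod_cast h3
      have h6 : (TT ((m : Multiset ℕ).filter (fun j => j < m[l])) : ℝ) ≤
          (TT (m.drop l : List ℕ) : ℝ) := by exact_mod_cast h4
      linarith
    have h0c := h0
    rw [hWK] at h0 he
    obtain ⟨l, hl, y, A, hA, hsplit, h2, hyF, hmy, hyd, hxy, he1, hA1, hN, _, hB, _⟩ :=
      H.final (7 / 5) m (FdC x m) 0 (D1 := d + 1) (by simp) (HCD0_decr hM)
        (HCD_decr hx0 hs hM) 0 (by simp) h0 he
    have h3 := hB m[l] (by
      intro z hz
      obtain ⟨i, hi, hli, rfl⟩ := mem_drop hz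
      exact decr_le hs hli hi)
    rw [← hWK] at h3 hsplit
    have e1 := FdC_eq x m hl h2
    have h4 : TT (m : Multiset ℕ) =
        TT ((m.drop l : List ℕ) : Multiset ℕ) + TT A := by
      conv_lhs => rw [hsplit]
      rw [TT_add]
    have h3' : 2 * (TT (m.drop l : List ℕ) : ℝ) + 2 * h (m : Multiset ℕ) ≤
        2 * h A + (m[l] : ℕ) * y := by exact_mod_cast h3
    have hN' : (h A : ℝ) < (m[l] : ℕ) * y := by exact_mod_cast hN
    have he1' : (h A : ℝ) + TT A = T (d + 1) := by exact_mod_cast he1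
    have h4' : (TT (m : Multiset ℕ) : ℝ) = TT (m.drop l : List ℕ) + TT A := by
      exact_mod_cast h4
    have h0' : (1 : ℝ) ≤ h (m : Multiset ℕ) := by exact_mod_cast h0c
    have h2' : (2 : ℝ) ≤ (m[l] : ℕ) := by exact_mod_cast h2
    simp only [Multiset.sum_zero, Nat.cast_zero, mul_zero, zero_add] at hyF
    have h7 : 8 * ((m[l] : ℕ) * (y : ℝ)) ≤ x + TT (m.drop l : List ℕ) := by
      rw [← e1]; nlinarith
    have hr : (0 : ℝ) ≤ (TT (m.drop l : List ℕ) : ℝ) := Nat.cast_nonneg _
    generalize ((m[l] : ℕ) : ℝ) * (y : ℝ) = μy at *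
    rw [h4']
    constructor
    · linarith
    · linarith
  constructor
  · intro _
    have h1 : 13 * ((h S : ℝ) + TT S) ≤ x + 13 * T (d + 1) := by linarith [key.1]
    exact_mod_cast h1
  · intro h1
    exfalso
    have h2 : (x : ℝ) + 8 * TT S ≤ 8 * T (d + 1) := by exact_mod_cast h1
    linarith [key.2]

end ShghJ
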