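import Pool.Agent.ShghJ.CombK1

/-! # Window and mass condition with a starting multiset or a base multiset -/

namespace ShghJ

variable {d : ℕ} {h : Multiset ℕ → ℕ}

theorem win2 : Win2 := by
  intro d h H M W S hW hS
  have hchi := H.chi_le (W + S)
  have key : 1 ≤ h (W + S) → T (d + 1) < h (W + S) + TT (W + S) →
      4 * (h (W + S) + TT (W + S)) ≤ M * (26 * M + 5 * W.sum) + 4 * T (d + 1) ∧
      4 * T (d + 1) < M * (26 * M + 5 * W.sum) + 4 * TT (W + S) := by
    intro h0 he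
    have hcoe : ((S.sort (· ≤ ·) : List ℕ) : Multiset ℕ) = S := Multiset.sort_eq _ _
    have hs : (S.sort (· ≤ ·)).Pairwise (· ≤ ·) := Multiset.pairwise_sort _ _
    have hmM : ∀ x ∈ S.sort (· ≤ ·), x ≤ M := fun x hx => hS x (by simpa using hx)
    generalize S.sort (· ≤ ·) = m at *
    subst hcoe
    have hWK : W + (m : Multiset ℕ) = (m : Multiset ℕ) + (W + 0) := by
      rw [add_zero, add_comm]
    rw [hWK] at h0 he ⊢
    obtain ⟨l, hl, y, A, hA, hsplit, h2, hyF, hmy, hyd, hxy, he1, hA1, hN, hB⟩ :=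
      H.finalK (5 / 4) m (FiC m) 0 (D1 := d + 1) (by simp) (hck0_of_hc0 HC0_incr)
        (hck_of_hc (HC_incr hs)) W hW h0 he
    rw [FiC_eq m hl] at hyF
    have hlM : m[l] ≤ M := hmM _ (List.getElem_mem hl)
    have hyF' : 4 * y ≤ 5 * W.sum + 26 * M := by
      have h0 : ((m[l] : ℕ) : ℝ) ≤ M := by exact_mod_cast hlM
      have h1 : 4 * (y : ℝ) ≤ 5 * ((W.sum : ℕ) : ℝ) + 26 * (M : ℝ) := by linarith
      exact_mod_cast h1
    have h3 := hB M (fun x hx => hmM x (List.mem_of_mem_drop hx))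
    have h4 : TT ((m : Multiset ℕ) + (W + 0)) =
        TT ((m.drop l : List ℕ) : Multiset ℕ) + TT A := by rw [hsplit, TT_add]
    have h5 : 4 * (M * y) ≤ M * (26 * M + 5 * W.sum) := by nlinarith
    have h6 : m[l] * y ≤ M * y := Nat.mul_le_mul_right _ hlM
    have h7 : 1 ≤ h ((m : Multiset ℕ) + (W + 0)) := h0
    constructor
    · omega
    · omega
  constructor
  · intro h0
    by_cases he : T (d + 1) < h (W + S) + TT (W + S)
    · exact (key h0 he).1
    · have : 0 ≤ M * (26 * M + 5 * W.sum) := Nat.zero_le _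
      omega
  · intro hQ
    by_cases he : T (d + 1) < h (W + S) + TT (W + S)
    · exfalso
      by_cases h0 : 1 ≤ h (W + S)
      · have h1 := (key h0 he).2
        generalize W.sum = σ at *
        zify at h1
        linarith
      · have h1 : 0 ≤ (M : ℤ) * (26 * M + 5 * (W.sum : ℕ)) := by positivity
        omega
    · omega

theorem spread2 : Spread2 := by
  intro d h H W S hW hS
  have hchi := H.chi_le (W + S)
  by_cases h0 : 1 ≤ h (W + S)
  · by_cases he : T (d + 1) < h (W + S) + TT (W + S)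
    · exfalso
      have hcoe : ((S.sort (· ≥ ·) : List ℕ) : Multiset ℕ) = S := Multiset.sort_eq _ _
      have hs : (S.sort (· ≥ ·)).Pairwise (· ≥ ·) := Multiset.pairwise_sort _ _
      generalize S.sort (· ≥ ·) = m at *
      subst hcoe
      have hWK : W + (m : Multiset ℕ) = (m : Multiset ℕ) + (W + 0) := by
        rw [add_zero, add_comm]
      rw [hWK] at h0 he hS
      set x : ℝ := 3 * |(T (d + 1) : ℝ) - TT ((m : Multiset ℕ) + (W + 0))| with hxdef
      have hx0 : 0 ≤ x := by positivity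
      have hcond : ∀ (l : ℕ) (hl : l < m.length), 2 ≤ m[l] →
          121 * ((m[l] : ℕ) : ℝ) ^ 2 + 19 * ((m[l] : ℕ) : ℝ) * ((W.sum : ℕ) : ℝ) ≤
            x + (TT (m.drop l : List ℕ) : ℝ) := by
        intro l hl h2
        have h3 := hS m[l] (by simp) h2
        have h4 := filter_le_drop hs hl
        have h5 : 121 * ((m[l] : ℕ) : ℝ) ^ 2 + 19 * ((m[l] : ℕ) : ℝ) * ((W.sum : ℕ) : ℝ) ≤
            3 * |(T (d + 1) : ℝ) - TT ((m : Multiset ℕ) + (W + 0))| +
            (TT ((m : Multiset ℕ).filter (fun j => j < m[l])) : ℝ) := by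
          generalize W.sum = σ at *
          generalize TT ((m : Multiset ℕ).filter (fun j => j < m[l])) = t at *
          generalize TT ((m : Multiset ℕ) + (W + 0)) = t' at *
          have h7 := (Int.cast_le (R := ℝ)).2 h3
          push_cast at h7
          exact h7
        have h6 : (TT ((m : Multiset ℕ).filter (fun j => j < m[l])) : ℝ) ≤
            (TT (m.drop l : List ℕ) : ℝ) := by exact_mod_cast h4
        rw [hxdef]
        linarith
      have hM : Mass x m := by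
        intro l hl h2
        have h3 := hcond l hl h2
        have h4 : 0 ≤ 19 * ((m[l] : ℕ) : ℝ) * ((W.sum : ℕ) : ℝ) := by positivity
        linarith
      obtain ⟨l, hl, y, A, hA, hsplit, h2, hyF, hmy, hyd, hxy, he1, hA1, hN, hB⟩ :=
        H.finalK (7 / 5) m (FdC x m) 0 (D1 := d + 1) (by simp) (hck0_of_hc0 (HC0_decr hM))
          (hck_of_hc (HC_decr hx0 hs hM)) W hW h0 he
      have h3 := hB m[l] (by
        intro z hz
        obtain ⟨i, hi, hli, rfl⟩ := mem_drop hz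
        exact decr_le hs hli hi)
      have hc := hcond l hl h2
      have e1 := FdC_eq x m hl h2
      have h4 : TT ((m : Multiset ℕ) + (W + 0)) =
          TT ((m.drop l : List ℕ) : Multiset ℕ) + TT A := by rw [hsplit, TT_add]
      have h3' : (TT (m.drop l : List ℕ) : ℝ) + h ((m : Multiset ℕ) + (W + 0)) ≤
          h A + (m[l] : ℕ) * y := by exact_mod_cast h3
      have hN' : (h A : ℝ) < (m[l] : ℕ) * y := by exact_mod_cast hN
      have he1' : (h A : ℝ) + TT A = T (d + 1) := by exact_mod_cast he1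
      have h4' : (TT ((m : Multiset ℕ) + (W + 0)) : ℝ) = TT (m.drop l : List ℕ) + TT A := by
        exact_mod_cast h4
      have h0' : (1 : ℝ) ≤ h ((m : Multiset ℕ) + (W + 0)) := by exact_mod_cast h0
      have hA1' : (1 : ℝ) ≤ h A := by exact_mod_cast hA1
      have h2' : (2 : ℝ) ≤ (m[l] : ℕ) := by exact_mod_cast h2
      have hσ0 : (0 : ℝ) ≤ ((W.sum : ℕ) : ℝ) := Nat.cast_nonneg _
      -- 8 m y ≤ (56/5) m σ + x + r
      have h7 : 8 * ((m[l] : ℕ) * (y : ℝ)) ≤
          56 / 5 * ((m[l] : ℕ) * ((W.sum : ℕ) : ℝ)) + (x + TT (m.drop l : List ℕ)) := by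
        rw [← e1]; nlinarith
      have h10 : (0 : ℝ) ≤ ((m[l] : ℕ) : ℝ) * ((W.sum : ℕ) : ℝ) := by positivity
      have h11 : 0 < 121 * ((m[l] : ℕ) : ℝ) ^ 2 := by positivity
      rcases abs_cases ((T (d + 1) : ℝ) - TT ((m : Multiset ℕ) + (W + 0))) with
        ⟨h8, h9⟩ | ⟨h8, h9⟩
      · rw [h8] at hxdef
        nlinarith
      · rw [h8] at hxdef
        nlinarith
    · omega
  · omega

/-! ## Base multiset -/

/-- The bound function `16 μ` of the increasing order with a base multiset. -/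
noncomputable def FiK (m : List ℕ) (l : ℕ) : ℝ := 16 * (m.getD l 0 : ℝ)

theorem FiK_eq (m : List ℕ) {l : ℕ} (hl : l < m.length) : FiK m l = 16 * (m[l] : ℝ) := by
  unfold FiK
  rw [getD_eq m hl]

theorem numK_a {w μ : ℝ} (hμ : 2 ≤ μ) (hw : 16 * μ < w)
    (hT : w * (w + 1) / 2 + 2 ≤ 6 * μ * w) : False := by
  have hw0 : 0 < w := by linarith
  have h1 : w * (w + 1) ≤ w * (12 * μ) := by nlinarith
  have h2 := le_of_mul_le_mul_left h1 hw0
  linarith

theorem numK_b {w' s d D1 μ w : ℝ} (hμ : 2 ≤ μ) (hs : 0 ≤ s) (hd : w ≤ d) (hD1 : d ≤ 2 * D1)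
    (hw : 16 * μ + 4 * s < w) (hw' : w' + s = D1)
    (hT : w' * (w' + 1) / 2 + 2 ≤ 2 * μ * d) : False := by
  have h1 : 1 / 4 * d + 4 * μ ≤ w' := by linarith
  have hd0 : 0 < d := by linarith
  have h2 : (1 / 4 * d + 4 * μ) ^ 2 ≤ w' * (w' + 1) := by nlinarith
  nlinarith [sq_nonneg (1 / 4 * d - 4 * μ)]

theorem HCK0_incr {m : List ℕ} {D1 : ℕ} (hD1 : d ≤ 2 * D1) : HCK0 d D1 4 m (FiK m) := by
  intro l h2 ha w s w' hwd hw'w hsd hc hF hT
  rw [FiK_eq m h2] at hF
  have ha' : (2 : ℝ) ≤ m[l] := by exact_mod_cast ha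
  have hT' : (T w' : ℝ) + 2 ≤ m[l] * w := by exact_mod_cast hT
  rw [T_real] at hT'
  have hw0 : (0 : ℝ) ≤ w := Nat.cast_nonneg _
  have hs0 : (0 : ℝ) ≤ s := Nat.cast_nonneg _
  have hwd' : (w : ℝ) ≤ d := by exact_mod_cast hwd
  have hD1' : (d : ℝ) ≤ 2 * D1 := by exact_mod_cast hD1
  rcases hc with hc | hc
  · subst hc
    refine numK_a (w := w') ha' (by linarith) (hT'.trans ?_)
    nlinarith
  · have hc' : (w' : ℝ) + s = D1 := by exact_mod_cast hc
    refine numK_b ha' hs0 hwd' hD1' hF hc' (hT'.trans ?_)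
    nlinarith

theorem HCK_incr {m : List ℕ} {D1 : ℕ} (hD1 : d ≤ 2 * D1) (hs : m.Pairwise (· ≤ ·)) :
    HCK d D1 4 m (FiK m) := by
  intro l1 l h1 h2 hb ha w s w' w1 hwd hw1d hw'w hsd hc hF hm1 hy hB
  have hab : m[l1]'(h1.trans h2) ≤ m[l] := incr_le hs h1.le h2
  rw [FiK_eq m h2] at hF hy
  rw [FiK_eq m (h1.trans h2)] at hy
  have hT := (hB m[l] (by
    intro z hz
    obtain ⟨i, hi, _, hil, rfl⟩ := mem_seg hz
    exact incr_le hs hil.le h2)).2
  have ha' : (2 : ℝ) ≤ m[l] := by exact_mod_cast ha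
  have hab' : ((m[l1]'(h1.trans h2) : ℕ) : ℝ) ≤ m[l] := by exact_mod_cast hab
  have hT' : (T w' : ℝ) + 2 ≤ m[l] * w + m[l] * w1 := by exact_mod_cast hT
  rw [T_real] at hT'
  have hw0 : (0 : ℝ) ≤ w := Nat.cast_nonneg _
  have hs0 : (0 : ℝ) ≤ s := Nat.cast_nonneg _
  have hw'0 : (0 : ℝ) ≤ w' := Nat.cast_nonneg _
  have hwd' : (w : ℝ) ≤ d := by exact_mod_cast hwd
  have hw1d' : (w1 : ℝ) ≤ d := by exact_mod_cast hw1d
  have hD1' : (d : ℝ) ≤ 2 * D1 := by exact_mod_cast hD1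
  rcases hc with hc | hc
  · subst hc
    refine numK_a (w := w') ha' (by linarith) (hT'.trans ?_)
    have h3 : (w1 : ℝ) ≤ 5 * w' := by linarith
    nlinarith
  · have hc' : (w' : ℝ) + s = D1 := by exact_mod_cast hc
    refine numK_b ha' hs0 hwd' hD1' hF hc' (hT'.trans ?_)
    nlinarith

theorem winBase : WinBase := by
  intro d h H M K S hK hS hχ
  have hchi := H.chi_le (K + S)
  by_cases h0 : 1 ≤ h (K + S)
  · by_cases he : T (d + 1) < h (K + S) + TT (K + S)
    · exfalso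
      have hcoe : ((S.sort (· ≤ ·) : List ℕ) : Multiset ℕ) = S := Multiset.sort_eq _ _
      have hs : (S.sort (· ≤ ·)).Pairwise (· ≤ ·) := Multiset.pairwise_sort _ _
      have hmM : ∀ x ∈ S.sort (· ≤ ·), x ≤ M := fun x hx => hS x (by simpa using hx)
      generalize S.sort (· ≤ ·) = m at *
      subst hcoe
      have hWK : K + (m : Multiset ℕ) = (m : Multiset ℕ) + (0 + K) := by
        rw [zero_add, add_comm]
      rw [hWK] at h0 he hχ
      obtain ⟨D1, hD1⟩ : ∃ D1, D1 + K.sum = d + 1 := ⟨d + 1 - K.sum, by omega⟩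
      have hD1' : d ≤ 2 * D1 := by omega
      obtain ⟨l, hl, y, A, hA, hsplit, h2, hyF, hmy, hyd, hxy, he1, hA1, hN, hB⟩ :=
        H.finalK 4 m (FiK m) K hD1 (HCK0_incr hD1') (HCK_incr hD1' hs) 0 (by simp) h0 he
      rw [FiK_eq m hl] at hyF
      have hlM : m[l] ≤ M := hmM _ (List.getElem_mem hl)
      have hyF' : y ≤ 16 * M := by
        have h0 : ((m[l] : ℕ) : ℝ) ≤ M := by exact_mod_cast hlM
        have h1 : (y : ℝ) ≤ 16 * (M : ℝ) := by
          simp only [Multiset.sum_zero, Nat.cast_zero, mul_zero, zero_add] at hyF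
          linarith
        exact_mod_cast h1
      have h4 : TT ((m : Multiset ℕ) + (0 + K)) =
          TT ((m.drop l : List ℕ) : Multiset ℕ) + TT A := by rw [hsplit, TT_add]
      have h3 := hB M (fun x hx => hmM x (List.mem_of_mem_drop hx))
      have h5 : M * y ≤ 16 * M ^ 2 := by nlinarith
      have h6 : m[l] * y ≤ 16 * M ^ 2 := (Nat.mul_le_mul_right _ hlM).trans h5
      rcases abs_cases ((T (d + 1) : ℤ) - TT ((m : Multiset ℕ) + (0 + K))) with
        ⟨h7, h8⟩ | ⟨h7, h8⟩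
      · rw [h7] at hχ
        zify at *
        linarith
      · rw [h7] at hχ
        zify at *
        linarith
    · omega
  · omega

/-- The mass condition in terms of positions (base form). -/
def MassK (x : ℝ) (m : List ℕ) : Prop :=
  ∀ (l : ℕ) (hl : l < m.length), 2 ≤ m[l] →
    250 * (m[l] : ℝ) ^ 2 ≤ x + (TT (m.drop l : List ℕ) : ℝ)

theorem FdK_ge {x : ℝ} {m : List ℕ} (hM : MassK x m) {l : ℕ} (hl : l < m.length)
    (h2 : 2 ≤ m[l]) : 125 / 4 * (m[l] : ℝ) ≤ FdC x m l := by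
  have h1 := FdC_eq x m hl h2
  have h3 := hM l hl h2
  rw [← h1] at h3
  have h0 : (0 : ℝ) < m[l] := by
    have : 0 < m[l] := by omega
    exact_mod_cast this
  have h4 : (m[l] : ℝ) * (250 * m[l]) ≤ m[l] * (8 * FdC x m l) := by nlinarith
  have h5 := le_of_mul_le_mul_left h4 h0
  linarith

theorem numB0_a {w μ : ℝ} (hμ : 2 ≤ μ) (hw : 125 / 4 * μ < w)
    (hT : w * (w + 1) / 2 + 2 ≤ μ * w) : False := by
  have hw0 : 0 < w := by linarith
  have h1 : w * (w + 1) ≤ w * (2 * μ) := by nlinarith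
  have h2 := le_of_mul_le_mul_left h1 hw0
  linarith

theorem numB0_b {w' s d D1 μ w a : ℝ} (hμ : 2 ≤ μ) (ha : 125 / 4 * μ ≤ a) (hs : 0 ≤ s)
    (hd : w ≤ d) (hD1 : d ≤ 2 * D1) (hw : a + 25 / 8 * s < w) (hw' : w' + s = D1)
    (hT : w' * (w' + 1) / 2 + 2 ≤ μ * d) : False := by
  have h1 : 9 / 50 * d + 10 * μ ≤ w' := by linarith
  have hd0 : 0 < d := by linarith
  have h2 : (9 / 50 * d + 10 * μ) ^ 2 ≤ w' * (w' + 1) := by nlinarith
  nlinarith [sq_nonneg (9 / 50 * d - 10 * μ)]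

theorem numB_a {w w1 μ1 a a1 : ℝ} (hμ : 2 ≤ μ1) (haw : a < w) (ha1 : 125 / 4 * μ1 ≤ a1)
    (hda : a1 - a ≤ w1 / 4) (hw1 : w1 ≤ w + 25 / 8 * w + a1 - a)
    (hT : w * (w + 1) / 2 + 2 ≤ μ1 * w + μ1 * w1) (hw0 : 0 < w) : False := by
  have h1 : w1 ≤ 11 / 2 * w := by linarith
  have h2 : a1 < 19 / 8 * w := by linarith
  have h3 : w * (w + 1) ≤ w * (13 * μ1) := by nlinarith
  have h4 := le_of_mul_le_mul_left h3 hw0
  linarith

theorem numB_b {w' s d D1 μ1 w w1 a a1 : ℝ} (hμ : 2 ≤ μ1) (ha1 : 125 / 4 * μ1 ≤ a1)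
    (hs : 0 ≤ s) (hd : w ≤ d) (hd1 : w1 ≤ d) (hD1 : d ≤ 2 * D1) (hda : a1 - a ≤ w1 / 4)
    (hw : a + 25 / 8 * s < w) (hw' : w' + s = D1) (_hd0 : 0 < d)
    (hT : w' * (w' + 1) / 2 + 2 ≤ 2 * μ1 * d) : False := by
  have h0 : a1 - d / 4 ≤ a := by linarith
  have h1 : 1 / 10 * d + 10 * μ1 ≤ w' := by linarith
  have h2 : (1 / 10 * d + 10 * μ1) ^ 2 ≤ w' * (w' + 1) := by nlinarith
  nlinarith [sq_nonneg (1 / 10 * d - 10 * μ1)]

theorem HCK0_decr {x : ℝ} {m : List ℕ} {D1 : ℕ} (hD1 : d ≤ 2 * D1) (hM : MassK x m) :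
    HCK0 d D1 (25 / 8) m (FdC x m) := by
  intro l h2 ha w s w' hwd hw'w hsd hc hF hT
  have hFge := FdK_ge hM h2 ha
  have ha' : (2 : ℝ) ≤ m[l] := by exact_mod_cast ha
  have hT' : (T w' : ℝ) + 2 ≤ m[l] * w := by exact_mod_cast hT
  rw [T_real] at hT'
  have hw0 : (0 : ℝ) ≤ w := Nat.cast_nonneg _
  have hs0 : (0 : ℝ) ≤ s := Nat.cast_nonneg _
  have hwd' : (w : ℝ) ≤ d := by exact_mod_cast hwd
  have hD1' : (d : ℝ) ≤ 2 * D1 := by exact_mod_cast hD1
  rcases hc with hc | hc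
  · subst hc
    exact numB0_a ha' (by linarith) hT'
  · have hc' : (w' : ℝ) + s = D1 := by exact_mod_cast hc
    refine numB0_b ha' hFge hs0 hwd' hD1' hF hc' (hT'.trans ?_)
    nlinarith

theorem HCK_decr {x : ℝ} (hx : 0 ≤ x) {m : List ℕ} {D1 : ℕ} (hD1 : d ≤ 2 * D1)
    (hs : m.Pairwise (· ≥ ·)) (hM : MassK x m) : HCK d D1 (25 / 8) m (FdC x m) := by
  intro l1 l h1 h2 hb ha w s w' w1 hwd hw1d hw'w hsd hc hF hm1 hy hB
  have h1m := h1.trans h2
  have hab : m[l] ≤ m[l1]'h1m := decr_le hs h1.le h2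
  have hFge := FdK_ge hM h2 ha
  have hFge1 := FdK_ge hM h1m hb
  have hF0 := FdC_nonneg hx m l
  obtain ⟨hmass, hT⟩ := hB (m[l1]'h1m) (by
    intro z hz
    obtain ⟨i, hi, hli, _, rfl⟩ := mem_seg hz
    exact decr_le hs hli hi)
  have e1 := FdC_eq x m h2 ha
  have e2 := FdC_eq x m h1m hb
  have e3 : (TT (m.drop l1 : List ℕ) : ℝ) =
      TT (((m.take l).drop l1 : List ℕ) : Multiset ℕ) + TT (m.drop l : List ℕ) := by
    rw [drop_split m h1.le h2.le, ← Multiset.coe_add, TT_add]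
    push_cast
    ring
  have hmass' : (TT (((m.take l).drop l1 : List ℕ) : Multiset ℕ) : ℝ) + 2 ≤
      (m[l1]'h1m : ℕ) * w1 + (m[l1]'h1m : ℕ) * w1 := by exact_mod_cast hmass
  have hT' : (T w' : ℝ) + 2 ≤ (m[l] : ℕ) * w + (m[l1]'h1m : ℕ) * w1 := by exact_mod_cast hT
  rw [T_real] at hT'
  have ha' : (2 : ℝ) ≤ m[l] := by exact_mod_cast ha
  have hab' : ((m[l] : ℕ) : ℝ) ≤ (m[l1]'h1m : ℕ) := by exact_mod_cast hab
  have hw0 : (0 : ℝ) ≤ w := Nat.cast_nonneg _
  have hw10 : (0 : ℝ) ≤ w1 := Nat.cast_nonneg _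
  have hs0 : (0 : ℝ) ≤ s := Nat.cast_nonneg _
  have hwd' : (w : ℝ) ≤ d := by exact_mod_cast hwd
  have hw1d' : (w1 : ℝ) ≤ d := by exact_mod_cast hw1d
  have hD1' : (d : ℝ) ≤ 2 * D1 := by exact_mod_cast hD1
  generalize FdC x m l = a at *
  generalize FdC x m l1 = a1 at *
  generalize ((m[l] : ℕ) : ℝ) = μ at *
  generalize ((m[l1]'h1m : ℕ) : ℝ) = μ1 at *
  have hda : a1 - a ≤ w1 / 4 := by
    have h3 : 8 * μ1 * (a1 - a) ≤ 8 * μ1 * (w1 / 4) := by nlinarith
    exact le_of_mul_le_mul_left h3 (by linarith)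
  have hwpos : (0 : ℝ) < w := by linarith
  rcases hc with hc | hc
  · subst hc
    refine numB_a (w := w') (w1 := w1) (μ1 := μ1) (a := a) (a1 := a1) (by linarith)
      (by linarith) hFge1 hda hy (hT'.trans ?_) hwpos
    nlinarith
  · have hc' : (w' : ℝ) + s = D1 := by exact_mod_cast hc
    refine numB_b (w' := w') (s := s) (d := d) (D1 := D1) (μ1 := μ1) (w := w) (w1 := w1) (a := a)
      (a1 := a1) (by linarith) hFge1 hs0 hwd' hw1d' hD1' hda hF hc' (by linarith)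
      (hT'.trans ?_)
    nlinarith

theorem yBase : YBase := by
  intro d h H K S x hK hx0 hS hx
  have hchi := H.chi_le (K + S)
  by_cases h0 : 1 ≤ h (K + S)
  · by_cases he : T (d + 1) < h (K + S) + TT (K + S)
    · exfalso
      have hcoe : ((S.sort (· ≥ ·) : List ℕ) : Multiset ℕ) = S := Multiset.sort_eq _ _
      have hs : (S.sort (· ≥ ·)).Pairwise (· ≥ ·) := Multiset.pairwise_sort _ _
      generalize S.sort (· ≥ ·) = m at *
      subst hcoe
      have hWK : K + (m : Multiset ℕ) = (m : Multiset ℕ) + (0 + K) := by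
        rw [zero_add, add_comm]
      rw [hWK] at h0 he hx
      obtain ⟨D1, hD1⟩ : ∃ D1, D1 + K.sum = d + 1 := ⟨d + 1 - K.sum, by omega⟩
      have hD1' : d ≤ 2 * D1 := by omega
      have hM : MassK x m := by
        intro l hl h2
        have h3 := hS m[l] (by simp) h2
        have h4 := filter_le_drop hs hl
        have h6 : (TT ((m : Multiset ℕ).filter (fun j => j < m[l])) : ℝ) ≤
            (TT (m.drop l : List ℕ) : ℝ) := by exact_mod_cast h4
        linarith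
      obtain ⟨l, hl, y, A, hA, hsplit, h2, hyF, hmy, hyd, hxy, he1, hA1, hN, hB⟩ :=
        H.finalK (25 / 8) m (FdC x m) K hD1 (HCK0_decr hD1' hM) (HCK_decr hx0 hD1' hs hM) 0
          (by simp) h0 he
      have h3 := hB m[l] (by
        intro z hz
        obtain ⟨i, hi, hli, rfl⟩ := mem_drop hz
        exact decr_le hs hli hi)
      have e1 := FdC_eq x m hl h2
      have h4 : TT ((m : Multiset ℕ) + (0 + K)) =
          TT ((m.drop l : List ℕ) : Multiset ℕ) + TT A := by rw [hsplit, TT_add]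
      have h3' : (TT (m.drop l : List ℕ) : ℝ) + h ((m : Multiset ℕ) + (0 + K)) ≤
          h A + (m[l] : ℕ) * y := by exact_mod_cast h3
      have hN' : (h A : ℝ) < (m[l] : ℕ) * y := by exact_mod_cast hN
      have he1' : (h A : ℝ) + TT A = T (d + 1) := by exact_mod_cast he1
      have h4' : (TT ((m : Multiset ℕ) + (0 + K)) : ℝ) = TT (m.drop l : List ℕ) + TT A := by
        exact_mod_cast h4
      have h0' : (1 : ℝ) ≤ h ((m : Multiset ℕ) + (0 + K)) := by exact_mod_cast h0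
      have hA1' : (1 : ℝ) ≤ h A := by exact_mod_cast hA1
      have h2' : (2 : ℝ) ≤ (m[l] : ℕ) := by exact_mod_cast h2
      simp only [Multiset.sum_zero, Nat.cast_zero, mul_zero, zero_add] at hyF
      have h7 : 8 * ((m[l] : ℕ) * (y : ℝ)) ≤ x + TT (m.drop l : List ℕ) := by
        rw [← e1]; nlinarith
      rcases abs_cases ((T (d + 1) : ℝ) - TT ((m : Multiset ℕ) + (0 + K))) with
        ⟨h8, h9⟩ | ⟨h8, h9⟩
      · rw [h8] at hx
        linarith
      · rw [h8] at hx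
        linarith
    · omega
  · omega

end ShghJ
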