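import Pool.Agent.ShghJ.CombD2

/-! # Increasing order, sharp form: window and structure -/

namespace ShghJ

variable {d : ℕ} {h : Multiset ℕ → ℕ}

/-- The bound function of the increasing order. -/
noncomputable def FiD (R : ℝ) (m : List ℕ) (l : ℕ) : ℝ := R * (m.getD l 0 : ℝ)

theorem FiD_eq (R : ℝ) (m : List ℕ) {l : ℕ} (hl : l < m.length) :
    FiD R m l = R * (m[l] : ℝ) := by
  unfold FiD
  rw [getD_eq m hl]

/-- the two numerical contradictions -/
theorem numD_a {w μ w1 : ℝ} (hμ : 2 ≤ μ) (hw : 41 / 10 * μ < w) (hw1 : w1 ≤ 7 / 3 * w)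
    (hT : w * (w + 1) + 2 ≤ (μ - 1) * (2 * w + 4 - μ) + μ * w1) : False := by
  have h1 : μ * w1 ≤ μ * (7 / 3 * w) := mul_le_mul_of_nonneg_left hw1 (by linarith)
  nlinarith [mul_pos (sub_pos.2 hw) (sub_pos.2 hw), mul_pos (sub_pos.2 hw) (show 0 < μ by linarith),
    mul_pos (show 0 < μ by linarith) (show 0 < μ by linarith)]

theorem numD_b {w' s d μ w w1 : ℝ} (hμ : 2 ≤ μ) (hs : 0 ≤ s) (hd : w ≤ d) (hd1 : w1 ≤ d)
    (hw : 41 / 10 * μ + 4 / 3 * s < w) (hw' : w' + s = d + 1)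
    (hT : w' * (w' + 1) + 2 ≤ (μ - 1) * (2 * w + 4 - μ) + μ * w1) : False := by
  have h1 : 1 / 4 * d + 123 / 40 * μ + 1 ≤ w' := by linarith
  have hd0 : 0 < d := by linarith
  have h2 : (1 / 4 * d + 123 / 40 * μ) ^ 2 ≤ w' * (w' + 1) := by nlinarith
  have h3 : μ * w1 ≤ μ * d := mul_le_mul_of_nonneg_left hd1 (by linarith)
  have h4 : (μ - 1) * (2 * w + 4 - μ) ≤ (μ - 1) * (2 * d + 4 - μ) :=
    mul_le_mul_of_nonneg_left (by linarith) (by linarith)
  nlinarith [sq_nonneg (1 / 4 * d - 123 / 40 * μ), mul_pos hd0 (show 0 < μ by linarith)]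

theorem HCD0_incr {m : List ℕ} : HCD0 d (d + 1) (4 / 3) m (FiD (41 / 10) m) := by
  intro l h2 ha w s w' hwd hw'w hsd hc hF _ hT
  rw [FiD_eq _ m h2] at hF
  have ha' : (2 : ℝ) ≤ (m[l] : ℕ) := by exact_mod_cast ha
  have hw0 : (0 : ℝ) ≤ w := Nat.cast_nonneg _
  have hs0 : (0 : ℝ) ≤ s := Nat.cast_nonneg _
  have hwd' : (w : ℝ) ≤ d := by exact_mod_cast hwd
  rcases hc with hc | hc
  · subst hc
    exact numD_a (w := w') (w1 := 0) ha' (by linarith) (by linarith) (by linarith)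
  · have hc' : (w' : ℝ) + s = d + 1 := by exact_mod_cast hc
    exact numD_b (w1 := 0) ha' hs0 hwd' (by linarith) hF hc' (by linarith)

theorem HCD_incr {m : List ℕ} (hs : m.Pairwise (· ≤ ·)) :
    HCD d (d + 1) (4 / 3) m (FiD (41 / 10) m) := by
  intro l1 l h1 h2 hb ha w s w' w1 hwd hw1d hw'w hsd hc hF _ hm1 hy hB
  have hab : m[l1]'(h1.trans h2) ≤ m[l] := incr_le hs h1.le h2
  rw [FiD_eq _ m h2] at hF hy
  rw [FiD_eq _ m (h1.trans h2)] at hy
  have hT := (hB m[l] (by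
    intro z hz
    obtain ⟨i, hi, _, hil, rfl⟩ := mem_seg hz
    exact incr_le hs hil.le h2)).2
  have ha' : (2 : ℝ) ≤ (m[l] : ℕ) := by exact_mod_cast ha
  have hab' : ((m[l1]'(h1.trans h2) : ℕ) : ℝ) ≤ (m[l] : ℕ) := by exact_mod_cast hab
  have hw0 : (0 : ℝ) ≤ w := Nat.cast_nonneg _
  have hs0 : (0 : ℝ) ≤ s := Nat.cast_nonneg _
  have hwd' : (w : ℝ) ≤ d := by exact_mod_cast hwd
  have hw1d' : (w1 : ℝ) ≤ d := by exact_mod_cast hw1d
  rcases hc with hc | hc
  · subst hc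
    exact numD_a (w := w') (w1 := w1) ha' (by linarith) (by linarith) hT
  · have hc' : (w' : ℝ) + s = d + 1 := by exact_mod_cast hc
    exact numD_b ha' hs0 hwd' hw1d' hF hc' hT

theorem structD : StructD := by
  intro d h H m hs hpos he
  have e0 : (m : Multiset ℕ) + (0 + 0) = m := by rw [add_zero, add_zero]
  rw [← e0] at hpos he ⊢
  obtain ⟨l, hl, y, A, hA, hsplit', h2, hyF, hmy, hyd, hxy, he1, hA1, _, hN2, hB, hcount⟩ :=
    H.final (4 / 3) m (FiD (41 / 10) m) 0 (D1 := d + 1) (by simp) HCD0_incr (HCD_incr hs) 0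
      (by simp) hpos he
  rw [add_zero, add_zero] at hA
  rw [FiD_eq _ m hl] at hyF
  simp only [Multiset.sum_zero, Nat.cast_zero, mul_zero, zero_add] at hyF
  have hyF' : 10 * y ≤ 41 * m[l] := by
    have h1 : 10 * (y : ℝ) ≤ 41 * ((m[l] : ℕ) : ℝ) := by linarith
    exact_mod_cast h1
  have hsplit : m = m.take l ++ m[l] :: m.drop (l + 1) := by
    rw [← List.drop_eq_getElem_cons hl, List.take_append_drop]
  have hdrop : m[l] :: m.drop (l + 1) = m.drop l := (List.drop_eq_getElem_cons hl).symm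
  have hge : ∀ x ∈ m.drop l, m[l] ≤ x := by
    intro x hx
    obtain ⟨i, hi, hli, rfl⟩ := mem_drop hx
    exact incr_le hs hli hi
  have ha' : (2 : ℝ) ≤ (m[l] : ℕ) := by exact_mod_cast h2
  have hyR : (y : ℝ) ≤ 41 / 10 * (m[l] : ℕ) := hyF
  -- 2 h A ≤ 7.2 μ² - 3.2 μ - 4
  have hN3 : 2 * (h A : ℝ) ≤ 36 / 5 * ((m[l] : ℕ) : ℝ) ^ 2 - 16 / 5 * (m[l] : ℕ) - 4 := by
    nlinarith
  subst hA
  refine ⟨m.take l, m[l], m.drop (l + 1), hsplit, h2, he1, hA1, ?_, ?_, ?_, ?_⟩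
  · have : 5 * (h ((m.take l : List ℕ) : Multiset ℕ) : ℝ) < 18 * ((m[l] : ℕ) : ℝ) ^ 2 := by
      nlinarith
    exact_mod_cast this
  · rw [hdrop]
    have h3 := hcount m[l] hge
    by_contra hc
    push Not at hc
    have h4 : 12 * (m[l] * (m[l] + 1)) ≤ (m.drop l).length * (m[l] * (m[l] + 1)) :=
      Nat.mul_le_mul_right _ hc
    have h5 : 12 * (m[l] * (m[l] + 1)) + 2 ≤
        2 * h ((m.take l : List ℕ) : Multiset ℕ) + m[l] * y := by omega
    have h6 : 12 * (((m[l] : ℕ) : ℝ) * ((m[l] : ℕ) + 1)) + 2 ≤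
        2 * h ((m.take l : List ℕ) : Multiset ℕ) + (m[l] : ℕ) * y := by exact_mod_cast h5
    nlinarith
  · intro x hx
    have hx' : x ∈ m.drop l := by rw [← hdrop]; exact List.mem_cons_of_mem _ hx
    have := hxy x hx'
    exact ⟨hge x hx', by omega⟩
  · have h3 := hB y hxy
    have h4 : TT ((m : Multiset ℕ) + (0 + 0)) =
        TT ((m.drop l : List ℕ) : Multiset ℕ) + TT ((m.take l : List ℕ) : Multiset ℕ) := by
      rw [hsplit', TT_add]
    have h5 : 2 * (h ((m : Multiset ℕ) + (0 + 0)) + TT ((m : Multiset ℕ) + (0 + 0)) -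
        T (d + 1)) ≤ y * y := by omega
    have h6 : (10 * y) * (10 * y) ≤ (41 * m[l]) * (41 * m[l]) := Nat.mul_le_mul hyF' hyF'
    nlinarith

theorem winD : WinD := by
  intro d h H M W S hW hS
  have hchi := H.chi_le (W + S)
  have key : 1 ≤ h (W + S) → T (d + 1) < h (W + S) + TT (W + S) →
      60 * (h (W + S) + TT (W + S)) ≤ M * (123 * M + 40 * W.sum) + 60 * T (d + 1) ∧
      30 * T (d + 1) < M * (108 * M + 40 * W.sum) + 30 * TT (W + S) := by
    intro h0 he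
    have hcoe : ((S.sort (· ≤ ·) : List ℕ) : Multiset ℕ) = S := Multiset.sort_eq _ _
    have hs : (S.sort (· ≤ ·)).Pairwise (· ≤ ·) := Multiset.pairwise_sort _ _
    have hmM : ∀ x ∈ S.sort (· ≤ ·), x ≤ M := fun x hx => hS x (by simpa using hx)
    generalize S.sort (· ≤ ·) = m at *
    subst hcoe
    have hWK : W + (m : Multiset ℕ) = (m : Multiset ℕ) + (W + 0) := by
      rw [add_zero, add_comm]
    rw [hWK] at h0 he ⊢
    obtain ⟨l, hl, y, A, hA, hsplit, h2, hyF, hmy, hyd, hxy, he1, hA1, _, hN2, hB, _⟩ :=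
      H.final (4 / 3) m (FiD (41 / 10) m) 0 (D1 := d + 1) (by simp) HCD0_incr
        (HCD_incr hs) W hW h0 he
    rw [FiD_eq _ m hl] at hyF
    have hlM : m[l] ≤ M := hmM _ (List.getElem_mem hl)
    have hlM' : ((m[l] : ℕ) : ℝ) ≤ M := by exact_mod_cast hlM
    have ha' : (2 : ℝ) ≤ (m[l] : ℕ) := by exact_mod_cast h2
    have hσ0 : (0 : ℝ) ≤ ((W.sum : ℕ) : ℝ) := Nat.cast_nonneg _
    have hyF' : 30 * y ≤ 40 * W.sum + 123 * M := by
      have h1 : 30 * (y : ℝ) ≤ 40 * ((W.sum : ℕ) : ℝ) + 123 * (M : ℝ) := by linarith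
      exact_mod_cast h1
    have h3 := hB M (fun x hx => hmM x (List.mem_of_mem_drop hx))
    have h4 : TT ((m : Multiset ℕ) + (W + 0)) =
        TT ((m.drop l : List ℕ) : Multiset ℕ) + TT A := by rw [hsplit, TT_add]
    have h5 : 30 * (M * y) ≤ M * (123 * M + 40 * W.sum) := by nlinarith
    have h7 : 1 ≤ h ((m : Multiset ℕ) + (W + 0)) := h0
    constructor
    · omega
    · -- 30 h A < M (108 M + 40 σ)
      have h8 : 30 * (h A : ℝ) < M * (108 * M + 40 * ((W.sum : ℕ) : ℝ)) := by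
        have h9 : 30 * (h A : ℝ) ≤ 15 * ((((m[l] : ℕ) : ℝ) - 1) *
            (8 / 3 * ((W.sum : ℕ) : ℝ) + 36 / 5 * ((m[l] : ℕ) : ℝ) + 4)) := by
          have h10 : (((m[l] : ℕ) : ℝ) - 1) * (2 * y + 4 - ((m[l] : ℕ) : ℝ)) ≤
              (((m[l] : ℕ) : ℝ) - 1) *
                (8 / 3 * ((W.sum : ℕ) : ℝ) + 36 / 5 * ((m[l] : ℕ) : ℝ) + 4) :=
            mul_le_mul_of_nonneg_left (by linarith) (by linarith)
          linarith
        have h11 : ((m[l] : ℕ) : ℝ) * (108 * ((m[l] : ℕ) : ℝ) + 40 * ((W.sum : ℕ) : ℝ)) ≤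
            M * (108 * M + 40 * ((W.sum : ℕ) : ℝ)) :=
          mul_le_mul hlM' (by linarith) (by linarith) (by linarith)
        nlinarith
      have h8' : 30 * h A < M * (108 * M + 40 * W.sum) := by exact_mod_cast h8
      omega
  constructor
  · intro h0
    by_cases he : T (d + 1) < h (W + S) + TT (W + S)
    · exact (key h0 he).1
    · have : 0 ≤ M * (123 * M + 40 * W.sum) := Nat.zero_le _
      omega
  · intro hQ
    by_cases he : T (d + 1) < h (W + S) + TT (W + S)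
    · exfalso
      by_cases h0 : 1 ≤ h (W + S)
      · have h1 := (key h0 he).2
        generalize W.sum = σ at *
        zify at h1
        linarith
      · have h1 : 0 ≤ (M : ℤ) * (108 * M + 40 * (W.sum : ℕ)) := by positivity
        omega
    · omega

end ShghJ
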