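import Pool.Agent.ShghJ.HFun

/-! # Basic consequences of `HFun` : the Macaulay sequence of a multiset -/

namespace ShghJ

variable {d : ℕ} {h : Multiset ℕ → ℕ}

theorem T_succ (j : ℕ) : T (j + 1) = T j + (j + 1) := by
  unfold T
  have h1 : (j + 1) * (j + 1 + 1) = j * (j + 1) + (j + 1) * 2 := by ring
  rw [h1, Nat.add_mul_div_right _ _ (by norm_num)]

theorem T_zero : T 0 = 0 := rfl

theorem T_one : T 1 = 1 := rfl

theorem two_T (j : ℕ) : 2 * T j = j * (j + 1) := by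
  induction j with
  | zero => rfl
  | succ n ih => rw [T_succ, mul_add, ih]; ring

theorem T_real (j : ℕ) : (T j : ℝ) = (j : ℝ) * (j + 1) / 2 := by
  have h1 : (2 * T j : ℕ) = j * (j + 1) := two_T j
  have h2 : (2 : ℝ) * T j = (j : ℝ) * (j + 1) := by exact_mod_cast h1
  linarith

theorem TT_cons (a : ℕ) (S : Multiset ℕ) : TT (a ::ₘ S) = T a + TT S := by
  simp [TT]

theorem TT_zero : TT 0 = 0 := by simp [TT]

theorem TT_add (S S' : Multiset ℕ) : TT (S + S') = TT S + TT S' := by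
  simp [TT]

theorem HFun.anti_le (H : HFun d h) (S : Multiset ℕ) {i j : ℕ} (hij : i ≤ j) :
    h (j ::ₘ S) ≤ h (i ::ₘ S) := by
  induction j, hij using Nat.le_induction with
  | base => exact le_rfl
  | succ n hn ih => exact (H.anti S n).trans ih

theorem HFun.cons_le (H : HFun d h) (S : Multiset ℕ) (j : ℕ) : h (j ::ₘ S) ≤ h S := by
  have := H.anti_le S (Nat.zero_le j)
  rwa [H.zero] at this

theorem HFun.add_le (H : HFun d h) (S A : Multiset ℕ) : h (A + S) ≤ h S := by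
  induction A using Multiset.induction_on with
  | empty => simp
  | cons a A ih =>
    rw [Multiset.cons_add]
    exact (H.cons_le _ a).trans ih

theorem HFun.eq_zero_of_gt (H : HFun d h) (S : Multiset ℕ) {j : ℕ} (hj : d < j) :
    h (j ::ₘ S) = 0 := by
  have := H.anti_le S (show d + 1 ≤ j from hj)
  rw [H.big] at this
  omega

/-- The largest multiplicity at a further generic point. -/
def om (h : Multiset ℕ → ℕ) (d : ℕ) (S : Multiset ℕ) : ℕ :=
  Nat.findGreatest (fun j => 1 ≤ h (j ::ₘ S)) d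

theorem HFun.le_om (H : HFun d h) {S : Multiset ℕ} {j : ℕ} (hj : 1 ≤ h (j ::ₘ S)) :
    j ≤ om h d S := by
  refine Nat.le_findGreatest ?_ hj
  by_contra hc
  rw [H.eq_zero_of_gt S (by omega)] at hj
  omega

theorem HFun.om_spec (H : HFun d h) {S : Multiset ℕ} (hS : 1 ≤ h S) :
    1 ≤ h (om h d S ::ₘ S) := by
  have h0 : 1 ≤ h (0 ::ₘ S) := by rw [H.zero]; exact hS
  exact Nat.findGreatest_spec (P := fun j => 1 ≤ h (j ::ₘ S)) (Nat.zero_le d) h0

theorem om_le (S : Multiset ℕ) : om h d S ≤ d :=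
  Nat.findGreatest_le d

theorem HFun.pos_of_le_om (H : HFun d h) {S : Multiset ℕ} (hS : 1 ≤ h S) {j : ℕ}
    (hj : j ≤ om h d S) : 1 ≤ h (j ::ₘ S) :=
  (H.om_spec hS).trans (H.anti_le S hj)

theorem HFun.eq_zero_of_om_lt (H : HFun d h) {S : Multiset ℕ} {j : ℕ} (hj : om h d S < j) :
    h (j ::ₘ S) = 0 := by
  by_contra hc
  have := H.le_om (S := S) (j := j) (by omega)
  omega

theorem HFun.om_cons_le (H : HFun d h) (S : Multiset ℕ) (a : ℕ) (hS : 1 ≤ h (a ::ₘ S)) :
    om h d (a ::ₘ S) ≤ om h d S := by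
  apply H.le_om
  have h1 := H.om_spec hS
  rw [Multiset.cons_swap] at h1
  exact h1.trans (H.cons_le _ a)

/-- Telescoping: `h S` is at most the sum of a bound `α` for each `Δ_j`. -/
theorem HFun.h_le_mul (H : HFun d h) {S : Multiset ℕ} {α : ℕ}
    (hα : ∀ j, h (j ::ₘ S) ≤ h ((j + 1) ::ₘ S) + α) :
    h S ≤ (om h d S + 1) * α := by
  have key : ∀ n, h S ≤ h (n ::ₘ S) + n * α := by
    intro n
    induction n with
    | zero => rw [H.zero]; simp
    | succ n ih =>
      have := hα n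
      calc h S ≤ h (n ::ₘ S) + n * α := ih
        _ ≤ h ((n + 1) ::ₘ S) + α + n * α := by omega
        _ = h ((n + 1) ::ₘ S) + (n + 1) * α := by ring
  have h1 := key (om h d S + 1)
  rw [H.eq_zero_of_om_lt (Nat.lt_succ_self _)] at h1
  simpa using h1

/-- `Δ` is non-increasing from a place `a` with `Δ_a ≤ a` on. -/
theorem HFun.mac_from (H : HFun d h) {S : Multiset ℕ} {a : ℕ}
    (_ha : h (a ::ₘ S) ≤ h ((a + 1) ::ₘ S) + a) :
    ∀ j, a ≤ j → ∀ c, h (a ::ₘ S) ≤ h ((a + 1) ::ₘ S) + c → c ≤ a →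
      h (j ::ₘ S) ≤ h ((j + 1) ::ₘ S) + c := by
  intro j hj c hc hca
  induction j, hj using Nat.le_induction with
  | base => exact hc
  | succ n hn ih =>
    have h1 : 2 * h ((n + 1) ::ₘ S) ≤ h (n ::ₘ S) + h ((n + 1 + 1) ::ₘ S) :=
      H.mac2 S n (by omega)
    omega

/-- `h S ≥ ω + 1`. -/
theorem HFun.om_lt (H : HFun d h) {S : Multiset ℕ} (hS : 1 ≤ h S) : om h d S + 1 ≤ h S := by
  have hΔ : ∀ j, j ≤ om h d S → h ((j + 1) ::ₘ S) + 1 ≤ h (j ::ₘ S) := by
    intro j hj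
    by_contra hc
    have hle : h (j ::ₘ S) ≤ h ((j + 1) ::ₘ S) + 0 := by omega
    have h1 : ∀ i, j ≤ i → h (j ::ₘ S) ≤ h (i ::ₘ S) := by
      intro i hi
      induction i, hi using Nat.le_induction with
      | base => exact le_rfl
      | succ n hn ih =>
        have h2 := H.mac_from (a := j) (S := S) (by omega) n hn 0 hle (Nat.zero_le _)
        omega
    have h3 := h1 (om h d S + 1) (by omega)
    rw [H.eq_zero_of_om_lt (Nat.lt_succ_self _)] at h3
    have h4 := H.pos_of_le_om hS hj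
    omega
  have key : ∀ n, n ≤ om h d S + 1 → h (n ::ₘ S) + n ≤ h S := by
    intro n
    induction n with
    | zero => intro _; rw [H.zero]; simp
    | succ n ih =>
      intro hn
      have h1 := ih (by omega)
      have h2 := hΔ n (by omega)
      omega
  have h5 := key (om h d S + 1) le_rfl
  omega

/-- The step from `S` to `m ::ₘ S` is bad: `h (m ::ₘ S) > max 0 (h S - T m)`. -/
def Bad (h : Multiset ℕ → ℕ) (S : Multiset ℕ) (m : ℕ) : Prop :=
  1 ≤ h (m ::ₘ S) ∧ h S < h (m ::ₘ S) + T m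

/-- The place `α` of a bad step. -/
theorem HFun.bad_alpha (H : HFun d h) {S : Multiset ℕ} {m : ℕ} (hb : Bad h S m) :
    ∃ α, α < m ∧ h (α ::ₘ S) ≤ h ((α + 1) ::ₘ S) + α ∧ h S = h (α ::ₘ S) + T α := by
  classical
  have hex : ∃ j, h (j ::ₘ S) ≤ h ((j + 1) ::ₘ S) + j := by
    refine ⟨d + 1, ?_⟩
    rw [H.big]
    omega
  have hmin : ∀ j, j ≤ Nat.find hex → h S = h (j ::ₘ S) + T j := by
    intro j
    induction j with
    | zero => intro _; rw [H.zero, T_zero, add_zero]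
    | succ j ih =>
      intro hj
      have h1 := ih (by omega)
      have h2 := Nat.find_min hex (m := j) (by omega)
      have h3 := H.mac1 S j
      rw [T_succ]
      omega
  refine ⟨Nat.find hex, ?_, Nat.find_spec hex, hmin _ le_rfl⟩
  by_contra hc
  have h1 := hmin m (by omega)
  have h2 := hb.2
  omega

/-- At a bad step `1 < m ≤ ω`. -/
theorem HFun.bad_two_le (H : HFun d h) {S : Multiset ℕ} {m : ℕ} (hb : Bad h S m) : 2 ≤ m := by
  obtain ⟨α, h1, h2, h3⟩ := H.bad_alpha hb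
  by_contra hc
  have hm : m = 1 := by omega
  have hα : α = 0 := by omega
  subst hm hα
  have h4 : h S ≤ h (1 ::ₘ S) := by
    rw [H.zero] at h2
    simpa using h2
  have hS : 1 ≤ h S := hb.1.trans (H.cons_le _ _)
  have h5 : ∀ j, h S ≤ h (j ::ₘ S) := by
    intro j
    induction j with
    | zero => rw [H.zero]
    | succ n ih =>
      have h6 := H.mac_from (a := 0) (S := S) h2 n (Nat.zero_le _) 0 h2 le_rfl
      omega
  have h7 := h5 (d + 1)
  rw [H.big] at h7
  omega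

theorem HFun.bad_le_om (H : HFun d h) {S : Multiset ℕ} {m : ℕ} (hb : Bad h S m) :
    m ≤ om h d S := H.le_om hb.1

theorem HFun.bad_pos (H : HFun d h) {S : Multiset ℕ} {m : ℕ} (hb : Bad h S m) : 1 ≤ h S :=
  hb.1.trans (H.cons_le _ _)

/-- At a bad step `N < m ω`. -/
theorem HFun.bad_lt (H : HFun d h) {S : Multiset ℕ} {m : ℕ} (hb : Bad h S m) :
    h S < m * om h d S := by
  obtain ⟨α, h1, h2, h3⟩ := H.bad_alpha hb
  have h4 : h S ≤ (om h d S + 1) * α := by
    refine H.h_le_mul (S := S) ?_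
    intro j
    rcases lt_or_ge j α with hj | hj
    · have := H.mac1 S j
      omega
    · exact H.mac_from h2 j hj α h2 le_rfl
  have h5 := H.bad_le_om hb
  have h6 : (om h d S + 1) * α ≤ (om h d S + 1) * (m - 1) := Nat.mul_le_mul_left _ (by omega)
  obtain ⟨k, rfl⟩ : ∃ k, m = k + 1 := ⟨m - 1, by omega⟩
  have h7 : (om h d S + 1) * (k + 1 - 1) = om h d S * k + k := by
    rw [Nat.add_sub_cancel]; ring
  have h8 : (k + 1) * om h d S = om h d S * k + om h d S := by ring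
  omega

/-- At a bad step `N` decreases at least by the factor `1 - m / (2 ω)`. -/
theorem HFun.bad_drop (H : HFun d h) {S : Multiset ℕ} {m : ℕ} (hb : Bad h S m) :
    (m : ℝ) * h S ≤ 2 * om h d S * ((h S : ℝ) - h (m ::ₘ S)) := by
  obtain ⟨α, h1, h2, h3⟩ := H.bad_alpha hb
  have hmω := H.bad_le_om hb
  set ω := om h d S with hω
  -- `δ = Δ_(m-1)`
  obtain ⟨k, rfl⟩ : ∃ k, m = k + 1 := ⟨m - 1, by omega⟩
  obtain ⟨δ, hδ⟩ : ∃ δ, h (k ::ₘ S) = h ((k + 1) ::ₘ S) + δ :=
    ⟨h (k ::ₘ S) - h ((k + 1) ::ₘ S), by have := H.anti S k; omega⟩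
  have hδα : δ ≤ α := by
    have := H.mac_from h2 k (by omega) α h2 le_rfl
    omega
  -- `Δ_j ≥ δ` for `α ≤ j ≤ k`
  have hge : ∀ j, α ≤ j → j ≤ k → h ((j + 1) ::ₘ S) + δ ≤ h (j ::ₘ S) := by
    intro j hj hjk
    by_contra hc
    obtain ⟨c, hc'⟩ : ∃ c, h (j ::ₘ S) = h ((j + 1) ::ₘ S) + c :=
      ⟨h (j ::ₘ S) - h ((j + 1) ::ₘ S), by have := H.anti S j; omega⟩
    have h4 : c ≤ α := by
      have := H.mac_from h2 j hj α h2 le_rfl
      omega
    have h5 := H.mac_from (a := j) (S := S) (by omega) k hjk c (by omega) (by omega)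
    omega
  -- `Δ_j ≤ δ` for `k ≤ j`
  have hle : ∀ j, k ≤ j → h (j ::ₘ S) ≤ h ((j + 1) ::ₘ S) + δ := by
    intro j hj
    exact H.mac_from (a := k) (S := S) (by omega) j hj δ (by omega) (by omega)
  -- telescoping
  have hA : ∀ i, α + i ≤ k + 1 → h ((α + i) ::ₘ S) + i * δ ≤ h (α ::ₘ S) := by
    intro i
    induction i with
    | zero => intro _; simp
    | succ i ih =>
      intro hi
      have h4 := ih (by omega)
      have h5 := hge (α + i) (by omega) (by omega)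
      have h6 : (i + 1) * δ = i * δ + δ := by ring
      rw [h6]
      have h7 : α + (i + 1) = α + i + 1 := by ring
      rw [h7]
      omega
  have hB : ∀ i, h ((k + 1) ::ₘ S) ≤ h ((k + 1 + i) ::ₘ S) + i * δ := by
    intro i
    induction i with
    | zero => simp
    | succ i ih =>
      have h5 := hle (k + 1 + i) (by omega)
      have h6 : (i + 1) * δ = i * δ + δ := by ring
      rw [h6]
      have h7 : k + 1 + (i + 1) = k + 1 + i + 1 := by ring
      rw [h7]
      omega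
  have hA' := hA (k + 1 - α) (by omega)
  rw [show α + (k + 1 - α) = k + 1 by omega] at hA'
  have hB' := hB (ω + 1 - (k + 1))
  rw [show k + 1 + (ω + 1 - (k + 1)) = ω + 1 by omega,
    H.eq_zero_of_om_lt (Nat.lt_succ_self _), zero_add] at hB'
  obtain ⟨u, hu⟩ : ∃ u, k + 1 = α + u := ⟨k + 1 - α, by omega⟩
  obtain ⟨v, hv⟩ : ∃ v, ω + 1 = k + 1 + v := ⟨ω + 1 - (k + 1), by omega⟩
  rw [show k + 1 - α = u by omega] at hA'
  rw [show ω + 1 - (k + 1) = v by omega] at hB'
  have eN : (h S : ℝ) = h (α ::ₘ S) + T α := by exact_mod_cast h3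
  have eA : (h ((k + 1) ::ₘ S) : ℝ) + u * δ ≤ h (α ::ₘ S) := by exact_mod_cast hA'
  have eB : (h ((k + 1) ::ₘ S) : ℝ) ≤ v * δ := by exact_mod_cast hB'
  have eu : ((k + 1 : ℕ) : ℝ) = α + u := by exact_mod_cast hu
  have ev : (ω : ℝ) + 1 = ((k + 1 : ℕ) : ℝ) + v := by exact_mod_cast hv
  have eδ : (δ : ℝ) ≤ α := by exact_mod_cast hδα
  have eα : (α : ℝ) + 1 ≤ ((k + 1 : ℕ) : ℝ) := by exact_mod_cast h1
  have eω : ((k + 1 : ℕ) : ℝ) ≤ ω := by exact_mod_cast hmω
  have eT := T_real α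
  generalize ((k + 1 : ℕ) : ℝ) = m at *
  generalize (h S : ℝ) = N at *
  generalize (h ((k + 1) ::ₘ S) : ℝ) = n' at *
  generalize (h (α ::ₘ S) : ℝ) = a at *
  have hδ0 : (0 : ℝ) ≤ δ := Nat.cast_nonneg _
  have hα0 : (0 : ℝ) ≤ α := Nat.cast_nonneg _
  have hv0 : (0 : ℝ) ≤ v := Nat.cast_nonneg _
  generalize (δ : ℝ) = δ' at *
  generalize (α : ℝ) = α' at *
  generalize (v : ℝ) = v' at *
  generalize (u : ℝ) = u' at *
  generalize (ω : ℝ) = w at *
  -- ρ ≥ δ (m + 2) / 2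
  have hρ : δ' * (m + 2) ≤ 2 * (N - n') := by
    rw [eN, eT]
    have hu' : u' = m - α' := by linarith
    have : δ' * (m + 2) ≤ α' * (α' + 1) + 2 * ((m - α') * δ') := by
      nlinarith [mul_nonneg hδ0 (sub_nonneg.2 eδ), mul_nonneg hα0 (sub_nonneg.2 eα),
        mul_nonneg (sub_nonneg.2 eδ) (sub_nonneg.2 eα), mul_nonneg hδ0 (sub_nonneg.2 eα),
        mul_nonneg hα0 (sub_nonneg.2 eδ), sq_nonneg (α' - δ'), sq_nonneg (α' - δ' - 1)]
    rw [hu'] at eA
    nlinarith
  have hm0 : 0 < m := by linarith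
  have hw0 : 0 < w := by linarith
  have hvw : v' = w + 1 - m := by linarith
  have h10 : n' * (m + 2) ≤ (w + 1 - m) * (2 * (N - n')) := by
    rw [hvw] at eB
    have hw1 : 0 ≤ w + 1 - m := by linarith
    calc n' * (m + 2) ≤ ((w + 1 - m) * δ') * (m + 2) := by
          apply mul_le_mul_of_nonneg_right eB; linarith
      _ = (w + 1 - m) * (δ' * (m + 2)) := by ring
      _ ≤ (w + 1 - m) * (2 * (N - n')) := mul_le_mul_of_nonneg_left hρ hw1
  have hρ0 : 0 ≤ N - n' := by nlinarith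
  -- (m+2) N ≤ ρ (2 w + 4 - m)
  have h11 : (m + 2) * N ≤ (N - n') * (2 * w + 4 - m) := by nlinarith
  have h12 : m * (2 * w + 4 - m) ≤ 2 * w * (m + 2) := by nlinarith
  have h13 : (m + 2) * (m * N) ≤ (m + 2) * (2 * w * (N - n')) := by
    calc (m + 2) * (m * N) = m * ((m + 2) * N) := by ring
      _ ≤ m * ((N - n') * (2 * w + 4 - m)) := mul_le_mul_of_nonneg_left h11 hm0.le
      _ = (N - n') * (m * (2 * w + 4 - m)) := by ring
      _ ≤ (N - n') * (2 * w * (m + 2)) := mul_le_mul_of_nonneg_left h12 hρ0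
      _ = (m + 2) * (2 * w * (N - n')) := by ring
  exact le_of_mul_le_mul_left h13 (by linarith)

end ShghJ
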