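import Pool.Agent.ShghJ.CollC
import Pool.Agent.ShghJ.Geo
import Pool.Agent.ShghJ.Mac
import Pool.Agent.ShghJ.Clo
import Pool.Agent.ShghJ.Der
import Pool.Agent.ShghJ.Inv

/-!
# ShghJ, Coll: the collision lemma for generic points

`1 ≤ h (m, w, S)`, `h (a, S) - h (a + 1, S) ≤ a` and `h (o + 1, S) = 0` imply `m + w + 1 ≤ o + a`.
-/

namespace ShghJ

open MvPolynomial

universe u v w

section

variable (F : Type u) [Field F]

/-- The infinitesimal shear fixing the point `up F 0` and moving the points `up F (i + 1)`. -/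
theorem coll_der (s : ℕ) : ∃ δ, IsShear (K := UF F) δ (up F 0) (fun i => up F (i + 1) 0)
    (fun i => up F (i + 1) 1) s := by
  classical
  choose D hD using fun i => tDer F (i + 1) 1
  obtain ⟨δ, hδ⟩ := geo_mkDer (UF F)
    (fun x => ∑ i ∈ Finset.range s, (up F (i + 1) 0 - up F 0 0) * D i x)
    (fun a b => by
      rw [← Finset.sum_add_distrib]
      refine Finset.sum_congr rfl fun i _ => ?_
      rw [map_add, mul_add])
    (fun a b => by
      rw [Finset.mul_sum, Finset.mul_sum, ← Finset.sum_add_distrib]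
      refine Finset.sum_congr rfl fun i _ => ?_
      rw [Derivation.leibniz, smul_eq_mul, smul_eq_mul]
      ring)
  refine ⟨δ, ?_, ?_, fun i hi => ?_, fun i hi => ?_⟩
  · rw [hδ]
    refine Finset.sum_eq_zero fun i _ => ?_
    rw [hD, if_neg (by rintro ⟨h, -⟩; omega), mul_zero]
  · rw [hδ]
    refine Finset.sum_eq_zero fun i _ => ?_
    rw [hD, if_neg (by rintro ⟨h, -⟩; omega), mul_zero]
  · rw [hδ]
    refine Finset.sum_eq_zero fun j _ => ?_
    rw [hD, if_neg (by rintro ⟨-, h⟩; exact absurd h (by decide)), mul_zero]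
  · rw [hδ, Finset.sum_eq_single i]
    · rw [hD, if_pos ⟨rfl, rfl⟩, mul_one]
    · intro j _ hji
      rw [hD, if_neg (by rintro ⟨h, -⟩; omega), mul_zero]
    · intro h
      exact absurd (Finset.mem_range.2 hi) h

/-- The points over `K[t]`. -/
noncomputable def collP (s : ℕ) : Fin (s + 2) → Fin 2 → Polynomial (UF F) :=
  Fin.cons (α := fun _ => Fin 2 → Polynomial (UF F)) (fun c => Polynomial.C (up F 0 c))
    (Fin.cons (α := fun _ => Fin 2 → Polynomial (UF F))
      ![Polynomial.X + Polynomial.C (up F 0 0), Polynomial.C (up F 0 1)]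
      (fun i c => Polynomial.C (up F ((i : ℕ) + 1) c)))

/-- The collision lemma for generic points, if `1, ..., d` are not zero in the field. -/
theorem hF_coll (d : ℕ) (hd : ∀ n : ℕ, 1 ≤ n → n ≤ d → (n : F) ≠ 0) (S : Multiset ℕ)
    (m w a o : ℕ)
    (h1 : 1 ≤ hF F d (m ::ₘ w ::ₘ S)) (h2 : hF F d (a ::ₘ S) ≤ hF F d ((a + 1) ::ₘ S) + a)
    (h3 : hF F d ((o + 1) ::ₘ S) = 0) : m + w + 1 ≤ o + a := by
  classical
  have hInv : S_Inv.{u, u} := tInv
  have hCnt : S_Cnt.{u} := tCnt
  have hMac : S_Mac.{u} := tMac tDc tCnt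
  have hClo : S_Clo.{u} := tClo tDc
  have hchar : ∀ n : ℕ, 1 ≤ n → n ≤ d → (n : UF F) ≠ 0 := by
    intro n h1 h2 h3
    apply hd n h1 h2
    have h4 : algebraMap F (UF F) (n : F) = algebraMap F (UF F) 0 := by
      rw [map_natCast, map_zero, h3]
    exact (algebraMap F (UF F)).injective h4
  obtain ⟨δ, hδ0, hδ1, hδP0, hδP1⟩ := coll_der F S.toList.length
  -- the derivations for Macaulay
  choose D₀ hD₀ using tDer F 0
  choose D hD' using fun c => geo_mkDer (UF F) (fun x => D₀ c x) (fun a b => map_add (D₀ c) a b)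
    (fun a b => (D₀ c).leibniz a b)
  have hD : ∀ (c : Fin 2) (i' : ℕ) (c' : Fin 2),
      D c (up F i' c') = if i' = 0 ∧ c' = c then 1 else 0 := by
    intro c i' c'
    rw [hD', hD₀]
  have hD0 : ∀ c (i : ℕ) c', D c (up F (i + 1) c') = 0 := by
    intro c i c'
    rw [hD, if_neg]
    rintro ⟨h, -⟩
    omega
  have hD1 : ∀ c c', D c (up F 0 c') = if c = c' then 1 else 0 := by
    intro c c'
    rw [hD]
    by_cases h : c = c'
    · rw [if_pos ⟨rfl, h.symm⟩, if_pos h]
    · rw [if_neg (fun h' => h h'.2.symm), if_neg h]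
  have hmac : ∀ j, Module.finrank (UF F) (fil (geoV F d S.toList) (up F 0) j) ≤
      Module.finrank (UF F) (fil (geoV F d S.toList) (up F 0) (j + 1)) + j →
      2 * Module.finrank (UF F) (fil (geoV F d S.toList) (up F 0) (j + 1)) ≤
        Module.finrank (UF F) (fil (geoV F d S.toList) (up F 0) (j + 2)) +
          Module.finrank (UF F) (fil (geoV F d S.toList) (up F 0) j) := fun j h =>
    hMac (UF F) D (up F 0) (geoV F d S.toList) d j (geo_finV F d _) hD1
      (fun f hf => (ShghT.mem_LS.1 hf).1)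
      (fun c f hf => hClo (UF F) (D c) _ d _ _ (fun i c' => hD0 c i c') f hf)
      hchar h
  -- transfer
  have h4 := hInv F (UF F) (S.toList.length + 2) d
    (Fin.cons m (Fin.cons w (fun i => S.toList.get i) : Fin (S.toList.length + 1) → ℕ))
    (fun i => up F i) (geo_algInd F (fun i : Fin (S.toList.length + 2) => (i : ℕ))
      Fin.val_injective)
  have e : (Finset.univ.val.map
      (Fin.cons m (Fin.cons w (fun i => S.toList.get i) : Fin (S.toList.length + 1) → ℕ) :
        Fin (S.toList.length + 2) → ℕ)) = m ::ₘ w ::ₘ S := by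
    rw [Fin.univ_val_map, List.ofFn_succ]
    simp only [Fin.cons_zero, Fin.cons_succ]
    rw [List.ofFn_succ]
    simp only [Fin.cons_zero, Fin.cons_succ]
    rw [List.ofFn_get, ← Multiset.cons_coe, ← Multiset.cons_coe, Multiset.coe_toList]
  rw [e] at h4
  have h5 := ShghT.finrank_LS_le (fun i : Fin (S.toList.length + 2) => up F (i : ℕ))
    (geo_algInd F (fun i : Fin (S.toList.length + 2) => (i : ℕ)) Fin.val_injective)
    (fun i c => algebraMap (Polynomial (UF F)) (FractionRing (Polynomial (UF F)))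
      (collP F S.toList.length i c)) d
    (Fin.cons m (Fin.cons w (fun i => S.toList.get i) : Fin (S.toList.length + 1) → ℕ))
  rw [h4] at h5
  obtain ⟨g, hgm, hg⟩ := coll_exists _ (h1.trans h5)
  have hgm := ShghT.mem_LS.1 hgm
  obtain ⟨H, hH0, hHd, hH⟩ := coll_clear (collP F S.toList.length) d _ g hg hgm.1 hgm.2
  have hP0 : collP F S.toList.length 0 = fun c => Polynomial.C (up F 0 c) := Fin.cons_zero _ _
  have hP1 : collP F S.toList.length (Fin.succ 0) =
      ![Polynomial.X + Polynomial.C (up F 0 0), Polynomial.C (up F 0 1)] := by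
    unfold collP
    rw [Fin.cons_succ, Fin.cons_zero]
  have hP2 : ∀ i : Fin S.toList.length, collP F S.toList.length (Fin.succ (Fin.succ i)) =
      fun c => Polynomial.C (up F ((i : ℕ) + 1) c) := by
    intro i
    unfold collP
    rw [Fin.cons_succ, Fin.cons_succ]
  refine coll_K δ S.toList.length d hchar (fun i => S.toList.get i) (fun i => up F ((i : ℕ) + 1))
    (up F 0) hδ0 hδ1 (fun i => hδP0 i i.2) (fun i => hδP1 i i.2) hmac m w a o H hH0 hHd ?_ ?_ ?_
    ?_ ?_
  · intro i x hx
    have h6 := hH (Fin.succ (Fin.succ i)) x (by rw [Fin.cons_succ, Fin.cons_succ]; exact hx)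
    rw [hP2] at h6
    exact h6
  · intro x hx
    have h6 := hH 0 x (by rw [Fin.cons_zero]; exact hx)
    rw [hP0] at h6
    exact h6
  · intro x hx
    have h6 := hH (Fin.succ 0) x (by rw [Fin.cons_succ, Fin.cons_zero]; exact hx)
    rw [hP1] at h6
    exact h6
  · rw [geo_hF_cons F d hInv, geo_hF_cons F d hInv] at h2
    exact h2
  · rw [geo_hF_cons F d hInv] at h3
    have : Module.Finite (UF F) (fil (geoV F d S.toList) (up F 0) (o + 1)) :=
      geo_finite_of_le (geo_fil_le _ _ _) (geo_finV F d _)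
    have h7 : fil (geoV F d S.toList) (up F 0) (o + 1) = ⊥ := Submodule.finrank_eq_zero.1 h3
    exact h7

end

end ShghJ
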