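import Pool.Agent.ShghJ.HFun

/-!
# The interface with the collision axiom and the logarithm-free targets
-/

namespace ShghJ

/-- `HFun` together with the collision inequality: if a nonzero member has multiplicities `m` and
`w` at two further generic points, then `m + w < ω(S) + α(S)`, where `α(S) ≤ a` means
`Δ_a ≤ a` and `ω(S) ≤ o` means that there is no member of multiplicity `o + 1`. -/
structure HFunC (d : ℕ) (h : Multiset ℕ → ℕ) : Prop extends HFun d h where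
  /-- collision of two generic points -/
  coll : ∀ (S : Multiset ℕ) (m w a o : ℕ), 1 ≤ h (m ::ₘ w ::ₘ S) →
    h (a ::ₘ S) ≤ h ((a + 1) ::ₘ S) + a → h ((o + 1) ::ₘ S) = 0 → m + w + 1 ≤ o + a

/-- WINDOW, log-free: every class with `13 M² ≤ 2 |χ|`, `M` = largest multiplicity. -/
def WindowC : Prop := ∀ (d : ℕ) (h : Multiset ℕ → ℕ), HFunC d h → ∀ (M : ℕ) (S : Multiset ℕ),
  (∀ x ∈ S, x ≤ M) → 13 * (M : ℤ) ^ 2 ≤ 2 * |(T (d + 1) : ℤ) - TT S| → h S = T (d + 1) - TT S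

/-- THEOREM Y (mass condition): if
`121 x² ≤ 3 |χ| + (sum of the T of the smaller multiplicities)` for all multiplicities `x ≥ 2`,
then `h = max 0 χ`. -/
def YC : Prop := ∀ (d : ℕ) (h : Multiset ℕ → ℕ), HFunC d h → ∀ S : Multiset ℕ,
  (∀ x ∈ S, 2 ≤ x →
    121 * (x : ℤ) ^ 2 ≤ 3 * |(T (d + 1) : ℤ) - TT S| + TT (S.filter (fun j => j < x))) →
  h S = T (d + 1) - TT S

/-- STRUCTURE OF ALL EXCEPTIONS: sorted increasingly, `m = A ++ μ :: B` with `A` non-special,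
`0 < χ(A) < 13 μ² / 2`, at most `24` points in `μ :: B`, all of multiplicity at most
`13 μ / 2`. -/
def StructC : Prop := ∀ (d : ℕ) (h : Multiset ℕ → ℕ), HFunC d h → ∀ (m : List ℕ),
  m.Pairwise (· ≤ ·) → 1 ≤ h m → T (d + 1) < h m + TT m →
  ∃ (A : List ℕ) (μ : ℕ) (B : List ℕ), m = A ++ μ :: B ∧ 2 ≤ μ ∧
    h A + TT A = T (d + 1) ∧ 1 ≤ h A ∧ 2 * h A < 13 * μ ^ 2 ∧ (μ :: B).length ≤ 24 ∧
    (∀ x ∈ B, μ ≤ x ∧ 2 * x ≤ 13 * μ) ∧ 4 * (h m + TT m - T (d + 1)) ≤ 169 * μ ^ 2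

end ShghJ
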