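import Pool.Agent.ShghJ.GeoMain
import Pool.Agent.ShghJ.HFunC
import Pool.Agent.ShghJ.Coll

/-!
# The geometry with the collision inequality
-/

namespace ShghJ

universe u

/-- The dimension function of generic points satisfies `HFunC`. -/
theorem hfunC_hF (F : Type u) [Field F] (d : ℕ)
    (hd : ∀ n : ℕ, 1 ≤ n → n ≤ d → (n : F) ≠ 0) : HFunC d (hF F d) where
  toHFun := hfun_hF F d hd
  coll := fun S m w a o h1 h2 h3 => hF_coll F d hd S m w a o h1 h2 h3

end ShghJ
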