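import Pool.Agent.ShghJ.CollB

/-!
# ShghJ, CollC: clearing denominators, the coefficients of `t ^ k`, and the abstract form
-/

namespace ShghJ

open MvPolynomial

universe u v w

theorem shift_map {R R' : Type*} [CommRing R] [CommRing R'] (φ : R →+* R') (a b : R)
    (f : MvPolynomial (Fin 2) R) :
    ShghE.tfShift (φ a) (φ b) (MvPolynomial.map φ f) =
      MvPolynomial.map φ (ShghE.tfShift a b f) := by
  have h : (ShghE.tfShift (φ a) (φ b)).toRingHom.comp (MvPolynomial.map φ) =
      (MvPolynomial.map φ).comp (ShghE.tfShift a b).toRingHom := by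
    apply MvPolynomial.ringHom_ext
    · intro r
      simp [ShghE.tfShift]
    · intro i
      fin_cases i <;> simp [ShghE.tfShift]
  exact RingHom.congr_fun h f

theorem shift_shift {R : Type*} [CommRing R] (a b a' b' : R) (f : MvPolynomial (Fin 2) R) :
    ShghE.tfShift a' b' (ShghE.tfShift a b f) = ShghE.tfShift (a' + a) (b' + b) f := by
  have h : (ShghE.tfShift a' b').comp (ShghE.tfShift a b) = ShghE.tfShift (a' + a) (b' + b) := by
    apply MvPolynomial.algHom_ext
    intro i
    fin_cases i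
    · change ShghE.tfShift a' b' (ShghE.tfShift a b (X 0)) = ShghE.tfShift (a' + a) (b' + b) (X 0)
      rw [ShghE.tfShift_X0, map_add, ShghE.tfShift_X0, ShghE.tfShift_C, ShghE.tfShift_X0, map_add]
      ring
    · change ShghE.tfShift a' b' (ShghE.tfShift a b (X 1)) = ShghE.tfShift (a' + a) (b' + b) (X 1)
      rw [ShghE.tfShift_X1, map_add, ShghE.tfShift_X1, ShghE.tfShift_C, ShghE.tfShift_X1, map_add]
      ring
  exact DFunLike.congr_fun h f

/-- Clearing denominators. -/
theorem coll_clear {K : Type u} [Field K] {E : Type v} [Field E] [Algebra (Polynomial K) E]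
    [IsFractionRing (Polynomial K) E] {s : ℕ} (P : Fin s → Fin 2 → Polynomial K) (d : ℕ)
    (μ : Fin s → ℕ) (g : MvPolynomial (Fin 2) E) (hg : g ≠ 0) (hdeg : g.totalDegree ≤ d)
    (hμ : ∀ i, g ∈ ShghT.pt (algebraMap (Polynomial K) E (P i 0))
      (algebraMap (Polynomial K) E (P i 1)) ^ μ i) :
    ∃ H : MvPolynomial (Fin 2) (Polynomial K), H ≠ 0 ∧ H.totalDegree ≤ d ∧
      ∀ i, ∀ e : Fin 2 →₀ ℕ, e.degree < μ i →
        (ShghE.tfShift (P i 0) (P i 1) H).coeff e = 0 := by
  classical
  have hinj : Function.Injective (algebraMap (Polynomial K) E) :=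
    IsFractionRing.injective _ _
  obtain ⟨r, hr⟩ := IsLocalization.exist_integer_multiples_of_finset
    (nonZeroDivisors (Polynomial K)) (g.support.image fun e => g.coeff e)
  have hr' : ∀ e ∈ g.support, ∃ c : Polynomial K,
      algebraMap (Polynomial K) E c =
        algebraMap (Polynomial K) E r * g.coeff e := by
    intro e he
    obtain ⟨c, hc⟩ := hr _ (Finset.mem_image_of_mem (fun e => g.coeff e) he)
    exact ⟨c, by rw [hc, Algebra.smul_def]⟩
  have hr0 : algebraMap (Polynomial K) E r ≠ 0 := by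
    rw [Ne, map_eq_zero_iff _ hinj]
    exact nonZeroDivisors.coe_ne_zero r
  choose! c hc using hr'
  set H : MvPolynomial (Fin 2) (Polynomial K) := ∑ e ∈ g.support, monomial e (c e) with hH
  have hHc : ∀ e, H.coeff e = if e ∈ g.support then c e else 0 := by
    intro e
    rw [hH, coeff_sum]
    simp only [coeff_monomial]
    rw [Finset.sum_ite_eq']
  have hmap : MvPolynomial.map (algebraMap (Polynomial K) E) H =
      C (algebraMap (Polynomial K) E r) * g := by
    ext e
    rw [coeff_map, hHc, coeff_C_mul]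
    split_ifs with h
    · rw [hc e h]
    · rw [map_zero, notMem_support_iff.1 h, mul_zero]
  refine ⟨H, fun h0 => ?_, ?_, fun i e he => ?_⟩
  · rw [h0, map_zero] at hmap
    rcases mul_eq_zero.1 hmap.symm with h1 | h1
    · rw [C_eq_zero] at h1
      exact hr0 h1
    · exact hg h1
  · rw [ShghE.tf_totalDegree_le] at hdeg ⊢
    intro e he
    by_contra hcon
    rw [mem_support_iff, hHc] at he
    have he' : e ∈ g.support := by
      by_contra h
      exact he (if_neg h)
    exact hcon (hdeg e he')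
  · apply hinj
    rw [map_zero, ← coeff_map, ← shift_map, hmap, map_mul, ShghE.tfShift_C, coeff_C_mul,
      (ShghE.tf_mem_iff _ _ _ _).1 (hμ i) e he, mul_zero]

theorem coll_exists {K : Type u} [Field K] (V : Submodule K (MvPolynomial (Fin 2) K))
    (h : 1 ≤ Module.finrank K V) : ∃ f ∈ V, f ≠ 0 := by
  have : V ≠ ⊥ := by
    intro h0
    rw [h0, finrank_bot] at h
    omega
  obtain ⟨f, hf, hf0⟩ := Submodule.exists_mem_ne_zero_of_ne_bot this
  exact ⟨f, hf, hf0⟩

/-- The coefficient of `t ^ k`. -/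
noncomputable def cfk {K : Type u} [Field K] (k : ℕ) (H : MvPolynomial (Fin 2) (Polynomial K)) :
    MvPolynomial (Fin 2) K := ∑ e ∈ H.support, monomial e ((H.coeff e).coeff k)

theorem coeff_cfk {K : Type u} [Field K] (k : ℕ) (H : MvPolynomial (Fin 2) (Polynomial K))
    (e : Fin 2 →₀ ℕ) : (cfk k H).coeff e = (H.coeff e).coeff k := by
  classical
  unfold cfk
  rw [coeff_sum]
  simp only [coeff_monomial]
  rw [Finset.sum_ite_eq']
  split_ifs with h
  · rfl
  · rw [notMem_support_iff.1 h, Polynomial.coeff_zero]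

theorem cfk_degree {K : Type u} [Field K] (k d : ℕ) (H : MvPolynomial (Fin 2) (Polynomial K))
    (hH : H.totalDegree ≤ d) : (cfk k H).totalDegree ≤ d := by
  rw [ShghE.tf_totalDegree_le] at hH ⊢
  intro e he
  refine hH e (mem_support_iff.2 fun h => ?_)
  rw [mem_support_iff, coeff_cfk, h, Polynomial.coeff_zero] at he
  exact he rfl

theorem cfk_shift {K : Type u} [Field K] (k : ℕ) (α β : K)
    (H : MvPolynomial (Fin 2) (Polynomial K)) (e : Fin 2 →₀ ℕ) :
    (ShghE.tfShift α β (cfk k H)).coeff e =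
      ((ShghE.tfShift (Polynomial.C α) (Polynomial.C β) H).coeff e).coeff k := by
  induction H using MvPolynomial.induction_on' with
  | add p q hp hq =>
    have h1 : cfk k (p + q) = cfk k p + cfk k q := by
      ext x
      rw [coeff_add, coeff_cfk, coeff_cfk, coeff_cfk, coeff_add, Polynomial.coeff_add]
    rw [h1, map_add, coeff_add, hp, hq, map_add, coeff_add, Polynomial.coeff_add]
  | monomial x a =>
    classical
    have h1 : cfk k (monomial x a) = a.coeff k • monomial x 1 := by
      ext y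
      rw [coeff_cfk, coeff_smul, coeff_monomial, coeff_monomial]
      split_ifs
      · rw [smul_eq_mul, mul_one]
      · rw [Polynomial.coeff_zero, smul_zero]
    have h2 : (monomial x a : MvPolynomial (Fin 2) (Polynomial K)) = a • monomial x 1 := by
      rw [smul_monomial, smul_eq_mul, mul_one]
    have h3 := ShghE.tfM_map (Polynomial.C : K →+* Polynomial K) α β x e
    unfold ShghE.tfM at h3
    rw [h1, h2, map_smul, coeff_smul, map_smul, coeff_smul, h3, smul_eq_mul, smul_eq_mul,
      Polynomial.coeff_mul_C]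

/-- `δ` fixes the point `p` and moves `(x i, y i)`, `i < s`, vertically by `x i - p 0`. -/
def IsShear {K : Type u} [Field K] (δ : Derivation ℤ K K) (p : Fin 2 → K) (x y : ℕ → K)
    (s : ℕ) : Prop :=
  δ (p 0) = 0 ∧ δ (p 1) = 0 ∧ (∀ i, i < s → δ (x i) = 0) ∧ ∀ i, i < s → δ (y i) = x i - p 0

/-- The collision lemma over a field with the infinitesimal shear. -/
theorem coll_K {K : Type u} [Field K] (δ : Derivation ℤ K K) (s d : ℕ)
    (hchar : ∀ n : ℕ, 1 ≤ n → n ≤ d → (n : K) ≠ 0) (μ : Fin s → ℕ) (P : Fin s → Fin 2 → K) (p : Fin 2 → K) (h0 : δ (p 0) = 0)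
    (h1 : δ (p 1) = 0) (hP0 : ∀ i, δ (P i 0) = 0) (hP1 : ∀ i, δ (P i 1) = P i 0 - p 0)
    (hmac : ∀ j, Module.finrank K (fil (ShghT.LS d μ P) p j) ≤
      Module.finrank K (fil (ShghT.LS d μ P) p (j + 1)) + j →
      2 * Module.finrank K (fil (ShghT.LS d μ P) p (j + 1)) ≤
        Module.finrank K (fil (ShghT.LS d μ P) p (j + 2)) +
          Module.finrank K (fil (ShghT.LS d μ P) p j))
    (m w a o : ℕ)
    (H : MvPolynomial (Fin 2) (Polynomial K)) (hH : H ≠ 0) (hd : H.totalDegree ≤ d)
    (hHP : ∀ i, ∀ e : Fin 2 →₀ ℕ, e.degree < μ i →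
      (ShghE.tfShift (Polynomial.C (P i 0)) (Polynomial.C (P i 1)) H).coeff e = 0)
    (hm : ∀ e : Fin 2 →₀ ℕ, e.degree < m →
      (ShghE.tfShift (Polynomial.C (p 0)) (Polynomial.C (p 1)) H).coeff e = 0)
    (hw : ∀ e : Fin 2 →₀ ℕ, e.degree < w →
      (ShghE.tfShift (Polynomial.X + Polynomial.C (p 0)) (Polynomial.C (p 1)) H).coeff e = 0)
    (ha : Module.finrank K (fil (ShghT.LS d μ P) p a) ≤
      Module.finrank K (fil (ShghT.LS d μ P) p (a + 1)) + a)
    (ho : fil (ShghT.LS d μ P) p (o + 1) = ⊥) : m + w + 1 ≤ o + a := by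
  classical
  have hH' : ShghE.tfShift (Polynomial.C (p 0)) (Polynomial.C (p 1)) H ≠ 0 := by
    intro h
    apply hH
    rw [← ShghE.tfShift_neg (Polynomial.C (p 0)) (Polynomial.C (p 1)) H, h, map_zero]
  obtain ⟨j, i, hi, hij, hmw⟩ := coll_core (ShghT.LS d μ P) p m w o _ hH' (fun k => cfk k H)
    (fun k => by
      rw [ShghT.mem_LS]
      refine ⟨cfk_degree k d H hd, fun i => (ShghE.tf_mem_iff _ _ _ _).2 fun e he => ?_⟩
      rw [cfk_shift, hHP i e he, Polynomial.coeff_zero])
    (fun k e => cfk_shift k _ _ H e) hm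
    (fun e he => by
      rw [shift_shift, zero_add]
      exact hw e he) ho
  have h2 := degSet_card δ (ShghT.LS d μ P) p d (fun f hf => (ShghT.mem_LS.1 hf).1) hchar (Eop_LS δ (p 0) s d μ P hP0 hP1) h0 h1 j i hi
  have h3 := tCnt K (ShghT.LS d μ P) p j inferInstance
  by_cases hja : j < a
  · omega
  · obtain ⟨n, rfl⟩ : ∃ n, j = a + n := ⟨j - a, by omega⟩
    have h4 : ∀ n, Module.finrank K (fil (ShghT.LS d μ P) p (a + n)) ≤
        Module.finrank K (fil (ShghT.LS d μ P) p (a + n + 1)) + a := by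
      intro n
      induction n with
      | zero => exact ha
      | succ n ih =>
        have h5 := hmac (a + n) (by omega)
        have e1 : a + (n + 1) = a + n + 1 := by omega
        have e2 : a + n + 1 + 1 = a + n + 2 := by omega
        rw [e1, e2]
        omega
    have h5 := h4 n
    omega

end ShghJ
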