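import Pool.Agent.ShghJ.Cnt
import Pool.Agent.ShghJ.Dc

/-!
# ShghJ, CollA: the infinitesimal shear and the degree sets

`Eop δ a f = δ f + (x - a) ∂_y f`, where `δ f` is the coefficientwise derivation.  If `δ` moves every
point `(x_i, y_i)` by `(0, x_i - a)` then `Eop δ a` preserves the linear system.  It acts on the
leading forms at a point `(a, b)` with `δ a = δ b = 0` by `δ + X ∂_Y`.  Hence the set of the
`x`-degrees of the leading forms of degree `j` is a final segment of `{0, ..., j}`.
-/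

namespace ShghJ

open MvPolynomial

universe u v w

/-- The infinitesimal shear with centre on the line `x = a`. -/
noncomputable def Eop {K : Type u} [Field K] (δ : Derivation ℤ K K) (a : K)
    (f : MvPolynomial (Fin 2) K) : MvPolynomial (Fin 2) K :=
  Dc δ f + (X 0 - C a) * pderiv 1 f

theorem shift_pderiv {K : Type u} [Field K] (a b : K) (i : Fin 2) (f : MvPolynomial (Fin 2) K) :
    ShghE.tfShift a b (pderiv i f) = pderiv i (ShghE.tfShift a b f) := by
  induction f using MvPolynomial.induction_on with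
  | C c => rw [pderiv_C, ShghE.tfShift_C, pderiv_C, map_zero]
  | add f g hf hg => rw [map_add, map_add, hf, hg, map_add, map_add]
  | mul_X f j hf =>
    rw [pderiv_mul, map_add, map_mul, map_mul, hf, map_mul, pderiv_mul]
    congr 2
    fin_cases j
    · simp only [Fin.zero_eta, Fin.isValue]
      rw [ShghE.tfShift_X0, map_add, pderiv_C, add_zero]
      fin_cases i
      · simp only [Fin.zero_eta, Fin.isValue]
        rw [pderiv_X_self, map_one]
      · simp only [Fin.mk_one, Fin.isValue]
        rw [pderiv_X_of_ne (by decide), map_zero]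
    · simp only [Fin.mk_one, Fin.isValue]
      rw [ShghE.tfShift_X1, map_add, pderiv_C, add_zero]
      fin_cases i
      · simp only [Fin.zero_eta, Fin.isValue]
        rw [pderiv_X_of_ne (by decide), map_zero]
      · simp only [Fin.mk_one, Fin.isValue]
        rw [pderiv_X_self, map_one]

theorem shift_Eop {K : Type u} [Field K] (δ : Derivation ℤ K K) (a x y : K) (hx : δ x = 0)
    (hy : δ y = x - a) (f : MvPolynomial (Fin 2) K) :
    ShghE.tfShift x y (Eop δ a f) =
      Dc δ (ShghE.tfShift x y f) + X 0 * pderiv 1 (ShghE.tfShift x y f) := by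
  unfold Eop
  rw [map_add, map_mul, map_sub, ShghE.tfShift_X0, ShghE.tfShift_C, shift_pderiv, tDc K δ x y f,
    hx, hy, map_zero, map_sub]
  ring

private theorem colla_degree (e : Fin 2 →₀ ℕ) : e.degree = e 0 + e 1 := by
  rw [Finsupp.degree_eq_sum, Fin.sum_univ_two]

private theorem colla_ex0 (i j : ℕ) : (ex i j) 0 = i := by simp [ex]

private theorem colla_ex1 (i j : ℕ) : (ex i j) 1 = j := by simp [ex]

private theorem colla_ex (e : Fin 2 →₀ ℕ) : ex (e 0) (e 1) = e := by
  ext i
  fin_cases i <;> simp [ex]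

theorem ex_degree (i j : ℕ) : (ex i j).degree = i + j := by
  rw [colla_degree, colla_ex0, colla_ex1]

/-- The coefficients of `X ∂_Y g`. -/
theorem coeff_XP {K : Type u} [Field K] (g : MvPolynomial (Fin 2) K) (i k : ℕ) :
    (X 0 * pderiv 1 g).coeff (ex i k) =
      if i = 0 then 0 else g.coeff (ex (i - 1) (k + 1)) * ((k : K) + 1) := by
  rw [coeff_X_mul']
  by_cases h : i = 0
  · rw [if_neg (by rw [Finsupp.mem_support_iff, colla_ex0]; exact not_not.2 h), if_pos h]
  · rw [if_pos (by rw [Finsupp.mem_support_iff, colla_ex0]; exact h), if_neg h, coeff_pderiv]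
    have h1 : ex i k - Finsupp.single 0 1 + Finsupp.single 1 1 = ex (i - 1) (k + 1) := by
      ext l
      fin_cases l <;> simp [ex]
    have h2 : (ex i k - Finsupp.single 0 1 : Fin 2 →₀ ℕ) 1 = k := by simp [ex]
    rw [h1, h2]

theorem Eop_mem_pt {K : Type u} [Field K] (δ : Derivation ℤ K K) (a x y : K) (hx : δ x = 0)
    (hy : δ y = x - a) (n : ℕ) (f : MvPolynomial (Fin 2) K) (hf : f ∈ ShghT.pt x y ^ n) :
    Eop δ a f ∈ ShghT.pt x y ^ n := by
  have h1 := (ShghE.tf_mem_iff x y n f).1 hf
  refine (ShghE.tf_mem_iff x y n _).2 fun e he => ?_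
  rw [shift_Eop δ a x y hx hy f, coeff_add, coeff_Dc, h1 e he, map_zero, zero_add, ← colla_ex e,
    coeff_XP]
  split_ifs with h
  · rfl
  · rw [h1 _ (by rw [ex_degree]; rw [colla_degree] at he; omega), zero_mul]

theorem Eop_degree {K : Type u} [Field K] (δ : Derivation ℤ K K) (a : K) (d : ℕ)
    (f : MvPolynomial (Fin 2) K) (hf : f.totalDegree ≤ d) : (Eop δ a f).totalDegree ≤ d := by
  rw [ShghE.tf_totalDegree_le] at hf ⊢
  have hz : ∀ e : Fin 2 →₀ ℕ, d < e.degree → f.coeff e = 0 := by
    intro e he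
    by_contra h
    exact absurd (hf e (mem_support_iff.2 h)) (by omega)
  intro e he
  by_contra hcon
  rw [mem_support_iff] at he
  apply he
  unfold Eop
  rw [coeff_add, coeff_Dc, hz e (by omega), map_zero, zero_add, sub_mul, coeff_sub, coeff_C_mul,
    coeff_pderiv, hz (e + Finsupp.single 1 1) (by
      rw [map_add]
      simp only [Finsupp.degree_single]
      omega), zero_mul, mul_zero, sub_zero, ← colla_ex e, coeff_XP]
  split_ifs with h
  · rfl
  · rw [hz _ (by rw [ex_degree]; rw [colla_degree] at hcon; omega), zero_mul]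

theorem Eop_LS {K : Type u} [Field K] (δ : Derivation ℤ K K) (a : K) (s d : ℕ) (μ : Fin s → ℕ)
    (P : Fin s → Fin 2 → K) (h0 : ∀ i, δ (P i 0) = 0) (h1 : ∀ i, δ (P i 1) = P i 0 - a) :
    ∀ f ∈ ShghT.LS d μ P, Eop δ a f ∈ ShghT.LS d μ P := fun f hf =>
  ⟨Eop_degree δ a d f hf.1, fun i => Eop_mem_pt δ a _ _ (h0 i) (h1 i) _ f (hf.2 i)⟩

private theorem colla_shift_degree {A : Type*} [CommRing A] (a b : A)
    (f : MvPolynomial (Fin 2) A) : (ShghE.tfShift a b f).totalDegree ≤ f.totalDegree := by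
  have hX : ∀ i : Fin 2, ((![X 0 + C a, X 1 + C b] : Fin 2 → MvPolynomial (Fin 2) A) i).totalDegree
      ≤ 1 := by
    intro i
    have h : ∀ (j : Fin 2) (c : A), (X j + C c : MvPolynomial (Fin 2) A).totalDegree ≤ 1 := by
      intro j c
      refine (totalDegree_add _ _).trans (max_le ?_ ?_)
      · rw [X]
        refine (totalDegree_monomial_le _ _).trans ?_
        simp
      · rw [totalDegree_C]
        exact Nat.zero_le _
    fin_cases i
    · exact h 0 a
    · exact h 1 b
  unfold ShghE.tfShift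
  rw [aeval_def, eval₂_eq']
  refine totalDegree_finsetSum_le fun e he => ?_
  refine (totalDegree_mul _ _).trans ?_
  have h1 : ((algebraMap A (MvPolynomial (Fin 2) A)) (coeff e f)).totalDegree = 0 := totalDegree_C _
  rw [h1, zero_add]
  refine (totalDegree_finsetProd _ _).trans ?_
  refine le_trans (Finset.sum_le_sum fun i _ => (totalDegree_pow _ _).trans
    (Nat.mul_le_mul_left _ (hX i))) ?_
  simp only [mul_one]
  have h2 := le_totalDegree he
  rwa [Finsupp.sum_fintype _ _ (fun _ => rfl)] at h2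

/-- There are no leading forms of degree larger than `d`. -/
theorem degSet_le {K : Type u} [Field K] (V : Submodule K (MvPolynomial (Fin 2) K))
    (p : Fin 2 → K) (d : ℕ) (hVd : ∀ f ∈ V, f.totalDegree ≤ d) (j i : ℕ)
    (hi : i ∈ degSet V p j) : j ≤ d := by
  classical
  unfold degSet at hi
  rw [Finset.mem_filter, Finset.mem_range] at hi
  obtain ⟨h1, f, hf, hf0, -⟩ := hi
  have h2 := (colla_shift_degree (p 0) (p 1) f).trans (hVd f hf.1)
  rw [ShghE.tf_totalDegree_le] at h2
  have h3 := h2 (ex i (j - i)) (mem_support_iff.2 hf0)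
  rw [ex_degree] at h3
  omega

/-- The degree set is closed under `i ↦ i + 1 ≤ j`. -/
theorem degSet_up {K : Type u} [Field K] (δ : Derivation ℤ K K)
    (V : Submodule K (MvPolynomial (Fin 2) K)) (p : Fin 2 → K) (d : ℕ)
    (hVd : ∀ f ∈ V, f.totalDegree ≤ d) (hd : ∀ n : ℕ, 1 ≤ n → n ≤ d → (n : K) ≠ 0)
    (hV : ∀ f ∈ V, Eop δ (p 0) f ∈ V) (h0 : δ (p 0) = 0) (h1 : δ (p 1) = 0) (j i : ℕ)
    (hi : i ∈ degSet V p j) (hij : i < j) : i + 1 ∈ degSet V p j := by
  classical
  have hjd := degSet_le V p d hVd j i hi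
  unfold degSet at hi ⊢
  rw [Finset.mem_filter, Finset.mem_range] at hi ⊢
  obtain ⟨-, f, hf, hf0, hf1⟩ := hi
  have h1' : δ (p 1) = p 0 - p 0 := by rw [h1, sub_self]
  have hlead : ∀ l, lead p j (Eop δ (p 0) f) (l + 1) =
      δ (lead p j f (l + 1)) + (ShghE.tfShift (p 0) (p 1) f).coeff (ex l (j - (l + 1) + 1)) *
        (((j - (l + 1) : ℕ) : K) + 1) := by
    intro l
    unfold lead
    rw [shift_Eop δ (p 0) (p 0) (p 1) h0 h1' f, coeff_add, coeff_Dc, coeff_XP,
      if_neg (Nat.succ_ne_zero l), Nat.add_sub_cancel]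
  refine ⟨by omega, Eop δ (p 0) f, ⟨hV f hf.1, Eop_mem_pt δ (p 0) _ _ h0 h1' j f hf.2⟩, ?_, ?_⟩
  · rw [hlead i, hf1 (i + 1) (by omega) (by omega), map_zero, zero_add]
    have h2 : j - (i + 1) + 1 = j - i := by omega
    rw [h2]
    refine mul_ne_zero hf0 ?_
    have h3 := hd (j - (i + 1) + 1) (by omega) (by omega)
    rwa [Nat.cast_add, Nat.cast_one] at h3
  · intro i' hi' hi'j
    obtain ⟨l, rfl⟩ : ∃ l, i' = l + 1 := ⟨i' - 1, by omega⟩
    rw [hlead l, hf1 (l + 1) (by omega) hi'j, map_zero, zero_add]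
    have h2 : j - (l + 1) + 1 = j - l := by omega
    have h3 := hf1 l (by omega) (by omega)
    unfold lead at h3
    rw [h2, h3, zero_mul]

theorem degSet_card {K : Type u} [Field K] (δ : Derivation ℤ K K)
    (V : Submodule K (MvPolynomial (Fin 2) K)) (p : Fin 2 → K) (d : ℕ)
    (hVd : ∀ f ∈ V, f.totalDegree ≤ d) (hd : ∀ n : ℕ, 1 ≤ n → n ≤ d → (n : K) ≠ 0)
    (hV : ∀ f ∈ V, Eop δ (p 0) f ∈ V) (h0 : δ (p 0) = 0) (h1 : δ (p 1) = 0) (j i : ℕ)
    (hi : i ∈ degSet V p j) : j + 1 ≤ (degSet V p j).card + i := by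
  classical
  have hij : i ≤ j := by
    unfold degSet at hi
    rw [Finset.mem_filter, Finset.mem_range] at hi
    omega
  have h2 : ∀ n, i + n ≤ j → i + n ∈ degSet V p j := by
    intro n
    induction n with
    | zero => intro _; exact hi
    | succ n ih =>
      intro hn
      exact degSet_up δ V p d hVd hd hV h0 h1 j (i + n) (ih (by omega)) (by omega)
  have h3 : Finset.Icc i j ⊆ degSet V p j := by
    intro l hl
    rw [Finset.mem_Icc] at hl
    have := h2 (l - i) (by omega)
    rwa [show i + (l - i) = l by omega] at this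
  have h4 := Finset.card_le_card h3
  rw [Nat.card_Icc] at h4
  omega

end ShghJ
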