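import Pool.Agent.ShghJ.CollA

/-!
# ShghJ, CollB: the initial form of a colliding family

`H` is a polynomial in `x, y` over `K[t]`, already translated to the point `p`. It has multiplicity
`m` at the origin and `w` at `(t, 0)`. The slices (coefficients of `y ^ l`) of the initial form with
respect to the weights `(1, 1, 1)` of `(t, x, y)` are divisible by `x ^ (m - l) (x - 1) ^ (w - l)`.
-/

namespace ShghJ

open MvPolynomial

universe u v w

private theorem collb_degree (e : Fin 2 →₀ ℕ) : e.degree = e 0 + e 1 := by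
  rw [Finsupp.degree_eq_sum, Fin.sum_univ_two]

private theorem collb_ex0 (i j : ℕ) : (ex i j) 0 = i := by simp [ex]

private theorem collb_ex1 (i j : ℕ) : (ex i j) 1 = j := by simp [ex]

private theorem collb_ex (e : Fin 2 →₀ ℕ) : ex (e 0) (e 1) = e := by
  ext i
  fin_cases i <;> simp [ex]

private theorem collb_ex_iff (e : Fin 2 →₀ ℕ) (n l : ℕ) : e = ex n l ↔ n = e 0 ∧ l = e 1 := by
  constructor
  · rintro rfl
    exact ⟨(collb_ex0 _ _).symm, (collb_ex1 _ _).symm⟩
  · rintro ⟨rfl, rfl⟩
    exact (collb_ex e).symm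

/-- A polynomial in `x, y` as a polynomial in `y` over `R[x]`. -/
noncomputable def Ps {R : Type u} [CommRing R] :
    MvPolynomial (Fin 2) R →ₐ[R] Polynomial (Polynomial R) :=
  aeval ![Polynomial.C Polynomial.X, Polynomial.X]

theorem coeff_Ps {R : Type u} [CommRing R] (f : MvPolynomial (Fin 2) R) (l n : ℕ) :
    ((Ps f).coeff l).coeff n = f.coeff (ex n l) := by
  induction f using MvPolynomial.induction_on' with
  | add p q hp hq => rw [map_add, Polynomial.coeff_add, Polynomial.coeff_add, hp, hq, coeff_add]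
  | monomial e a =>
    have h1 : Ps (monomial e a) = Polynomial.C (Polynomial.C a * Polynomial.X ^ e 0) *
        Polynomial.X ^ e 1 := by
      unfold Ps
      rw [aeval_monomial, Finsupp.prod_fintype _ _ (fun _ => pow_zero _), Fin.prod_univ_two]
      simp only [Matrix.cons_val_zero, Matrix.cons_val_one]
      rw [map_mul, map_pow, mul_assoc]
      rfl
    rw [h1, Polynomial.coeff_C_mul, Polynomial.coeff_X_pow, coeff_monomial]
    by_cases hl : l = e 1
    · rw [if_pos hl, mul_one, Polynomial.coeff_C_mul, Polynomial.coeff_X_pow]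
      by_cases hn : n = e 0
      · rw [if_pos hn, if_pos ((collb_ex_iff e n l).2 ⟨hn, hl⟩), mul_one]
      · rw [if_neg hn, if_neg (fun h => hn ((collb_ex_iff e n l).1 h).1), mul_zero]
    · rw [if_neg hl, mul_zero, Polynomial.coeff_zero,
        if_neg (fun h => hl ((collb_ex_iff e n l).1 h).2)]

theorem Ps_shift {R : Type u} [CommRing R] (c : R) (f : MvPolynomial (Fin 2) R) :
    Ps (ShghE.tfShift c 0 f) =
      (Ps f).map (Polynomial.compRingHom (Polynomial.X + Polynomial.C c)) := by
  induction f using MvPolynomial.induction_on with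
  | C r =>
    have h1 : Ps (C r) = Polynomial.C (Polynomial.C r) := by
      unfold Ps
      rw [aeval_C]
      rfl
    rw [ShghE.tfShift_C, h1, Polynomial.map_C]
    simp
  | add f g hf hg => rw [map_add, map_add, hf, hg, map_add, Polynomial.map_add]
  | mul_X f j hf =>
    rw [map_mul, map_mul, hf, map_mul, Polynomial.map_mul]
    congr 1
    fin_cases j
    · simp only [Fin.zero_eta, Fin.isValue]
      rw [ShghE.tfShift_X0]
      simp [Ps]
    · simp only [Fin.mk_one, Fin.isValue]
      rw [ShghE.tfShift_X1]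
      simp [Ps]

theorem slice_shift {R : Type u} [CommRing R] (c : R) (f : MvPolynomial (Fin 2) R) (l : ℕ) :
    (Ps (ShghE.tfShift c 0 f)).coeff l =
      ((Ps f).coeff l).comp (Polynomial.X + Polynomial.C c) := by
  rw [Ps_shift, Polynomial.coeff_map]
  rfl

theorem slice_dvd {R : Type u} [CommRing R] (f : MvPolynomial (Fin 2) R) (m l : ℕ)
    (h : ∀ e : Fin 2 →₀ ℕ, e.degree < m → f.coeff e = 0) :
    Polynomial.X ^ (m - l) ∣ (Ps f).coeff l := by
  rw [Polynomial.X_pow_dvd_iff]
  intro n hn
  rw [coeff_Ps]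
  exact h _ (by rw [ex_degree]; omega)

theorem slice_dvd' {R : Type u} [CommRing R] (c : R) (f : MvPolynomial (Fin 2) R) (w l : ℕ)
    (h : ∀ e : Fin 2 →₀ ℕ, e.degree < w → (ShghE.tfShift c 0 f).coeff e = 0) :
    (Polynomial.X - Polynomial.C c) ^ (w - l) ∣ (Ps f).coeff l := by
  rw [Polynomial.X_sub_C_pow_dvd_iff, ← slice_shift]
  exact slice_dvd _ w l h

/-- The dilation `h(t, x) ↦ h(t, t x)`, as a polynomial in `t` over `K[x]`. -/
noncomputable def Ph {K : Type u} [Field K] :
    Polynomial (Polynomial K) →+* Polynomial (Polynomial K) :=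
  Polynomial.eval₂RingHom (Polynomial.mapRingHom Polynomial.C)
    (Polynomial.C Polynomial.X * Polynomial.X)

theorem coeff_Ph {K : Type u} [Field K] (h : Polynomial (Polynomial K)) (k n : ℕ) :
    ((Ph h).coeff k).coeff n = if n ≤ k then (h.coeff n).coeff (k - n) else 0 := by
  induction h using Polynomial.induction_on' with
  | add p q hp hq =>
    rw [map_add, Polynomial.coeff_add, Polynomial.coeff_add, hp, hq]
    split_ifs
    · rw [Polynomial.coeff_add, Polynomial.coeff_add]
    · rw [add_zero]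
  | monomial i a =>
    have h1 : Ph (Polynomial.monomial i a) =
        (a.map Polynomial.C * Polynomial.C (Polynomial.X ^ i)) * Polynomial.X ^ i := by
      unfold Ph
      rw [Polynomial.coe_eval₂RingHom, Polynomial.eval₂_monomial, Polynomial.coe_mapRingHom,
        mul_pow, map_pow, mul_assoc]
    rw [h1, Polynomial.coeff_mul_X_pow', Polynomial.coeff_monomial]
    by_cases hik : i ≤ k
    · rw [if_pos hik, Polynomial.coeff_mul_C, Polynomial.coeff_map, Polynomial.coeff_C_mul,
        Polynomial.coeff_X_pow]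
      by_cases hn : n = i
      · rw [if_pos hn, if_pos (by omega), if_pos hn.symm, mul_one, hn]
      · have hn' : ¬ i = n := fun h => hn h.symm
        rw [if_neg hn, mul_zero]
        simp only [if_neg hn', Polynomial.coeff_zero, ite_self]
    · rw [if_neg hik, Polynomial.coeff_zero]
      by_cases hn : n ≤ k
      · rw [if_pos hn, if_neg (by omega), Polynomial.coeff_zero]
      · rw [if_neg hn]

theorem Ph_dvd {K : Type u} [Field K] (h : Polynomial (Polynomial K)) (r k : ℕ)
    (hr : Polynomial.X ^ r ∣ h) : Polynomial.X ^ r ∣ (Ph h).coeff k := by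
  have h1 : Ph (Polynomial.X : Polynomial (Polynomial K)) =
      Polynomial.C Polynomial.X * Polynomial.X := by
    unfold Ph
    rw [Polynomial.coe_eval₂RingHom, Polynomial.eval₂_X]
  have h2 : Polynomial.C (Polynomial.X ^ r : Polynomial K) ∣ Ph h := by
    have h3 := map_dvd Ph hr
    rw [map_pow, h1, mul_pow, ← map_pow] at h3
    exact (Dvd.intro _ rfl).trans h3
  exact (Polynomial.C_dvd_iff_dvd_coeff _ _).1 h2 k

theorem Ph_dvd' {K : Type u} [Field K] (h : Polynomial (Polynomial K)) (r k : ℕ)
    (hr : (Polynomial.X - Polynomial.C Polynomial.X) ^ r ∣ h) :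
    (Polynomial.X - 1) ^ r ∣ (Ph h).coeff k := by
  have h1 : Ph (Polynomial.X - Polynomial.C Polynomial.X : Polynomial (Polynomial K)) =
      Polynomial.C (Polynomial.X - 1) * Polynomial.X := by
    unfold Ph
    rw [Polynomial.coe_eval₂RingHom, Polynomial.eval₂_sub, Polynomial.eval₂_X,
      Polynomial.eval₂_C, Polynomial.coe_mapRingHom, Polynomial.map_X, map_sub, map_one]
    ring
  have h2 : Polynomial.C ((Polynomial.X - 1) ^ r : Polynomial K) ∣ Ph h := by
    have h3 := map_dvd Ph hr
    rw [map_pow, h1, mul_pow, ← map_pow] at h3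
    exact (Dvd.intro _ rfl).trans h3
  exact (Polynomial.C_dvd_iff_dvd_coeff _ _).1 h2 k

theorem collb_natDegree {K : Type u} [Field K] (g : Polynomial K) (hg : g ≠ 0) (r s : ℕ)
    (hr : Polynomial.X ^ r ∣ g) (hs : (Polynomial.X - 1) ^ s ∣ g) : r + s ≤ g.natDegree := by
  have hco : IsCoprime (Polynomial.X : Polynomial K) (Polynomial.X - 1) :=
    ⟨1, -1, by ring⟩
  have h1 : Polynomial.X ^ r * (Polynomial.X - 1) ^ s ∣ g := (hco.pow).mul_dvd hr hs
  have h2 := Polynomial.natDegree_le_of_dvd h1 hg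
  have h3 : (Polynomial.X - 1 : Polynomial K).Monic := by
    have := Polynomial.monic_X_sub_C (1 : K)
    rwa [map_one] at this
  have h4 : (Polynomial.X - 1 : Polynomial K).natDegree = 1 := by
    have := Polynomial.natDegree_X_sub_C (1 : K)
    rwa [map_one] at this
  rw [(Polynomial.monic_X_pow r).natDegree_mul (h3.pow s), Polynomial.natDegree_X_pow,
    h3.natDegree_pow, h4, mul_one] at h2
  exact h2

/-- The core of the collision lemma. -/
theorem coll_core {K : Type u} [Field K] (V : Submodule K (MvPolynomial (Fin 2) K))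
    (p : Fin 2 → K) (m w o : ℕ) (H : MvPolynomial (Fin 2) (Polynomial K)) (hH : H ≠ 0)
    (f : ℕ → MvPolynomial (Fin 2) K) (hfV : ∀ k, f k ∈ V)
    (hf : ∀ k e, (ShghE.tfShift (p 0) (p 1) (f k)).coeff e = (H.coeff e).coeff k)
    (hm : ∀ e : Fin 2 →₀ ℕ, e.degree < m → H.coeff e = 0)
    (hw : ∀ e : Fin 2 →₀ ℕ, e.degree < w →
      (ShghE.tfShift (Polynomial.X : Polynomial K) 0 H).coeff e = 0)
    (ho : fil V p (o + 1) = ⊥) :
    ∃ j i, i ∈ degSet V p j ∧ i ≤ j ∧ m + w ≤ o + (j - i) := by
  classical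
  obtain ⟨e₀, he₀⟩ := MvPolynomial.ne_zero_iff.1 hH
  have hex : ∃ n, ∃ (e : Fin 2 →₀ ℕ) (k : ℕ), (H.coeff e).coeff k ≠ 0 ∧ k + e.degree = n := by
    by_contra hcon
    push Not at hcon
    apply he₀
    ext k
    rw [Polynomial.coeff_zero]
    by_contra h
    exact hcon _ e₀ k h rfl
  set ν := Nat.find hex with hν
  obtain ⟨e, k, hek, hekν⟩ := Nat.find_spec hex
  rw [← hν] at hekν
  have hmin : ∀ (e' : Fin 2 →₀ ℕ) (k' : ℕ), (H.coeff e').coeff k' ≠ 0 → ν ≤ k' + e'.degree :=
    fun e' k' h => Nat.find_min' hex ⟨e', k', h, rfl⟩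
  -- members of the filtration
  have hfil : ∀ k' j', k' + j' = ν → f k' ∈ fil V p j' := by
    intro k' j' hkj
    refine ⟨hfV k', (ShghE.tf_mem_iff _ _ _ _).2 fun e' he' => ?_⟩
    rw [hf]
    by_contra h
    have := hmin e' k' h
    omega
  -- slices
  have key : ∀ (e' : Fin 2 →₀ ℕ) (k' : ℕ), (H.coeff e').coeff k' ≠ 0 → k' + e'.degree = ν →
      m + w ≤ o + e' 1 := by
    intro e' k' h1 h2
    rw [collb_degree] at h2
    set l := e' 1 with hl
    set g := (Ph ((Ps H).coeff l)).coeff (k' + e' 0) with hg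
    have hgn : ∀ n, g.coeff n =
        if n ≤ k' + e' 0 then (H.coeff (ex n l)).coeff (k' + e' 0 - n) else 0 := by
      intro n
      rw [hg, coeff_Ph, coeff_Ps]
    have hg0 : g ≠ 0 := by
      intro h0
      have h3 := hgn (e' 0)
      rw [h0, Polynomial.coeff_zero, if_pos (by omega), hl, collb_ex, Nat.add_sub_cancel] at h3
      exact h1 h3.symm
    have hdeg := collb_natDegree g hg0 (m - l) (w - l) (Ph_dvd _ _ _ (slice_dvd H m l hm))
      (Ph_dvd' _ _ _ (slice_dvd' _ H w l hw))
    set n := g.natDegree with hn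
    have h4 : g.coeff n ≠ 0 := by
      rw [hn, Polynomial.coeff_natDegree]
      exact Polynomial.leadingCoeff_ne_zero.2 hg0
    rw [hgn n] at h4
    have h5 : n ≤ k' + e' 0 := by
      by_contra h
      rw [if_neg h] at h4
      exact h4 rfl
    rw [if_pos h5] at h4
    have h6 := hfil (k' + e' 0 - n) (n + l) (by omega)
    have h7 : n + l ≤ o := by
      by_contra hcon
      have h8 : f (k' + e' 0 - n) ∈ fil V p (o + 1) :=
        ⟨h6.1, Ideal.pow_le_pow_right (by omega) h6.2⟩
      rw [ho, Submodule.mem_bot] at h8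
      apply h4
      rw [← hf, h8, map_zero, coeff_zero]
    omega
  -- the leading form of degree `e.degree` of `f k`
  have h1 := hfil k e.degree hekν
  have h2 : ∃ i, i ≤ e.degree ∧ lead p e.degree (f k) i ≠ 0 := by
    refine ⟨e 0, by rw [collb_degree]; omega, ?_⟩
    unfold lead
    rw [hf]
    have h3 : ex (e 0) (e.degree - e 0) = e := by
      rw [collb_degree, Nat.add_sub_cancel_left, collb_ex]
    rw [h3]
    exact hek
  have h2' : ((Finset.range (e.degree + 1)).filter
      fun i => lead p e.degree (f k) i ≠ 0).Nonempty := by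
    obtain ⟨i, hi1, hi2⟩ := h2
    exact ⟨i, Finset.mem_filter.2 ⟨Finset.mem_range.2 (by omega), hi2⟩⟩
  obtain ⟨i, hi, himax⟩ := Finset.exists_max_image _ (fun i => i) h2'
  rw [Finset.mem_filter, Finset.mem_range] at hi
  refine ⟨e.degree, i, ?_, by omega, ?_⟩
  · unfold degSet
    rw [Finset.mem_filter, Finset.mem_range]
    refine ⟨hi.1, f k, h1, hi.2, fun i' hi1 hi2 => ?_⟩
    by_contra h
    have := himax i' (Finset.mem_filter.2 ⟨Finset.mem_range.2 (by omega), h⟩)
    omega
  · have h3 := hi.2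
    unfold lead at h3
    rw [hf] at h3
    have h4 := key _ k h3 (by rw [ex_degree]; omega)
    rwa [collb_ex1] at h4

end ShghJ
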