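import Pool.Agent.ShghJ.Comb1

/-! # The potential and the chain lemma -/

namespace ShghJ

open Real

variable {d : ℕ} {h : Multiset ℕ → ℕ}

/-- The potential: `x` up to `Ω`, logarithmic beyond. -/
noncomputable def G (Ω x : ℝ) : ℝ := if x ≤ Ω then x else Ω + Ω * Real.log (x / Ω)

/-- Concavity of `G`. -/
theorem G_step {Ω x y : ℝ} (hΩ : 0 < Ω) (hy : 0 < y) (hyx : y ≤ x) :
    min 1 (Ω / x) * (x - y) ≤ G Ω x - G Ω y := by
  have hx : 0 < x := hy.trans_le hyx
  have hxy : 0 ≤ x - y := sub_nonneg.2 hyx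
  unfold G
  by_cases hx1 : x ≤ Ω
  · rw [if_pos hx1, if_pos (hyx.trans hx1)]
    calc min 1 (Ω / x) * (x - y) ≤ 1 * (x - y) :=
          mul_le_mul_of_nonneg_right (min_le_left _ _) hxy
      _ = x - y := one_mul _
  · rw [if_neg hx1]
    push Not at hx1
    have h1 : min 1 (Ω / x) * (x - y) ≤ Ω / x * (x - y) :=
      mul_le_mul_of_nonneg_right (min_le_right _ _) hxy
    refine h1.trans ?_
    by_cases hy1 : y ≤ Ω
    · rw [if_pos hy1]
      -- log (x / Ω) ≥ 1 - Ω / x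
      have h2 : 1 - Ω / x ≤ Real.log (x / Ω) := by
        have h3 := Real.one_sub_inv_le_log_of_pos (x := x / Ω) (by positivity)
        rwa [inv_div] at h3
      have h4 : Ω / x ≤ 1 := by rw [div_le_one hx]; exact hx1.le
      have h5 : Ω / x * x = Ω := div_mul_cancel₀ _ hx.ne'
      have h6 : Ω * (1 - Ω / x) ≤ Ω * Real.log (x / Ω) := mul_le_mul_of_nonneg_left h2 hΩ.le
      have h7 : Ω / x * (Ω - y) ≤ 1 * (Ω - y) :=
        mul_le_mul_of_nonneg_right h4 (sub_nonneg.2 hy1)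
      nlinarith
    · rw [if_neg hy1]
      push Not at hy1
      have h2 : 1 - y / x ≤ Real.log (x / Ω) - Real.log (y / Ω) := by
        rw [← Real.log_div (by positivity) (by positivity)]
        have h3 : x / Ω / (y / Ω) = x / y := by field_simp
        rw [h3]
        have h4 := Real.one_sub_inv_le_log_of_pos (x := x / y) (by positivity)
        rwa [inv_div] at h4
      have h5 : Ω / x * (x - y) = Ω * (1 - y / x) := by field_simp
      rw [h5]
      have h6 := mul_le_mul_of_nonneg_left h2 hΩ.le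
      linarith

theorem G_mono {Ω x y : ℝ} (hΩ : 0 < Ω) (hy : 0 < y) (hyx : y ≤ x) : G Ω y ≤ G Ω x := by
  have h1 := G_step hΩ hy hyx
  have hx : 0 < x := hy.trans_le hyx
  have h2 : 0 ≤ min 1 (Ω / x) * (x - y) :=
    mul_nonneg (le_min zero_le_one (by positivity)) (sub_nonneg.2 hyx)
  linarith

theorem G_nonneg {Ω x : ℝ} (hΩ : 0 < Ω) (hx : 0 ≤ x) : 0 ≤ G Ω x := by
  unfold G
  split_ifs with h1
  · exact hx
  · push Not at h1
    have : 0 ≤ Real.log (x / Ω) := Real.log_nonneg (by rw [le_div_iff₀ hΩ]; linarith)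
    positivity

theorem G_le {Ω x c : ℝ} (hΩ : 0 < Ω) (hc : 1 ≤ c) (hx : x ≤ c * Ω) (hx0 : 0 < x) :
    G Ω x ≤ Ω * L c := by
  unfold G L
  split_ifs with h1
  · have : 0 ≤ Real.log c := Real.log_nonneg hc
    nlinarith
  · have h2 : Real.log (x / Ω) ≤ Real.log c := by
      apply Real.log_le_log (by positivity)
      rw [div_le_iff₀ hΩ]
      exact hx
    nlinarith

/-- The weight of a multiplicity `x` after a first bad step at `m`. -/
noncomputable def wt (m x : ℕ) : ℝ := min (x : ℝ) ((x : ℝ) * (x + 1) / m)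

theorem wt_nonneg (m x : ℕ) : 0 ≤ wt m x := le_min (by positivity) (by positivity)

/-- One step: the potential drops by half of the weight. -/
theorem HFun.step_wt (H : HFun d h) {S : Multiset ℕ} {x m : ℕ} {Ω : ℝ}
    (hx : 1 ≤ h (x ::ₘ S)) (hΩ : (om h d S : ℝ) ≤ Ω) (hm : 1 ≤ m)
    (hN : (h S : ℝ) ≤ m * Ω) (hΩ0 : 0 < Ω) :
    wt m x ≤ 2 * (G Ω (h S) - G Ω (h (x ::ₘ S))) ∧
    (h (x ::ₘ S) : ℝ) + T x - h S ≤ (x + 1) * (G Ω (h S) - G Ω (h (x ::ₘ S))) := by
  have hy : (0 : ℝ) < h (x ::ₘ S) := by exact_mod_cast hx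
  have hyx : (h (x ::ₘ S) : ℝ) ≤ h S := by exact_mod_cast H.cons_le S x
  have hX : (0 : ℝ) < h S := hy.trans_le hyx
  have hG := G_step hΩ0 hy hyx
  have hm' : (1 : ℝ) ≤ m := by exact_mod_cast hm
  have hx0 : (0 : ℝ) ≤ x := Nat.cast_nonneg _
  by_cases hb : Bad h S x
  · -- bad step: the potential drops by `x / 2`
    have h1 := H.bad_drop hb
    have h2 : (om h d S : ℝ) + 1 ≤ h S := by exact_mod_cast H.om_lt (H.bad_pos hb)
    have h3 : (x : ℝ) ≤ om h d S := by exact_mod_cast H.bad_le_om hb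
    have h4 : (2 : ℝ) ≤ x := by exact_mod_cast H.bad_two_le hb
    have hω : (0 : ℝ) < om h d S := by linarith
    have h5 : (x : ℝ) / 2 ≤ min 1 (Ω / h S) * ((h S : ℝ) - h (x ::ₘ S)) := by
      have h6 : (om h d S : ℝ) ≤ min 1 (Ω / h S) * h S := by
        rcases min_choice 1 (Ω / (h S : ℝ)) with h7 | h7
        · rw [h7]; linarith
        · rw [h7, div_mul_cancel₀ _ hX.ne']; exact hΩ
      have hq : 0 ≤ min 1 (Ω / (h S : ℝ)) := le_min zero_le_one (by positivity)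
      -- x N ≤ 2 ω drop
      have h8 : min 1 (Ω / (h S : ℝ)) * (x * h S) ≤
          min 1 (Ω / (h S : ℝ)) * (2 * om h d S * ((h S : ℝ) - h (x ::ₘ S))) :=
        mul_le_mul_of_nonneg_left h1 hq
      have h9 : (x : ℝ) * om h d S ≤ x * (min 1 (Ω / (h S : ℝ)) * h S) :=
        mul_le_mul_of_nonneg_left h6 hx0
      have h10 : (om h d S : ℝ) * (x / 2) ≤
          om h d S * (min 1 (Ω / (h S : ℝ)) * ((h S : ℝ) - h (x ::ₘ S))) := by
        nlinarith
      exact le_of_mul_le_mul_left h10 hω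
    constructor
    · have h11 : wt m x ≤ x := min_le_left _ _
      linarith
    · have h12 := T_real x
      have h13 : (T x : ℝ) ≤ (x + 1) * (G Ω (h S) - G Ω (h (x ::ₘ S))) := by
        rw [h12]
        have : (x : ℝ) / 2 ≤ G Ω (h S) - G Ω (h (x ::ₘ S)) := h5.trans hG
        nlinarith
      linarith
  · -- good step
    have h1 : (h (x ::ₘ S) : ℝ) + T x ≤ h S := by
      have : ¬ h S < h (x ::ₘ S) + T x := fun hc => hb ⟨hx, hc⟩
      push Not at this
      exact_mod_cast this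
    have hT := T_real x
    constructor
    · have h2 : min 1 (Ω / (h S : ℝ)) * T x ≤ min 1 (Ω / h S) * ((h S : ℝ) - h (x ::ₘ S)) := by
        apply mul_le_mul_of_nonneg_left (by linarith)
        exact le_min zero_le_one (by positivity)
      have h3 : (1 : ℝ) / m ≤ min 1 (Ω / (h S : ℝ)) := by
        apply le_min
        · rw [div_le_one (by linarith)]; exact hm'
        · rw [div_le_div_iff₀ (by linarith) hX]; linarith
      have h4 : (1 : ℝ) / m * T x ≤ min 1 (Ω / (h S : ℝ)) * T x :=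
        mul_le_mul_of_nonneg_right h3 (Nat.cast_nonneg _)
      have h5 : wt m x ≤ (x : ℝ) * (x + 1) / m := min_le_right _ _
      have h6 : (x : ℝ) * (x + 1) / m = 2 * (1 / m * T x) := by rw [hT]; ring
      linarith
    · have h2 : 0 ≤ G Ω (h S) - G Ω (h (x ::ₘ S)) := by
        have := G_mono hΩ0 hy hyx
        linarith
      have h3 : 0 ≤ ((x : ℝ) + 1) * (G Ω (h S) - G Ω (h (x ::ₘ S))) := by positivity
      linarith

/-- The chain lemma. -/
theorem HFun.chain (H : HFun d h) {m : ℕ} {Ω B : ℝ} (hm : 1 ≤ m) (hΩ0 : 0 < Ω) :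
    ∀ (l : List ℕ) (S : Multiset ℕ), 1 ≤ h ((l : Multiset ℕ) + S) → (om h d S : ℝ) ≤ Ω →
      (h S : ℝ) ≤ m * Ω → (∀ x ∈ l, (x : ℝ) ≤ B) →
      (l.map (wt m)).sum ≤ 2 * (G Ω (h S) - G Ω (h ((l : Multiset ℕ) + S))) ∧
      (h ((l : Multiset ℕ) + S) : ℝ) + TT l - h S ≤
        (B + 1) * (G Ω (h S) - G Ω (h ((l : Multiset ℕ) + S))) := by
  intro l
  induction l with
  | nil =>
    intro S hS hω hN hB
    simp [TT]
  | cons x l ih =>
    intro S hS hω hN hB
    have e : ((x :: l : List ℕ) : Multiset ℕ) + S = (l : Multiset ℕ) + (x ::ₘ S) := by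
      rw [← Multiset.cons_coe, Multiset.cons_add, Multiset.add_cons]
    rw [e] at hS ⊢
    have h1 : 1 ≤ h (x ::ₘ S) := hS.trans (H.add_le _ _)
    have h2 : (h (x ::ₘ S) : ℝ) ≤ m * Ω :=
      le_trans (by exact_mod_cast H.cons_le S x) hN
    have h3 : (om h d (x ::ₘ S) : ℝ) ≤ Ω :=
      le_trans (by exact_mod_cast H.om_cons_le S x h1) hω
    obtain ⟨i1, i2⟩ := ih (x ::ₘ S) hS h3 h2 (fun y hy => hB y (List.mem_cons_of_mem _ hy))
    obtain ⟨j1, j2⟩ := H.step_wt h1 hω hm hN hΩ0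
    have hxB : (x : ℝ) ≤ B := hB x List.mem_cons_self
    have hg : 0 ≤ G Ω (h S) - G Ω (h (x ::ₘ S)) := by
      have hy : (0 : ℝ) < h (x ::ₘ S) := by exact_mod_cast h1
      have hyx : (h (x ::ₘ S) : ℝ) ≤ h S := by exact_mod_cast H.cons_le S x
      have := G_mono hΩ0 hy hyx
      linarith
    constructor
    · rw [List.map_cons, List.sum_cons]
      linarith
    · have hTT : (TT ((x :: l : List ℕ) : Multiset ℕ) : ℝ) = T x + TT (l : Multiset ℕ) := by
        rw [← Multiset.cons_coe, TT_cons]; push_cast; ring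
      rw [hTT]
      nlinarith

/-- The chain lemma, final bounds. -/
theorem HFun.chain' (H : HFun d h) {m : ℕ} {Ω B : ℝ} (hm : 1 ≤ m) (hΩ0 : 0 < Ω) (hB0 : 0 ≤ B)
    (l : List ℕ) (S : Multiset ℕ) (hS : 1 ≤ h ((l : Multiset ℕ) + S))
    (hω : (om h d S : ℝ) ≤ Ω) (hN : (h S : ℝ) ≤ m * Ω) (hB : ∀ x ∈ l, (x : ℝ) ≤ B) :
      (l.map (wt m)).sum ≤ 2 * (Ω * L m) ∧
      (h ((l : Multiset ℕ) + S) : ℝ) + TT l - h S ≤ (B + 1) * (Ω * L m) := by
  obtain ⟨h1, h2⟩ := H.chain hm hΩ0 l S hS hω hN hB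
  have hS0 : 1 ≤ h S := hS.trans (H.add_le _ _)
  have h3 : G Ω (h S) ≤ Ω * L m := G_le hΩ0 (by exact_mod_cast hm) hN (by exact_mod_cast hS0)
  have h4 : 0 ≤ G Ω (h ((l : Multiset ℕ) + S)) := G_nonneg hΩ0 (Nat.cast_nonneg _)
  constructor
  · linarith
  · refine h2.trans ?_
    apply mul_le_mul_of_nonneg_left (by linarith) (by linarith)

end ShghJ
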