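import Pool.Agent.ShghJ.Comb3

/-! # The increasing order: window theorem and structure of all exceptions -/

namespace ShghJ

open Real

variable {d : ℕ} {h : Multiset ℕ → ℕ}

theorem L_nat_ge (n : ℕ) : 1 ≤ L n := by
  unfold L
  have := Real.log_natCast_nonneg n
  linarith

theorem L_mono {a b : ℝ} (ha : 0 < a) (hab : a ≤ b) : L a ≤ L b := by
  unfold L
  have := Real.log_le_log ha hab
  linarith

theorem L_mono_nat {a b : ℕ} (hab : a ≤ b) : L a ≤ L b := by
  rcases Nat.eq_zero_or_pos a with h0 | h0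
  · subst h0
    have h1 : L ((0 : ℕ) : ℝ) = 1 := by simp [L]
    rw [h1]
    exact L_nat_ge b
  · exact L_mono (by exact_mod_cast h0) (by exact_mod_cast hab)

theorem L_two : 1.693 ≤ L 2 := by
  unfold L
  have := Real.log_two_gt_d9
  linarith

/-- The bound function of the increasing order. -/
noncomputable def Fi (m : List ℕ) (l : ℕ) : ℝ := 30 * (m.getD l 0 : ℝ) * L (m.getD l 0 : ℝ)

theorem Fi_nonneg (m : List ℕ) (l : ℕ) : 0 ≤ Fi m l := by
  unfold Fi
  have := L_nat_ge (m.getD l 0)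
  positivity

theorem getD_eq (m : List ℕ) {l : ℕ} (hl : l < m.length) : m.getD l 0 = m[l] := by
  simp [List.getD, hl]

theorem Fi_eq (m : List ℕ) {l : ℕ} (hl : l < m.length) :
    Fi m l = 30 * (m[l] : ℝ) * L (m[l] : ℝ) := by
  unfold Fi
  rw [getD_eq m hl]

theorem mem_seg {m : List ℕ} {l1 l z : ℕ} (hz : z ∈ (m.take l).drop l1) :
    ∃ (i : ℕ) (hi : i < m.length), l1 ≤ i ∧ i < l ∧ m[i] = z := by
  obtain ⟨j, hj, rfl⟩ := List.mem_iff_getElem.1 hz
  rw [List.length_drop, List.length_take] at hj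
  refine ⟨l1 + j, by omega, by omega, by omega, ?_⟩
  rw [List.getElem_drop, List.getElem_take]

theorem mem_drop {m : List ℕ} {l1 z : ℕ} (hz : z ∈ m.drop l1) :
    ∃ (i : ℕ) (hi : i < m.length), l1 ≤ i ∧ m[i] = z := by
  obtain ⟨j, hj, rfl⟩ := List.mem_iff_getElem.1 hz
  rw [List.length_drop] at hj
  refine ⟨l1 + j, by omega, by omega, ?_⟩
  rw [List.getElem_drop]

theorem mem_take {m : List ℕ} {l z : ℕ} (hz : z ∈ m.take l) :
    ∃ (i : ℕ) (hi : i < m.length), i < l ∧ m[i] = z := by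
  obtain ⟨j, hj, rfl⟩ := List.mem_iff_getElem.1 hz
  rw [List.length_take] at hj
  refine ⟨j, by omega, by omega, ?_⟩
  rw [List.getElem_take]

theorem incr_le {m : List ℕ} (hs : m.Pairwise (· ≤ ·)) {i j : ℕ} (hij : i ≤ j)
    (hj : j < m.length) : m[i]'(hij.trans_lt hj) ≤ m[j] := by
  rcases hij.lt_or_eq with h1 | h1
  · exact List.pairwise_iff_getElem.1 hs i j _ hj h1
  · subst h1; exact le_rfl

theorem HFcond_incr {m : List ℕ} (hs : m.Pairwise (· ≤ ·)) : HFcond m (Fi m) := by
  intro l1 l h1 h2 hb ha x y hx hy hyx hB _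
  have hab : m[l1]'(h1.trans h2) ≤ m[l] := incr_le hs h1.le h2
  rw [Fi_eq m h2] at hx hyx
  rw [Fi_eq m (h1.trans h2)] at hyx
  have hBa := hB (m[l] : ℝ) (Nat.cast_nonneg _) (by
    intro z hz
    obtain ⟨i, hi, _, hil, rfl⟩ := mem_seg hz
    exact_mod_cast incr_le hs hil.le h2)
  have ha2 : (2 : ℝ) ≤ m[l] := by exact_mod_cast ha
  have hb0 : (0 : ℝ) ≤ m[l1]'(h1.trans h2) := Nat.cast_nonneg _
  have hab' : ((m[l1]'(h1.trans h2) : ℕ) : ℝ) ≤ m[l] := by exact_mod_cast hab
  have hL : L (m[l1]'(h1.trans h2) : ℕ) ≤ L (m[l] : ℕ) := L_mono_nat hab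
  have hLb : 1 ≤ L (m[l1]'(h1.trans h2) : ℕ) := L_nat_ge _
  have hL2 : 1.693 ≤ L (m[l] : ℕ) := L_two.trans (L_mono (by norm_num) ha2)
  generalize ((m[l1]'(h1.trans h2) : ℕ) : ℝ) = b at *
  generalize ((m[l] : ℕ) : ℝ) = a at *
  generalize L b = Lb at *
  generalize L a = La at *
  have hF : 30 * b * Lb ≤ 30 * a * La := by
    have h3 : b * Lb ≤ a * La := mul_le_mul hab' hL (by linarith) (by linarith)
    linarith
  have hy4 : y ≤ 4 * x := by linarith
  have hx0 : 0 < x := by
    have : 0 ≤ 30 * a * La := by positivity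
    linarith
  have h4 : (a + 1) * (y * Lb) ≤ (a + 1) * (4 * x * La) := by
    apply mul_le_mul_of_nonneg_left _ (by linarith)
    exact mul_le_mul hy4 hL (by linarith) (by linarith)
  have h5 : x * (2 / 9 * x) < x * (a + 4 * (a + 1) * La) := by nlinarith
  have h6 : 2 / 9 * x < a + 4 * (a + 1) * La := lt_of_mul_lt_mul_left h5 hx0.le
  have h7 : 2 / 9 * (30 * a * La) < a + 4 * (a + 1) * La := by linarith
  have h8 : 1.693 * a ≤ a * La := by nlinarith
  nlinarith

theorem Fi_ge (m : List ℕ) (l : ℕ) (hl : l < m.length) : 9 / 2 * (m[l] : ℝ) ≤ Fi m l := by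
  rw [Fi_eq m hl]
  have h1 := L_nat_ge m[l]
  have h2 : (0 : ℝ) ≤ m[l] := Nat.cast_nonneg _
  nlinarith

theorem wt_eq {m x : ℕ} (hm : 1 ≤ m) (hx : m ≤ x) : wt m x = x := by
  unfold wt
  apply min_eq_left
  rw [le_div_iff₀ (by exact_mod_cast hm)]
  have h1 : (m : ℝ) ≤ x := by exact_mod_cast hx
  have h2 : (0 : ℝ) ≤ x := Nat.cast_nonneg _
  nlinarith

theorem sum_wt_eq {m : ℕ} (hm : 1 ≤ m) :
    ∀ l : List ℕ, (∀ x ∈ l, m ≤ x) → (l.map (wt m)).sum = ((l.sum : ℕ) : ℝ) := by
  intro l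
  induction l with
  | nil => intro _; simp
  | cons x l ih =>
    intro hx
    rw [List.map_cons, List.sum_cons, List.sum_cons, ih (fun y hy => hx y (by simp [hy])),
      wt_eq hm (hx x (by simp))]
    push_cast
    ring

theorem struct : StructStmt := by
  intro d h H m hs hpos he
  obtain ⟨l, hl, y, h2, hyF, hy0, hxy, he1, hN, hsum, _⟩ :=
    H.final m (Fi m) (Fi_nonneg m) (Fi_ge m) (HFcond_incr hs) hpos he
  rw [Fi_eq m hl] at hyF
  have hsplit : m = m.take l ++ m[l] :: m.drop (l + 1) := by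
    rw [← List.drop_eq_getElem_cons hl, List.take_append_drop]
  have hdrop : m[l] :: m.drop (l + 1) = m.drop l := (List.drop_eq_getElem_cons hl).symm
  refine ⟨m.take l, m[l], m.drop (l + 1), hsplit, h2, he1, ?_, ?_, ?_, ?_⟩
  · have h1 : (m : Multiset ℕ) = ((m.drop l : List ℕ) : Multiset ℕ) + (m.take l : List ℕ) := by
      have := take_eq_drop_add m (l1 := l) (l := m.length) hl.le
      rwa [List.take_length] at this
    rw [h1] at hpos
    exact hpos.trans (H.add_le _ _)
  · refine hN.trans_le ?_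
    have h0 : (0 : ℝ) ≤ m[l] := Nat.cast_nonneg _
    nlinarith
  · rw [hdrop]
    have h3 := sum_wt_eq (m := m[l]) (by omega) (m.drop l) (by
      intro x hx
      obtain ⟨i, hi, hli, rfl⟩ := mem_drop hx
      exact incr_le hs hli hi)
    rw [h3] at hsum
    refine hsum.trans ?_
    have h4 := L_nat_ge m[l]
    nlinarith
  · intro x hx
    exact (hxy x (by rw [← hdrop]; exact List.mem_cons_of_mem _ hx)).trans hyF

theorem window : WindowStmt := by
  intro d h H M S hM hS
  have hchi : (T (d + 1) : ℝ) ≤ h S + TT S := by exact_mod_cast H.chi_le S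
  have hM1 : (1 : ℝ) ≤ M := by exact_mod_cast hM
  have hLM : 1 ≤ L M := L_nat_ge M
  have hh0 : (0 : ℝ) ≤ h S := Nat.cast_nonneg _
  have hposc : 0 < 30 * (M : ℝ) * (M + 1) * (L M) ^ 2 := by positivity
  have hposd : 0 < 30 * (M : ℝ) ^ 2 * L M := by positivity
  by_cases h0 : 1 ≤ h S
  · by_cases he : T (d + 1) < h S + TT S
    · -- exceptional
      have hcoe : ((S.sort (· ≤ ·) : List ℕ) : Multiset ℕ) = S := Multiset.sort_eq _ _
      have hs : (S.sort (· ≤ ·)).Pairwise (· ≤ ·) := Multiset.pairwise_sort _ _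
      have hmM : ∀ x ∈ S.sort (· ≤ ·), x ≤ M := fun x hx => hS x (by simpa using hx)
      generalize S.sort (· ≤ ·) = m at *
      subst hcoe
      obtain ⟨l, hl, y, h2, hyF, hy0, hxy, he1, hN, _, hB⟩ :=
        H.final m (Fi m) (Fi_nonneg m) (Fi_ge m) (HFcond_incr hs) h0 he
      rw [Fi_eq m hl] at hyF
      have hlM : (m[l] : ℝ) ≤ M := by exact_mod_cast hmM _ (List.getElem_mem hl)
      have hLl : L (m[l] : ℕ) ≤ L (M : ℕ) := L_mono_nat (by exact_mod_cast hlM)
      have hL1 : 1 ≤ L (m[l] : ℕ) := L_nat_ge _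
      have hl0 : (0 : ℝ) ≤ m[l] := Nat.cast_nonneg _
      have hyM : y ≤ 30 * M * L M := by
        refine hyF.trans ?_
        have := mul_le_mul hlM hLl (by linarith) (by linarith)
        linarith
      have hchi1 : (T (d + 1) : ℝ) - TT (m : Multiset ℕ) < 30 * (M : ℝ) ^ 2 * L M := by
        have h3 : (T (d + 1) : ℝ) = h ((m.take l : List ℕ) : Multiset ℕ) +
            TT ((m.take l : List ℕ) : Multiset ℕ) := by exact_mod_cast he1.symm
        have h4 : (TT ((m.take l : List ℕ) : Multiset ℕ) : ℝ) ≤ TT (m : Multiset ℕ) := by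
          have := take_eq_drop_add m (l1 := l) (l := m.length) hl.le
          rw [List.take_length] at this
          rw [this, TT_add]
          push_cast
          have : (0 : ℝ) ≤ TT ((m.drop l : List ℕ) : Multiset ℕ) := Nat.cast_nonneg _
          linarith
        have h5 : (m[l] : ℝ) * y ≤ M * (30 * M * L M) :=
          mul_le_mul hlM hyM hy0.le (by linarith)
        nlinarith
      have hchi2 : -(30 * (M : ℝ) * (M + 1) * (L M) ^ 2) <
          (T (d + 1) : ℝ) - TT (m : Multiset ℕ) := by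
        have h3 := hB M (by linarith) (fun x hx => by exact_mod_cast hmM x (List.mem_of_mem_drop hx))
        have h4 : (1 : ℝ) ≤ h (m : Multiset ℕ) := by exact_mod_cast h0
        have h5 : y * L (m[l] : ℕ) ≤ (30 * M * L M) * L M :=
          mul_le_mul hyM hLl (by linarith) (by positivity)
        have h6 : ((M : ℝ) + 1) * (y * L (m[l] : ℕ)) ≤ (M + 1) * ((30 * M * L M) * L M) :=
          mul_le_mul_of_nonneg_left h5 (by linarith)
        nlinarith
      constructor
      · intro h7; linarith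
      · intro h7; linarith
    · have he' : h S + TT S = T (d + 1) := le_antisymm (not_lt.1 he) (H.chi_le S)
      have he2 : (h S : ℝ) + TT S = T (d + 1) := by exact_mod_cast he'
      exact ⟨fun _ => he', fun h7 => by linarith⟩
  · have h1 : h S = 0 := by omega
    have h2 : (h S : ℝ) = 0 := by exact_mod_cast h1
    exact ⟨fun h7 => by linarith, fun _ => h1⟩

end ShghJ
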