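import Pool.Agent.ShghJ.Comb4

/-! # The decreasing order: rich multiplicities -/

namespace ShghJ

open Real

variable {d : ℕ} {h : Multiset ℕ → ℕ}

/-- The bound function of the decreasing order. -/
noncomputable def Fd (m0 : ℕ) (m : List ℕ) (l : ℕ) : ℝ :=
  100 * ((max (m.getD l 0) m0 : ℕ) : ℝ) * L ((max (m.getD l 0) m0 : ℕ) : ℝ)

theorem Fd_nonneg (m0 : ℕ) (m : List ℕ) (l : ℕ) : 0 ≤ Fd m0 m l := by
  unfold Fd
  have := L_nat_ge (max (m.getD l 0) m0)
  positivity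

theorem Fd_eq (m0 : ℕ) (m : List ℕ) {l : ℕ} (hl : l < m.length) :
    Fd m0 m l = 100 * ((max m[l] m0 : ℕ) : ℝ) * L ((max m[l] m0 : ℕ) : ℝ) := by
  unfold Fd
  rw [getD_eq m hl]

theorem Fd_ge (m0 : ℕ) (m : List ℕ) (l : ℕ) (hl : l < m.length) :
    9 / 2 * (m[l] : ℝ) ≤ Fd m0 m l := by
  rw [Fd_eq m0 m hl]
  have h1 := L_nat_ge (max m[l] m0)
  have h2 : (m[l] : ℝ) ≤ ((max m[l] m0 : ℕ) : ℝ) := by exact_mod_cast le_max_left _ _
  have h3 : (0 : ℝ) ≤ m[l] := Nat.cast_nonneg _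
  nlinarith

theorem decr_le {m : List ℕ} (hs : m.Pairwise (· ≥ ·)) {i j : ℕ} (hij : i ≤ j)
    (hj : j < m.length) : m[j] ≤ m[i]'(hij.trans_lt hj) := by
  rcases hij.lt_or_eq with h1 | h1
  · exact List.pairwise_iff_getElem.1 hs i j _ hj h1
  · subst h1; exact le_rfl

/-- The multiplicities in `[x / 2, x)`. -/
def inWin (x j : ℕ) : Prop := x ≤ 2 * j ∧ j < x

instance (x : ℕ) : DecidablePred (inWin x) := fun j => by unfold inWin; infer_instance

theorem wt_win {b j : ℕ} (hj : inWin b j) : (b : ℝ) / 4 ≤ wt b j := by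
  obtain ⟨h1, h2⟩ := hj
  have h3 : (b : ℝ) ≤ 2 * j := by exact_mod_cast h1
  have h4 : (0 : ℝ) ≤ b := Nat.cast_nonneg _
  have hb : 0 < b := by omega
  have hb' : (0 : ℝ) < b := by exact_mod_cast hb
  unfold wt
  apply le_min
  · linarith
  · rw [le_div_iff₀ hb']
    nlinarith

theorem sum_wt_ge {b : ℕ} : ∀ l : List ℕ,
    (l.countP (fun j => decide (inWin b j)) : ℝ) * (b / 4) ≤ (l.map (wt b)).sum := by
  intro l
  induction l with
  | nil => simp
  | cons x l ih =>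
    rw [List.map_cons, List.sum_cons, List.countP_cons]
    by_cases hx : inWin b x
    · have := wt_win hx
      simp only [hx, decide_true, if_true]
      push_cast
      nlinarith
    · have := wt_nonneg b x
      simp only [hx, decide_false]
      simpa using by linarith

theorem countP_zero_of {b : ℕ} {l : List ℕ} (hl : ∀ x ∈ l, ¬ inWin b x) :
    l.countP (fun j => decide (inWin b j)) = 0 := by
  rw [List.countP_eq_zero]
  intro x hx
  simpa using hl x hx

theorem rich_count {m0 : ℕ} {m : List ℕ} (hR : Rich m0 m) {l : ℕ} (hl : l < m.length)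
    (hb : m0 < m[l]) :
    2000 * (L (m[l] : ℕ)) ^ 2 ≤ (m.countP (fun j => decide (inWin m[l] j)) : ℝ) := by
  have h1 := hR m[l] (by simp) hb
  refine h1.trans (le_of_eq ?_)
  rw [← Multiset.countP_eq_card_filter, Multiset.coe_countP]
  rfl

/-- The window of the first bad multiplicity lies after it. -/
theorem count_drop {m : List ℕ} (hs : m.Pairwise (· ≥ ·)) {l : ℕ} (hl : l < m.length) :
    m.countP (fun j => decide (inWin m[l] j)) =
      (m.drop l).countP (fun j => decide (inWin m[l] j)) := by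
  have key : ∀ b : ℕ, (∀ x ∈ m.take l, ¬ inWin b x) →
      m.countP (fun j => decide (inWin b j)) = (m.drop l).countP (fun j => decide (inWin b j)) := by
    intro b hb
    conv_lhs => rw [← List.take_append_drop l m]
    rw [List.countP_append, countP_zero_of hb, zero_add]
  apply key
  intro x hx
  obtain ⟨i, hi, hil, rfl⟩ := mem_take hx
  have := decr_le hs hil.le hl
  unfold inWin
  omega

theorem count_seg {m : List ℕ} (hs : m.Pairwise (· ≥ ·)) {l1 l : ℕ} (h1 : l1 < l)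
    (hl : l < m.length) (hsmall : 2 * m[l] < m[l1]'(h1.trans hl)) :
    m.countP (fun j => decide (inWin (m[l1]'(h1.trans hl)) j)) =
      ((m.take l).drop l1).countP (fun j => decide (inWin (m[l1]'(h1.trans hl)) j)) := by
  rw [count_drop hs (h1.trans hl)]
  have e : m.drop l1 = (m.take l).drop l1 ++ m.drop l := by
    have h2 : m = m.take l ++ m.drop l := (List.take_append_drop l m).symm
    conv_lhs => rw [h2]
    rw [List.drop_append_of_le_length]
    rw [List.length_take]; omega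
  rw [e, List.countP_append, countP_zero_of (l := m.drop l), add_zero]
  intro x hx
  obtain ⟨i, hi, hil, rfl⟩ := mem_drop hx
  have := decr_le hs hil hi
  unfold inWin
  omega

/-- numerical contradiction, comparable multiplicities -/
theorem num_near {a b s x y Ls Lb F1 : ℝ} (ha2 : 2 ≤ a) (has : a ≤ s) (_hb2 : 2 ≤ b)
    (hb : b ≤ 2 * s) (hLs : 1.693 ≤ Ls) (hLb1 : 1 ≤ Lb) (hLb : Lb ≤ 1.41 * Ls)
    (hF1 : F1 ≤ 100 * (2 * s) * (1.41 * Ls)) (hx : 100 * s * Ls < x) (hy : 0 < y)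
    (hyx : y ≤ 4 * x + F1 - 100 * s * Ls)
    (hE : 2 / 9 * x ^ 2 - a * x < (b + 1) * (y * Lb)) : False := by
  have hs2 : 2 ≤ s := ha2.trans has
  have hsL : 0 < s * Ls := by positivity
  have hx0 : 0 < x := by nlinarith
  have h1 : y ≤ 5.82 * x := by nlinarith
  have h2 : (b + 1) * (y * Lb) ≤ (2.5 * s) * ((5.82 * x) * (1.41 * Ls)) := by
    apply mul_le_mul (by linarith) _ (by positivity) (by linarith)
    exact mul_le_mul h1 hLb (by linarith) (by positivity)
  have h3 : x * (2 / 9 * x) < x * (a + 2.5 * s * (5.82 * (1.41 * Ls))) := by nlinarith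
  have h4 : 2 / 9 * x < a + 2.5 * s * (5.82 * (1.41 * Ls)) := lt_of_mul_lt_mul_left h3 hx0.le
  have h5 : 1.693 * s ≤ s * Ls := by nlinarith
  nlinarith

/-- numerical contradiction, different scales -/
theorem num_far {a b x y Lb F : ℝ} (_ha2 : 2 ≤ a) (hb5 : 5 ≤ b) (hab : 2 * a ≤ b)
    (hLb : 2.386 ≤ Lb) (hF : 0 ≤ F) (hrich : 250 * b * Lb ≤ y)
    (hyx : y ≤ 4 * x + 100 * b * Lb - F)
    (hE : 2 / 9 * x ^ 2 - a * x < (b + 1) * (y * Lb)) : False := by
  have hbL : 0 < b * Lb := by positivity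
  have hx1 : 37.5 * (b * Lb) ≤ x := by nlinarith
  have hx0 : 0 < x := by nlinarith
  have h1 : y ≤ (20 / 3) * x := by nlinarith
  have h2 : (b + 1) * (y * Lb) ≤ (1.2 * b) * (((20 / 3) * x) * Lb) := by
    apply mul_le_mul (by linarith) _ (by nlinarith) (by linarith)
    exact mul_le_mul_of_nonneg_right h1 (by linarith)
  have h3 : x * (2 / 9 * x) < x * (a + 1.2 * b * ((20 / 3) * Lb)) := by nlinarith
  have h4 : 2 / 9 * x < a + 1.2 * b * ((20 / 3) * Lb) := lt_of_mul_lt_mul_left h3 hx0.le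
  have h5 : 2.386 * b ≤ b * Lb := by nlinarith
  nlinarith

theorem L_double {s : ℝ} (hs : 2 ≤ s) : L (2 * s) ≤ 1.41 * L s := by
  have h1 : L (2 * s) = Real.log 2 + L s := by
    unfold L
    rw [Real.log_mul (by norm_num) (by linarith)]
    ring
  have h2 : 1.693 ≤ L s := L_two.trans (L_mono (by norm_num) hs)
  have h3 := Real.log_two_lt_d9
  rw [h1]
  linarith

theorem L_five {b : ℝ} (hb : 5 ≤ b) : 2.386 ≤ L b := by
  have h1 : L 4 ≤ L b := L_mono (by norm_num) (by linarith)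
  have h2 : L 4 = 1 + 2 * Real.log 2 := by
    unfold L
    rw [show (4 : ℝ) = 2 ^ 2 by norm_num, Real.log_pow]
    norm_num
  have h3 := Real.log_two_gt_d9
  rw [h2] at h1
  linarith

theorem HFcond_decr {m0 : ℕ} {m : List ℕ} (hs : m.Pairwise (· ≥ ·)) (hR : Rich m0 m) :
    HFcond m (Fd m0 m) := by
  intro l1 l h1 h2 hb ha x y hx hy hyx hB hsum
  have h1m := h1.trans h2
  have hab : m[l] ≤ m[l1]'h1m := decr_le hs h1.le h2
  have hBb := hB (m[l1]'h1m : ℝ) (Nat.cast_nonneg _) (by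
    intro z hz
    obtain ⟨i, hi, hli, _, rfl⟩ := mem_seg hz
    exact_mod_cast decr_le hs hli hi)
  have hFl0 := Fd_nonneg m0 m l
  rw [Fd_eq m0 m h2] at hx hyx hFl0
  rw [Fd_eq m0 m h1m] at hyx
  by_cases hnear : m[l1]'h1m ≤ 2 * max m[l] m0
  · -- comparable
    have hs2 : 2 ≤ max m[l] m0 := ha.trans (le_max_left _ _)
    have hs2' : (2 : ℝ) ≤ ((max m[l] m0 : ℕ) : ℝ) := by exact_mod_cast hs2
    have hmax : max (m[l1]'h1m) m0 ≤ 2 * max m[l] m0 := by
      apply max_le hnear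
      have := le_max_right m[l] m0
      omega
    have hmax' : ((max (m[l1]'h1m) m0 : ℕ) : ℝ) ≤ 2 * ((max m[l] m0 : ℕ) : ℝ) := by
      exact_mod_cast hmax
    have hmax0 : (0 : ℝ) < ((max (m[l1]'h1m) m0 : ℕ) : ℝ) := by
      have : 0 < max (m[l1]'h1m) m0 := lt_of_lt_of_le (by omega) (le_max_left _ _)
      exact_mod_cast this
    have hLd := L_double hs2'
    have hL1 : L ((max (m[l1]'h1m) m0 : ℕ) : ℝ) ≤ 1.41 * L ((max m[l] m0 : ℕ) : ℝ) :=
      (L_mono hmax0 hmax').trans hLd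
    have hLb : L ((m[l1]'h1m : ℕ) : ℝ) ≤ 1.41 * L ((max m[l] m0 : ℕ) : ℝ) :=
      (L_mono_nat (le_max_left _ _)).trans hL1
    have hLs : 1.693 ≤ L ((max m[l] m0 : ℕ) : ℝ) := L_two.trans (L_mono (by norm_num) hs2')
    have hL1' : 1 ≤ L ((max (m[l1]'h1m) m0 : ℕ) : ℝ) := L_nat_ge _
    refine num_near (a := ((m[l] : ℕ) : ℝ)) (b := ((m[l1]'h1m : ℕ) : ℝ))
      (s := ((max m[l] m0 : ℕ) : ℝ)) (x := x) (y := y) (Ls := L ((max m[l] m0 : ℕ) : ℝ))
      (Lb := L ((m[l1]'h1m : ℕ) : ℝ))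
      (F1 := 100 * ((max (m[l1]'h1m) m0 : ℕ) : ℝ) * L ((max (m[l1]'h1m) m0 : ℕ) : ℝ))
      (by exact_mod_cast ha) (by exact_mod_cast le_max_left _ _) (by exact_mod_cast hb)
      (by exact_mod_cast hnear) hLs (L_nat_ge _) hLb ?_ hx hy hyx hBb
    have := mul_le_mul hmax' hL1 (by linarith) (by linarith)
    linarith
  · -- different scales
    push Not at hnear
    have hm0b : m0 < m[l1]'h1m := by
      have := le_max_right m[l] m0
      omega
    have h2ab : 2 * m[l] < m[l1]'h1m := by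
      have := le_max_left m[l] m0
      omega
    have hcnt := rich_count hR h1m hm0b
    rw [count_seg hs h1 h2 h2ab] at hcnt
    have hw := sum_wt_ge (b := m[l1]'h1m) ((m.take l).drop l1)
    have hmaxb : max (m[l1]'h1m) m0 = m[l1]'h1m := max_eq_left hm0b.le
    rw [hmaxb] at hyx
    have hb5 : (5 : ℝ) ≤ ((m[l1]'h1m : ℕ) : ℝ) := by
      have : 5 ≤ m[l1]'h1m := by omega
      exact_mod_cast this
    have hLb := L_five hb5
    have h2ab' : 2 * ((m[l] : ℕ) : ℝ) ≤ ((m[l1]'h1m : ℕ) : ℝ) := by exact_mod_cast h2ab.le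
    refine num_far (a := ((m[l] : ℕ) : ℝ)) (b := ((m[l1]'h1m : ℕ) : ℝ)) (x := x) (y := y)
      (Lb := L ((m[l1]'h1m : ℕ) : ℝ)) (by exact_mod_cast ha) hb5 h2ab' hLb hFl0 ?_ hyx hBb
    generalize ((m[l1]'h1m : ℕ) : ℝ) = b at *
    generalize L b = Lb at *
    have h7 : 2000 * Lb ^ 2 * (b / 4) ≤ 2 * (y * Lb) := by
      refine (mul_le_mul_of_nonneg_right hcnt (by linarith)).trans (hw.trans hsum)
    have h8 : Lb * (250 * b * Lb) ≤ Lb * y := by nlinarith
    exact le_of_mul_le_mul_left h8 (by linarith)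

theorem decr_first {m0 : ℕ} {m : List ℕ} (H : HFun d h) (hs : m.Pairwise (· ≥ ·))
    (hR : Rich m0 m)
    (hpos : 1 ≤ h (m : Multiset ℕ)) (he : T (d + 1) < h (m : Multiset ℕ) + TT m) :
    2 ≤ m0 ∧ (T (d + 1) : ℝ) - TT (m : Multiset ℕ) < 100 * (m0 : ℝ) ^ 2 * L m0 ∧
      -(100 * (m0 : ℝ) * (m0 + 1) * (L m0) ^ 2) < (T (d + 1) : ℝ) - TT (m : Multiset ℕ) := by
  obtain ⟨l, hl, y, h2, hyF, hy0, hxy, he1, hN, hsum, hB⟩ :=
    H.final m (Fd m0 m) (Fd_nonneg m0 m) (Fd_ge m0 m) (HFcond_decr hs hR) hpos he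
  rw [Fd_eq m0 m hl] at hyF
  have hL1 : 1 ≤ L (m[l] : ℕ) := L_nat_ge _
  have hl2 : (2 : ℝ) ≤ (m[l] : ℕ) := by exact_mod_cast h2
  by_cases hb : m0 < m[l]
  · exfalso
    rw [max_eq_left hb.le] at hyF
    have hcnt := rich_count hR hl hb
    rw [count_drop hs hl] at hcnt
    have hw := sum_wt_ge (b := m[l]) (m.drop l)
    generalize ((m[l] : ℕ) : ℝ) = b at *
    generalize L b = Lb at *
    have h7 : 2000 * Lb ^ 2 * (b / 4) ≤ 2 * (y * Lb) := by
      refine (mul_le_mul_of_nonneg_right hcnt (by linarith)).trans (hw.trans hsum)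
    have h8 : Lb * (250 * b * Lb) ≤ Lb * y := by nlinarith
    have h9 : 250 * b * Lb ≤ y := le_of_mul_le_mul_left h8 (by linarith)
    have h10 : 0 < b * Lb := by positivity
    nlinarith
  · push Not at hb
    rw [max_eq_right hb] at hyF
    have hlM : ((m[l] : ℕ) : ℝ) ≤ m0 := by exact_mod_cast hb
    have hLl : L (m[l] : ℕ) ≤ L (m0 : ℕ) := L_mono_nat hb
    have hm02 : 2 ≤ m0 := h2.trans hb
    have h3 : (T (d + 1) : ℝ) = h ((m.take l : List ℕ) : Multiset ℕ) +
        TT ((m.take l : List ℕ) : Multiset ℕ) := by exact_mod_cast he1.symm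
    have h4 : (TT ((m.take l : List ℕ) : Multiset ℕ) : ℝ) ≤ TT (m : Multiset ℕ) := by
      have := take_eq_drop_add m (l1 := l) (l := m.length) hl.le
      rw [List.take_length] at this
      rw [this, TT_add]
      push_cast
      have : (0 : ℝ) ≤ TT ((m.drop l : List ℕ) : Multiset ℕ) := Nat.cast_nonneg _
      linarith
    have hLm0 : 1 ≤ L (m0 : ℕ) := L_nat_ge _
    have hm0 : (0 : ℝ) ≤ m0 := Nat.cast_nonneg _
    have h5 : (m[l] : ℝ) * y ≤ m0 * (100 * m0 * L m0) :=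
      mul_le_mul hlM hyF hy0.le hm0
    have h6 := hB (m[l] : ℝ) (Nat.cast_nonneg _) (by
      intro x hx
      obtain ⟨i, hi, hli, rfl⟩ := mem_drop hx
      exact_mod_cast decr_le hs hli hi)
    have h7 : (1 : ℝ) ≤ h (m : Multiset ℕ) := by exact_mod_cast hpos
    have h8 : y * L (m[l] : ℕ) ≤ (100 * m0 * L m0) * L m0 :=
      mul_le_mul hyF hLl (by linarith) (by positivity)
    have h9 : ((m[l] : ℝ) + 1) * (y * L (m[l] : ℕ)) ≤ (m0 + 1) * ((100 * m0 * L m0) * L m0) :=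
      mul_le_mul (by linarith) h8 (by positivity) (by linarith)
    refine ⟨hm02, by nlinarith, by nlinarith⟩

theorem common_aux (H : HFun d h) {m0 : ℕ} {S : Multiset ℕ} (hR : Rich m0 S) (hpos : 1 ≤ h S)
    (he : T (d + 1) < h S + TT S) :
    2 ≤ m0 ∧ (T (d + 1) : ℝ) - TT S < 100 * (m0 : ℝ) ^ 2 * L m0 ∧
      -(100 * (m0 : ℝ) * (m0 + 1) * (L m0) ^ 2) < (T (d + 1) : ℝ) - TT S := by
  have hcoe : ((S.sort (· ≥ ·) : List ℕ) : Multiset ℕ) = S := Multiset.sort_eq _ _
  have hs : (S.sort (· ≥ ·)).Pairwise (· ≥ ·) := Multiset.pairwise_sort _ _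
  generalize S.sort (· ≥ ·) = m at *
  subst hcoe
  exact decr_first H hs hR hpos he

theorem common : CommonStmt := by
  intro d h H m0 S _ hR hpos he
  exact (common_aux H hR hpos he).2

theorem rich : RichStmt := by
  intro d h H S hR
  by_cases hpos : 1 ≤ h S
  · by_cases he : T (d + 1) < h S + TT S
    · have := (common_aux H hR hpos he).1
      omega
    · have := H.chi_le S
      omega
  · have := H.chi_le S
    omega

end ShghJ
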