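import Pool.Agent.ShghJ.Comb5
import Pool.Agent.ShghJ.HFunC

/-! # Log-free chain lemma (Lemma D') -/

namespace ShghJ

variable {d : ℕ} {h : Multiset ℕ → ℕ}

/-- The two kinds of steps. -/
theorem HFunC.dich (H : HFunC d h) {S : Multiset ℕ} {ν : ℕ} (hν : 1 ≤ h (ν ::ₘ S)) :
    (h S = h (ν ::ₘ S) + T ν ∧ om h d (ν ::ₘ S) ≤ om h d S) ∨
    ∃ α, α < ν ∧ h (ν ::ₘ S) + T α ≤ h S ∧
      ν + om h d (ν ::ₘ S) + 1 ≤ om h d S + α := by
  classical
  have hω := H.om_cons_le S ν hν
  by_cases hall : ∀ j, j < ν → ¬ h (j ::ₘ S) ≤ h ((j + 1) ::ₘ S) + j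
  · left
    refine ⟨?_, hω⟩
    have key : ∀ j, j ≤ ν → h S = h (j ::ₘ S) + T j := by
      intro j
      induction j with
      | zero => intro _; rw [H.zero, T_zero, add_zero]
      | succ j ih =>
        intro hj
        have h1 := ih (by omega)
        have h2 := hall j (by omega)
        have h3 := H.mac1 S j
        rw [T_succ]
        omega
    exact key ν le_rfl
  · right
    push Not at hall
    have hex : ∃ j, h (j ::ₘ S) ≤ h ((j + 1) ::ₘ S) + j := by
      obtain ⟨j, _, hj⟩ := hall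
      exact ⟨j, hj⟩
    obtain ⟨j0, hj0, hj0'⟩ := hall
    have hlt : Nat.find hex < ν := lt_of_le_of_lt (Nat.find_min' hex hj0') hj0
    have key : ∀ j, j ≤ Nat.find hex → h S = h (j ::ₘ S) + T j := by
      intro j
      induction j with
      | zero => intro _; rw [H.zero, T_zero, add_zero]
      | succ j ih =>
        intro hj
        have h1 := ih (by omega)
        have h2 := Nat.find_min hex (m := j) (by omega)
        have h3 := H.mac1 S j
        rw [T_succ]
        omega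
    refine ⟨Nat.find hex, hlt, ?_, ?_⟩
    · have h1 := key _ le_rfl
      have h2 := H.anti_le S hlt.le
      omega
    · have h1 := H.om_spec hν
      rw [Multiset.cons_swap] at h1
      exact H.coll S ν (om h d (ν ::ₘ S)) (Nat.find hex) (om h d S) h1 (Nat.find_spec hex)
        (H.eq_zero_of_om_lt (Nat.lt_succ_self _))

theorem T_le_of_lt {α ν : ℕ} (hα : α ≤ ν) : T ν ≤ T α + ν * (ν - α) := by
  obtain ⟨k, rfl⟩ := Nat.exists_eq_add_of_le hα
  have h1 := two_T (α + k)
  have h2 := two_T α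
  rw [Nat.add_sub_cancel_left]
  have h3 : k ≤ k * k := Nat.le_mul_self k
  nlinarith

/-- LEMMA D': one step. -/
theorem HFunC.stepD (H : HFunC d h) {S : Multiset ℕ} {ν : ℕ} (hν : 1 ≤ h (ν ::ₘ S)) :
    T ν + h (ν ::ₘ S) + ν * om h d (ν ::ₘ S) ≤ h S + ν * om h d S := by
  rcases H.dich hν with ⟨h1, h2⟩ | ⟨α, h1, h2, h3⟩
  · have := Nat.mul_le_mul_left ν h2
    omega
  · have h4 := T_le_of_lt h1.le
    obtain ⟨k, rfl⟩ := Nat.exists_eq_add_of_lt h1
    have h5 : (α + k + 1) * (α + k + 1 + om h d ((α + k + 1) ::ₘ S) + 1) ≤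
        (α + k + 1) * (om h d S + α) := Nat.mul_le_mul_left _ h3
    have h6 : α + k + 1 - α = k + 1 := by omega
    rw [h6] at h4
    nlinarith

/-- LEMMA D': a chain of steps with multiplicities at most `B`. -/
theorem HFunC.chainD (H : HFunC d h) {B : ℕ} :
    ∀ (l : List ℕ) (S : Multiset ℕ), 1 ≤ h ((l : Multiset ℕ) + S) → (∀ x ∈ l, x ≤ B) →
      TT l + h ((l : Multiset ℕ) + S) + B * om h d ((l : Multiset ℕ) + S) ≤
        h S + B * om h d S := by
  intro l
  induction l with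
  | nil =>
    intro S hS hB
    simp [TT]
  | cons x l ih =>
    intro S hS hB
    have e : ((x :: l : List ℕ) : Multiset ℕ) + S = (l : Multiset ℕ) + (x ::ₘ S) := by
      rw [← Multiset.cons_coe, Multiset.cons_add, Multiset.add_cons]
    rw [e] at hS ⊢
    have h1 : 1 ≤ h (x ::ₘ S) := hS.trans (H.add_le _ _)
    have i1 := ih (x ::ₘ S) hS (fun y hy => hB y (List.mem_cons_of_mem _ hy))
    have j1 := H.stepD h1
    have hxB : x ≤ B := hB x List.mem_cons_self
    have hω := H.om_cons_le S x h1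
    have hTT : TT ((x :: l : List ℕ) : Multiset ℕ) = T x + TT (l : Multiset ℕ) := by
      rw [← Multiset.cons_coe, TT_cons]
    rw [hTT]
    obtain ⟨k, hk⟩ := Nat.exists_eq_add_of_le hω
    obtain ⟨b, rfl⟩ := Nat.exists_eq_add_of_le hxB
    rw [hk] at j1 ⊢
    nlinarith

/-- The drop of the potential `32 h + 24 μ ω` at a step of multiplicity at least `μ`. -/
theorem HFunC.stepCount (H : HFunC d h) {S : Multiset ℕ} {μ ν : ℕ} (hμν : μ ≤ ν)
    (hν : 1 ≤ h (ν ::ₘ S)) :
    15 * μ ^ 2 + 32 * h (ν ::ₘ S) + 24 * μ * om h d (ν ::ₘ S) ≤ 32 * h S + 24 * μ * om h d S := by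
  rcases H.dich hν with ⟨h1, h2⟩ | ⟨α, h1, h2, h3⟩
  · have h4 := Nat.mul_le_mul_left (24 * μ) h2
    have h5 := two_T ν
    have h6 : μ * μ ≤ ν * (ν + 1) := Nat.mul_le_mul hμν (by omega)
    nlinarith
  · by_cases hα : μ ≤ α
    · have h2' : om h d (ν ::ₘ S) ≤ om h d S := H.om_cons_le S ν hν
      have h4 := Nat.mul_le_mul_left (24 * μ) h2'
      have h5 := two_T α
      have h6 : μ * μ ≤ α * (α + 1) := Nat.mul_le_mul hα (by omega)
      nlinarith
    · push Not at hα
      have h5 := two_T α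
      have h7 : 24 * μ * (μ + om h d (ν ::ₘ S) + 1) ≤ 24 * μ * (om h d S + α) :=
        Nat.mul_le_mul_left _ (by omega)
      zify at *
      nlinarith [sq_nonneg (4 * (α : ℤ) - 3 * μ)]

theorem HFunC.chainCount (H : HFunC d h) {μ : ℕ} :
    ∀ (l : List ℕ) (S : Multiset ℕ), 1 ≤ h ((l : Multiset ℕ) + S) → (∀ x ∈ l, μ ≤ x) →
      l.length * (15 * μ ^ 2) + 32 * h ((l : Multiset ℕ) + S) +
        24 * μ * om h d ((l : Multiset ℕ) + S) ≤ 32 * h S + 24 * μ * om h d S := by
  intro l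
  induction l with
  | nil =>
    intro S hS hB
    simp
  | cons x l ih =>
    intro S hS hB
    have e : ((x :: l : List ℕ) : Multiset ℕ) + S = (l : Multiset ℕ) + (x ::ₘ S) := by
      rw [← Multiset.cons_coe, Multiset.cons_add, Multiset.add_cons]
    rw [e] at hS ⊢
    have h1 : 1 ≤ h (x ::ₘ S) := hS.trans (H.add_le _ _)
    have i1 := ih (x ::ₘ S) hS (fun y hy => hB y (List.mem_cons_of_mem _ hy))
    have j1 := H.stepCount (hB x List.mem_cons_self) h1
    rw [List.length_cons]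
    nlinarith

end ShghJ
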