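import Pool.Agent.ShghJ.CombC2

/-! # Increasing order, log-free: window and structure -/

namespace ShghJ

variable {d : ℕ} {h : Multiset ℕ → ℕ}

/-- The bound function of the increasing order. -/
noncomputable def FiC (m : List ℕ) (l : ℕ) : ℝ := 13 / 2 * (m.getD l 0 : ℝ)

theorem FiC_nonneg (m : List ℕ) (l : ℕ) : 0 ≤ FiC m l := by unfold FiC; positivity

theorem FiC_eq (m : List ℕ) {l : ℕ} (hl : l < m.length) : FiC m l = 13 / 2 * (m[l] : ℝ) := by
  unfold FiC
  rw [getD_eq m hl]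

/-- the two numerical contradictions -/
theorem numC_a {w μ : ℝ} (hμ : 2 ≤ μ) (hw : 13 / 2 * μ < w)
    (hT : w * (w + 1) / 2 + 2 ≤ 13 / 4 * μ * w) : False := by
  have hw0 : 0 < w := by linarith
  have h1 : w * (w + 1) ≤ w * (13 / 2 * μ) := by nlinarith
  have h2 := le_of_mul_le_mul_left h1 hw0
  linarith

theorem numC_b {w' s d μ w : ℝ} (hμ : 2 ≤ μ) (hs : 0 ≤ s) (hd : w ≤ d)
    (hw : 13 / 2 * μ + 5 / 4 * s < w) (hw' : w' + s = d + 1)
    (hT : w' * (w' + 1) / 2 + 2 ≤ 2 * μ * d) : False := by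
  have h1 : 1 / 5 * d + 26 / 5 * μ + 1 ≤ w' := by linarith
  have hd0 : 0 < d := by linarith
  have h2 : (1 / 5 * d + 26 / 5 * μ) ^ 2 ≤ w' * (w' + 1) := by nlinarith
  nlinarith [sq_nonneg (1 / 5 * d - 26 / 5 * μ)]

theorem HC0_incr {m : List ℕ} : HC0 d (5 / 4) m (FiC m) := by
  intro l h2 ha w s w' hwd hw'w hsd hc hF hT
  rw [FiC_eq m h2] at hF
  have ha' : (2 : ℝ) ≤ m[l] := by exact_mod_cast ha
  have hT' : (T w' : ℝ) + 2 ≤ m[l] * w := by exact_mod_cast hT
  rw [T_real] at hT'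
  have hw0 : (0 : ℝ) ≤ w := Nat.cast_nonneg _
  have hs0 : (0 : ℝ) ≤ s := Nat.cast_nonneg _
  have hwd' : (w : ℝ) ≤ d := by exact_mod_cast hwd
  rcases hc with hc | hc
  · subst hc
    refine numC_a (w := w') ha' (by linarith) (hT'.trans ?_)
    nlinarith
  · have hc' : (w' : ℝ) + s = d + 1 := by exact_mod_cast hc
    refine numC_b ha' hs0 hwd' hF hc' (hT'.trans ?_)
    nlinarith

theorem HC_incr {m : List ℕ} (hs : m.Pairwise (· ≤ ·)) : HC d (5 / 4) m (FiC m) := by
  intro l1 l h1 h2 hb ha w s w' w1 hwd hw1d hw'w hsd hc hF hm1 hy hB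
  have hab : m[l1]'(h1.trans h2) ≤ m[l] := incr_le hs h1.le h2
  rw [FiC_eq m h2] at hF hy
  rw [FiC_eq m (h1.trans h2)] at hy
  have hT := (hB m[l] (by
    intro z hz
    obtain ⟨i, hi, _, hil, rfl⟩ := mem_seg hz
    exact incr_le hs hil.le h2)).2
  have ha' : (2 : ℝ) ≤ m[l] := by exact_mod_cast ha
  have hab' : ((m[l1]'(h1.trans h2) : ℕ) : ℝ) ≤ m[l] := by exact_mod_cast hab
  have hT' : (T w' : ℝ) + 2 ≤ m[l] * w + m[l] * w1 := by exact_mod_cast hT
  rw [T_real] at hT'
  have hw0 : (0 : ℝ) ≤ w := Nat.cast_nonneg _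
  have hs0 : (0 : ℝ) ≤ s := Nat.cast_nonneg _
  have hw'0 : (0 : ℝ) ≤ w' := Nat.cast_nonneg _
  have hwd' : (w : ℝ) ≤ d := by exact_mod_cast hwd
  have hw1d' : (w1 : ℝ) ≤ d := by exact_mod_cast hw1d
  rcases hc with hc | hc
  · subst hc
    refine numC_a (w := w') ha' (by linarith) (hT'.trans ?_)
    have h3 : (w1 : ℝ) ≤ 9 / 4 * w' := by linarith
    nlinarith
  · have hc' : (w' : ℝ) + s = d + 1 := by exact_mod_cast hc
    refine numC_b ha' hs0 hwd' hF hc' (hT'.trans ?_)
    nlinarith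

theorem structC : StructC := by
  intro d h H m hs hpos he
  obtain ⟨l, hl, y, h2, hyF, hmy, hyd, hxy, he1, hA1, hN, hB, hcount⟩ :=
    H.finalC (5 / 4) m (FiC m) (by norm_num) (FiC_nonneg m) HC0_incr (HC_incr hs) hpos he
  rw [FiC_eq m hl] at hyF
  have hyF' : 2 * y ≤ 13 * m[l] := by
    have h1 : 2 * (y : ℝ) ≤ 13 * (m[l] : ℝ) := by linarith
    exact_mod_cast h1
  have hsplit : m = m.take l ++ m[l] :: m.drop (l + 1) := by
    rw [← List.drop_eq_getElem_cons hl, List.take_append_drop]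
  have hdrop : m[l] :: m.drop (l + 1) = m.drop l := (List.drop_eq_getElem_cons hl).symm
  have hge : ∀ x ∈ m.drop l, m[l] ≤ x := by
    intro x hx
    obtain ⟨i, hi, hli, rfl⟩ := mem_drop hx
    exact incr_le hs hli hi
  refine ⟨m.take l, m[l], m.drop (l + 1), hsplit, h2, he1, hA1, ?_, ?_, ?_, ?_⟩
  · nlinarith
  · rw [hdrop]
    have h3 := hcount m[l] hge
    by_contra hc
    push Not at hc
    have h4 : 25 * (15 * m[l] ^ 2) ≤ (m.drop l).length * (15 * m[l] ^ 2) :=
      Nat.mul_le_mul_right _ hc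
    have h5 : 24 * m[l] * y ≤ 12 * m[l] * (13 * m[l]) := by nlinarith
    nlinarith
  · intro x hx
    have hx' : x ∈ m.drop l := by rw [← hdrop]; exact List.mem_cons_of_mem _ hx
    have := hxy x hx'
    exact ⟨hge x hx', by omega⟩
  · have h3 := hB y hxy
    have h4 : TT (m : Multiset ℕ) =
        TT ((m.drop l : List ℕ) : Multiset ℕ) + TT ((m.take l : List ℕ) : Multiset ℕ) := by
      have := take_eq_drop_add m (l1 := l) (l := m.length) hl.le
      rw [List.take_length] at this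
      rw [this, TT_add]
    have h5 : h (m : Multiset ℕ) + TT m - T (d + 1) ≤ y * y := by omega
    have h6 : (2 * y) * (2 * y) ≤ (13 * m[l]) * (13 * m[l]) := Nat.mul_le_mul hyF' hyF'
    nlinarith

theorem windowC : WindowC := by
  intro d h H M S hS hχ
  have hchi := H.chi_le S
  by_cases h0 : 1 ≤ h S
  · by_cases he : T (d + 1) < h S + TT S
    · exfalso
      have hcoe : ((S.sort (· ≤ ·) : List ℕ) : Multiset ℕ) = S := Multiset.sort_eq _ _
      have hs : (S.sort (· ≤ ·)).Pairwise (· ≤ ·) := Multiset.pairwise_sort _ _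
      have hmM : ∀ x ∈ S.sort (· ≤ ·), x ≤ M := fun x hx => hS x (by simpa using hx)
      generalize S.sort (· ≤ ·) = m at *
      subst hcoe
      obtain ⟨l, hl, y, h2, hyF, hmy, hyd, hxy, he1, hA1, hN, hB, _⟩ :=
        H.finalC (5 / 4) m (FiC m) (by norm_num) (FiC_nonneg m) HC0_incr (HC_incr hs) h0 he
      rw [FiC_eq m hl] at hyF
      have hlM : m[l] ≤ M := hmM _ (List.getElem_mem hl)
      have hyF' : 2 * y ≤ 13 * m[l] := by
        have h1 : 2 * (y : ℝ) ≤ 13 * (m[l] : ℝ) := by linarith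
        exact_mod_cast h1
      have h4 : TT (m : Multiset ℕ) =
          TT ((m.drop l : List ℕ) : Multiset ℕ) + TT ((m.take l : List ℕ) : Multiset ℕ) := by
        have := take_eq_drop_add m (l1 := l) (l := m.length) hl.le
        rw [List.take_length] at this
        rw [this, TT_add]
      have h3 := hB M (fun x hx => hmM x (List.mem_of_mem_drop hx))
      have h5 : 2 * (M * y) ≤ 13 * M ^ 2 := by nlinarith
      have h6 : 2 * (m[l] * y) ≤ 13 * M ^ 2 := by nlinarith
      rcases abs_cases ((T (d + 1) : ℤ) - TT (m : Multiset ℕ)) with ⟨h7, h8⟩ | ⟨h7, h8⟩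
      · rw [h7] at hχ
        -- χ ≤ h A < m[l] y
        have h9 : T (d + 1) ≤ TT (m : Multiset ℕ) + h ((m.take l : List ℕ) : Multiset ℕ) := by
          omega
        zify at *
        linarith
      · rw [h7] at hχ
        zify at *
        linarith
    · omega
  · omega

end ShghJ
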