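import Pool.Agent.ShghJ.CombC3

/-! # Decreasing order, log-free: the mass condition (Theorem Y) -/

namespace ShghJ

variable {d : ℕ} {h : Multiset ℕ → ℕ}

/-- The bound function: (`x` + mass after the position) / (8 multiplicity). -/
noncomputable def FdC (x : ℝ) (m : List ℕ) (l : ℕ) : ℝ :=
  (x + (TT (m.drop l : List ℕ) : ℝ)) / (8 * (m.getD l 0 : ℝ))

theorem FdC_nonneg {x : ℝ} (hx : 0 ≤ x) (m : List ℕ) (l : ℕ) : 0 ≤ FdC x m l := by
  unfold FdC; positivity

theorem FdC_eq (x : ℝ) (m : List ℕ) {l : ℕ} (hl : l < m.length) (h2 : 2 ≤ m[l]) :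
    8 * (m[l] : ℝ) * FdC x m l = x + (TT (m.drop l : List ℕ) : ℝ) := by
  unfold FdC
  rw [getD_eq m hl]
  have : (0 : ℝ) < m[l] := by
    have : 0 < m[l] := by omega
    exact_mod_cast this
  field_simp

/-- The mass condition in terms of positions. -/
def Mass (x : ℝ) (m : List ℕ) : Prop :=
  ∀ (l : ℕ) (hl : l < m.length), 2 ≤ m[l] →
    121 * (m[l] : ℝ) ^ 2 ≤ x + (TT (m.drop l : List ℕ) : ℝ)

theorem FdC_ge {x : ℝ} {m : List ℕ} (hM : Mass x m) {l : ℕ} (hl : l < m.length) (h2 : 2 ≤ m[l]) :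
    121 / 8 * (m[l] : ℝ) ≤ FdC x m l := by
  have h1 := FdC_eq x m hl h2
  have h3 := hM l hl h2
  rw [← h1] at h3
  have h0 : (0 : ℝ) < m[l] := by
    have : 0 < m[l] := by omega
    exact_mod_cast this
  have h4 : (m[l] : ℝ) * (121 * m[l]) ≤ m[l] * (8 * FdC x m l) := by nlinarith
  have h5 := le_of_mul_le_mul_left h4 h0
  linarith

theorem num0_a {w μ : ℝ} (hμ : 2 ≤ μ) (hw : 121 / 8 * μ < w)
    (hT : w * (w + 1) / 2 + 2 ≤ μ * w) : False := by
  have hw0 : 0 < w := by linarith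
  have h1 : w * (w + 1) ≤ w * (2 * μ) := by nlinarith
  have h2 := le_of_mul_le_mul_left h1 hw0
  linarith

theorem num0_b {w' s d μ w a : ℝ} (hμ : 2 ≤ μ) (ha : 121 / 8 * μ ≤ a) (hs : 0 ≤ s) (hd : w ≤ d)
    (hw : a + 7 / 5 * s < w) (hw' : w' + s = d + 1)
    (hT : w' * (w' + 1) / 2 + 2 ≤ μ * d) : False := by
  have h1 : 2 / 7 * d + 5 / 7 * a + 1 ≤ w' := by linarith
  have hd0 : 0 < d := by linarith
  have h2 : (2 / 7 * d + 5 / 7 * a) ^ 2 ≤ w' * (w' + 1) := by nlinarith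
  nlinarith [sq_nonneg (2 / 7 * d - 5 / 7 * a)]

theorem num_a {w w1 μ1 a a1 : ℝ} (hμ : 2 ≤ μ1) (haw : a < w) (ha1 : 121 / 8 * μ1 ≤ a1)
    (hda : a1 - a ≤ w1 / 4) (hw1 : w1 ≤ w + 7 / 5 * w + a1 - a)
    (hT : w * (w + 1) / 2 + 2 ≤ μ1 * w + μ1 * w1) (hw0 : 0 < w) : False := by
  have h1 : w1 ≤ 16 / 5 * w := by linarith
  have h2 : a1 < 9 / 5 * w := by linarith
  have h3 : w * (w + 1) ≤ w * (42 / 5 * μ1) := by nlinarith
  have h4 := le_of_mul_le_mul_left h3 hw0
  linarith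

theorem num_b {w' s d μ1 w w1 a a1 : ℝ} (hμ : 2 ≤ μ1) (ha1 : 121 / 8 * μ1 ≤ a1) (hs : 0 ≤ s)
    (hd : w ≤ d) (hd1 : w1 ≤ d) (hda : a1 - a ≤ w1 / 4)
    (hw : a + 7 / 5 * s < w) (hw' : w' + s = d + 1) (_hd0 : 0 < d)
    (hT : w' * (w' + 1) / 2 + 2 ≤ 2 * μ1 * d) : False := by
  have h0 : a1 - d / 4 ≤ a := by linarith
  have h1 : 3 / 28 * d + 5 / 7 * (121 / 8 * μ1) + 1 ≤ w' := by linarith
  have h2 : (3 / 28 * d + 5 / 7 * (121 / 8 * μ1)) ^ 2 ≤ w' * (w' + 1) := by nlinarith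
  nlinarith [sq_nonneg (3 / 28 * d - 5 / 7 * (121 / 8 * μ1))]

theorem HC0_decr {x : ℝ} {m : List ℕ} (hM : Mass x m) : HC0 d (7 / 5) m (FdC x m) := by
  intro l h2 ha w s w' hwd hw'w hsd hc hF hT
  have hFge := FdC_ge hM h2 ha
  have ha' : (2 : ℝ) ≤ m[l] := by exact_mod_cast ha
  have hT' : (T w' : ℝ) + 2 ≤ m[l] * w := by exact_mod_cast hT
  rw [T_real] at hT'
  have hw0 : (0 : ℝ) ≤ w := Nat.cast_nonneg _
  have hs0 : (0 : ℝ) ≤ s := Nat.cast_nonneg _
  have hwd' : (w : ℝ) ≤ d := by exact_mod_cast hwd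
  rcases hc with hc | hc
  · subst hc
    exact num0_a ha' (by linarith) hT'
  · have hc' : (w' : ℝ) + s = d + 1 := by exact_mod_cast hc
    refine num0_b ha' hFge hs0 hwd' hF hc' (hT'.trans ?_)
    nlinarith

theorem drop_split (m : List ℕ) {l1 l : ℕ} (h1 : l1 ≤ l) (h2 : l ≤ m.length) :
    m.drop l1 = (m.take l).drop l1 ++ m.drop l := by
  have h3 : m = m.take l ++ m.drop l := (List.take_append_drop l m).symm
  conv_lhs => rw [h3]
  rw [List.drop_append_of_le_length]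
  rw [List.length_take]; omega

theorem HC_decr {x : ℝ} (hx : 0 ≤ x) {m : List ℕ} (hs : m.Pairwise (· ≥ ·)) (hM : Mass x m) :
    HC d (7 / 5) m (FdC x m) := by
  intro l1 l h1 h2 hb ha w s w' w1 hwd hw1d hw'w hsd hc hF hm1 hy hB
  have h1m := h1.trans h2
  have hab : m[l] ≤ m[l1]'h1m := decr_le hs h1.le h2
  have hFge := FdC_ge hM h2 ha
  have hFge1 := FdC_ge hM h1m hb
  have hF0 := FdC_nonneg hx m l
  obtain ⟨hmass, hT⟩ := hB (m[l1]'h1m) (by
    intro z hz
    obtain ⟨i, hi, hli, _, rfl⟩ := mem_seg hz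
    exact decr_le hs hli hi)
  have e1 := FdC_eq x m h2 ha
  have e2 := FdC_eq x m h1m hb
  have e3 : (TT (m.drop l1 : List ℕ) : ℝ) =
      TT (((m.take l).drop l1 : List ℕ) : Multiset ℕ) + TT (m.drop l : List ℕ) := by
    rw [drop_split m h1.le h2.le, ← Multiset.coe_add, TT_add]
    push_cast
    ring
  have hmass' : (TT (((m.take l).drop l1 : List ℕ) : Multiset ℕ) : ℝ) + 2 ≤
      (m[l1]'h1m : ℕ) * w1 + (m[l1]'h1m : ℕ) * w1 := by exact_mod_cast hmass
  have hT' : (T w' : ℝ) + 2 ≤ (m[l] : ℕ) * w + (m[l1]'h1m : ℕ) * w1 := by exact_mod_cast hT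
  rw [T_real] at hT'
  have ha' : (2 : ℝ) ≤ m[l] := by exact_mod_cast ha
  have hab' : ((m[l] : ℕ) : ℝ) ≤ (m[l1]'h1m : ℕ) := by exact_mod_cast hab
  have hw0 : (0 : ℝ) ≤ w := Nat.cast_nonneg _
  have hw10 : (0 : ℝ) ≤ w1 := Nat.cast_nonneg _
  have hs0 : (0 : ℝ) ≤ s := Nat.cast_nonneg _
  have hwd' : (w : ℝ) ≤ d := by exact_mod_cast hwd
  have hw1d' : (w1 : ℝ) ≤ d := by exact_mod_cast hw1d
  generalize FdC x m l = a at *
  generalize FdC x m l1 = a1 at *
  generalize ((m[l] : ℕ) : ℝ) = μ at *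
  generalize ((m[l1]'h1m : ℕ) : ℝ) = μ1 at *
  have hda : a1 - a ≤ w1 / 4 := by
    have h3 : 8 * μ1 * (a1 - a) ≤ 8 * μ1 * (w1 / 4) := by nlinarith
    exact le_of_mul_le_mul_left h3 (by linarith)
  have hwpos : (0 : ℝ) < w := by linarith
  rcases hc with hc | hc
  · subst hc
    refine num_a (w := w') (w1 := w1) (μ1 := μ1) (a := a) (a1 := a1) (by linarith)
      (by linarith) hFge1 hda hy (hT'.trans ?_) hwpos
    nlinarith
  · have hc' : (w' : ℝ) + s = d + 1 := by exact_mod_cast hc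
    refine num_b (w' := w') (s := s) (d := d) (μ1 := μ1) (w := w) (w1 := w1) (a := a) (a1 := a1)
      (by linarith) hFge1 hs0 hwd' hw1d' hda hF hc' (by linarith) (hT'.trans ?_)
    nlinarith

theorem TT_le_of_le {S S' : Multiset ℕ} (h1 : S ≤ S') : TT S ≤ TT S' := by
  obtain ⟨A, rfl⟩ := Multiset.le_iff_exists_add.1 h1
  rw [TT_add]
  omega

theorem filter_le_drop {m : List ℕ} (hs : m.Pairwise (· ≥ ·)) {l : ℕ} (hl : l < m.length) :
    TT ((m : Multiset ℕ).filter (fun j => j < m[l])) ≤ TT (m.drop l : List ℕ) := by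
  apply TT_le_of_le
  have key : ∀ b : ℕ, (∀ x ∈ m.take l, ¬ x < b) →
      (m : Multiset ℕ).filter (fun j => j < b) ≤ (m.drop l : List ℕ) := by
    intro b hb
    have h1 : (m : Multiset ℕ) = ((m.take l : List ℕ) : Multiset ℕ) + (m.drop l : List ℕ) := by
      rw [Multiset.coe_add, List.take_append_drop]
    rw [h1, Multiset.filter_add]
    have h2 : ((m.take l : List ℕ) : Multiset ℕ).filter (fun j => j < b) = 0 := by
      rw [Multiset.filter_eq_nil]
      intro a ha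
      exact hb a (by simpa using ha)
    rw [h2, zero_add]
    exact Multiset.filter_le _ _
  apply key
  intro x hx
  obtain ⟨i, hi, hil, rfl⟩ := mem_take hx
  have := decr_le hs hil.le hl
  omega

theorem yC : YC := by
  intro d h H S hS
  have hchi := H.chi_le S
  by_cases h0 : 1 ≤ h S
  · by_cases he : T (d + 1) < h S + TT S
    · exfalso
      have hcoe : ((S.sort (· ≥ ·) : List ℕ) : Multiset ℕ) = S := Multiset.sort_eq _ _
      have hs : (S.sort (· ≥ ·)).Pairwise (· ≥ ·) := Multiset.pairwise_sort _ _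
      generalize S.sort (· ≥ ·) = m at *
      subst hcoe
      set x : ℝ := 3 * |(T (d + 1) : ℝ) - TT (m : Multiset ℕ)| with hxdef
      have hx0 : 0 ≤ x := by positivity
      have hM : Mass x m := by
        intro l hl h2
        have h3 := hS m[l] (by simp) h2
        have h4 := filter_le_drop hs hl
        have h5 : 121 * ((m[l] : ℕ) : ℝ) ^ 2 ≤ 3 * |(T (d + 1) : ℝ) - TT (m : Multiset ℕ)| +
            (TT ((m : Multiset ℕ).filter (fun j => j < m[l])) : ℝ) := by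
          exact_mod_cast h3
        have h6 : (TT ((m : Multiset ℕ).filter (fun j => j < m[l])) : ℝ) ≤
            (TT (m.drop l : List ℕ) : ℝ) := by exact_mod_cast h4
        rw [hxdef]
        linarith
      obtain ⟨l, hl, y, h2, hyF, hmy, hyd, hxy, he1, hA1, hN, hB, _⟩ :=
        H.finalC (7 / 5) m (FdC x m) (by norm_num) (FdC_nonneg hx0 m) (HC0_decr hM)
          (HC_decr hx0 hs hM) h0 he
      have h3 := hB m[l] (by
        intro z hz
        obtain ⟨i, hi, hli, rfl⟩ := mem_drop hz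
        exact decr_le hs hli hi)
      have e1 := FdC_eq x m hl h2
      have h4 : TT (m : Multiset ℕ) =
          TT ((m.drop l : List ℕ) : Multiset ℕ) + TT ((m.take l : List ℕ) : Multiset ℕ) := by
        have := take_eq_drop_add m (l1 := l) (l := m.length) hl.le
        rw [List.take_length] at this
        rw [this, TT_add]
      have h3' : (TT (m.drop l : List ℕ) : ℝ) + h (m : Multiset ℕ) ≤
          h ((m.take l : List ℕ) : Multiset ℕ) + (m[l] : ℕ) * y := by exact_mod_cast h3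
      have hN' : (h ((m.take l : List ℕ) : Multiset ℕ) : ℝ) < (m[l] : ℕ) * y := by
        exact_mod_cast hN
      have he1' : (h ((m.take l : List ℕ) : Multiset ℕ) : ℝ) +
          TT ((m.take l : List ℕ) : Multiset ℕ) = T (d + 1) := by exact_mod_cast he1
      have h4' : (TT (m : Multiset ℕ) : ℝ) = TT (m.drop l : List ℕ) +
          TT ((m.take l : List ℕ) : Multiset ℕ) := by exact_mod_cast h4
      have h0' : (1 : ℝ) ≤ h (m : Multiset ℕ) := by exact_mod_cast h0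
      have hA1' : (1 : ℝ) ≤ h ((m.take l : List ℕ) : Multiset ℕ) := by exact_mod_cast hA1
      have h2' : (2 : ℝ) ≤ (m[l] : ℕ) := by exact_mod_cast h2
      have h7 : 8 * ((m[l] : ℕ) * (y : ℝ)) ≤ x + TT (m.drop l : List ℕ) := by
        rw [← e1]; nlinarith
      rcases abs_cases ((T (d + 1) : ℝ) - TT (m : Multiset ℕ)) with ⟨h8, h9⟩ | ⟨h8, h9⟩
      · rw [h8] at hxdef
        linarith
      · rw [h8] at hxdef
        linarith
    · omega
  · omega

end ShghJ
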