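import Pool.Agent.ShghJ.CombK1
import Pool.Agent.ShghJ.HFunD

/-! # Sharp chain lemma (Lemma D2) and the bound of `N` at a bad step -/

namespace ShghJ

variable {d : ℕ} {h : Multiset ℕ → ℕ}

/-- `2 N ≤ (m - 1)(2 ω + 4 - m)` at a bad step. -/
theorem HFun.bad_two_N (H : HFun d h) {S : Multiset ℕ} {m : ℕ} (hb : Bad h S m) :
    2 * (h S : ℝ) ≤ ((m : ℝ) - 1) * (2 * om h d S + 4 - m) := by
  obtain ⟨α, h1, h2, h3⟩ := H.bad_alpha hb
  have hmω := H.bad_le_om hb
  -- telescoping from `α`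
  have key : ∀ i, h (α ::ₘ S) ≤ h ((α + i) ::ₘ S) + i * α := by
    intro i
    induction i with
    | zero => simp
    | succ i ih =>
      have h5 := H.mac_from h2 (α + i) (by omega) α h2 le_rfl
      have h6 : (i + 1) * α = i * α + α := by ring
      rw [h6]
      have h7 : α + (i + 1) = α + i + 1 := by ring
      rw [h7]
      omega
  have h4 := key (om h d S + 1 - α)
  rw [show α + (om h d S + 1 - α) = om h d S + 1 by omega,
    H.eq_zero_of_om_lt (Nat.lt_succ_self _), zero_add] at h4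
  obtain ⟨v, hv⟩ : ∃ v, om h d S + 1 = α + v := ⟨om h d S + 1 - α, by omega⟩
  rw [show om h d S + 1 - α = v by omega] at h4
  have e1 : (h S : ℝ) = h (α ::ₘ S) + T α := by exact_mod_cast h3
  have e2 : (h (α ::ₘ S) : ℝ) ≤ v * α := by exact_mod_cast h4
  have e3 : ((om h d S : ℕ) : ℝ) + 1 = α + v := by exact_mod_cast hv
  have e4 : (α : ℝ) + 1 ≤ m := by exact_mod_cast h1
  have e5 : (m : ℝ) ≤ (om h d S : ℕ) := by exact_mod_cast hmω
  have e6 := T_real α
  have e7 : (0 : ℝ) ≤ α := Nat.cast_nonneg _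
  rw [e1, e6]
  have e8 : (v : ℝ) = (om h d S : ℕ) + 1 - α := by linarith
  rw [e8] at e2
  nlinarith [mul_nonneg e7 (sub_nonneg.2 e4), mul_nonneg (sub_nonneg.2 e4) (sub_nonneg.2 e5),
    mul_nonneg (sub_nonneg.2 e4) (sub_nonneg.2 e4)]

/-- The two kinds of steps. -/
theorem HFunD.dich (H : HFunD d h) {S : Multiset ℕ} {ν : ℕ} (hν : 1 ≤ h (ν ::ₘ S)) :
    (h S = h (ν ::ₘ S) + T ν ∧ om h d (ν ::ₘ S) ≤ om h d S) ∨
    ∃ α δ k, ν = α + k + 1 ∧ δ ≤ α ∧ h (ν ::ₘ S) + T α + (k + 1) * δ ≤ h S ∧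
      ν + om h d (ν ::ₘ S) + 1 ≤ om h d S + δ := by
  classical
  have hω := H.om_cons_le S ν hν
  by_cases hall : ∀ j, j < ν → ¬ h (j ::ₘ S) ≤ h ((j + 1) ::ₘ S) + j
  · left
    refine ⟨?_, hω⟩
    have key : ∀ j, j ≤ ν → h S = h (j ::ₘ S) + T j := by
      intro j
      induction j with
      | zero => intro _; rw [H.zero, T_zero, add_zero]
      | succ j ih =>
        intro hj
        have h1 := ih (by omega)
        have h2 := hall j (by omega)
        have h3 := H.mac1 S j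
        rw [T_succ]
        omega
    exact key ν le_rfl
  · right
    push Not at hall
    have hex : ∃ j, h (j ::ₘ S) ≤ h ((j + 1) ::ₘ S) + j := by
      obtain ⟨j, _, hj⟩ := hall
      exact ⟨j, hj⟩
    obtain ⟨j0, hj0, hj0'⟩ := hall
    have hlt : Nat.find hex < ν := lt_of_le_of_lt (Nat.find_min' hex hj0') hj0
    have hsp := Nat.find_spec hex
    have key : ∀ j, j ≤ Nat.find hex → h S = h (j ::ₘ S) + T j := by
      intro j
      induction j with
      | zero => intro _; rw [H.zero, T_zero, add_zero]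
      | succ j ih =>
        intro hj
        have h1 := ih (by omega)
        have h2 := Nat.find_min hex (m := j) (by omega)
        have h3 := H.mac1 S j
        rw [T_succ]
        omega
    set α := Nat.find hex with hα
    -- collision
    have h1 := H.om_spec hν
    rw [Multiset.cons_swap] at h1
    obtain ⟨j, hj1, hj2, hj3, hj4⟩ := H.coll2 S ν (om h d (ν ::ₘ S)) h1
    have hjω : j ≤ om h d S := H.le_om (by omega)
    obtain ⟨δ, hδ⟩ : ∃ δ, h (j ::ₘ S) = h ((j + 1) ::ₘ S) + δ :=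
      ⟨h (j ::ₘ S) - h ((j + 1) ::ₘ S), by omega⟩
    have hδα : δ ≤ α := by
      have := H.mac_from hsp j (by omega) α hsp le_rfl
      omega
    -- `Δ_i ≥ δ` for `α ≤ i < ν`
    have hge : ∀ i, α ≤ i → i < ν → h ((i + 1) ::ₘ S) + δ ≤ h (i ::ₘ S) := by
      intro i hi hiν
      by_contra hc
      obtain ⟨c, hc'⟩ : ∃ c, h (i ::ₘ S) = h ((i + 1) ::ₘ S) + c :=
        ⟨h (i ::ₘ S) - h ((i + 1) ::ₘ S), by have := H.anti S i; omega⟩
      have h4 : c ≤ α := by
        have := H.mac_from hsp i hi α hsp le_rfl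
        omega
      have h5 := H.mac_from (a := i) (S := S) (by omega) j (by omega) c (by omega) (by omega)
      omega
    obtain ⟨k, hk⟩ : ∃ k, ν = α + k + 1 := ⟨ν - α - 1, by omega⟩
    have hA : ∀ i, i ≤ k + 1 → h ((α + i) ::ₘ S) + i * δ ≤ h (α ::ₘ S) := by
      intro i
      induction i with
      | zero => intro _; simp
      | succ i ih =>
        intro hi
        have h4 := ih (by omega)
        have h5 := hge (α + i) (by omega) (by omega)
        have h6 : (i + 1) * δ = i * δ + δ := by ring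
        rw [h6]
        have h7 : α + (i + 1) = α + i + 1 := by ring
        rw [h7]
        omega
    refine ⟨α, δ, k, hk, hδα, ?_, by omega⟩
    have h8 := hA (k + 1) le_rfl
    rw [show α + (k + 1) = ν by omega] at h8
    have h9 := key α le_rfl
    omega

/-- LEMMA D2: one step. -/
theorem HFunD.stepD (H : HFunD d h) {S : Multiset ℕ} {ν : ℕ} (hν : 1 ≤ h (ν ::ₘ S)) :
    2 * T ν + 2 * h (ν ::ₘ S) + ν * om h d (ν ::ₘ S) ≤ 2 * h S + ν * om h d S := by
  rcases H.dich hν with ⟨h1, h2⟩ | ⟨α, δ, k, hk, h1, h2, h3⟩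
  · have := Nat.mul_le_mul_left ν h2
    omega
  · have h4 := two_T ν
    have h5 := two_T α
    have h6 : ν * (ν + om h d (ν ::ₘ S) + 1) ≤ ν * (om h d S + δ) := Nat.mul_le_mul_left _ h3
    obtain ⟨a, ha⟩ := Nat.exists_eq_add_of_le h1
    subst hk
    subst ha
    nlinarith

/-- LEMMA D2: a chain of steps with multiplicities at most `B`. -/
theorem HFunD.chainD (H : HFunD d h) {B : ℕ} :
    ∀ (l : List ℕ) (S : Multiset ℕ), 1 ≤ h ((l : Multiset ℕ) + S) → (∀ x ∈ l, x ≤ B) →
      2 * TT l + 2 * h ((l : Multiset ℕ) + S) + B * om h d ((l : Multiset ℕ) + S) ≤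
        2 * h S + B * om h d S := by
  intro l
  induction l with
  | nil =>
    intro S hS hB
    simp [TT]
  | cons x l ih =>
    intro S hS hB
    have e : ((x :: l : List ℕ) : Multiset ℕ) + S = (l : Multiset ℕ) + (x ::ₘ S) := by
      rw [← Multiset.cons_coe, Multiset.cons_add, Multiset.add_cons]
    rw [e] at hS ⊢
    have h1 : 1 ≤ h (x ::ₘ S) := hS.trans (H.add_le _ _)
    have i1 := ih (x ::ₘ S) hS (fun y hy => hB y (List.mem_cons_of_mem _ hy))
    have j1 := H.stepD h1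
    have hxB : x ≤ B := hB x List.mem_cons_self
    have hω := H.om_cons_le S x h1
    have hTT : TT ((x :: l : List ℕ) : Multiset ℕ) = T x + TT (l : Multiset ℕ) := by
      rw [← Multiset.cons_coe, TT_cons]
    rw [hTT]
    obtain ⟨k, hk⟩ := Nat.exists_eq_add_of_le hω
    obtain ⟨b, rfl⟩ := Nat.exists_eq_add_of_le hxB
    rw [hk] at j1 ⊢
    nlinarith

/-- The drop of the potential `2 h + μ ω` at a step of multiplicity at least `μ`. -/
theorem HFunD.stepCount (H : HFunD d h) {S : Multiset ℕ} {μ ν : ℕ} (hμν : μ ≤ ν)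
    (hν : 1 ≤ h (ν ::ₘ S)) :
    μ * (μ + 1) + 2 * h (ν ::ₘ S) + μ * om h d (ν ::ₘ S) ≤ 2 * h S + μ * om h d S := by
  rcases H.dich hν with ⟨h1, h2⟩ | ⟨α, δ, k, hk, h1, h2, h3⟩
  · have h4 := Nat.mul_le_mul_left μ h2
    have h5 := two_T ν
    have h6 : μ * (μ + 1) ≤ ν * (ν + 1) := Nat.mul_le_mul hμν (by omega)
    omega
  · have h7 : μ * (ν + om h d (ν ::ₘ S) + 1) ≤ μ * (om h d S + δ) := Nat.mul_le_mul_left _ h3
    have h5 := two_T α
    subst hk
    by_cases hα : μ ≤ α
    · have h6 : μ * (μ + 1) ≤ α * (α + 1) := Nat.mul_le_mul hα (by omega)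
      have h2' : om h d ((α + k + 1) ::ₘ S) ≤ om h d S := H.om_cons_le S _ hν
      have h4 := Nat.mul_le_mul_left μ h2'
      have h8 : 0 ≤ (k + 1) * δ := Nat.zero_le _
      omega
    · push Not at hα
      obtain ⟨a, ha⟩ := Nat.exists_eq_add_of_le h1
      obtain ⟨b, hb⟩ := Nat.exists_eq_add_of_lt hα
      obtain ⟨c, hc⟩ := Nat.exists_eq_add_of_le hμν
      subst ha
      subst hb
      have hkc : k = b + c := by omega
      subst hkc
      nlinarith

theorem HFunD.chainCount (H : HFunD d h) {μ : ℕ} :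
    ∀ (l : List ℕ) (S : Multiset ℕ), 1 ≤ h ((l : Multiset ℕ) + S) → (∀ x ∈ l, μ ≤ x) →
      l.length * (μ * (μ + 1)) + 2 * h ((l : Multiset ℕ) + S) +
        μ * om h d ((l : Multiset ℕ) + S) ≤ 2 * h S + μ * om h d S := by
  intro l
  induction l with
  | nil =>
    intro S hS hB
    simp
  | cons x l ih =>
    intro S hS hB
    have e : ((x :: l : List ℕ) : Multiset ℕ) + S = (l : Multiset ℕ) + (x ::ₘ S) := by
      rw [← Multiset.cons_coe, Multiset.cons_add, Multiset.add_cons]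
    rw [e] at hS ⊢
    have h1 : 1 ≤ h (x ::ₘ S) := hS.trans (H.add_le _ _)
    have i1 := ih (x ::ₘ S) hS (fun y hy => hB y (List.mem_cons_of_mem _ hy))
    have j1 := H.stepCount (hB x List.mem_cons_self) h1
    rw [List.length_cons]
    nlinarith

end ShghJ
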