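import Pool.Agent.ShghJ.CombD3

/-! # Decreasing order, sharp form: the mass conditions -/

namespace ShghJ

variable {d : ℕ} {h : Multiset ℕ → ℕ}

/-- The mass condition in terms of positions, constant `c`. -/
def MassD (c x : ℝ) (m : List ℕ) : Prop :=
  ∀ (l : ℕ) (hl : l < m.length), 2 ≤ m[l] →
    c * (m[l] : ℝ) ^ 2 ≤ x + (TT (m.drop l : List ℕ) : ℝ)

theorem FdD_ge {c x : ℝ} {m : List ℕ} (hM : MassD c x m) {l : ℕ} (hl : l < m.length)
    (h2 : 2 ≤ m[l]) : c / 8 * (m[l] : ℝ) ≤ FdC x m l := by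
  have h1 := FdC_eq x m hl h2
  have h3 := hM l hl h2
  rw [← h1] at h3
  have h0 : (0 : ℝ) < m[l] := by
    have : 0 < m[l] := by omega
    exact_mod_cast this
  have h4 : (m[l] : ℝ) * (c * m[l]) ≤ m[l] * (8 * FdC x m l) := by nlinarith
  have h5 := le_of_mul_le_mul_left h4 h0
  linarith

/-- `(μ - 1)(2 w + 4 - μ) ≤ 2 μ w` for `w ≥ μ`. -/
theorem bad_simple {μ w : ℝ} (hμw : μ ≤ w) : (μ - 1) * (2 * w + 4 - μ) ≤ 2 * μ * w := by
  nlinarith [sq_nonneg (μ - 3 / 2)]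

theorem numE0_a {w μ a : ℝ} (hμ : 2 ≤ μ) (ha : 31 / 4 * μ ≤ a) (hw : a < w)
    (hT : w * (w + 1) + 2 ≤ 2 * μ * w) : False := by
  have hw0 : 0 < w := by linarith
  have h1 : w * (w + 1) ≤ w * (2 * μ) := by nlinarith
  have h2 := le_of_mul_le_mul_left h1 hw0
  linarith

theorem numE0_b {w' s d μ w a : ℝ} (hμ : 2 ≤ μ) (ha : 31 / 4 * μ ≤ a) (hs : 0 ≤ s)
    (hd : w ≤ d) (hw : a + 7 / 5 * s < w) (hw' : w' + s = d + 1)
    (hT : w' * (w' + 1) + 2 ≤ 2 * μ * d) : False := by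
  have h1 : 2 / 7 * d + 5 / 7 * a + 1 ≤ w' := by linarith
  have hd0 : 0 < d := by linarith
  have h2 : (2 / 7 * d + 5 / 7 * a) ^ 2 ≤ w' * (w' + 1) := by nlinarith
  nlinarith [sq_nonneg (2 / 7 * d - 5 / 7 * a)]

theorem numE_a {w w1 μ1 a a1 : ℝ} (hμ : 2 ≤ μ1) (haw : a < w) (ha1 : 31 / 4 * μ1 ≤ a1)
    (hda : a1 - a ≤ 3 / 16 * w1) (hw1 : w1 ≤ w + 7 / 5 * w + a1 - a)
    (hT : w * (w + 1) + 2 ≤ 2 * μ1 * w + μ1 * w1) (hw0 : 0 < w) : False := by
  have h1 : w1 ≤ 192 / 65 * w := by linarith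
  have h2 : a1 < 101 / 65 * w := by linarith
  have h3 : w * (w + 1) ≤ w * (322 / 65 * μ1) := by nlinarith
  have h4 := le_of_mul_le_mul_left h3 hw0
  linarith

theorem numE_b {w' s d μ1 w w1 a a1 : ℝ} (hμ : 2 ≤ μ1) (ha1 : 31 / 4 * μ1 ≤ a1) (_hs : 0 ≤ s)
    (hd : w ≤ d) (hd1 : w1 ≤ d) (hda : a1 - a ≤ 3 / 16 * w1)
    (hw : a + 7 / 5 * s < w) (hw' : w' + s = d + 1) (hd0 : 0 < d)
    (hT : w' * (w' + 1) + 2 ≤ 3 * μ1 * d) : False := by
  have h0 : a1 - 3 / 16 * d ≤ a := by linarith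
  have h1 : 17 / 112 * d + 5 / 7 * (31 / 4 * μ1) + 1 ≤ w' := by linarith
  have h2 : (17 / 112 * d + 5 / 7 * (31 / 4 * μ1)) ^ 2 ≤ w' * (w' + 1) := by nlinarith
  nlinarith [sq_nonneg (17 / 112 * d - 5 / 7 * (31 / 4 * μ1)), mul_pos hd0 (show 0 < μ1 by linarith)]

/-- The common part: the bound `a₁ - a ≤ (3/16) w₁` and the inequality for `w'`. -/
theorem decr_common {x : ℝ} {m : List ℕ} (hs : m.Pairwise (· ≥ ·)) {l1 l : ℕ} (h1 : l1 < l)
    (h2 : l < m.length) (hb : 2 ≤ m[l1]'(h1.trans h2)) (ha : 2 ≤ m[l]) {w w' w1 : ℕ}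
    (hmw : m[l] ≤ w) (hFl : 0 ≤ FdC x m l)
    (hB : ∀ B : ℕ, (∀ z ∈ (m.take l).drop l1, z ≤ B) →
        2 * TT (((m.take l).drop l1 : List ℕ) : Multiset ℕ) + 4 ≤
            2 * (m[l1]'(h1.trans h2) * w1) + B * w1 ∧
        (w' : ℝ) * (w' + 1) + 2 ≤ ((m[l] : ℕ) - 1) * (2 * w + 4 - (m[l] : ℕ)) + B * w1) :
    FdC x m l1 - FdC x m l ≤ 3 / 16 * w1 ∧
      (w' : ℝ) * (w' + 1) + 2 ≤
        2 * ((m[l1]'(h1.trans h2) : ℕ) : ℝ) * w + ((m[l1]'(h1.trans h2) : ℕ) : ℝ) * w1 := by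
  have h1m := h1.trans h2
  have hab : m[l] ≤ m[l1]'h1m := decr_le hs h1.le h2
  obtain ⟨hmass, hT⟩ := hB (m[l1]'h1m) (by
    intro z hz
    obtain ⟨i, hi, hli, _, rfl⟩ := mem_seg hz
    exact decr_le hs hli hi)
  have e1 := FdC_eq x m h2 ha
  have e2 := FdC_eq x m h1m hb
  have e3 : (TT (m.drop l1 : List ℕ) : ℝ) =
      TT (((m.take l).drop l1 : List ℕ) : Multiset ℕ) + TT (m.drop l : List ℕ) := by
    rw [drop_split m h1.le h2.le, ← Multiset.coe_add, TT_add]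
    push_cast
    ring
  have hmass' : 2 * (TT (((m.take l).drop l1 : List ℕ) : Multiset ℕ) : ℝ) + 4 ≤
      2 * ((m[l1]'h1m : ℕ) * w1) + (m[l1]'h1m : ℕ) * w1 := by exact_mod_cast hmass
  have ha' : (2 : ℝ) ≤ (m[l] : ℕ) := by exact_mod_cast ha
  have hab' : ((m[l] : ℕ) : ℝ) ≤ (m[l1]'h1m : ℕ) := by exact_mod_cast hab
  have hmw' : ((m[l] : ℕ) : ℝ) ≤ w := by exact_mod_cast hmw
  have hw0 : (0 : ℝ) ≤ w := Nat.cast_nonneg _
  have hsimp := bad_simple hmw'
  generalize FdC x m l = a at *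
  generalize FdC x m l1 = a1 at *
  generalize ((m[l] : ℕ) : ℝ) = μ at *
  generalize ((m[l1]'h1m : ℕ) : ℝ) = μ1 at *
  constructor
  · have h3 : 8 * μ1 * (a1 - a) ≤ 8 * μ1 * (3 / 16 * w1) := by nlinarith
    exact le_of_mul_le_mul_left h3 (by linarith)
  · nlinarith [mul_nonneg (sub_nonneg.2 hab') hw0]

theorem HCD0_decr {x : ℝ} {m : List ℕ} (hM : MassD 62 x m) :
    HCD0 d (d + 1) (7 / 5) m (FdC x m) := by
  intro l h2 ha w s w' hwd hw'w hsd hc hF hmw hT
  have hFge := FdD_ge hM h2 ha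
  have ha' : (2 : ℝ) ≤ (m[l] : ℕ) := by exact_mod_cast ha
  have hmw' : ((m[l] : ℕ) : ℝ) ≤ w := by exact_mod_cast hmw
  have hsimp := bad_simple hmw'
  have hw0 : (0 : ℝ) ≤ w := Nat.cast_nonneg _
  have hs0 : (0 : ℝ) ≤ s := Nat.cast_nonneg _
  have hwd' : (w : ℝ) ≤ d := by exact_mod_cast hwd
  rcases hc with hc | hc
  · subst hc
    exact numE0_a (a := FdC x m l) ha' (by linarith) (by linarith) (hT.trans hsimp)
  · have hc' : (w' : ℝ) + s = d + 1 := by exact_mod_cast hc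
    refine numE0_b (a := FdC x m l) ha' (by linarith) hs0 hwd' hF hc' ((hT.trans hsimp).trans ?_)
    nlinarith

theorem HCD_decr {x : ℝ} (hx : 0 ≤ x) {m : List ℕ} (hs : m.Pairwise (· ≥ ·))
    (hM : MassD 62 x m) : HCD d (d + 1) (7 / 5) m (FdC x m) := by
  intro l1 l h1 h2 hb ha w s w' w1 hwd hw1d hw'w hsd hc hF hmw hm1 hy hB
  have h1m := h1.trans h2
  have hab : m[l] ≤ m[l1]'h1m := decr_le hs h1.le h2
  have hFge1 := FdD_ge hM h1m hb
  have hF0 := FdC_nonneg hx m l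
  obtain ⟨hda, hT⟩ := decr_common (x := x) hs h1 h2 hb ha hmw hF0 hB
  have ha' : (2 : ℝ) ≤ (m[l] : ℕ) := by exact_mod_cast ha
  have hab' : ((m[l] : ℕ) : ℝ) ≤ (m[l1]'h1m : ℕ) := by exact_mod_cast hab
  have hw0 : (0 : ℝ) ≤ w := Nat.cast_nonneg _
  have hw10 : (0 : ℝ) ≤ w1 := Nat.cast_nonneg _
  have hs0 : (0 : ℝ) ≤ s := Nat.cast_nonneg _
  have hwd' : (w : ℝ) ≤ d := by exact_mod_cast hwd
  have hw1d' : (w1 : ℝ) ≤ d := by exact_mod_cast hw1d
  have hwpos : (0 : ℝ) < w := by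
    have : 0 < w := by omega
    exact_mod_cast this
  generalize FdC x m l = a at *
  generalize FdC x m l1 = a1 at *
  generalize ((m[l] : ℕ) : ℝ) = μ at *
  generalize ((m[l1]'h1m : ℕ) : ℝ) = μ1 at *
  rcases hc with hc | hc
  · subst hc
    exact numE_a (w := w') (w1 := w1) (μ1 := μ1) (a := a) (a1 := a1) (by linarith)
      (by linarith) (by linarith) hda hy hT hwpos
  · have hc' : (w' : ℝ) + s = d + 1 := by exact_mod_cast hc
    refine numE_b (w' := w') (s := s) (d := d) (μ1 := μ1) (w := w) (w1 := w1) (a := a) (a1 := a1)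
      (by linarith) (by linarith) hs0 hwd' hw1d' hda hF hc' (by linarith) (hT.trans ?_)
    nlinarith

/-- The bookkeeping at the end, common to all mass conditions: with `χ = N₁ - r`,
`x + r < c μ y` where `x ≤ c |χ|`, `c ≥ 3`. -/
theorem end_mass {c x χ N1 r hh μy : ℝ} (hc : 3 ≤ c) (hr : 0 ≤ r) (hh0 : 0 < hh)
    (hx : x ≤ c * |χ|) (hχ : χ = N1 - r) (hN : N1 < μy) (hB : 2 * r + 2 * hh ≤ 2 * N1 + μy)
    (hN0 : 0 < N1) : x + r < c * μy := by
  rcases abs_cases χ with ⟨h8, h9⟩ | ⟨h8, h9⟩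
  · rw [h8, hχ] at hx
    nlinarith
  · rw [h8, hχ] at hx
    have h1 : 0 ≤ (c + 1) * (2 * N1 + μy - (2 * r + 2 * hh)) :=
      mul_nonneg (by linarith) (by linarith)
    have h2 : 0 ≤ (c - 3) * μy := mul_nonneg (by linarith) (by linarith)
    have h3 : 0 < (c + 1) * hh := mul_pos (by linarith) hh0
    nlinarith

theorem spreadD : SpreadD := by
  intro d h H W S hW hS
  have hchi := H.chi_le (W + S)
  by_cases h0 : 1 ≤ h (W + S)
  · by_cases he : T (d + 1) < h (W + S) + TT (W + S)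
    · exfalso
      have hcoe : ((S.sort (· ≥ ·) : List ℕ) : Multiset ℕ) = S := Multiset.sort_eq _ _
      have hs : (S.sort (· ≥ ·)).Pairwise (· ≥ ·) := Multiset.pairwise_sort _ _
      generalize S.sort (· ≥ ·) = m at *
      subst hcoe
      have hWK : W + (m : Multiset ℕ) = (m : Multiset ℕ) + (W + 0) := by
        rw [add_zero, add_comm]
      rw [hWK] at h0 he hS
      set x : ℝ := 6 * |(T (d + 1) : ℝ) - TT ((m : Multiset ℕ) + (W + 0))| with hxdef
      have hx0 : 0 ≤ x := by positivity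
      have hcond : ∀ (l : ℕ) (hl : l < m.length), 2 ≤ m[l] →
          62 * ((m[l] : ℕ) : ℝ) ^ 2 + 34 * ((m[l] : ℕ) : ℝ) * ((W.sum : ℕ) : ℝ) ≤
            x + (TT (m.drop l : List ℕ) : ℝ) := by
        intro l hl h2
        have h3 := hS m[l] (by simp) h2
        have h4 := filter_le_drop hs hl
        have h5 : 62 * ((m[l] : ℕ) : ℝ) ^ 2 + 34 * ((m[l] : ℕ) : ℝ) * ((W.sum : ℕ) : ℝ) ≤
            6 * |(T (d + 1) : ℝ) - TT ((m : Multiset ℕ) + (W + 0))| +
            (TT ((m : Multiset ℕ).filter (fun j => j < m[l])) : ℝ) := by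
          generalize W.sum = σ at *
          generalize TT ((m : Multiset ℕ).filter (fun j => j < m[l])) = t at *
          generalize TT ((m : Multiset ℕ) + (W + 0)) = t' at *
          have h7 := (Int.cast_le (R := ℝ)).2 h3
          push_cast at h7
          exact h7
        have h6 : (TT ((m : Multiset ℕ).filter (fun j => j < m[l])) : ℝ) ≤
            (TT (m.drop l : List ℕ) : ℝ) := by exact_mod_cast h4
        rw [hxdef]
        linarith
      have hM : MassD 62 x m := by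
        intro l hl h2
        have h3 := hcond l hl h2
        have h4 : 0 ≤ 34 * ((m[l] : ℕ) : ℝ) * ((W.sum : ℕ) : ℝ) := by positivity
        linarith
      obtain ⟨l, hl, y, A, hA, hsplit, h2, hyF, hmy, hyd, hxy, he1, hA1, hN, _, hB, _⟩ :=
        H.final (7 / 5) m (FdC x m) 0 (D1 := d + 1) (by simp) (HCD0_decr hM)
          (HCD_decr hx0 hs hM) W hW h0 he
      have h3 := hB m[l] (by
        intro z hz
        obtain ⟨i, hi, hli, rfl⟩ := mem_drop hz
        exact decr_le hs hli hi)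
      have hc := hcond l hl h2
      have e1 := FdC_eq x m hl h2
      have h4 : TT ((m : Multiset ℕ) + (W + 0)) =
          TT ((m.drop l : List ℕ) : Multiset ℕ) + TT A := by rw [hsplit, TT_add]
      have h3' : 2 * (TT (m.drop l : List ℕ) : ℝ) + 2 * h ((m : Multiset ℕ) + (W + 0)) ≤
          2 * h A + (m[l] : ℕ) * y := by exact_mod_cast h3
      have hN' : (h A : ℝ) < (m[l] : ℕ) * y := by exact_mod_cast hN
      have he1' : (h A : ℝ) + TT A = T (d + 1) := by exact_mod_cast he1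
      have h4' : (TT ((m : Multiset ℕ) + (W + 0)) : ℝ) = TT (m.drop l : List ℕ) + TT A := by
        exact_mod_cast h4
      have h0' : (1 : ℝ) ≤ h ((m : Multiset ℕ) + (W + 0)) := by exact_mod_cast h0
      have hA1' : (1 : ℝ) ≤ h A := by exact_mod_cast hA1
      have h2' : (2 : ℝ) ≤ (m[l] : ℕ) := by exact_mod_cast h2
      have hσ0 : (0 : ℝ) ≤ ((W.sum : ℕ) : ℝ) := Nat.cast_nonneg _
      have h7 : 8 * ((m[l] : ℕ) * (y : ℝ)) ≤
          56 / 5 * ((m[l] : ℕ) * ((W.sum : ℕ) : ℝ)) + (x + TT (m.drop l : List ℕ)) := by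
        rw [← e1]; nlinarith
      have h10 : (0 : ℝ) ≤ ((m[l] : ℕ) : ℝ) * ((W.sum : ℕ) : ℝ) := by positivity
      have h11 : 0 < 62 * ((m[l] : ℕ) : ℝ) ^ 2 := by positivity
      have h12 := end_mass (c := 6) (χ := (T (d + 1) : ℝ) - TT ((m : Multiset ℕ) + (W + 0)))
        (by norm_num) (Nat.cast_nonneg (TT (m.drop l : List ℕ)))
        (show (0 : ℝ) < h ((m : Multiset ℕ) + (W + 0)) by linarith) hxdef.le
        (by rw [h4', ← he1']; ring) hN' h3' (by linarith)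
      nlinarith
    · omega
  · omega

theorem yD : YD := by
  intro d h H S hS
  have hchi := H.chi_le S
  by_cases h0 : 1 ≤ h S
  · by_cases he : T (d + 1) < h S + TT S
    · exfalso
      have hcoe : ((S.sort (· ≥ ·) : List ℕ) : Multiset ℕ) = S := Multiset.sort_eq _ _
      have hs : (S.sort (· ≥ ·)).Pairwise (· ≥ ·) := Multiset.pairwise_sort _ _
      generalize S.sort (· ≥ ·) = m at *
      subst hcoe
      have hWK : (m : Multiset ℕ) = (m : Multiset ℕ) + (0 + 0) := by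
        rw [add_zero, add_zero]
      set x : ℝ := 8 * |(T (d + 1) : ℝ) - TT (m : Multiset ℕ)| with hxdef
      have hx0 : 0 ≤ x := by positivity
      have hM : MassD 62 x m := by
        intro l hl h2
        have h3 := hS m[l] (by simp) h2
        have h4 := filter_le_drop hs hl
        have h5 : 62 * ((m[l] : ℕ) : ℝ) ^ 2 ≤ 8 * |(T (d + 1) : ℝ) - TT (m : Multiset ℕ)| +
            (TT ((m : Multiset ℕ).filter (fun j => j < m[l])) : ℝ) := by
          exact_mod_cast h3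
        have h6 : (TT ((m : Multiset ℕ).filter (fun j => j < m[l])) : ℝ) ≤
            (TT (m.drop l : List ℕ) : ℝ) := by exact_mod_cast h4
        rw [hxdef]
        linarith
      have h0c := h0
      rw [hWK] at h0 he
      obtain ⟨l, hl, y, A, hA, hsplit, h2, hyF, hmy, hyd, hxy, he1, hA1, hN, _, hB, _⟩ :=
        H.final (7 / 5) m (FdC x m) 0 (D1 := d + 1) (by simp) (HCD0_decr hM)
          (HCD_decr hx0 hs hM) 0 (by simp) h0 he
      have h3 := hB m[l] (by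
        intro z hz
        obtain ⟨i, hi, hli, rfl⟩ := mem_drop hz
        exact decr_le hs hli hi)
      rw [← hWK] at h3 hsplit
      have e1 := FdC_eq x m hl h2
      have h4 : TT (m : Multiset ℕ) =
          TT ((m.drop l : List ℕ) : Multiset ℕ) + TT A := by
        conv_lhs => rw [hsplit]
        rw [TT_add]
      have h3' : 2 * (TT (m.drop l : List ℕ) : ℝ) + 2 * h (m : Multiset ℕ) ≤
          2 * h A + (m[l] : ℕ) * y := by exact_mod_cast h3
      have hN' : (h A : ℝ) < (m[l] : ℕ) * y := by exact_mod_cast hN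
      have he1' : (h A : ℝ) + TT A = T (d + 1) := by exact_mod_cast he1
      have h4' : (TT (m : Multiset ℕ) : ℝ) = TT (m.drop l : List ℕ) + TT A := by
        exact_mod_cast h4
      have h0' : (1 : ℝ) ≤ h (m : Multiset ℕ) := by exact_mod_cast h0c
      have hA1' : (1 : ℝ) ≤ h A := by exact_mod_cast hA1
      have h2' : (2 : ℝ) ≤ (m[l] : ℕ) := by exact_mod_cast h2
      simp only [Multiset.sum_zero, Nat.cast_zero, mul_zero, zero_add] at hyF
      have h7 : 8 * ((m[l] : ℕ) * (y : ℝ)) ≤ x + TT (m.drop l : List ℕ) := by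
        rw [← e1]; nlinarith
      have h12 := end_mass (c := 8) (χ := (T (d + 1) : ℝ) - TT (m : Multiset ℕ))
        (by norm_num) (Nat.cast_nonneg (TT (m.drop l : List ℕ)))
        (show (0 : ℝ) < h (m : Multiset ℕ) by linarith) hxdef.le
        (by rw [h4', ← he1']; ring) hN' h3' (by linarith)
      linarith
    · omega
  · omega

end ShghJ
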