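import Pool.Agent.ShghJ.HFunC

/-!
# Targets with a starting multiset `W` and with a base multiset `K`
-/

namespace ShghJ

/-- WINDOW with a starting multiset `W` (sum at most `d + 1`), split form. -/
def Win2 : Prop := ∀ (d : ℕ) (h : Multiset ℕ → ℕ), HFunC d h → ∀ (M : ℕ) (W S : Multiset ℕ),
  W.sum ≤ d + 1 → (∀ x ∈ S, x ≤ M) →
    (1 ≤ h (W + S) → 4 * (h (W + S) + TT (W + S)) ≤ M * (26 * M + 5 * W.sum) + 4 * T (d + 1)) ∧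
    ((M : ℤ) * (26 * M + 5 * (W.sum : ℕ)) ≤ 4 * ((T (d + 1) : ℤ) - TT (W + S)) →
      h (W + S) + TT (W + S) = T (d + 1))

/-- MASS CONDITION with a starting multiset `W` (sum at most `d + 1`). -/
def Spread2 : Prop := ∀ (d : ℕ) (h : Multiset ℕ → ℕ), HFunC d h → ∀ W S : Multiset ℕ,
  W.sum ≤ d + 1 → (∀ x ∈ S, 2 ≤ x →
    121 * (x : ℤ) ^ 2 + 19 * x * (W.sum : ℕ) ≤
      3 * |(T (d + 1) : ℤ) - TT (W + S)| + TT (S.filter (fun j => j < x))) →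
  h (W + S) = T (d + 1) - TT (W + S)

/-- MASS CONDITION with a base multiset `K` (`2 ΣK ≤ d + 2`, not counted). -/
def YBase : Prop := ∀ (d : ℕ) (h : Multiset ℕ → ℕ), HFunC d h → ∀ (K S : Multiset ℕ) (x : ℝ),
  2 * K.sum ≤ d + 2 → 0 ≤ x →
  (∀ m ∈ S, 2 ≤ m → 250 * (m : ℝ) ^ 2 ≤ x + TT (S.filter (fun j => j < m))) →
  x ≤ 3 * |(T (d + 1) : ℝ) - TT (K + S)| →
  h (K + S) = T (d + 1) - TT (K + S)

/-- WINDOW with a base multiset `K` (`2 ΣK ≤ d + 2`, not counted). -/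
def WinBase : Prop := ∀ (d : ℕ) (h : Multiset ℕ → ℕ), HFunC d h → ∀ (M : ℕ) (K S : Multiset ℕ),
  2 * K.sum ≤ d + 2 → (∀ x ∈ S, x ≤ M) →
  16 * (M : ℤ) ^ 2 ≤ |(T (d + 1) : ℤ) - TT (K + S)| →
  h (K + S) = T (d + 1) - TT (K + S)

end ShghJ
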