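import Pool.Agent.ShghJ.CombC4
import Pool.Agent.ShghJ.HFunC2

/-! # Bad configurations, amplification (log-free), with a base multiset `K` -/

namespace ShghJ

variable {d : ℕ} {h : Multiset ℕ → ℕ}

/-- The numerical condition on the bound `F` (log-free), potential `ω - κ σ - F`,
`D1 = d + 1 - ΣK`. -/
def HCK (d D1 : ℕ) (κ : ℝ) (m : List ℕ) (F : ℕ → ℝ) : Prop :=
  ∀ (l1 l : ℕ) (h1 : l1 < l) (h2 : l < m.length), 2 ≤ m[l1]'(h1.trans h2) → 2 ≤ m[l] →
    ∀ w s w' w1 : ℕ, w ≤ d → w1 ≤ d → w' ≤ w → s + w' ≤ D1 →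
      (w' = w ∨ w' + s = D1) → F l + κ * s < w → m[l1]'(h1.trans h2) ≤ w1 →
      (w1 : ℝ) ≤ w + κ * w' + F l1 - F l →
      (∀ B : ℕ, (∀ z ∈ (m.take l).drop l1, z ≤ B) →
        TT (((m.take l).drop l1 : List ℕ) : Multiset ℕ) + 2 ≤
            m[l1]'(h1.trans h2) * w1 + B * w1 ∧
        T w' + 2 ≤ m[l] * w + B * w1) → False

/-- The numerical condition when the new chain has no bad step. -/
def HCK0 (d D1 : ℕ) (κ : ℝ) (m : List ℕ) (F : ℕ → ℝ) : Prop :=
  ∀ (l : ℕ) (h2 : l < m.length), 2 ≤ m[l] → ∀ w s w' : ℕ, w ≤ d → w' ≤ w → s + w' ≤ D1 →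
      (w' = w ∨ w' + s = D1) → F l + κ * s < w → T w' + 2 ≤ m[l] * w → False

theorem hck_of_hc {κ : ℝ} {m : List ℕ} {F : ℕ → ℝ} (H : HC d κ m F) : HCK d (d + 1) κ m F := H

theorem hck0_of_hc0 {κ : ℝ} {m : List ℕ} {F : ℕ → ℝ} (H : HC0 d κ m F) :
    HCK0 d (d + 1) κ m F := H

/-- THE AMPLIFICATION: all bad configurations satisfy `ω ≤ κ σ + F`. -/
theorem HFunC.claimK (H : HFunC d h) (κ : ℝ) (m : List ℕ) (F : ℕ → ℝ) (K : Multiset ℕ) {D1 : ℕ}
    (hD1 : D1 + K.sum = d + 1)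
    (HF0 : HCK0 d D1 κ m F) (HF : HCK d D1 κ m F) :
    ∀ (l : ℕ) (hl : l < m.length) (W : Multiset ℕ), W.sum ≤ D1 →
      Bad h (((m.take l : List ℕ) : Multiset ℕ) + (W + K)) m[l] →
      (om h d (((m.take l : List ℕ) : Multiset ℕ) + (W + K)) : ℝ) ≤ κ * W.sum + F l := by
  classical
  by_contra hcon
  push Not at hcon
  obtain ⟨l0, hl0, W0, hW0, hb0, hv0⟩ := hcon
  let P : ℕ × ℕ × ℕ → Prop := fun p => ∃ (hl : p.1 < m.length) (W : Multiset ℕ),
    W.sum ≤ D1 ∧ Bad h (((m.take p.1 : List ℕ) : Multiset ℕ) + (W + K)) m[p.1] ∧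
    W.sum = p.2.1 ∧ om h d (((m.take p.1 : List ℕ) : Multiset ℕ) + (W + K)) = p.2.2
  let Z : Finset (ℕ × ℕ × ℕ) :=
    (Finset.range m.length ×ˢ Finset.range (D1 + 1) ×ˢ Finset.range (d + 1)).filter P
  have hmem : ∀ (l : ℕ) (hl : l < m.length) (W : Multiset ℕ), W.sum ≤ D1 →
      Bad h (((m.take l : List ℕ) : Multiset ℕ) + (W + K)) m[l] →
      (l, W.sum, om h d (((m.take l : List ℕ) : Multiset ℕ) + (W + K))) ∈ Z := by
    intro l hl W h1 h2
    have h4 : om h d (((m.take l : List ℕ) : Multiset ℕ) + (W + K)) ≤ d := om_le _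
    refine Finset.mem_filter.2 ⟨Finset.mem_product.2 ⟨Finset.mem_range.2 hl,
      Finset.mem_product.2 ⟨Finset.mem_range.2 ?_, Finset.mem_range.2 ?_⟩⟩, hl, W, h1, h2, rfl, rfl⟩
    · show W.sum < D1 + 1
      omega
    · show om h d (((m.take l : List ℕ) : Multiset ℕ) + (W + K)) < d + 1
      omega
  have hz0 := hmem l0 hl0 W0 hW0 hb0
  obtain ⟨⟨l, s, w⟩, hz, hmax⟩ :=
    Finset.exists_max_image Z (fun p => (p.2.2 : ℝ) - κ * p.2.1 - F p.1) ⟨_, hz0⟩
  have hpos : (0 : ℝ) < w - κ * s - F l := by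
    have h1 := hmax _ hz0
    simp only at h1
    linarith
  obtain ⟨hl, W, hW, hb, hsW, hwW⟩ := (Finset.mem_filter.1 hz).2
  simp only at hl hb hsW hwW
  set S : Multiset ℕ := ((m.take l : List ℕ) : Multiset ℕ) + (W + K) with hSdef
  have hωd : w ≤ d := by rw [← hwW]; exact om_le _
  have hsd : s ≤ D1 := by rw [← hsW]; exact hW
  have hSpos : 1 ≤ h S := H.bad_pos hb
  set w' := min w (D1 - s) with hw'def
  have hw'w : w' ≤ w := min_le_left _ _
  have hw'd : s + w' ≤ D1 := by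
    have : w' ≤ D1 - s := min_le_right _ _
    omega
  have hw'c : w' = w ∨ w' + s = D1 := by
    rcases min_choice w (D1 - s) with h1 | h1
    · exact Or.inl (by rw [hw'def, h1])
    · right; rw [hw'def, h1]; omega
  have hS' : 1 ≤ h (w' ::ₘ S) := H.pos_of_le_om hSpos (by rw [hwW]; exact hw'w)
  set W' : Multiset ℕ := w' ::ₘ W with hW'def
  have hW'sum : W'.sum = w' + s := by rw [hW'def, Multiset.sum_cons, hsW]
  have hW'Ksum : (W' + K).sum ≤ d + 1 := by rw [Multiset.sum_add, hW'sum]; omega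
  have eS' : ((m.take l : List ℕ) : Multiset ℕ) + (W' + K) = w' ::ₘ S := by
    rw [hW'def, hSdef, Multiset.cons_add, Multiset.add_cons]
  have hNlt : h S < m[l] * w := by rw [← hwW]; exact H.bad_lt hb
  have hchi := H.chi_le S
  have hm2 := H.bad_two_le hb
  have hFl : F l + κ * s < w := by linarith
  rcases H.first_bad m (W' + K) hW'Ksum l hl.le (by rw [eS']; exact hS') with
    hz1 | ⟨l1, hl1m, hl1, hb1, he1⟩
  · rw [eS', TT_cons] at hz1
    exact HF0 l hl hm2 w s w' hωd hw'w hw'd hw'c hFl (by omega)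
  · set S1 : Multiset ℕ := ((m.take l1 : List ℕ) : Multiset ℕ) + (W' + K) with hS1def
    set w1 := om h d S1 with hw1def
    have hw1d : w1 ≤ d := om_le _
    have hm1w : m[l1] ≤ w1 := H.bad_le_om hb1
    have hm12 := H.bad_two_le hb1
    have hN1 : h S1 < m[l1] * w1 := H.bad_lt hb1
    have hy : (w1 : ℝ) ≤ w + κ * w' + F l1 - F l := by
      have h2 := hmem l1 hl1m W' (by rw [hW'sum]; omega) hb1
      have h3 := hmax _ h2
      simp only at h3
      rw [hW'sum, Nat.cast_add] at h3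
      have h4 : (w1 : ℝ) - κ * (w' + s) - F l1 ≤ w - κ * s - F l := h3
      linarith
    have hseg : ((m.take l : List ℕ) : Multiset ℕ) + (W' + K) =
        (((m.take l).drop l1 : List ℕ) : Multiset ℕ) + S1 := by
      rw [take_eq_drop_add m hl1.le, hS1def, add_assoc]
    have hS'' : 1 ≤ h ((((m.take l).drop l1 : List ℕ) : Multiset ℕ) + S1) := by
      rw [← hseg, eS']; exact hS'
    refine HF l1 l hl1 hl hm12 hm2 w s w' w1 hωd hw1d hw'w hw'd hw'c hFl hm1w hy ?_
    intro B hB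
    have h1 := H.chainD _ S1 hS'' hB
    have h3 : TT (w' ::ₘ S) = TT (((m.take l).drop l1 : List ℕ) : Multiset ℕ) + TT S1 := by
      rw [← eS', hseg, TT_add]
    rw [TT_cons] at h3
    rw [← hw1def] at h1
    constructor
    · omega
    · omega

/-- The final form: a special effective system `m + (W + K)` has a first bad step with
`ω ≤ κ ΣW + F`. -/
theorem HFunC.finalK (H : HFunC d h) (κ : ℝ) (m : List ℕ) (F : ℕ → ℝ) (K : Multiset ℕ) {D1 : ℕ}
    (hD1 : D1 + K.sum = d + 1) (HF0 : HCK0 d D1 κ m F) (HF : HCK d D1 κ m F)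
    (W : Multiset ℕ) (hW : W.sum ≤ D1)
    (hpos : 1 ≤ h ((m : Multiset ℕ) + (W + K)))
    (he : T (d + 1) < h ((m : Multiset ℕ) + (W + K)) + TT ((m : Multiset ℕ) + (W + K))) :
    ∃ (l : ℕ) (hl : l < m.length) (y : ℕ) (A : Multiset ℕ),
      A = ((m.take l : List ℕ) : Multiset ℕ) + (W + K) ∧
      (m : Multiset ℕ) + (W + K) = ((m.drop l : List ℕ) : Multiset ℕ) + A ∧
      2 ≤ m[l] ∧ (y : ℝ) ≤ κ * W.sum + F l ∧ m[l] ≤ y ∧ y ≤ d ∧
      (∀ x ∈ m.drop l, x ≤ y) ∧ h A + TT A = T (d + 1) ∧ 1 ≤ h A ∧ h A < m[l] * y ∧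
      (∀ B : ℕ, (∀ x ∈ m.drop l, x ≤ B) →
        TT (m.drop l) + h ((m : Multiset ℕ) + (W + K)) ≤ h A + B * y) := by
  have hclaim := H.claimK κ m F K hD1 HF0 HF
  have hfb := H.first_bad m (W + K) (by rw [Multiset.sum_add]; omega) m.length le_rfl
    (by rw [List.take_length]; exact hpos)
  rw [List.take_length] at hfb
  rcases hfb with h1 | ⟨l, hl, _, hb, he1⟩
  · omega
  · have hω := hclaim l hl W hW hb
    have hm2 := H.bad_two_le hb
    have hmω := H.bad_le_om hb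
    have hN1 := H.bad_lt hb
    have hA1 := H.bad_pos hb
    have hsplit : (m : Multiset ℕ) + (W + K) = ((m.drop l : List ℕ) : Multiset ℕ) +
        (((m.take l : List ℕ) : Multiset ℕ) + (W + K)) := by
      have := take_eq_drop_add m (l1 := l) (l := m.length) hl.le
      rw [List.take_length] at this
      rw [this, add_assoc]
    have hpos' := hpos
    rw [hsplit] at hpos'
    refine ⟨l, hl, _, _, rfl, hsplit, hm2, hω, hmω, om_le _, ?_, he1, hA1, hN1, ?_⟩
    · intro x hx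
      have h1 : 1 ≤ h (x ::ₘ (((m.take l : List ℕ) : Multiset ℕ) + (W + K))) := by
        obtain ⟨A, B, hAB⟩ := List.append_of_mem hx
        have h2 : ((m.drop l : List ℕ) : Multiset ℕ) +
            (((m.take l : List ℕ) : Multiset ℕ) + (W + K)) =
            ((A : Multiset ℕ) + (B : Multiset ℕ)) +
              (x ::ₘ (((m.take l : List ℕ) : Multiset ℕ) + (W + K))) := by
          rw [hAB, ← Multiset.coe_add, ← Multiset.cons_coe, Multiset.add_cons, Multiset.add_cons,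
            Multiset.cons_add]
        rw [h2] at hpos'
        exact hpos'.trans (H.add_le _ _)
      exact H.le_om h1
    · intro B hB
      have h1 := H.chainD _ _ hpos' hB
      rw [← hsplit] at h1
      exact (Nat.le_add_right _ _).trans h1

end ShghJ
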