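import Pool.Agent.ShghT.SemiB

/-!
# Dimensions of linear systems as a function of the multiplicities: definitions

`Hilb d h`: the properties of the function `h`, `h S` = dimension of the space of polynomials of
degree `≤ d` with multiplicities `S` at generic points, from which the main theorems follow.
-/

namespace ShghJ

open MvPolynomial

/-- The properties of the dimension function `h` in degree `d`. -/
structure Hilb (d : ℕ) (h : Multiset ℕ → ℕ) : Prop where
  /-- the conditions are independent if the sum of the multiplicities is at most `d + 1` -/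
  base : ∀ W : Multiset ℕ, W.sum ≤ d + 1 →
    h W + (W.map fun m => (m + 1).choose 2).sum = (d + 2).choose 2
  zero : ∀ S, h (0 ::ₘ S) = h S
  anti : ∀ j S, h ((j + 1) ::ₘ S) ≤ h (j ::ₘ S)
  step : ∀ j S, h (j ::ₘ S) ≤ h ((j + 1) ::ₘ S) + (j + 1)
  /-- if `Δ_j ≤ j` then `Δ_(j+1) ≤ Δ_j` -/
  mac : ∀ j S, h (j ::ₘ S) ≤ h ((j + 1) ::ₘ S) + j →
    2 * h ((j + 1) ::ₘ S) ≤ h ((j + 2) ::ₘ S) + h (j ::ₘ S)
  /-- `Δ_j` decreases if a point is added -/
  mono : ∀ j x S, h (j ::ₘ x ::ₘ S) + h ((j + 1) ::ₘ S) ≤ h ((j + 1) ::ₘ x ::ₘ S) + h (j ::ₘ S)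

/-- The field `F(x_(i,c) : i ∈ ℕ, c ∈ {0, 1})`. -/
abbrev UF (F : Type*) [Field F] : Type _ := FractionRing (MvPolynomial (ℕ × Fin 2) F)

/-- The generic points. -/
noncomputable def up (F : Type*) [Field F] (i : ℕ) (c : Fin 2) : UF F :=
  algebraMap (MvPolynomial (ℕ × Fin 2) F) (UF F) (X (i, c))

/-- The dimension of the space of polynomials of degree `≤ d` with multiplicities `S` at generic
points. -/
noncomputable def hF (F : Type*) [Field F] (d : ℕ) (S : Multiset ℕ) : ℕ :=
  Module.finrank (UF F) (ShghT.LS d (fun i : Fin S.toList.length => S.toList.get i)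
    (fun i => up F i))

/-- The polynomials in `V` which have multiplicity `≥ j` at the point `p`. -/
def fil {K : Type*} [Field K] (V : Submodule K (MvPolynomial (Fin 2) K)) (p : Fin 2 → K) (j : ℕ) :
    Submodule K (MvPolynomial (Fin 2) K) where
  carrier := {f | f ∈ V ∧ f ∈ ShghT.pt (p 0) (p 1) ^ j}
  add_mem' := fun {_ _} ha hb => ⟨V.add_mem ha.1 hb.1, Ideal.add_mem _ ha.2 hb.2⟩
  zero_mem' := ⟨V.zero_mem, Ideal.zero_mem _⟩
  smul_mem' := fun c f hf => ⟨V.smul_mem c hf.1, by
    rw [smul_eq_C_mul]
    exact Ideal.mul_mem_left _ _ hf.2⟩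

/-- The coefficientwise derivation. -/
noncomputable def Dc {K : Type*} [Field K] (D : Derivation ℤ K K) :
    MvPolynomial (Fin 2) K →+ MvPolynomial (Fin 2) K where
  toFun f := ∑ e ∈ f.support, monomial e (D (f.coeff e))
  map_zero' := by simp
  map_add' f g := by
    classical
    have key : ∀ u : MvPolynomial (Fin 2) K, ∀ T : Finset (Fin 2 →₀ ℕ), u.support ⊆ T →
        ∑ e ∈ u.support, monomial e (D (u.coeff e)) = ∑ e ∈ T, monomial e (D (u.coeff e)) := by
      intro u T hT
      refine Finset.sum_subset hT fun e _ he => ?_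
      rw [notMem_support_iff.1 he, map_zero, monomial_zero]
    rw [key (f + g) (f.support ∪ g.support) support_add,
      key f (f.support ∪ g.support) Finset.subset_union_left,
      key g (f.support ∪ g.support) Finset.subset_union_right, ← Finset.sum_add_distrib]
    refine Finset.sum_congr rfl fun e _ => ?_
    rw [coeff_add, map_add, map_add]

theorem coeff_Dc {K : Type*} [Field K] (D : Derivation ℤ K K) (f : MvPolynomial (Fin 2) K)
    (e : Fin 2 →₀ ℕ) : (Dc D f).coeff e = D (f.coeff e) := by
  classical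
  change (∑ e' ∈ f.support, monomial e' (D (f.coeff e'))).coeff e = _
  rw [coeff_sum]
  simp only [coeff_monomial]
  rw [Finset.sum_ite_eq' f.support e]
  split_ifs with h
  · rfl
  · rw [notMem_support_iff.1 h, map_zero]

end ShghJ
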