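import Pool.Agent.ShghJ.Spec

/-!
# ShghJ, Mono
-/

namespace ShghJ

open MvPolynomial

universe u v w

theorem tMono : S_Mono.{u} := by
  intro K _ V V' p j hV hVV
  have hfin : ∀ (W : Submodule K (MvPolynomial (Fin 2) K)) (i : ℕ), W ≤ V →
      Module.Finite K (fil W p i) := by
    intro W i hW
    have hle : fil W p i ≤ V := fun f hf => hW hf.1
    exact Submodule.finiteDimensional_of_le hle
  haveI h1 := hfin V' j hVV
  haveI h2 := hfin V (j + 1) le_rfl
  haveI h3 := hfin V j le_rfl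
  have hinf : fil V' p j ⊓ fil V p (j + 1) = fil V' p (j + 1) := by
    ext f
    constructor
    · rintro ⟨hf1, hf2⟩
      exact ⟨hf1.1, hf2.2⟩
    · intro hf
      exact ⟨⟨hf.1, Ideal.pow_le_pow_right (Nat.le_succ j) hf.2⟩, hVV hf.1, hf.2⟩
  have hsup : fil V' p j ⊔ fil V p (j + 1) ≤ fil V p j := by
    refine sup_le ?_ ?_
    · intro f hf
      exact ⟨hVV hf.1, hf.2⟩
    · intro f hf
      exact ⟨hf.1, Ideal.pow_le_pow_right (Nat.le_succ j) hf.2⟩
  have h4 := Submodule.finrank_sup_add_finrank_inf_eq (fil V' p j) (fil V p (j + 1))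
  rw [hinf] at h4
  have h5 := Submodule.finrank_mono hsup
  omega

end ShghJ
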