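import Mathlib

/-!
# Bad steps: the inequality for Macaulay sequences
-/

namespace ShghJ

section

variable {H : ℕ → ℕ} (hanti : ∀ j, H (j + 1) ≤ H j) (hstep : ∀ j, H j ≤ H (j + 1) + (j + 1))
  (hmac : ∀ j, H j ≤ H (j + 1) + j → 2 * H (j + 1) ≤ H (j + 2) + H j)

include hanti in
theorem seq_anti {i j : ℕ} (h : i ≤ j) : H j ≤ H i :=
  antitone_nat_of_succ_le hanti h

include hmac in
theorem seq_dec {α : ℕ} (hα : H α ≤ H (α + 1) + α) (n : ℕ) :
    (H (α + n) : ℤ) - H (α + n + 1) ≤ α ∧
      (H (α + n + 1) : ℤ) - H (α + n + 2) ≤ (H (α + n) : ℤ) - H (α + n + 1) := by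
  induction n with
  | zero =>
    have h1 := hmac α hα
    constructor
    · simp only [Nat.add_zero]
      omega
    · simp only [Nat.add_zero]
      omega
  | succ n ih =>
    have h0 : (H (α + (n + 1)) : ℤ) - H (α + (n + 1) + 1) ≤ α := by
      have := ih.1
      have := ih.2
      have e1 : α + (n + 1) = α + n + 1 := by ring
      have e2 : α + (n + 1) + 1 = α + n + 2 := by ring
      rw [e1]
      have e3 : α + n + 1 + 1 = α + n + 2 := by ring
      rw [e3]
      omega
    refine ⟨h0, ?_⟩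
    have h1 := hmac (α + (n + 1)) (by omega)
    have e3 : α + (n + 1) + 1 + 1 = α + (n + 1) + 2 := by ring
    omega

include hmac in
theorem seq_dec' {α : ℕ} (hα : H α ≤ H (α + 1) + α) {i j : ℕ} (hi : α ≤ i) (hij : i ≤ j) :
    (H j : ℤ) - H (j + 1) ≤ (H i : ℤ) - H (i + 1) := by
  induction j, hij using Nat.le_induction with
  | base => exact le_rfl
  | succ j hij ih =>
    have := (seq_dec hmac hα (j - α)).2
    have e : α + (j - α) = j := by omega
    rw [e] at this
    exact this.trans ih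

include hmac in
/-- Upper bound for the drop from `i` on. -/
theorem seq_upper {α : ℕ} (hα : H α ≤ H (α + 1) + α) {i : ℕ} (hi : α ≤ i) (n : ℕ) :
    (H i : ℤ) ≤ H (i + n) + n * ((H i : ℤ) - H (i + 1)) := by
  induction n with
  | zero => simp
  | succ n ih =>
    have h1 := seq_dec' hmac hα hi (Nat.le_add_right i n)
    have e : i + (n + 1) = i + n + 1 := by ring
    rw [e]
    push_cast
    linarith

include hmac in
/-- Lower bound for the drop from `i` to `i + n + 1`. -/
theorem seq_lower {α : ℕ} (hα : H α ≤ H (α + 1) + α) {i : ℕ} (hi : α ≤ i) (n : ℕ) :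
    (H (i + n + 1) : ℤ) + (n + 1) * ((H (i + n) : ℤ) - H (i + n + 1)) ≤ H i := by
  induction n with
  | zero => simp
  | succ n ih =>
    have h1 := seq_dec' hmac hα (hi.trans (Nat.le_add_right i n)) (Nat.le_succ (i + n))
    have e : i + (n + 1) = i + n + 1 := by ring
    rw [e]
    have e2 : (i + n).succ = i + n + 1 := rfl
    rw [e2] at h1
    have h2 : ((n : ℤ) + 1) * ((H (i + n + 1) : ℤ) - H (i + n + 1 + 1)) ≤
        (n + 1) * ((H (i + n) : ℤ) - H (i + n + 1)) :=
      mul_le_mul_of_nonneg_left h1 (by positivity)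
    push_cast
    nlinarith

include hanti hstep hmac in
/-- A bad step: `2 ≤ m ≤ ω`, `N < m ω` and `m N ≤ 2 ω ρ`. -/
theorem seq_bad {m ω : ℕ} (hω : H (ω + 1) = 0) (hpos : 0 < H m)
    (hbad : 2 * H 0 < 2 * H m + m * (m + 1)) :
    2 ≤ m ∧ m ≤ ω ∧ H 0 < m * ω ∧ m * H 0 ≤ 2 * ω * (H 0 - H m) := by
  classical
  -- `m ≤ ω`
  have hmω : m ≤ ω := by
    by_contra hcon
    have := seq_anti hanti (i := ω + 1) (j := m) (by omega)
    omega
  -- as long as the drops are maximal
  have htop : ∀ j, (∀ i < j, H (i + 1) + i < H i) → 2 * H 0 = 2 * H j + j * (j + 1) := by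
    intro j hj
    induction j with
    | zero => simp
    | succ j ih =>
      have h1 := ih fun i hi => hj i (by omega)
      have h2 := hj j (by omega)
      have h3 := hstep j
      have h4 : H j = H (j + 1) + (j + 1) := by omega
      rw [h1, h4]
      ring
  have hex : ∃ j, H j ≤ H (j + 1) + j ∧ j < m := by
    by_contra hcon
    push Not at hcon
    have := htop m fun i hi => by
      by_contra h
      have := hcon i (by omega)
      omega
    omega
  set α := Nat.find hex with hα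
  obtain ⟨h1, h2⟩ := Nat.find_spec hex
  rw [← hα] at h1 h2
  have h3 : 2 * H 0 = 2 * H α + α * (α + 1) := by
    refine htop α fun i hi => ?_
    have := Nat.find_min hex (m := i) (by rw [← hα]; exact hi)
    rw [not_and_or] at this
    rcases this with h | h
    · omega
    · omega
  -- `α ≥ 1`
  have hα1 : 1 ≤ α := by
    by_contra hcon
    have h0 : α = 0 := by omega
    have := seq_upper hmac h1 (i := α) le_rfl (ω + 1 - α)
    have e : α + (ω + 1 - α) = ω + 1 := by omega
    rw [e, hω, h0] at this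
    rw [h0] at h1
    have h5 : (H 0 : ℤ) - H (0 + 1) ≤ 0 := by
      have := hanti 0
      omega
    have h6 : ((ω + 1 - 0 : ℕ) : ℤ) * ((H 0 : ℤ) - H (0 + 1)) ≤ 0 :=
      mul_nonpos_of_nonneg_of_nonpos (by positivity) h5
    have h7 := seq_anti hanti (Nat.zero_le m)
    push_cast at this h6
    omega
  set δ : ℤ := (H (m - 1) : ℤ) - H m with hδ
  have em : m - 1 + 1 = m := by omega
  have hδα : δ ≤ (H α : ℤ) - H (α + 1) := by
    have := seq_dec' hmac h1 (i := α) (j := m - 1) le_rfl (by omega)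
    rw [em] at this
    exact this
  have hδα' : δ ≤ α := by
    have : (H α : ℤ) ≤ H (α + 1) + α := by exact_mod_cast h1
    linarith
  have hδ0 : 0 ≤ δ := by
    have := hanti (m - 1)
    rw [em] at this
    rw [hδ]
    have : (H m : ℤ) ≤ H (m - 1) := by exact_mod_cast this
    linarith
  -- (A1)
  have A1 : (H α : ℤ) ≤ (ω + 1 - α) * α := by
    have := seq_upper hmac h1 (i := α) le_rfl (ω + 1 - α)
    have e : α + (ω + 1 - α) = ω + 1 := by omega
    rw [e, hω] at this
    have h5 : ((ω + 1 - α : ℕ) : ℤ) = ω + 1 - α := by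
      push_cast [show α ≤ ω + 1 by omega]
      ring
    rw [h5] at this
    have h6 : (H α : ℤ) ≤ H (α + 1) + α := by exact_mod_cast h1
    have h7 : ((ω : ℤ) + 1 - α) * ((H α : ℤ) - H (α + 1)) ≤ (ω + 1 - α) * α :=
      mul_le_mul_of_nonneg_left (by linarith) (by omega)
    push_cast at this
    linarith
  -- (A2)
  have A2 : (H m : ℤ) ≤ (ω + 1 - m) * δ := by
    have := seq_upper hmac h1 (i := m) (by omega) (ω + 1 - m)
    have e : m + (ω + 1 - m) = ω + 1 := by omega
    rw [e, hω] at this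
    have h5 : ((ω + 1 - m : ℕ) : ℤ) = ω + 1 - m := by
      push_cast [show m ≤ ω + 1 by omega]
      ring
    rw [h5] at this
    have h6 := seq_dec' hmac h1 (i := m - 1) (j := m) (by omega) (by omega)
    rw [em] at h6
    have h7 : ((ω : ℤ) + 1 - m) * ((H m : ℤ) - H (m + 1)) ≤ (ω + 1 - m) * δ :=
      mul_le_mul_of_nonneg_left (by linarith) (by omega)
    push_cast at this
    linarith
  -- (A3)
  have A3 : (H m : ℤ) + (m - α) * δ ≤ H α := by
    have := seq_lower hmac h1 (i := α) le_rfl (m - 1 - α)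
    have e : α + (m - 1 - α) = m - 1 := by omega
    rw [e, em] at this
    have h5 : ((m - 1 - α : ℕ) : ℤ) + 1 = m - α := by
      push_cast [show α ≤ m - 1 by omega, show 1 ≤ m by omega]
      ring
    rw [h5] at this
    exact this
  have h3' : 2 * (H 0 : ℤ) = 2 * H α + α * (α + 1) := by exact_mod_cast h3
  have hαm : (α : ℤ) ≤ m - 1 := by omega
  have hmω' : (m : ℤ) ≤ ω := by exact_mod_cast hmω
  have hα1' : (1 : ℤ) ≤ α := by exact_mod_cast hα1
  refine ⟨by omega, hmω, ?_, ?_⟩
  · have : (H 0 : ℤ) < m * ω := by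
      have h8 : 2 * (H 0 : ℤ) ≤ 2 * (α * (ω + 1)) := by nlinarith
      have h9 : (α : ℤ) * (ω + 1) ≤ (m - 1) * (ω + 1) :=
        mul_le_mul_of_nonneg_right hαm (by positivity)
      nlinarith
    exact_mod_cast this
  · have h0m : H m ≤ H 0 := seq_anti hanti (Nat.zero_le m)
    have goal : (m : ℤ) * H 0 ≤ 2 * ω * ((H 0 : ℤ) - H m) := by
      set ρ : ℤ := (H 0 : ℤ) - H m with hρ
      have h10 : (α : ℤ) * (α + 1) + 2 * ((m - α) * δ) ≤ 2 * ρ := by
        rw [hρ]
        linarith
      have h11 : δ * (m + 2) ≤ (α : ℤ) * (α + 1) + 2 * ((m - α) * δ) := by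
        nlinarith [mul_nonneg hδ0 (show (0 : ℤ) ≤ m - 1 - δ by linarith),
          sq_nonneg ((α : ℤ) - δ)]
      have h12 : δ * (m + 2) ≤ 2 * ρ := h11.trans h10
      have h13 : (2 * (ω : ℤ) - m) * (δ * (m + 2)) ≤ (2 * ω - m) * (2 * ρ) :=
        mul_le_mul_of_nonneg_left h12 (by linarith)
      have h14 : 2 * m * ((ω + 1 - m) * δ) ≤ (2 * (ω : ℤ) - m) * (δ * (m + 2)) := by
        have : (2 * (ω : ℤ) - m) * (δ * (m + 2)) - 2 * m * ((ω + 1 - m) * δ) =
            δ * (4 * (ω - m) + m ^ 2) := by ring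
        have h15 : 0 ≤ δ * (4 * ((ω : ℤ) - m) + m ^ 2) :=
          mul_nonneg hδ0 (by nlinarith)
        linarith
      have h16 : (m : ℤ) * H m ≤ m * ((ω + 1 - m) * δ) :=
        mul_le_mul_of_nonneg_left A2 (by positivity)
      have h17 : (H 0 : ℤ) = ρ + H m := by rw [hρ]; ring
      rw [h17]
      nlinarith
    have : ((m * H 0 : ℕ) : ℤ) ≤ ((2 * ω * (H 0 - H m) : ℕ) : ℤ) := by
      push_cast [h0m]
      exact goal
    exact_mod_cast this

end

end ShghJ
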