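import Pool.Agent.ShghJ.Defs

/-!
# Statements of the algebraic modules of the package ShghJ, with proofs in the docstrings

Notation: `K` a field, `V` a finite-dimensional space of polynomials in two variables over `K`,
`p` a point, `V_j = fil V p j` the members of `V` with multiplicity `≥ j` at `p`. We use
`ShghE.tfShift a b f = f(x + a, y + b)` and `ShghE.tf_mem_iff`: `f ∈ pt a b ^ m` if and only if the
coefficients of degree `< m` of `tfShift a b f` vanish (`ShghT.pt a b` unfolds to the ideal there).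
-/

namespace ShghJ

open MvPolynomial

universe u v w

/-- The exponent `(i, j)`. -/
noncomputable def ex (i j : ℕ) : Fin 2 →₀ ℕ := Finsupp.single 0 i + Finsupp.single 1 j

/-- The leading form of degree `j` at `p`: coefficient of `x ^ i y ^ (j - i)`. -/
noncomputable def lead {K : Type u} [Field K] (p : Fin 2 → K) (j : ℕ) (f : MvPolynomial (Fin 2) K)
    (i : ℕ) : K := (ShghE.tfShift (p 0) (p 1) f).coeff (ex i (j - i))

open Classical in
/-- The degrees in `x` of the leading forms of degree `j` at `p` of the members of `V_j`. -/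
noncomputable def degSet {K : Type u} [Field K] (V : Submodule K (MvPolynomial (Fin 2) K))
    (p : Fin 2 → K) (j : ℕ) : Finset ℕ :=
  (Finset.range (j + 1)).filter fun i => ∃ f ∈ fil V p j, lead p j f i ≠ 0 ∧
    ∀ i', i < i' → i' ≤ j → lead p j f i' = 0

/-- BASE. At points with different `x`-coordinates the conditions are independent if
`Σ μ_i ≤ d + 1`.
PROOF. `≥` is `ShghT.le_finrank_LS`. For `≤` use induction on `s` (`Fin.consInduction` or write
`μ = Fin.cons m μ'`, `P = Fin.cons p P'`); the inductive step is: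
`finrank (LS d (cons m μ') (cons p P')) + (m + 1).choose 2 ≤ finrank (LS d μ' P')` if
`m + Σ μ'_i ≤ d + 1`. For `m = 0` it is clear. Let `m ≥ 1`, `G = Π_i (X 0 - C (P' i 0)) ^ μ'_i`, of
total degree `≤ Σ μ'_i ≤ d + 1 - m`, `eval p G ≠ 0`. `U = {G g : totalDegree g ≤ m - 1}` is contained
in `LS d μ' P'`, has dimension `(m + 1).choose 2` (multiplication by `G` is injective; dimension of the
polynomials of degree `≤ m - 1`: it is `LS (m - 1) (0 points)`, `ShghT.semib_finrank`/
`ShghT.le_finrank_LS` with `s = 0`, only `≥` is needed). `U ⊓ LS d (cons m μ') (cons p P') = ⊥`: if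
`G g ∈ I ^ m`, `I = pt (p 0) (p 1)` (a maximal ideal, or directly: `G - C (eval p G) ∈ I`, so
`(C (eval p G)) ^ m ∈ span {G} + I ^ m` (e.g. `IsCoprime` and `IsCoprime.pow_right` of the ideals
`span {G}` and `I`, which are coprime as `C (eval p G)` is a unit), hence `g ∈ span {G g} + I ^ m`),
then `g ∈ I ^ m`; now `tfShift g` has degree `≤ m - 1` and no coefficient of degree `< m`, so `g = 0`.
Both subspaces lie in `LS d μ' P'`: `Submodule.finrank_sup_add_finrank_inf_eq`. -/
def S_Base : Prop := ∀ (K : Type u) [Field K] (s d : ℕ) (μ : Fin s → ℕ) (P : Fin s → Fin 2 → K),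
  (∀ i j, i ≠ j → P i 0 ≠ P j 0) → ∑ i, μ i ≤ d + 1 →
  Module.finrank K (ShghT.LS d μ P) + ∑ i, (μ i + 1).choose 2 = (d + 2).choose 2

/-- MONO. PROOF. `V'_j ⊓ V_(j+1) = V'_(j+1)` and `V'_j ⊔ V_(j+1) ≤ V_j`, so
`Submodule.finrank_sup_add_finrank_inf_eq` (inside `V_j` or in the finite-dimensional submodules; all
are submodules of the finite-dimensional `V`). -/
def S_Mono : Prop := ∀ (K : Type u) [Field K] (V V' : Submodule K (MvPolynomial (Fin 2) K))
  (p : Fin 2 → K) (j : ℕ), Module.Finite K V → V' ≤ V →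
  Module.finrank K (fil V' p j) + Module.finrank K (fil V p (j + 1)) ≤
    Module.finrank K (fil V' p (j + 1)) + Module.finrank K (fil V p j)

/-- CNT: `dim V_j - dim V_(j+1) = card (degSet V p j)`.
PROOF. For `t ≤ j + 1` let `V_(j,t) = {f ∈ V_j : lead p j f i = 0 for all t ≤ i ≤ j}`. `V_(j,j+1) = V_j`
and `V_(j,0) = V_(j+1)` (the exponents of degree `j` are the `ex i (j - i)`, `i ≤ j`; tf_mem_iff).
`V_(j,t)` is the kernel of the linear functional `f ↦ lead p j f t` on `V_(j,t+1)`, which is zero
iff `t ∉ degSet V p j`, so `finrank V_(j,t+1) = finrank V_(j,t) + (if t ∈ degSet then 1 else 0)`.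
Sum over `t`. -/
def S_Cnt : Prop := ∀ (K : Type u) [Field K] (V : Submodule K (MvPolynomial (Fin 2) K))
  (p : Fin 2 → K) (j : ℕ), Module.Finite K V →
  Module.finrank K (fil V p j) = Module.finrank K (fil V p (j + 1)) + (degSet V p j).card

/-- DC: the coefficientwise derivation and translations.
PROOF. `Dc D` satisfies the Leibniz rule: (`coeff_mul`, `Derivation.leibniz`), `Dc D (C c) = C (D c)`,
`Dc D (X i) = 0`. The map `f ↦ Dc D (tfShift a b f) - C (D a) * pderiv 0 (tfShift a b f) -
C (D b) * pderiv 1 (tfShift a b f) - tfShift a b (Dc D f)` is additive and vanishes on constants, and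
if it vanishes at `f` then at `f * X i` (`MvPolynomial.induction_on`), because both sides satisfy the
Leibniz rule over `tfShift a b`, `tfShift a b (X 0) = X 0 + C a`, and `Dc D (X 0 + C a) -
C (D a) * pderiv 0 (X 0 + C a) = 0`. -/
def S_Dc : Prop := ∀ (K : Type u) [Field K] (D : Derivation ℤ K K) (a b : K)
  (f : MvPolynomial (Fin 2) K),
  ShghE.tfShift a b (Dc D f) = Dc D (ShghE.tfShift a b f) -
    C (D a) * pderiv 0 (ShghE.tfShift a b f) - C (D b) * pderiv 1 (ShghE.tfShift a b f)

/-- MAC: Macaulay's inequality for a family closed under the two derivations.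
PROOF. If `j + 1 > d` then `V_(j+1) = ⊥` (`tfShift f` has degree `≤ d` and no coefficients of degree
`≤ d`). Let `j + 1 ≤ d`. By `S_Dc` (with `D c (p c') = δ_cc'`) for `f ∈ V_(j+1)`: `Dc (D 0) f ∈ V_j` and
`lead p j (Dc (D 0) f) i = - (i + 1) lead p (j+1) f (i + 1)`, `Dc (D 1) f ∈ V_j` and
`lead p j (Dc (D 1) f) i = - (j + 1 - i) lead p (j+1) f i` for `i ≤ j` (the coefficients of degree
`≤ j` of `tfShift f` vanish, so those of `Dc D (tfShift f)` too: `coeff_Dc`; coefficients of
`pderiv`: `MvPolynomial.coeff_pderiv` or similar). Hence, as the integers `1, ..., d` are not zero in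
`K`: `i ∈ degSet V p (j+1)`, `1 ≤ i` implies `i - 1 ∈ degSet V p j`; and `i ∈ degSet V p (j+1)`,
`i ≤ j` implies `i ∈ degSet V p j`. By `S_Cnt` the hypothesis says `card (degSet V p j) ≤ j`, so there
is `g ≤ j`, `g ∉ degSet V p j`. Then `g, g + 1 ∉ degSet V p (j+1)`, and `i ↦ i` (`i < g`),
`i ↦ i - 1` (`i > g + 1`) is an injection of `degSet V p (j+1)` to `degSet V p j`. -/
def S_Mac : Prop := ∀ (K : Type u) [Field K] (D : Fin 2 → Derivation ℤ K K) (p : Fin 2 → K)
  (V : Submodule K (MvPolynomial (Fin 2) K)) (d j : ℕ), Module.Finite K V →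
  (∀ c c', D c (p c') = if c = c' then 1 else 0) → (∀ f ∈ V, f.totalDegree ≤ d) →
  (∀ c, ∀ f ∈ V, Dc (D c) f ∈ V) → (∀ n : ℕ, 1 ≤ n → n ≤ d → (n : K) ≠ 0) →
  Module.finrank K (fil V p j) ≤ Module.finrank K (fil V p (j + 1)) + j →
  2 * Module.finrank K (fil V p (j + 1)) ≤
    Module.finrank K (fil V p (j + 2)) + Module.finrank K (fil V p j)

/-- CLO: `LS d μ P` is closed under `Dc D` if `D` kills the coordinates of the points.
PROOF. `totalDegree (Dc D f) ≤ totalDegree f` as the support does not grow (`coeff_Dc`). For the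
point `(a, b)` with `D a = D b = 0`: `tfShift a b (Dc D f) = Dc D (tfShift a b f)` by `S_Dc`, now
`ShghE.tf_mem_iff` and `coeff_Dc`. -/
def S_Clo : Prop := ∀ (K : Type u) [Field K] (D : Derivation ℤ K K) (s d : ℕ) (μ : Fin s → ℕ)
  (P : Fin s → Fin 2 → K), (∀ i c, D (P i c) = 0) → ∀ f ∈ ShghT.LS d μ P, Dc D f ∈ ShghT.LS d μ P

/-- DER. PROOF. `R = MvPolynomial (ℕ × Fin 2) F`, `K = UF F`. `pderiv (i, c)` is a derivation of `R`.
The ring homomorphism `R → TrivSqZeroExt K K`, `r ↦ inl r + inr (pderiv r)` (or use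
`derivationToSquareZeroEquivLift`, or write down `r ↦ (r, D r)`) sends nonzero elements to units
(`TrivSqZeroExt.isUnit_iff_isUnit_fst`), so it extends to `K` (`IsLocalization.lift`), and the second
component of the extension is the derivation (its first component is the identity by uniqueness:
`IsLocalization.ringHom_ext`). -/
def S_Der : Prop := ∀ (F : Type u) [Field F] (i : ℕ) (c : Fin 2),
  ∃ D : Derivation ℤ (UF F) (UF F), ∀ (i' : ℕ) (c' : Fin 2),
    D (up F i' c') = if i' = i ∧ c' = c then 1 else 0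

/-- INV: the dimension depends only on the multiset of the multiplicities.
PROOF. The `up F i c`, `i < s`, are algebraically independent over `F`, also along every injection
`Fin s → ℕ` of indices (`MvPolynomial.algebraicIndependent_X` and injectivity of
`R → FractionRing R`). By `ShghT.finrank_LS_le` in both directions
`finrank K (LS d μ P) = finrank (UF F) (LS d μ Q)`, `Q i = up F (e i)` for every injection `e`. With
`l = (Finset.univ.val.map μ).toList`, of length `s`, there is a bijection `σ : Fin l.length ≃ Fin s`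
with `l.get i = μ (σ i)` (both lists `l` and `List.ofFn μ` are permutations of each other), and
`ShghT.LS_comp` (`Pool.Agent.ShghT.Final`; or copy its 5-line proof): `LS d (μ ∘ σ) (Q ∘ σ) = LS d μ Q`,
`Q i = up F (σ.symm i)`. -/
def S_Inv : Prop := ∀ (F : Type u) (K : Type v) [Field F] [Field K] [Algebra F K] (s d : ℕ)
  (μ : Fin s → ℕ) (P : Fin s → Fin 2 → K),
  AlgebraicIndependent F (fun ij : Fin s × Fin 2 => P ij.1 ij.2) →
  Module.finrank K (ShghT.LS d μ P) = hF F d (Finset.univ.val.map μ)

end ShghJ
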