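import Pool.Agent.ShghJ.Spec

/-!
# The statement of the collision lemma (Lemma C, helper21)
-/

namespace ShghJ

open MvPolynomial

universe u

/-- The field `K(c)((t))`. -/
abbrev CF (K : Type u) [Field K] : Type u := LaurentSeries (RatFunc K)

/-- The embedding of `K`. -/
noncomputable def cEmb (K : Type u) [Field K] : K →+* CF K :=
  (HahnSeries.C : RatFunc K →+* CF K).comp (RatFunc.C : K →+* RatFunc K)

/-- The element `c`. -/
noncomputable def cC (K : Type u) [Field K] : CF K := (HahnSeries.C : RatFunc K →+* CF K) RatFunc.X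

/-- The element `t`. -/
noncomputable def cT (K : Type u) [Field K] : CF K := HahnSeries.single (1 : ℤ) (1 : RatFunc K)

/-- LEMMA C. `V = LS d μ P` over `K`, `p` a point which is generic over the field of the `P i`
(derivations `D`), `Q = p + t (1, c)` over `K(c)((t))`. If over `K(c)((t))` there is a nonzero
polynomial of degree `≤ d` with multiplicities `μ i` at `P i`, `m` at `p` and `w` at `Q`, and if
`Δ_a ≤ a` and no member of `V` has multiplicity `o + 1` at `p`, then `m + w + 1 ≤ o + a`. -/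
def S_Col : Prop := ∀ (K : Type u) [Field K] (D : Fin 2 → Derivation ℤ K K) (p : Fin 2 → K)
  (s d : ℕ) (μ : Fin s → ℕ) (P : Fin s → Fin 2 → K) (m w a o : ℕ),
  (∀ c c', D c (p c') = if c = c' then 1 else 0) → (∀ c i c', D c (P i c') = 0) →
  (∀ n : ℕ, 1 ≤ n → n ≤ d → (n : K) ≠ 0) →
  (∃ f : MvPolynomial (Fin 2) (CF K), f ≠ 0 ∧
    f ∈ ShghT.LS d μ (fun i c => cEmb K (P i c)) ∧
    f ∈ ShghT.pt (cEmb K (p 0)) (cEmb K (p 1)) ^ m ∧
    f ∈ ShghT.pt (cEmb K (p 0) + cT K) (cEmb K (p 1) + cT K * cC K) ^ w) →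
  Module.finrank K (fil (ShghT.LS d μ P) p a) ≤
    Module.finrank K (fil (ShghT.LS d μ P) p (a + 1)) + a →
  fil (ShghT.LS d μ P) p (o + 1) = ⊥ →
  m + w + 1 ≤ o + a

end ShghJ
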